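import Mathlib

set_option autoImplicit false

namespace Pool.Agent.H5.Folner

open Finset
open scoped BigOperators

/-- average over a finite index type -/
noncomputable def av {ι : Type} [Fintype ι] (f : ι → ℝ) : ℝ := 𝔼 i, f i

section basic
variable {ι κ : Type} [Fintype ι] [Fintype κ]

lemma av_mono {f g : ι → ℝ} (h : ∀ i, f i ≤ g i) : av f ≤ av g :=
  Finset.expect_le_expect (fun i _ => h i)

lemma av_const [Nonempty ι] (a : ℝ) : av (fun _ : ι => a) = a := Fintype.expect_const a

lemma av_le [Nonempty ι] {f : ι → ℝ} {a : ℝ} (h : ∀ i, f i ≤ a) : av f ≤ a :=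
  (av_mono h).trans (av_const a).le

lemma le_av [Nonempty ι] {f : ι → ℝ} {a : ℝ} (h : ∀ i, a ≤ f i) : a ≤ av f :=
  (av_const a).ge.trans (av_mono h)

lemma av_add (f g : ι → ℝ) : av (fun i => f i + g i) = av f + av g :=
  Finset.expect_add_distrib _ _ _

lemma av_sub (f g : ι → ℝ) : av (fun i => f i - g i) = av f - av g :=
  Finset.expect_sub_distrib _ _ _

lemma av_mul (a : ℝ) (f : ι → ℝ) : av (fun i => a * f i) = a * av f :=
  (Finset.mul_expect _ _ _).symm

lemma av_mul' (a : ℝ) (f : ι → ℝ) : av (fun i => f i * a) = av f * a :=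
  (Finset.expect_mul _ _ _).symm

lemma av_comm (f : ι → κ → ℝ) :
    av (fun i => av (fun k => f i k)) = av (fun k => av (fun i => f i k)) :=
  Finset.expect_comm _ _ _

lemma av_prod (f : ι × κ → ℝ) : av f = av (fun i => av (fun k => f (i, k))) := by
  unfold av
  rw [← Finset.univ_product_univ, Finset.expect_product]

lemma av_abs_le [Nonempty ι] {f : ι → ℝ} {a : ℝ} (h : ∀ i, |f i| ≤ a) : |av f| ≤ a := by
  rw [abs_le]
  exact ⟨le_av (fun i => (abs_le.1 (h i)).1), av_le (fun i => (abs_le.1 (h i)).2)⟩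

lemma av_eq (f : ι → ℝ) : av f = (∑ i, f i) / Fintype.card ι :=
  Fintype.expect_eq_sum_div_card f

lemma av_sq (f : ι → ℝ) : av f ^ 2 = av (fun i => av (fun k => f i * f k)) := by
  simp only [av_mul]
  rw [av_mul', sq]

lemma av_diag [Nonempty ι] [DecidableEq ι] (k : ι) (c : ℝ) :
    av (fun l : ι => (if k = l then (1 : ℝ) else 0) + c) = 1 / Fintype.card ι + c := by
  rw [av_add, av_const, av_eq]
  simp

end basic

theorem folner {V : Type} [AddCommGroup V] (S : Finset V) (κ : ℝ) (hκ : 0 < κ) :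
    ∃ (ι : Type) (_ : Fintype ι) (_ : Nonempty ι) (w : ι → V), ∀ s ∈ S, ∀ f : V → ℝ,
      (∀ x, |f x| ≤ 1) → |av (fun i => f (w i + s)) - av (fun i => f (w i))| ≤ κ := by
  classical
  induction S using Finset.induction_on with
  | empty => exact ⟨Unit, inferInstance, inferInstance, fun _ => 0, by simp⟩
  | insert a S _ ih =>
    obtain ⟨ι, _, _, w, hw⟩ := ih
    obtain ⟨N, hN⟩ := exists_nat_gt (2 / κ)
    have hN0 : (0 : ℝ) < N := lt_trans (by positivity) hN
    have hN1 : 0 < N := by exact_mod_cast hN0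
    haveI : Nonempty (Fin N) := ⟨⟨0, hN1⟩⟩
    refine ⟨ι × Fin N, inferInstance, inferInstance, fun p => w p.1 + (p.2 : ℕ) • a, ?_⟩
    intro s hs f hf
    rw [av_prod, av_prod]
    rcases Finset.mem_insert.1 hs with rfl | hs
    · rw [← av_sub]
      apply av_abs_le
      intro i
      rw [← av_sub, av_eq]
      have h1 : ∑ n : Fin N, (f (w i + (n : ℕ) • s + s) - f (w i + (n : ℕ) • s))
          = f (w i + N • s) - f (w i + 0 • s) := by
        rw [← Finset.sum_range_sub (fun n => f (w i + n • s)) N,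
          ← Fin.sum_univ_eq_sum_range (fun n => f (w i + (n + 1) • s) - f (w i + n • s)) N]
        apply Finset.sum_congr rfl
        intro n _
        rw [succ_nsmul, add_assoc]
      rw [h1, Fintype.card_fin, abs_div, abs_of_pos hN0, div_le_iff₀ hN0]
      have h2 : |f (w i + N • s) - f (w i + 0 • s)| ≤ 2 := by
        have := abs_sub (f (w i + N • s)) (f (w i + 0 • s))
        linarith [hf (w i + N • s), hf (w i + 0 • s)]
      rw [div_lt_iff₀ hκ] at hN
      linarith
    · rw [av_comm (fun (i : ι) (n : Fin N) => f (w i + (n : ℕ) • a + s)),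
        av_comm (fun (i : ι) (n : Fin N) => f (w i + (n : ℕ) • a)), ← av_sub]
      apply av_abs_le
      intro n
      have := hw s hs (fun x => f (x + (n : ℕ) • a)) (fun x => hf _)
      simpa only [add_right_comm] using this

end Pool.Agent.H5.Folner
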