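import Mathlib

/-! The simplex attached to a systematic binary matrix. -/

set_option autoImplicit false

namespace Pool.Agent.H5.BCHGeo

open Finset Pointwise

variable {a b : ℕ} (A : Fin a → Fin b → ℤ)

def vx : Option (Fin (a + b)) → Fin (a + b) → ℤ
  | none => fun _ => 0
  | some p => fun q => Fin.addCases (motive := fun _ => ℤ)
      (fun i => Fin.addCases (motive := fun _ => ℤ) (fun i' => if i = i' then 2 else 0)
        (fun j => - A i j) q)
      (fun j => Fin.addCases (motive := fun _ => ℤ) (fun _ => 0)
        (fun j' => if j = j' then 1 else 0) q) p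

noncomputable def L (p : Fin (a + b)) (x : Fin (a + b) → ℝ) : ℝ :=
  Fin.addCases (motive := fun _ => ℝ) (fun i => x (Fin.castAdd b i) / 2)
    (fun j => x (Fin.natAdd a j) + ∑ i, (A i j : ℝ) * x (Fin.castAdd b i) / 2) p

noncomputable def vr (p : Option (Fin (a + b))) : Fin (a + b) → ℝ := fun q => (vx A p q : ℝ)

theorem L_lin (p : Fin (a + b)) : IsLinearMap ℝ (L A p) := by
  constructor
  · intro x y
    induction p using Fin.addCases with
    | left i => simp [L]; ring
    | right j =>
      simp only [L, Fin.addCases_right, Pi.add_apply, mul_add, add_div, sum_add_distrib]; ring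
  · intro c x
    induction p using Fin.addCases with
    | left i => simp [L]; ring
    | right j =>
      simp only [L, Fin.addCases_right, Pi.smul_apply, smul_eq_mul, mul_add, mul_sum]
      congr 1
      exact sum_congr rfl fun i _ => by ring

theorem L_cont (p : Fin (a + b)) : Continuous (L A p) := by
  induction p using Fin.addCases with
  | left i =>
    have : L A (Fin.castAdd b i) = fun x => x (Fin.castAdd b i) / 2 := by
      funext x; simp [L]
    rw [this]; fun_prop
  | right j =>
    have : L A (Fin.natAdd a j) = fun x => x (Fin.natAdd a j) +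
        ∑ i, (A i j : ℝ) * x (Fin.castAdd b i) / 2 := by
      funext x; simp [L]
    rw [this]; fun_prop

theorem L_vr (p p' : Fin (a + b)) : L A p (vr A (some p')) = if p = p' then 1 else 0 := by
  induction p using Fin.addCases with
  | left i =>
    induction p' using Fin.addCases with
    | left i' =>
      by_cases h : i = i'
      · subst h; simp [L, vr, vx]
      · have h' : ¬ i' = i := fun e => h e.symm
        simp [L, vr, vx, h, h']
    | right j' =>
      have : Fin.castAdd b i ≠ Fin.natAdd a j' := by
        intro e; have := congrArg Fin.val e; simp at this; omega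
      simp [L, vr, vx, this]
  | right j =>
    induction p' using Fin.addCases with
    | left i' =>
      have : Fin.natAdd a j ≠ Fin.castAdd b i' := by
        intro e; have := congrArg Fin.val e; simp at this; omega
      simp only [L, vr, vx, Fin.addCases_right, Fin.addCases_left, this, if_false]
      rw [sum_eq_single i']
      · simp
      · intro i _ hi
        have h' : ¬ i' = i := fun e => hi e.symm
        simp [h']
      · simp
    | right j' =>
      by_cases h : j = j'
      · subst h; simp [L, vr, vx]
      · have h' : ¬ j' = j := fun e => h e.symm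
        simp [L, vr, vx, h, h']

theorem L_none (p : Fin (a + b)) : L A p (vr A none) = 0 := by
  have : vr A none = 0 := by funext q; simp [vr, vx]
  rw [this]; exact (L_lin A p).map_zero

theorem recon (x : Fin (a + b) → ℝ) : ∑ p, L A p x • vr A (some p) = x := by
  funext q
  rw [Finset.sum_apply, Fin.sum_univ_add]
  induction q using Fin.addCases with
  | left i =>
    simp [L, vr, vx]
  | right j =>
    simp only [L, vr, vx, Fin.addCases_left, Fin.addCases_right, Pi.smul_apply, smul_eq_mul]
    rw [sum_eq_single j (s := (univ : Finset (Fin b)))]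
    · simp only [if_true]
      push_cast
      rw [mul_one, add_comm, add_assoc, ← sum_add_distrib]
      rw [sum_eq_zero]
      · simp
      · intro i _; ring
    · intro j' _ h; simp [h]
    · simp

noncomputable def P : Set (Fin (a + b) → ℝ) := convexHull ℝ (Set.range (vr A))

theorem P_le (f : (Fin (a + b) → ℝ) → ℝ) (hf : IsLinearMap ℝ f) (c : ℝ)
    (h : ∀ p, f (vr A p) ≤ c) : ∀ x ∈ P A, f x ≤ c := by
  intro x hx
  have : P A ⊆ {x | f x ≤ c} := convexHull_min (by rintro _ ⟨p, rfl⟩; exact h p)
    (convex_halfSpace_le hf c)
  exact this hx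

theorem int_lt {n : ℕ} (K : Set (Fin n → ℝ)) (f : (Fin n → ℝ) → ℝ) (hf : IsLinearMap ℝ f) (c : ℝ)
    (u : Fin n → ℝ) (hu : 0 < f u) (h : ∀ y ∈ K, f y ≤ c) (x : Fin n → ℝ) (hx : x ∈ interior K) :
    f x < c := by
  have h1 : ∀ᶠ t : ℝ in nhds 0, x + t • u ∈ K := by
    have hc : ContinuousAt (fun t : ℝ => x + t • u) 0 := by fun_prop
    have : K ∈ nhds (x + (0 : ℝ) • u) := by simpa using mem_interior_iff_mem_nhds.1 hx
    exact hc this
  have h2 : ∀ᶠ t : ℝ in nhdsWithin 0 (Set.Ioi 0), x + t • u ∈ K ∧ 0 < t :=
    (h1.filter_mono nhdsWithin_le_nhds).and self_mem_nhdsWithin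
  obtain ⟨t, ht, ht0⟩ := h2.exists
  have := h _ ht
  rw [hf.map_add, hf.map_smul, smul_eq_mul] at this
  nlinarith [mul_pos ht0 hu]

theorem sumL_lin : IsLinearMap ℝ (fun x => ∑ p, L A p x) := by
  constructor
  · intro x y; simp only [(L_lin A _).map_add, sum_add_distrib]
  · intro c x; simp only [(L_lin A _).map_smul, smul_eq_mul, mul_sum]

theorem mem_int (hab : 0 < a + b) (k : ℝ) (hk : 0 < k) (x : Fin (a + b) → ℝ) :
    x ∈ interior (k • P A) ↔ (∀ p, 0 < L A p x) ∧ ∑ p, L A p x < k := by
  constructor
  · intro hx
    constructor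
    · intro p
      have hl : IsLinearMap ℝ (fun y => - L A p y) := by
        constructor
        · intro x y; rw [(L_lin A p).map_add]; ring
        · intro c x; rw [(L_lin A p).map_smul]; simp
      have := int_lt (k • P A) (fun y => - L A p y) hl 0 (-vr A (some p))
        (by simp [(L_lin A p).map_neg, L_vr]) ?_ x hx
      · simpa using this
      · rintro _ ⟨y, hy, rfl⟩
        have := P_le A _ hl 0 (by
          intro q; cases q with
          | none => simp [L_none]
          | some q => simp only [L_vr]; split_ifs <;> simp) y hy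
        simp only [(L_lin A p).map_smul, smul_eq_mul] at this ⊢
        nlinarith
    · refine int_lt (k • P A) _ (sumL_lin A) k (vr A (some ⟨0, hab⟩)) (by simp [L_vr]) ?_ x hx
      rintro _ ⟨y, hy, rfl⟩
      have := P_le A _ (sumL_lin A) 1 (by
          intro q; cases q with
          | none => simp [L_none]
          | some q => simp [L_vr]) y hy
      simp only [(L_lin A _).map_smul, smul_eq_mul, ← mul_sum] at this ⊢
      nlinarith
  · intro hx
    have ho : IsOpen {x : Fin (a + b) → ℝ | (∀ p, 0 < L A p x) ∧ ∑ p, L A p x < k} := by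
      refine IsOpen.inter ?_ (isOpen_lt (continuous_finsetSum _ fun p _ => L_cont A p)
        continuous_const)
      have : {x : Fin (a + b) → ℝ | ∀ p, 0 < L A p x} = ⋂ p, {x | 0 < L A p x} := by
        ext x; simp
      change IsOpen {x : Fin (a + b) → ℝ | ∀ p, 0 < L A p x}
      rw [this]
      exact isOpen_iInter_of_finite fun p => isOpen_lt continuous_const (L_cont A p)
    refine interior_maximal ?_ ho hx
    rintro y ⟨h1, h2⟩
    refine ⟨k⁻¹ • y, ?_, by simp [smul_smul, hk.ne']⟩
    let w : Option (Fin (a + b)) → ℝ := fun p => p.elim (1 - ∑ p, L A p y / k) fun p => L A p y / k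
    have : k⁻¹ • y = ∑ p, w p • vr A p := by
      rw [Fintype.sum_option]
      have h0 : vr A none = 0 := by funext q; simp [vr, vx]
      rw [h0, smul_zero, zero_add]
      conv_lhs => rw [← recon A y]
      rw [smul_sum]
      refine sum_congr rfl fun p _ => ?_
      simp [w, smul_smul, div_eq_inv_mul]
    rw [this]
    refine (convex_convexHull ℝ _).sum_mem ?_ ?_ ?_
    · intro p _
      cases p with
      | none =>
        simp only [w, Option.elim, ← sum_div]
        rw [sub_nonneg, div_le_one hk]; exact h2.le
      | some p => exact div_nonneg (h1 p).le hk.le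
    · rw [Fintype.sum_option]; simp [w]
    · intro p _; exact subset_convexHull _ _ ⟨p, rfl⟩

/-- parity relation for an integer affine function on the vertices -/
theorem par (α : Fin (a + b) → ℤ) (β : ℤ) (i : Fin a) :
    (∑ q, α q * vx A (some (Fin.castAdd b i)) q + β) +
      ∑ j, A i j * (∑ q, α q * vx A (some (Fin.natAdd a j)) q + β) =
      2 * α (Fin.castAdd b i) + (1 + ∑ j, A i j) * β := by
  simp only [Fin.sum_univ_add, vx, Fin.addCases_left, Fin.addCases_right]
  simp only [mul_ite, mul_zero, mul_one, sum_ite_eq, mem_univ, if_true, sum_const_zero, zero_add,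
    mul_add, sum_add_distrib, add_mul, sum_mul, mul_neg, sum_neg_distrib]
  have : ∑ j, α (Fin.natAdd a j) * A i j = ∑ j, A i j * α (Fin.natAdd a j) :=
    sum_congr rfl fun j _ => mul_comm _ _
  rw [this]; ring

end Pool.Agent.H5.BCHGeo
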