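import Mathlib

set_option autoImplicit false

namespace Pool.Agent.H5.BTensor

/-- A real tensor of order `k+1` and dimension `n`. -/
abbrev Tensor (k n : ℕ) : Type := (Fin (k + 1) → Fin n) → ℝ

/-- entries are unchanged under every permutation of the indices -/
def IsSymm {k n : ℕ} (B : Tensor k n) : Prop :=
  ∀ (σ : Equiv.Perm (Fin (k + 1))) (i : Fin (k + 1) → Fin n), B (i ∘ σ) = B i

/-- the sum of the `i`-th row -/
def rowSum {k n : ℕ} (B : Tensor k n) (i : Fin n) : ℝ :=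
  ∑ j : Fin k → Fin n, B (Fin.cons i j)

/-- the `B₀` condition -/
def IsB0 {k n : ℕ} (B : Tensor k n) : Prop :=
  ∀ i : Fin n, 0 ≤ rowSum B i ∧
    ∀ j : Fin k → Fin n, j ≠ (fun _ => i) → B (Fin.cons i j) ≤ rowSum B i / (n : ℝ) ^ k

/-- `lam` is an H-eigenvalue: it has a nonzero real eigenvector -/
def IsHEigenvalue {k n : ℕ} (B : Tensor k n) (lam : ℝ) : Prop :=
  ∃ x : Fin n → ℝ, x ≠ 0 ∧
    ∀ i : Fin n, ∑ j : Fin k → Fin n, B (Fin.cons i j) * ∏ t, x (j t) = lam * x i ^ k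

end Pool.Agent.H5.BTensor
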