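import Mathlib

open scoped ENNReal

namespace Pool.Agent.H5.CAS

section
variable {X D : Type}

/-- discrete hypergroup: `c a b` is the probability measure `δ_a * δ_b` -/
def Hypergroup (c : D → D → PMF D) (e : D) (bar : D → D) : Prop :=
  (∀ a b, (c a b).support.Finite) ∧
    (∀ a b d, (c a b).bind (fun l => c l d) = (c b d).bind (fun l => c a l)) ∧
    (∀ a, c a e = PMF.pure a ∧ c e a = PMF.pure a) ∧ (∀ a, bar (bar a) = a) ∧
    (∀ a b, e ∈ (c a b).support ↔ b = bar a) ∧ ∀ a b, (c a b).map bar = c (bar b) (bar a)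

/-- the adjoint relation (4) for a positive Radon measure with full support and weights `ω` -/
def Adjoint (K : D → X → PMF X) (bar : D → D) (ω : X → ℝ≥0∞) : Prop :=
  (∀ x, ω x ≠ 0 ∧ ω x ≠ ∞) ∧ ∀ h x y, ω x * K (bar h) x y = ω y * K h y x

/-- discrete continuous association scheme with partition map `π` -/
def IsCAS (K : D → X → PMF X) (π : X → X → D) (c : D → D → PMF D) (e : D) (bar : D → D) : Prop :=
  (∀ h x, (K h x).support.Finite) ∧ (∀ h x y, y ∈ (K h x).support ↔ π x y = h) ∧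
    Hypergroup c e bar ∧ (∀ a b x, (K a x).bind (K b) = (c a b).bind fun h => K h x) ∧
    (∀ x, K e x = PMF.pure x) ∧ ∃ ω, Adjoint K bar ω

/-- property (T1) -/
def T1 (K : D → X → PMF X) (π : X → X → D) (c : D → D → PMF D) : Prop :=
  ∀ h x y, (K h y).map (π x) = c (π x y) h

open Classical in
/-- property (T2), weakened: the weights `η` on `D` are arbitrary (not required to be a left Haar
measure), so (T2) implies `WeakT2` -/
def WeakT2 (K : D → X → PMF X) (π : X → X → D) (bar : D → D) : Prop :=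
  ∃ (ω : X → ℝ≥0∞) (η : D → ℝ≥0∞), Adjoint K bar ω ∧
    ∀ h x y, K h x y * η h = if π x y = h then ω y else 0

end

abbrev Y : Type := ℤ × ℕ

def p (x y : Y) : Y :=
  (y.1 - x.1, (y.2 >>> (y.1 - x.1).toNat) ^^^ (x.2 >>> (x.1 - y.1).toNat))

def thr (M : ℤ) (a : ℕ) (j : ℤ) : ℕ := (a <<< (j - M).toNat) >>> (M - j).toNat

theorem thr_shift (M : ℤ) (a : ℕ) (i j : ℤ) :
    thr M a j >>> (j - i).toNat = thr M a i >>> (i - j).toNat := by
  refine Nat.eq_of_testBit_eq fun k => ?_
  simp only [thr, Nat.testBit_shiftRight, Nat.testBit_shiftLeft]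
  congr 1
  · simp only [decide_eq_decide]; omega
  · congr 1; omega

def aut (d M : ℤ) (a : ℕ) : Y ≃ Y where
  toFun x := (x.1 + d, x.2 ^^^ thr M a x.1)
  invFun x := (x.1 - d, x.2 ^^^ thr M a (x.1 - d))
  left_inv x := by simp
  right_inv x := by simp

theorem aut_p (d M : ℤ) (a : ℕ) (x y : Y) : p (aut d M a x) (aut d M a y) = p x y := by
  simp only [p, aut, Equiv.coe_fn_mk, add_sub_add_right_eq_sub, Nat.shiftRight_xor_distrib,
    thr_shift M a x.1 y.1, Prod.mk.injEq, true_and]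
  refine Nat.eq_of_testBit_eq fun k => ?_
  simp only [Nat.testBit_xor]
  grind

theorem hom {x y x' y' : Y} (h : p x y = p x' y') :
    ∃ g : Y ≃ Y, (∀ a b, p (g a) (g b) = p a b) ∧ g x = x' ∧ g y = y' := by
  obtain ⟨n, s⟩ := x
  obtain ⟨m, t⟩ := y
  obtain ⟨n', s'⟩ := x'
  obtain ⟨m', t'⟩ := y'
  simp only [p, Prod.mk.injEq] at h
  obtain ⟨h1, h2⟩ := h
  rw [← h1, show n' - m' = n - m by omega] at h2
  have h3 := fun k => congrArg (fun z => Nat.testBit z k) h2
  simp only [Nat.testBit_xor] at h3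
  rcases le_total n m with hl | hl
  · refine ⟨aut (n' - n) m (t ^^^ t'), aut_p _ _ _, ?_, ?_⟩
    · simp only [aut, Equiv.coe_fn_mk, thr, Prod.mk.injEq]
      refine ⟨by omega, Nat.eq_of_testBit_eq fun k => ?_⟩
      have := h3 k
      rw [show (n - m).toNat = 0 by omega] at this ⊢
      simp only [Nat.shiftRight_zero, Nat.shiftLeft_zero, Nat.shiftRight_xor_distrib,
        Nat.testBit_xor] at this ⊢
      grind
    · simp only [aut, Equiv.coe_fn_mk, thr, Prod.mk.injEq]
      exact ⟨by omega, by simp⟩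
  · refine ⟨aut (n' - n) n (s ^^^ s'), aut_p _ _ _, ?_, ?_⟩
    · simp only [aut, Equiv.coe_fn_mk, thr, Prod.mk.injEq]
      exact ⟨by omega, by simp⟩
    · simp only [aut, Equiv.coe_fn_mk, thr, Prod.mk.injEq]
      refine ⟨by omega, Nat.eq_of_testBit_eq fun k => ?_⟩
      have := h3 k
      rw [show (m - n).toNat = 0 by omega] at this ⊢
      simp only [Nat.shiftRight_zero, Nat.shiftLeft_zero, Nat.shiftRight_xor_distrib,
        Nat.testBit_xor] at this ⊢
      grind

def fib (h x : Y) : Finset Y :=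
  (Finset.Ico ((h.2 ^^^ (x.2 >>> (-h.1).toNat)) * 2 ^ h.1.toNat)
    (((h.2 ^^^ (x.2 >>> (-h.1).toNat)) + 1) * 2 ^ h.1.toNat)).map
      ⟨fun s => (x.1 + h.1, s), fun _ _ h => (Prod.mk.inj h).2⟩

theorem card_fib (h x : Y) : (fib h x).card = 2 ^ h.1.toNat := by
  simp [fib, add_mul]

theorem mem_fib (h x y : Y) : y ∈ fib h x ↔ p x y = h := by
  obtain ⟨n, s⟩ := x
  obtain ⟨m, t⟩ := y
  obtain ⟨k, u⟩ := h
  simp only [fib, p, Finset.mem_map, Finset.mem_Ico, Function.Embedding.coeFn_mk, Prod.mk.injEq]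
  have key : ∀ w, (w * 2 ^ k.toNat ≤ t ∧ t < (w + 1) * 2 ^ k.toNat) ↔ t >>> k.toNat = w := by
    intro w
    rw [Nat.shiftRight_eq_div_pow, Nat.div_eq_iff (by positivity), add_mul]
    have : 0 < 2 ^ k.toNat := by positivity
    omega
  constructor
  · rintro ⟨a, ha, h1, rfl⟩
    refine ⟨by omega, ?_⟩
    rw [show m - n = k by omega, show n - m = -k by omega, (key _).1 ha]
    simp
  · rintro ⟨h1, h2⟩
    refine ⟨t, (key _).2 ?_, by omega, rfl⟩
    rw [show m - n = k by omega, show n - m = -k by omega] at h2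
    rw [← h2]
    simp

noncomputable def K (h x : Y) : PMF Y :=
  PMF.uniformOfFinset (fib h x) (Finset.card_pos.1 (by rw [card_fib]; positivity))

noncomputable def v (h : Y) : ℝ≥0∞ := (2 ^ h.1.toNat)⁻¹

theorem K_apply (h x y : Y) : K h x y = if p x y = h then v h else 0 := by
  simp [K, PMF.uniformOfFinset_apply, mem_fib, card_fib, v]

theorem K_supp (h x y : Y) : y ∈ (K h x).support ↔ p x y = h := by
  rw [K, PMF.mem_support_uniformOfFinset_iff, mem_fib]

def o : Y := (0, 0)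

def r (h : Y) : Y := (h.1, h.2 <<< h.1.toNat)

theorem p_r (h : Y) : p o (r h) = h := by simp [p, o, r]

theorem p_eq_o {x y : Y} : p x y = o ↔ y = x := by
  constructor
  · intro h
    simp only [p, o, Prod.mk.injEq] at h
    obtain ⟨h1, h2⟩ := h
    have h3 : y.1 = x.1 := by omega
    rw [h3] at h2
    exact Prod.ext h3 (by simpa using h2)
  · rintro rfl; simp [p, o]

noncomputable def c (a b : Y) : PMF Y := (K b (r a)).map (p o)

def bar (h : Y) : Y := p (r h) o

theorem bar_p (x y : Y) : bar (p x y) = p y x := by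
  obtain ⟨g, hg, h1, h2⟩ := hom (p_r (p x y))
  rw [bar, ← hg, h1, h2]

theorem bar_bar (h : Y) : bar (bar h) = h := by
  rw [bar.eq_1 h, bar_p, p_r]

theorem t1 : T1 K p c := by
  intro h x y
  obtain ⟨g, hg, h1, h2⟩ := hom (p_r (p x y))
  ext l
  rw [c, PMF.map_apply, PMF.map_apply, ← g.tsum_eq]
  refine tsum_congr fun z => ?_
  rw [K_apply, K_apply, ← hg o z, ← hg (r _) z, h1, h2]

theorem bind_congr {α β : Type} {q : PMF α} {f g : α → PMF β} (h : ∀ a ∈ q.support, f a = g a) :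
    q.bind f = q.bind g := by
  ext b
  rw [PMF.bind_apply, PMF.bind_apply]
  refine tsum_congr fun a => ?_
  by_cases ha : a ∈ q.support
  · rw [h a ha]
  · rw [(PMF.apply_eq_zero_iff _ _).2 ha, zero_mul, zero_mul]

theorem bind_K (q : PMF Y) (x z : Y) : (q.bind fun h => K h x) z = q (p x z) * v (p x z) := by
  rw [PMF.bind_apply, tsum_eq_single (p x z), K_apply, if_pos rfl]
  intro h hh
  rw [K_apply, if_neg hh.symm, mul_zero]

theorem prod (a b x : Y) : (K a x).bind (K b) = (c a b).bind fun h => K h x := by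
  have h1 : ((K a x).bind (K b)).map (p x) = c a b := by
    rw [PMF.map_bind, bind_congr (g := fun _ => c a b), PMF.bind_const]
    intro y hy
    rw [t1, (K_supp _ _ _).1 hy]
  ext z
  rw [bind_K, ← h1, PMF.map_apply, ← ENNReal.tsum_mul_right,
    ← mul_one ((K a x).bind (K b) z), ← (K (p x z) x).tsum_coe, ← ENNReal.tsum_mul_left]
  refine tsum_congr fun z' => ?_
  rw [K_apply]
  by_cases h : p x z' = p x z
  · rw [if_pos h, if_pos h.symm]
    congr 1
    obtain ⟨g, hg, h2, h3⟩ := hom h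
    rw [PMF.bind_apply, PMF.bind_apply, ← g.tsum_eq]
    refine tsum_congr fun y => ?_
    rw [K_apply, K_apply, K_apply, K_apply, ← hg x y, ← hg y z', h2, h3]
  · rw [if_neg h, if_neg (Ne.symm h), mul_zero, zero_mul]

theorem K_map (h x : Y) : (K h x).map (p x) = PMF.pure h := by
  rw [← PMF.bind_pure_comp, bind_congr (g := fun _ => PMF.pure h), PMF.bind_const]
  intro y hy
  rw [Function.comp, (K_supp _ _ _).1 hy]

theorem inj {q q' : PMF Y} (h : (q.bind fun h => K h o) = q'.bind fun h => K h o) : q = q' := by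
  have := congrArg (PMF.map (p o)) h
  simpa only [PMF.map_bind, K_map, PMF.bind_pure] using this

theorem K_o (x : Y) : K o x = PMF.pure x := by
  ext y
  rw [K_apply, PMF.pure_apply]
  simp only [p_eq_o]
  simp [v, o]

noncomputable def ω (x : Y) : ℝ≥0∞ := 2 ^ (-x.1)

theorem ω_ne (x : Y) : ω x ≠ 0 ∧ ω x ≠ ∞ :=
  ⟨(ENNReal.zpow_pos (by simp) (by simp) _).ne', ENNReal.zpow_ne_top (by simp) (by simp) _⟩

theorem ω_v (x y : Y) : ω x * v (p x y) = ω y * v (p y x) := by
  simp only [ω, v, p]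
  rw [← zpow_natCast, ← zpow_natCast, ← ENNReal.zpow_neg, ← ENNReal.zpow_neg (2 : ℝ≥0∞) (_ : ℕ),
    ← ENNReal.zpow_add (by simp) (by simp), ← ENNReal.zpow_add (by simp) (by simp)]
  congr 1
  omega

theorem adj : Adjoint K bar ω := by
  refine ⟨ω_ne, fun h x y => ?_⟩
  rw [K_apply, K_apply]
  by_cases hh : p y x = h
  · subst hh
    rw [bar_p, if_pos rfl, if_pos rfl, ω_v]
  · rw [if_neg hh, if_neg, mul_zero, mul_zero]
    intro h1
    exact hh (by rw [← bar_p, h1, bar_bar])

theorem c_bar (a b h : Y) : c a b h = c (bar b) (bar a) (bar h) := by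
  have h1 : ω o * (K a o).bind (K b) (r h) = ω (r h) * (K (bar b) (r h)).bind (K (bar a)) o := by
    rw [PMF.bind_apply, PMF.bind_apply, ← ENNReal.tsum_mul_left, ← ENNReal.tsum_mul_left]
    refine tsum_congr fun y => ?_
    have a1 := adj.2 (bar a) o y
    have a2 := adj.2 b (r h) y
    rw [bar_bar] at a1
    rw [← mul_assoc, a1, ← mul_assoc, a2]
    ring
  have a3 := ω_v o (r h)
  rw [prod, prod, bind_K, bind_K, mul_left_comm, mul_left_comm (ω (r h)), a3, p_r] at h1
  refine (ENNReal.mul_left_inj (mul_ne_zero (ω_ne _).1 ?_) (ENNReal.mul_ne_top (ω_ne _).2 ?_)).1 h1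
  · simp [v]
  · simp [v]

theorem isCAS : IsCAS K p c o bar := by
  have hf : ∀ h x, (K h x).support.Finite := fun h x => by
    rw [K, PMF.support_uniformOfFinset]; exact Finset.finite_toSet _
  refine ⟨hf, K_supp, ⟨fun a b => ?_, fun a b d => inj ?_, fun a => ⟨?_, ?_⟩, bar_bar,
    fun a b => ?_, fun a b => ?_⟩, prod, K_o, ω, adj⟩
  · rw [c, PMF.support_map]; exact (hf _ _).image _
  · rw [PMF.bind_bind, PMF.bind_bind]
    simp only [← prod]
    rw [← PMF.bind_bind, ← prod, PMF.bind_bind]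
    simp only [prod b d]
    rw [PMF.bind_comm]
  · rw [c, K_o, PMF.pure_map, p_r]
  · exact K_map a o
  · rw [c, PMF.mem_support_map_iff]
    simp only [K_supp, p_eq_o, exists_eq_right]
    exact eq_comm
  · ext l
    rw [PMF.map_apply, tsum_eq_single (bar l), bar_bar, if_pos rfl, c_bar, bar_bar]
    intro h hh
    rw [if_neg]
    rintro rfl
    exact hh (bar_bar h).symm

theorem not_T2 {K' : Y → Y → PMF Y} {c' : Y → Y → PMF Y} {e' : Y} {bar' : Y → Y}
    (h : IsCAS K' p c' e' bar') : ¬ WeakT2 K' p bar' := by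
  rintro ⟨ω', η, ⟨hω, ha⟩, h2⟩
  obtain ⟨-, hs, -, -, he, -⟩ := h
  have h3 : ∀ x, η e' = ω' x := fun x => by
    have := h2 e' x x
    rwa [he, PMF.pure_apply_self, one_mul, if_pos ((hs _ _ _).1 (by simp [he]))] at this
  have h4 : K' (-1, 0) (1, 0) o = 1 := by
    rw [PMF.apply_eq_one_iff]
    ext y
    rw [hs, ← mem_fib]
    simp [fib, o]
  have h5 := ha (-1, 0) o (1, 0)
  rw [h4, ← h3 (1, 0), h3 o, ENNReal.mul_right_inj (hω o).1 (hω o).2] at h5
  have h6 := (hs _ _ _).1 ((PMF.mem_support_iff _ _).2 (h5.trans_ne one_ne_zero))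
  have h7 : ((1, 1) : Y) ∈ (K' (bar' (-1, 0)) o).support := by
    rw [hs, ← h6]; decide
  rw [(PMF.apply_eq_one_iff _ _).1 h5] at h7
  simp at h7

end Pool.Agent.H5.CAS
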