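import Mathlib

set_option autoImplicit false

namespace Pool.Agent.H5.CFG

variable {T N : Type}

/-- semantic yield of a string of symbols -/
def Y (Sem : N → List T → Prop) : List (Symbol T N) → List T → Prop
  | [], w => w = []
  | Symbol.terminal a :: s, w => ∃ w', w = a :: w' ∧ Y Sem s w'
  | Symbol.nonterminal n :: s, w => ∃ u w', w = u ++ w' ∧ Sem n u ∧ Y Sem s w'

theorem Y_append (Sem : N → List T → Prop) (s t : List (Symbol T N)) (w : List T) :
    Y Sem (s ++ t) w ↔ ∃ u v, w = u ++ v ∧ Y Sem s u ∧ Y Sem t v := by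
  induction s generalizing w with
  | nil => simp [Y]
  | cons x s ih =>
    cases x with
    | terminal a =>
      simp only [List.cons_append, Y, ih]
      constructor
      · rintro ⟨w', rfl, u, v, rfl, h1, h2⟩
        exact ⟨a :: u, v, rfl, ⟨u, rfl, h1⟩, h2⟩
      · rintro ⟨u, v, rfl, ⟨u', rfl, h1⟩, h2⟩
        exact ⟨u' ++ v, rfl, u', v, rfl, h1, h2⟩
    | nonterminal n =>
      simp only [List.cons_append, Y, ih]
      constructor
      · rintro ⟨x, w', rfl, hx, u, v, rfl, h1, h2⟩
        exact ⟨x ++ u, v, by simp, ⟨x, u, rfl, hx, h1⟩, h2⟩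
      · rintro ⟨u, v, rfl, ⟨x, u', rfl, hx, h1⟩, h2⟩
        exact ⟨x, u' ++ v, by simp, hx, u', v, rfl, h1, h2⟩

theorem Y_terminal (Sem : N → List T → Prop) (w : List T) : Y Sem (w.map Symbol.terminal) w := by
  induction w with
  | nil => simp [Y]
  | cons a w ih => exact ⟨w, rfl, ih⟩

theorem sound (g : ContextFreeGrammar T) (Sem : g.NT → List T → Prop)
    (h : ∀ r ∈ g.rules, ∀ w, Y Sem r.output w → Sem r.input w)
    {u v : List (Symbol T g.NT)} (huv : g.Derives u v) (w : List T) (hw : Y Sem v w) :
    Y Sem u w := by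
  induction huv with
  | refl => exact hw
  | tail _ hp ih =>
    apply ih
    obtain ⟨r, hr, hrw⟩ := hp
    obtain ⟨p, q, rfl, rfl⟩ := hrw.exists_parts
    rw [Y_append] at hw ⊢
    obtain ⟨a, b, rfl, h1, h2⟩ := hw
    refine ⟨a, b, rfl, ?_, h2⟩
    rw [Y_append] at h1 ⊢
    obtain ⟨c, d, rfl, h3, h4⟩ := h1
    exact ⟨c, d, rfl, h3, d, [], by simp, h r hr d h4, rfl⟩

def Der (g : ContextFreeGrammar T) (n : g.NT) (w : List T) : Prop :=
  g.Derives [Symbol.nonterminal n] (w.map Symbol.terminal)

theorem derives_of_Y (g : ContextFreeGrammar T) (s : List (Symbol T g.NT)) (w : List T)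
    (h : Y (Der g) s w) : g.Derives s (w.map Symbol.terminal) := by
  induction s generalizing w with
  | nil =>
    have : w = [] := h
    subst this
    exact ContextFreeGrammar.Derives.refl _
  | cons x s ih =>
    cases x with
    | terminal a =>
      obtain ⟨w', rfl, h'⟩ := h
      exact (ih w' h').append_left [Symbol.terminal a]
    | nonterminal n =>
      obtain ⟨u, w', rfl, h1, h2⟩ := h
      rw [List.map_append]
      exact (ContextFreeGrammar.Derives.append_right h1 s).trans ((ih w' h2).append_left _)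

theorem der_of_rule (g : ContextFreeGrammar T) (r : ContextFreeRule T g.NT) (hr : r ∈ g.rules)
    (w : List T) (h : Y (Der g) r.output w) : Der g r.input w :=
  ContextFreeGrammar.Produces.trans_derives ⟨r, hr, ContextFreeRule.Rewrites.input_output⟩
    (derives_of_Y g _ w h)

theorem language_eq (g : ContextFreeGrammar T) (Sem : g.NT → List T → Prop)
    (h : ∀ r ∈ g.rules, ∀ w, Y Sem r.output w → Sem r.input w)
    (hc : ∀ w, Sem g.initial w → Der g g.initial w) (w : List T) :
    w ∈ g.language ↔ Sem g.initial w := by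
  refine ⟨fun hw => ?_, hc w⟩
  obtain ⟨u, w', rfl, h1, h2⟩ := sound g Sem h hw w (Y_terminal Sem w)
  have : w' = [] := h2
  subst this
  simpa using h1

end Pool.Agent.H5.CFG
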