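import Mathlib

set_option autoImplicit false

namespace Pool.Agent.H5.Canon

open Filter

theorem exists_perm {S D : Type} [Countable S] [Infinite S] [Finite D] (u v : S → D)
    (h : ∀ d, {s | u s = d}.Infinite ↔ {s | v s = d}.Infinite) :
    ∃ σ : Equiv.Perm S, ∀ᶠ s in cofinite, v (σ s) = u s := by
  classical
  obtain ⟨d0, hd0⟩ := Finite.exists_infinite_fiber u
  have hd0' : {s | u s = d0}.Infinite := Set.infinite_coe_iff.1 hd0
  have key : ∀ w : S → D, ∃ w' : S → D, (∀ᶠ s in cofinite, w' s = w s) ∧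
      (∀ d, {s | w s = d}.Infinite → {s | w' s = d}.Infinite) ∧
      (∀ d, d ≠ d0 → ¬ {s | w s = d}.Infinite → ∀ s, w' s ≠ d) := by
    intro w
    refine ⟨fun s => if {t | w t = w s}.Infinite then w s else d0, ?_, ?_, ?_⟩
    · rw [eventually_cofinite]
      have : (⋃ d : {d : D // ¬ {t | w t = d}.Infinite}, {t | w t = d.1}).Finite :=
        Set.finite_iUnion fun d => Set.not_infinite.1 d.2
      refine this.subset ?_
      intro s hs
      simp only [Set.mem_iUnion]
      by_cases hi : {t | w t = w s}.Infinite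
      · exact absurd (if_pos hi) hs
      · exact ⟨⟨w s, hi⟩, rfl⟩
    · intro d hd
      refine hd.mono ?_
      intro s hs
      have hs' : w s = d := hs
      have : {t | w t = w s}.Infinite := by rw [hs']; exact hd
      change (if _ then _ else _) = d
      rw [if_pos this, hs']
    · intro d hd hi s hs
      by_cases hj : {t | w t = w s}.Infinite
      · have h1 : w s = d := by simpa only [if_pos hj] using hs
        exact hi (h1 ▸ hj)
      · have h1 : d0 = d := by simpa only [if_neg hj] using hs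
        exact hd h1.symm
  obtain ⟨u', hu1, hu2, hu3⟩ := key u
  obtain ⟨v', hv1, hv2, hv3⟩ := key v
  have he : ∀ d, Nonempty ({s // u' s = d} ≃ {s // v' s = d}) := by
    intro d
    by_cases hd : {s | u s = d}.Infinite
    · have h1 : Infinite {s // u' s = d} := Set.infinite_coe_iff.2 (hu2 d hd)
      have h2 : Infinite {s // v' s = d} := Set.infinite_coe_iff.2 (hv2 d ((h d).1 hd))
      exact nonempty_equiv_of_countable
    · have hne : d ≠ d0 := fun e => hd (e ▸ hd0')
      have h1 : IsEmpty {s // u' s = d} := ⟨fun s => hu3 d hne hd s.1 s.2⟩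
      have h2 : IsEmpty {s // v' s = d} :=
        ⟨fun s => hv3 d hne (fun hh => hd ((h d).2 hh)) s.1 s.2⟩
      exact ⟨Equiv.equivOfIsEmpty _ _⟩
  let σ : S ≃ S := Equiv.ofFiberEquiv (fun d => (he d).some)
  have hσ : ∀ s, v' (σ s) = u' s := Equiv.ofFiberEquiv_map _
  refine ⟨σ, ?_⟩
  have h3 : ∀ᶠ s in cofinite, v' (σ s) = v (σ s) :=
    σ.injective.tendsto_cofinite.eventually hv1
  filter_upwards [h3, hu1] with s h4 h5
  rw [← h4, hσ, h5]

/-- permutation of germs induced by a permutation of the index set -/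
def germPerm {S : Type} (C : Type) (σ : Equiv.Perm S) :
    Equiv.Perm (Germ (cofinite : Filter S) C) where
  toFun y := y.compTendsto σ σ.injective.tendsto_cofinite
  invFun y := y.compTendsto σ.symm σ.symm.injective.tendsto_cofinite
  left_inv y := by
    induction y using Germ.inductionOn with
    | h u =>
      simp only [Germ.coe_compTendsto]
      congr 1
      funext s
      simp
  right_inv y := by
    induction y using Germ.inductionOn with
    | h u =>
      simp only [Germ.coe_compTendsto]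
      congr 1
      funext s
      simp

theorem germPerm_coe {S C : Type} (σ : Equiv.Perm S) (u : S → C) :
    germPerm C σ (u : Germ cofinite C) = ((u ∘ σ : S → C) : Germ cofinite C) := rfl

theorem inf_congr {S : Type} {A B : Set S} (h : ∀ᶠ s in cofinite, s ∈ A ↔ s ∈ B) :
    A.Infinite ↔ B.Infinite := by
  rw [← frequently_cofinite_mem_iff_infinite, ← frequently_cofinite_mem_iff_infinite]
  exact frequently_congr h

theorem univ (X : Type) [Countable X] [Nonempty X] (n : ℕ) (κ : Type) [Finite κ]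
    (χ : (Fin (n + 1) → X) → κ) :
    ∃ (Y : Type) (H : Subgroup (Equiv.Perm Y)) (f : X → Y),
      (∀ m, Finite (MulAction.orbitRel.Quotient H (Fin m → Y))) ∧
      ∀ (a b : Fin (n + 1) → X) (β : H), (∀ i, f (a i) = β.1 (f (b i))) → χ a = χ b := by
  classical
  let S := (Fin (n + 1) → X) × ℕ
  let C := Set (Fin (n + 1)) × κ
  let Y := Germ (cofinite : Filter S) C
  let R : κ → (Fin (n + 1) → Y) → Prop := fun j y =>
    ∃ u : Fin (n + 1) → S → C, (∀ i, y i = (u i : Y)) ∧
      {s | ∀ i, i ∈ (u i s).1 ∧ (u i s).2 = j}.Infinite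
  have hR : ∀ j (u : Fin (n + 1) → S → C), R j (fun i => (u i : Y)) ↔
      {s | ∀ i, i ∈ (u i s).1 ∧ (u i s).2 = j}.Infinite := by
    intro j u
    refine ⟨?_, fun h => ⟨u, fun _ => rfl, h⟩⟩
    rintro ⟨v, hv, h⟩
    refine (inf_congr ?_).2 h
    have : ∀ᶠ s in cofinite, ∀ i, u i s = v i s :=
      eventually_all.2 fun i => Germ.coe_eq.1 (hv i)
    filter_upwards [this] with s hs
    simp only [hs]
  let H : Subgroup (Equiv.Perm Y) :=
    { carrier := {β | ∀ j y, R j (fun i => β (y i)) ↔ R j y}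
      one_mem' := fun j y => Iff.rfl
      mul_mem' := fun {β γ} hβ hγ j y => (hβ j (fun i => γ (y i))).trans (hγ j y)
      inv_mem' := fun {β} hβ j y => by
        have := hβ j (fun i => β⁻¹ (y i))
        simp only [Equiv.Perm.coe_inv, Equiv.apply_symm_apply] at this
        exact this.symm }
  have hrep : ∀ {m : ℕ} (y : Fin m → Y), ∃ u : Fin m → S → C, y = fun i => (u i : Y) := by
    intro m y
    have : ∀ i, ∃ u : S → C, y i = (u : Y) := fun i => by
      induction y i using Germ.inductionOn with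
      | h u => exact ⟨u, rfl⟩
    choose u hu using this
    exact ⟨u, funext hu⟩
  have hσH : ∀ σ : Equiv.Perm S, germPerm C σ ∈ H := by
    intro σ j y
    obtain ⟨u, rfl⟩ := hrep y
    refine (hR j (fun i => u i ∘ σ)).trans (Iff.trans ?_ (hR j u).symm)
    have h1 : {s | ∀ i, i ∈ ((u i ∘ σ) s).1 ∧ ((u i ∘ σ) s).2 = j}
        = σ.symm '' {s | ∀ i, i ∈ (u i s).1 ∧ (u i s).2 = j} := by
      rw [Equiv.image_symm_eq_preimage]
      rfl
    rw [h1, Set.infinite_image_iff σ.symm.injective.injOn]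
  refine ⟨Y, H, fun x => ((fun s : S => (({i | s.1 i = x}, χ s.1) : C)) : Y), ?_, ?_⟩
  · intro m
    choose U hU using fun y : Fin m → Y => hrep y
    let Φ : MulAction.orbitRel.Quotient H (Fin m → Y) → Set (Fin m → C) :=
      fun q => {d | {s | (fun i => U q.out i s) = d}.Infinite}
    refine Finite.of_injective Φ ?_
    intro q q' hq
    obtain ⟨σ, hσ⟩ := exists_perm (fun s i => U q.out i s) (fun s i => U q'.out i s)
      (fun d => Set.ext_iff.1 hq d)
    rw [← q.out_eq, ← q'.out_eq]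
    apply Quotient.sound
    refine ⟨⟨germPerm C σ, hσH σ⟩, ?_⟩
    funext i
    change germPerm C σ (q'.out i) = q.out i
    rw [congrFun (hU q'.out) i, congrFun (hU q.out) i, germPerm_coe]
    apply Germ.coe_eq.2
    filter_upwards [hσ] with s hs
    exact congrFun hs i
  · intro a b β hab
    have h1 : ∀ (j : κ) (c : Fin (n + 1) → X),
        R j (fun i => ((fun s : S => (({k | s.1 k = c i}, χ s.1) : C)) : Y)) ↔ χ c = j := by
      intro j c
      rw [hR j (fun i s => (({k | s.1 k = c i}, χ s.1) : C))]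
      constructor
      · intro h
        obtain ⟨s, hs⟩ := h.nonempty
        have h2 : s.1 = c := funext fun i => (hs i).1
        rw [← h2]
        exact (hs 0).2
      · intro h
        refine Set.infinite_of_injective_forall_mem (f := fun k : ℕ => ((c, k) : S)) ?_ ?_
        · intro k l hkl
          exact congrArg Prod.snd hkl
        · intro k i
          exact ⟨rfl, h⟩
    have h2 := (β.2 (χ b) _).2 ((h1 (χ b) b).2 rfl)
    apply (h1 (χ b) a).1
    simp only [hab]
    exact h2

theorem shrink {Y : Type} (H : Subgroup (Equiv.Perm Y))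
    (hH : ∀ m, Finite (MulAction.orbitRel.Quotient H (Fin m → Y))) (Y0 : Set Y)
    (h0 : Y0.Countable) :
    ∃ (Z : Set Y) (H' : Subgroup (Equiv.Perm Z)), Y0 ⊆ Z ∧ Z.Countable ∧
      (∀ m, Finite (MulAction.orbitRel.Quotient H' (Fin m → Z))) ∧
      ∀ β' : H', ∃ β : H, ∀ y : Z, (β'.1 y : Y) = β.1 y := by
  classical
  have hρ : ∀ (m : ℕ) (a b : Fin m → Y), ∃ ρ : H,
      (∃ β : H, ∀ i, β.1 (a i) = b i) → ∀ i, ρ.1 (a i) = b i := by
    intro m a b
    by_cases h : ∃ β : H, ∀ i, β.1 (a i) = b i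
    · obtain ⟨β, hβ⟩ := h
      exact ⟨β, fun _ => hβ⟩
    · exact ⟨1, fun h' => absurd h' h⟩
  choose ρ hρ using hρ
  let step : Set Y → Set Y := fun T => T ∪ ⋃ m : ℕ,
    (Set.range (fun p : (Fin m → T) × (Fin m → T) × T =>
      (ρ m (fun i => p.1 i) (fun i => p.2.1 i)).1 p.2.2) ∪
    Set.range (fun p : (Fin m → T) × (Fin m → T) × T =>
      (ρ m (fun i => p.1 i) (fun i => p.2.1 i)).1.symm p.2.2))
  let W : ℕ → Set Y := fun k => step^[k] Y0
  have hW : ∀ k, W (k + 1) = step (W k) := fun k => Function.iterate_succ_apply' _ _ _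
  have hWc : ∀ k, (W k).Countable := by
    intro k
    induction k with
    | zero => exact h0
    | succ k ih =>
      rw [hW]
      have := ih.to_subtype
      exact ih.union (Set.countable_iUnion fun m =>
        (Set.countable_range _).union (Set.countable_range _))
  have hmono : Monotone W := monotone_nat_of_le_succ fun k => by
    rw [hW]
    exact Set.subset_union_left
  let Z : Set Y := ⋃ k, W k
  have hcl : ∀ (m : ℕ) (a b : Fin m → Z) (y : Y), y ∈ Z →
      (ρ m (fun i => a i) (fun i => b i)).1 y ∈ Z ∧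
      (ρ m (fun i => a i) (fun i => b i)).1.symm y ∈ Z := by
    intro m a b y hy
    have hev : ∀ z ∈ Z, ∀ᶠ k in atTop, z ∈ W k := by
      intro z hz
      obtain ⟨k, hk⟩ := Set.mem_iUnion.1 hz
      filter_upwards [eventually_ge_atTop k] with l hl using hmono hl hk
    obtain ⟨k, hk1, hk2, hk3⟩ := ((eventually_all.2 fun i => hev _ (a i).2).and
      ((eventually_all.2 fun i => hev _ (b i).2).and (hev y hy))).exists
    refine ⟨Set.mem_iUnion.2 ⟨k + 1, ?_⟩, Set.mem_iUnion.2 ⟨k + 1, ?_⟩⟩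
    · rw [hW]
      exact Or.inr (Set.mem_iUnion.2 ⟨m, Or.inl
        ⟨(fun i => ⟨a i, hk1 i⟩, fun i => ⟨b i, hk2 i⟩, ⟨y, hk3⟩), rfl⟩⟩)
    · rw [hW]
      exact Or.inr (Set.mem_iUnion.2 ⟨m, Or.inr
        ⟨(fun i => ⟨a i, hk1 i⟩, fun i => ⟨b i, hk2 i⟩, ⟨y, hk3⟩), rfl⟩⟩)
  let H' : Subgroup (Equiv.Perm Z) :=
    { carrier := {β' | ∃ β : H, ∀ y : Z, (β' y : Y) = β.1 y}
      one_mem' := ⟨1, fun _ => rfl⟩
      mul_mem' := by
        rintro β' γ' ⟨β, hβ⟩ ⟨γ, hγ⟩
        refine ⟨β * γ, fun y => ?_⟩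
        change (β' (γ' y) : Y) = β.1 (γ.1 y)
        rw [hβ, hγ]
      inv_mem' := by
        rintro β' ⟨β, hβ⟩
        refine ⟨β⁻¹, fun y => ?_⟩
        change (β'.symm y : Y) = β.1.symm y
        rw [Equiv.eq_symm_apply, ← hβ, Equiv.apply_symm_apply] }
  refine ⟨Z, H', Set.subset_iUnion W 0, Set.countable_iUnion hWc, ?_, fun β' => β'.2⟩
  intro m
  have := hH m
  let Φ : MulAction.orbitRel.Quotient H' (Fin m → Z) → MulAction.orbitRel.Quotient H (Fin m → Y) :=
    fun q => Quotient.mk _ (fun i => (q.out i : Y))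
  refine Finite.of_injective Φ ?_
  intro q q' hq
  obtain ⟨β, hβ⟩ := Quotient.exact hq
  have h1 := hρ m (fun i => (q'.out i : Y)) (fun i => (q.out i : Y)) ⟨β, fun i => congrFun hβ i⟩
  let τ : Equiv.Perm Z := Equiv.Perm.subtypePerm
    (ρ m (fun i => (q'.out i : Y)) (fun i => (q.out i : Y))).1 (fun y =>
      ⟨fun h => by simpa using (hcl m q'.out q.out _ h).2, fun h => (hcl m q'.out q.out y h).1⟩)
  rw [← q.out_eq, ← q'.out_eq]
  apply Quotient.sound
  refine ⟨⟨τ, ⟨_, fun _ => rfl⟩⟩, ?_⟩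
  funext i
  exact Subtype.ext (h1 i)

theorem univ' (X : Type) [Countable X] [Nonempty X] (n : ℕ) (κ : Type) [Finite κ]
    (χ : (Fin (n + 1) → X) → κ) :
    ∃ (Y : Type) (_ : Countable Y) (H : Subgroup (Equiv.Perm Y)) (f : X → Y),
      (∀ m, Finite (MulAction.orbitRel.Quotient H (Fin m → Y))) ∧
      ∀ (a b : Fin (n + 1) → X) (β : H), (∀ i, f (a i) = β.1 (f (b i))) → χ a = χ b := by
  obtain ⟨Y, H, f, h1, h2⟩ := univ X n κ χ
  obtain ⟨Z, H', h3, h4, h5, h6⟩ := shrink H h1 (Set.range f) (Set.countable_range f)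
  refine ⟨Z, h4.to_subtype, H', fun x => ⟨f x, h3 ⟨x, rfl⟩⟩, h5, ?_⟩
  intro a b β' hab
  obtain ⟨β, hβ⟩ := h6 β'
  refine h2 a b β fun i => ?_
  have := congrArg Subtype.val (hab i)
  rw [hβ] at this
  exact this

end Pool.Agent.H5.Canon
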