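import Mathlib

set_option autoImplicit false

open MeasureTheory Finset Function
open scoped ENNReal

namespace Pool.Agent.H5.Cap

variable {ι : Type} [DecidableEq ι]

/-- squared Vandermonde modulus of the points indexed by `s`. -/
noncomputable def D (s : Finset ι) (z : ι → ℂ) : ℝ :=
  ∏ i ∈ s, ∏ k ∈ s.erase i, ‖z i - z k‖

/-- product of distances from `x` to the points indexed by `s`. -/
noncomputable def W (s : Finset ι) (x : ℂ) (z : ι → ℂ) : ℝ := ∏ k ∈ s, ‖x - z k‖

lemma D_nonneg (s : Finset ι) (z : ι → ℂ) : 0 ≤ D s z :=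
  prod_nonneg fun _ _ => prod_nonneg fun _ _ => norm_nonneg _

omit [DecidableEq ι] in
lemma W_nonneg (s : Finset ι) (x : ℂ) (z : ι → ℂ) : 0 ≤ W s x z :=
  prod_nonneg fun _ _ => norm_nonneg _

lemma D_erase {s : Finset ι} {j : ι} (hj : j ∈ s) (z : ι → ℂ) :
    D s z = D (s.erase j) z * W (s.erase j) (z j) z ^ 2 := by
  unfold D W
  rw [← mul_prod_erase s _ hj]
  have h : ∏ i ∈ s.erase j, ∏ k ∈ s.erase i, ‖z i - z k‖ =
      ∏ i ∈ s.erase j, (‖z j - z i‖ * ∏ k ∈ (s.erase j).erase i, ‖z i - z k‖) := by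
    refine prod_congr rfl fun i hi => ?_
    have hij : i ≠ j := (mem_erase.1 hi).1
    have hj' : j ∈ s.erase i := mem_erase.2 ⟨hij.symm, hj⟩
    rw [← mul_prod_erase _ _ hj', erase_right_comm, norm_sub_rev]
  rw [h, prod_mul_distrib]
  ring

lemma D_update {s : Finset ι} {j : ι} (hj : j ∉ s) (z : ι → ℂ) (x : ℂ) :
    D s (update z j x) = D s z := by
  unfold D
  refine prod_congr rfl fun i hi => prod_congr rfl fun k hk => ?_
  have h1 : i ≠ j := fun h => hj (h ▸ hi)
  have h2 : k ≠ j := fun h => hj (h ▸ (mem_erase.1 hk).2)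
  rw [update_of_ne h1, update_of_ne h2]

lemma W_update {s : Finset ι} {j : ι} (hj : j ∉ s) (z : ι → ℂ) (x y : ℂ) :
    W s y (update z j x) = W s y z := by
  unfold W
  refine prod_congr rfl fun k hk => ?_
  have h2 : k ≠ j := fun h => hj (h ▸ hk)
  rw [update_of_ne h2]

lemma lagr {s : Finset ι} (hs : s.Nonempty) (z : ι → ℂ) (ζ : ℂ) :
    D s z ≤ (s.card : ℝ) ^ 2 * ∑ j ∈ s, D (s.erase j) z * W (s.erase j) ζ z ^ 2 := by
  have hnn : ∀ j ∈ s, 0 ≤ D (s.erase j) z * W (s.erase j) ζ z ^ 2 := fun j _ =>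
    mul_nonneg (D_nonneg _ _) (sq_nonneg _)
  by_cases hinj : Set.InjOn z s
  · have h1 := congrArg (Polynomial.eval ζ) (Lagrange.sum_basis hinj hs)
    rw [Polynomial.eval_finsetSum, Polynomial.eval_one] at h1
    have hc : (0 : ℝ) < s.card := by exact_mod_cast hs.card_pos
    have h2 : ∃ j ∈ s, (s.card : ℝ)⁻¹ ≤ ‖(Lagrange.basis s z j).eval ζ‖ := by
      by_contra hcon
      push Not at hcon
      have h3 : ‖∑ j ∈ s, (Lagrange.basis s z j).eval ζ‖ < ∑ _j ∈ s, (s.card : ℝ)⁻¹ :=
        (norm_sum_le _ _).trans_lt (sum_lt_sum_of_nonempty hs hcon)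
      rw [h1, sum_const, nsmul_eq_mul, mul_inv_cancel₀ hc.ne', norm_one] at h3
      exact lt_irrefl _ h3
    obtain ⟨j, hj, hle⟩ := h2
    have h4 : ‖(Lagrange.basis s z j).eval ζ‖ * W (s.erase j) (z j) z = W (s.erase j) ζ z := by
      unfold Lagrange.basis W
      rw [Polynomial.eval_prod, norm_prod, ← prod_mul_distrib]
      refine prod_congr rfl fun k hk => ?_
      have hne : z j - z k ≠ 0 := sub_ne_zero.2 fun h =>
        (mem_erase.1 hk).1 (hinj (mem_erase.1 hk).2 hj h.symm)
      have hne' : ‖z j - z k‖ ≠ 0 := norm_ne_zero_iff.2 hne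
      simp only [Lagrange.basisDivisor, Polynomial.eval_mul, Polynomial.eval_C,
        Polynomial.eval_sub, Polynomial.eval_X, norm_mul, norm_inv]
      field_simp
    have h5 : W (s.erase j) (z j) z ≤ s.card * W (s.erase j) ζ z := by
      rw [← h4]
      have := mul_le_mul_of_nonneg_right hle (W_nonneg (s.erase j) (z j) z)
      rw [inv_mul_le_iff₀ hc] at this
      exact this
    have h6 : W (s.erase j) (z j) z ^ 2 ≤ (s.card * W (s.erase j) ζ z) ^ 2 :=
      pow_le_pow_left₀ (W_nonneg _ _ _) h5 2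
    calc D s z = D (s.erase j) z * W (s.erase j) (z j) z ^ 2 := D_erase hj z
      _ ≤ D (s.erase j) z * (s.card * W (s.erase j) ζ z) ^ 2 :=
          mul_le_mul_of_nonneg_left h6 (D_nonneg _ _)
      _ = (s.card : ℝ) ^ 2 * (D (s.erase j) z * W (s.erase j) ζ z ^ 2) := by ring
      _ ≤ _ := mul_le_mul_of_nonneg_left (single_le_sum hnn hj) (sq_nonneg _)
  · have : D s z = 0 := by
      unfold Set.InjOn at hinj
      push Not at hinj
      obtain ⟨a, ha, b, hb, hab, hne⟩ := hinj
      refine prod_eq_zero ha (prod_eq_zero (i := b) (mem_erase.2 ⟨hne.symm, hb⟩) ?_)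
      simp [hab]
    rw [this]
    exact mul_nonneg (sq_nonneg _) (sum_nonneg hnn)

/-- truncated reciprocal. -/
noncomputable def g (y : ℝ) : ℝ≥0∞ := if y < 1 then (ENNReal.ofReal y)⁻¹ else 0

lemma g_meas : Measurable g := by
  unfold g
  exact Measurable.ite measurableSet_Iio (ENNReal.measurable_ofReal.inv) measurable_const

lemma ofReal_sum_le {κ : Type} (t : Finset κ) (f : κ → ℝ) :
    ENNReal.ofReal (∑ k ∈ t, f k) ≤ ∑ k ∈ t, ENNReal.ofReal (f k) := by
  classical
  induction t using Finset.induction_on with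
  | empty => simp
  | insert a t ha ih =>
    rw [sum_insert ha, sum_insert ha]
    exact ENNReal.ofReal_add_le.trans (add_le_add le_rfl ih)

lemma g_sum {κ : Type} (t : Finset κ) (y : κ → ℝ) (hy : ∀ k ∈ t, 0 ≤ y k) (m : ℝ)
    (h : ∏ k ∈ t, y k ≤ Real.exp (-m)) : ENNReal.ofReal m ≤ ∑ k ∈ t, g (y k) := by
  by_cases h0 : ∃ k ∈ t, y k = 0
  · obtain ⟨k, hk, hk0⟩ := h0
    have : g (y k) = ⊤ := by simp [g, hk0]
    have h2 : g (y k) ≤ ∑ k ∈ t, g (y k) :=
      single_le_sum (f := fun k => g (y k)) (fun _ _ => zero_le) hk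
    rw [this] at h2
    exact le_top.trans h2
  · push Not at h0
    have hpos : ∀ k ∈ t, 0 < y k := fun k hk => lt_of_le_of_ne (hy k hk) (h0 k hk).symm
    have h1 : m ≤ ∑ k ∈ t, -Real.log (y k) := by
      have h2 := Real.log_le_log (prod_pos hpos) h
      rw [Real.log_exp, Real.log_prod (fun k hk => (hpos k hk).ne')] at h2
      rw [sum_neg_distrib]
      linarith
    have h3 : ∀ k ∈ t, ENNReal.ofReal (-Real.log (y k)) ≤ g (y k) := by
      intro k hk
      unfold g
      split_ifs with hlt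
      · rw [← ENNReal.ofReal_inv_of_pos (hpos k hk)]
        refine ENNReal.ofReal_le_ofReal ?_
        rw [← Real.log_inv]
        have := Real.log_le_sub_one_of_pos (inv_pos.2 (hpos k hk))
        linarith
      · rw [ENNReal.ofReal_of_nonpos]
        have := Real.log_nonneg (not_lt.1 hlt)
        linarith
    calc ENNReal.ofReal m ≤ ENNReal.ofReal (∑ k ∈ t, -Real.log (y k)) :=
          ENNReal.ofReal_le_ofReal h1
      _ ≤ ∑ k ∈ t, ENNReal.ofReal (-Real.log (y k)) := ofReal_sum_le _ _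
      _ ≤ _ := sum_le_sum h3

lemma g_int : ∫⁻ x : ℂ, g ‖x‖ < ⊤ := by
  have h1 : IntegrableOn (fun x : ℂ => ‖x‖⁻¹) (Metric.ball 0 1) volume := by
    refine integrableOn_ball_of_norm_le_rpow (C := 1) (α := 1) (by simp) (by simp) ?_ ?_
    · refine ae_of_all _ fun x => ?_
      simp [Real.rpow_neg_one]
    · exact (measurable_norm.inv).aestronglyMeasurable
  have h2 := h1.2
  rw [hasFiniteIntegral_iff_enorm, ← lintegral_indicator measurableSet_ball] at h2
  refine lt_of_le_of_lt (lintegral_mono_ae ?_) h2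
  have h3 : ∀ᵐ x : ℂ, x ≠ 0 := by
    simp [ae_iff]
  filter_upwards [h3] with x hx
  unfold g
  split_ifs with hlt
  · rw [Set.indicator_of_mem (by simpa using hlt),
      ← ENNReal.ofReal_inv_of_pos (norm_pos_iff.2 hx), Real.enorm_eq_ofReal (by positivity)]
  · exact zero_le

lemma g_scale (c : ℝ) (hc : 0 < c) (ζ : ℂ) :
    ∫⁻ x : ℂ, g (‖ζ - x‖ * c) = ENNReal.ofReal ((c ^ 2)⁻¹) * ∫⁻ x : ℂ, g ‖x‖ := by
  have h1 : ∫⁻ x : ℂ, g (‖ζ - x‖ * c) = ∫⁻ x : ℂ, g (‖x‖ * c) := by
    rw [← lintegral_sub_right_eq_self (fun x : ℂ => g (‖x‖ * c)) ζ]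
    simp only [norm_sub_rev]
  have h2 : ∫⁻ x : ℂ, g (‖x‖ * c) = ∫⁻ x : ℂ, g ‖x‖ ∂(Measure.map (fun x : ℂ => c • x) volume) := by
    rw [lintegral_map (f := fun x : ℂ => g ‖x‖) (g_meas.comp measurable_norm)
      (measurable_const_smul c)]
    simp [abs_of_pos hc, mul_comm]
  rw [h1, h2, Measure.map_addHaar_smul volume hc.ne', lintegral_smul_measure]
  simp [abs_of_pos (pow_pos hc 2)]

section main

variable [Fintype ι]

omit [Fintype ι] in
lemma D_cont (s : Finset ι) : Continuous (D s) := by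
  unfold D
  fun_prop

omit [Fintype ι] [DecidableEq ι] in
lemma W_cont (s : Finset ι) (x : ℂ) : Continuous (W s x) := by
  unfold W
  fun_prop

/-- the weak type estimate after integrating out one coordinate. -/
lemma key (K : Set ℂ) (M r : ℝ) (hM0 : 0 < M) (hr : 0 < r) (j : ι) (ζ : ℂ)
    [IsFiniteMeasure (volume.restrict K)]
    (hM : ∀ z : ι → ℂ, ENNReal.ofReal M ≤
      ∫⁻ x in K, ENNReal.ofReal (W (univ.erase j) x z ^ 2)) :
    ∫⁻ z, ENNReal.ofReal (D (univ.erase j) z * W (univ.erase j) ζ z ^ 2) * g (W univ ζ z / r)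
        ∂(Measure.pi fun _ : ι => volume.restrict K) ≤
      (ENNReal.ofReal (r ^ 2 / M) * ∫⁻ x : ℂ, g ‖x‖) *
        ∫⁻ z, ENNReal.ofReal (D univ z) ∂(Measure.pi fun _ : ι => volume.restrict K) := by
  have hD : Measurable fun z : ι → ℂ => ENNReal.ofReal (D univ z) :=
    (D_cont _).measurable.ennreal_ofReal
  rw [← lintegral_const_mul _ hD]
  refine lintegral_le_of_lmarginal_le {j} ?_ (hD.const_mul _) ?_
  · refine Measurable.mul ?_ (g_meas.comp ((W_cont _ _).measurable.div_const r))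
    exact (((D_cont _).mul ((W_cont _ _).pow 2)).measurable).ennreal_ofReal
  rw [lmarginal_singleton, lmarginal_singleton]
  intro z
  have hj : j ∉ (univ : Finset ι).erase j := notMem_erase _ _
  have hWu : ∀ x, W univ ζ (update z j x) = ‖ζ - x‖ * W (univ.erase j) ζ z := by
    intro x
    rw [← W_update hj z x ζ]
    unfold W
    rw [← mul_prod_erase _ _ (mem_univ j), update_self]
  have hDu : ∀ x, D univ (update z j x) = D (univ.erase j) z * W (univ.erase j) x z ^ 2 := by
    intro x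
    rw [D_erase (mem_univ j), D_update hj, W_update hj, update_self]
  simp only [D_update hj, W_update hj, hWu, hDu]
  set d := D (univ.erase j) z with hd
  set w := W (univ.erase j) ζ z with hw
  have hd0 : 0 ≤ d := D_nonneg _ _
  rcases (W_nonneg (univ.erase j) ζ z).eq_or_lt with h0 | hw0
  · have : w = 0 := h0.symm
    simp [this]
  have hw0' : 0 < w := hw0
  have hc : 0 < w / r := div_pos hw0' hr
  have hmW : Measurable fun x : ℂ => ENNReal.ofReal (W (univ.erase j) x z ^ 2) := by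
    refine Measurable.ennreal_ofReal (Continuous.measurable ?_)
    unfold W
    fun_prop
  calc ∫⁻ x in K, ENNReal.ofReal (d * w ^ 2) * g (‖ζ - x‖ * w / r)
      ≤ ∫⁻ x, ENNReal.ofReal (d * w ^ 2) * g (‖ζ - x‖ * (w / r)) := by
        simp only [mul_div_assoc]
        exact lintegral_mono' Measure.restrict_le_self le_rfl
    _ = ENNReal.ofReal (d * w ^ 2) * (ENNReal.ofReal (((w / r) ^ 2)⁻¹) * ∫⁻ x : ℂ, g ‖x‖) := by
        rw [lintegral_const_mul' _ _ ENNReal.ofReal_ne_top, g_scale _ hc]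
    _ = (ENNReal.ofReal (r ^ 2 / M) * ∫⁻ x : ℂ, g ‖x‖) * (ENNReal.ofReal d * ENNReal.ofReal M) := by
        rw [← mul_assoc, ← ENNReal.ofReal_mul (by positivity), ← ENNReal.ofReal_mul hd0,
          mul_right_comm (ENNReal.ofReal (r ^ 2 / M)), ← ENNReal.ofReal_mul (by positivity)]
        congr 2
        field_simp
    _ ≤ (ENNReal.ofReal (r ^ 2 / M) * ∫⁻ x : ℂ, g ‖x‖) *
          (ENNReal.ofReal d * ∫⁻ x in K, ENNReal.ofReal (W (univ.erase j) x z ^ 2)) := by
        gcongr
        exact hM z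
    _ = _ := by
        rw [← lintegral_const_mul _ hmW, ← lintegral_const_mul _ (hmW.const_mul _)]
        simp only [ENNReal.ofReal_mul hd0]

lemma Z_pos (K : Set ℂ) (hK : volume K ≠ 0) [IsFiniteMeasure (volume.restrict K)] :
    ∫⁻ z, ENNReal.ofReal (D univ z) ∂(Measure.pi fun _ : ι => volume.restrict K) ≠ 0 := by
  have hD : Measurable fun z : ι → ℂ => ENNReal.ofReal (D univ z) :=
    (D_cont _).measurable.ennreal_ofReal
  intro h
  rw [lintegral_eq_zero_iff hD] at h
  have h1 : ∀ i k : ι, i ≠ k →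
      ∀ᵐ z ∂(Measure.pi fun _ : ι => volume.restrict K), z i ≠ z k := by
    intro i k hik
    have hs : MeasurableSet {z : ι → ℂ | z i = z k} :=
      measurableSet_eq_fun (measurable_pi_apply i) (measurable_pi_apply k)
    rw [ae_iff]
    simp only [ne_eq, not_not]
    rw [← lintegral_indicator_one hs, ← nonpos_iff_eq_zero,
      ← lintegral_zero (μ := Measure.pi fun _ : ι => volume.restrict K)]
    refine lintegral_le_of_lmarginal_le {i} (measurable_one.indicator hs) measurable_const ?_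
    rw [lmarginal_singleton, lmarginal_singleton]
    intro z
    simp only [lintegral_const, zero_mul, nonpos_iff_eq_zero]
    have h3 : ∀ᵐ x ∂(volume.restrict K : Measure ℂ), x ≠ z k := by
      simp [ae_iff]
    refine lintegral_eq_zero_of_ae_eq_zero ?_
    filter_upwards [h3] with x hx
    rw [Set.indicator_of_notMem]
    · rfl
    · simpa [update_of_ne hik.symm] using hx
  have h2 : ∀ᵐ z ∂(Measure.pi fun _ : ι => volume.restrict K), ∀ i k, i ≠ k → z i ≠ z k := by
    rw [ae_all_iff]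
    intro i
    rw [ae_all_iff]
    intro k
    by_cases hik : i = k
    · exact ae_of_all _ fun z h => absurd hik h
    · filter_upwards [h1 i k hik] with z hz _ using hz
  have h3 : ∀ᵐ _z ∂(Measure.pi fun _ : ι => volume.restrict K), False := by
    filter_upwards [h, h2] with z hz hz2
    have : 0 < D univ z := prod_pos fun i _ => prod_pos fun k hk =>
      norm_pos_iff.2 (sub_ne_zero.2 (hz2 i k (mem_erase.1 hk).1.symm))
    simp only [Pi.zero_apply, ENNReal.ofReal_eq_zero] at hz
    linarith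
  rw [Filter.eventually_false_iff_eq_bot, ae_eq_bot] at h3
  have h4 := congrArg (fun m : Measure (ι → ℂ) => m Set.univ) h3
  simp only [Measure.pi_univ, Measure.restrict_apply_univ, prod_const, Measure.coe_zero,
    Pi.zero_apply] at h4
  exact hK (pow_eq_zero_iff'.1 h4).1

omit [DecidableEq ι] in
lemma ae_mem (K : Set ℂ) (hK : MeasurableSet K) [IsFiniteMeasure (volume.restrict K)] :
    ∀ᵐ z ∂(Measure.pi fun _ : ι => volume.restrict K), ∀ i, z i ∈ K := by
  rw [ae_all_iff]
  intro i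
  exact (Measure.quasiMeasurePreserving_eval (fun _ : ι => volume.restrict K) i).ae
    (ae_restrict_mem hK)

lemma Z_fin (K : Set ℂ) (hK : IsCompact K) [IsFiniteMeasure (volume.restrict K)] :
    ∫⁻ z, ENNReal.ofReal (D univ z) ∂(Measure.pi fun _ : ι => volume.restrict K) ≠ ⊤ := by
  have hc : IsCompact (Set.pi Set.univ fun _ : ι => K) := isCompact_univ_pi fun _ => hK
  obtain ⟨B, hB⟩ := hc.bddAbove_image (D_cont (univ : Finset ι)).continuousOn
  refine ne_top_of_le_ne_top (b := ∫⁻ _z, ENNReal.ofReal B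
    ∂(Measure.pi fun _ : ι => volume.restrict K)) ?_ (lintegral_mono_ae ?_)
  · rw [lintegral_const]
    exact ENNReal.mul_ne_top ENNReal.ofReal_ne_top (measure_ne_top _ _)
  · filter_upwards [ae_mem (ι := ι) K hK.measurableSet] with z hz
    exact ENNReal.ofReal_le_ofReal (hB ⟨z, fun i _ => hz i, rfl⟩)

/-- main estimate. -/
theorem main [Nonempty ι] {κ : Type} [Fintype κ] [Nonempty κ] (K : Set ℂ) (hK : IsCompact K)
    (M r I T : ℝ) (hM0 : 0 < M) (hr : 0 < r) 
    (hI : ∫⁻ x : ℂ, g ‖x‖ ≤ ENNReal.ofReal I)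
    (hrI : (Fintype.card ι : ℝ) ^ 3 * (r ^ 2 / M * I) < 1)
    (hM : ∀ (j : ι) (z : ι → ℂ), ENNReal.ofReal M ≤
      ∫⁻ x in K, ENNReal.ofReal (W (univ.erase j) x z ^ 2))
    (ζ : κ → ℂ) (hT : ∀ x ∈ K, ∏ k, ‖x - ζ k‖ ≤ T) :
    (r * Real.exp (-1)) ^ Fintype.card κ < T ^ Fintype.card ι := by
  have hfin : IsFiniteMeasure (volume.restrict K) :=
    ⟨by simpa using hK.measure_lt_top⟩
  have hK0 : volume K ≠ 0 := by
    intro h
    obtain ⟨j⟩ := ‹Nonempty ι›
    have := hM j 0
    rw [Measure.restrict_eq_zero.2 h, lintegral_zero_measure] at this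
    simp only [nonpos_iff_eq_zero, ENNReal.ofReal_eq_zero] at this
    linarith
  by_contra hcon
  push Not at hcon
  set P := Measure.pi fun _ : ι => volume.restrict K with hP
  set Z := ∫⁻ z, ENNReal.ofReal (D univ z) ∂P with hZ
  have hD : Measurable fun z : ι → ℂ => ENNReal.ofReal (D univ z) :=
    (D_cont _).measurable.ennreal_ofReal
  have hF : ∀ (j : ι) (k : κ), Measurable fun z : ι → ℂ =>
      ENNReal.ofReal (D (univ.erase j) z * W (univ.erase j) (ζ k) z ^ 2) *
        g (W univ (ζ k) z / r) := fun j k => by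
    refine Measurable.mul ?_ (g_meas.comp ((W_cont _ _).measurable.div_const r))
    exact (((D_cont _).mul ((W_cont _ _).pow 2)).measurable).ennreal_ofReal
  have h1 : ENNReal.ofReal (Fintype.card κ) * Z ≤
      ∫⁻ z, ∑ k, ENNReal.ofReal ((Fintype.card ι : ℝ) ^ 2) * ∑ j,
        ENNReal.ofReal (D (univ.erase j) z * W (univ.erase j) (ζ k) z ^ 2) *
          g (W univ (ζ k) z / r) ∂P := by
    rw [hZ, ← lintegral_const_mul _ hD]
    refine lintegral_mono_ae ?_
    filter_upwards [ae_mem (ι := ι) K hK.measurableSet] with z hz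
    have h2 : ∏ k, W univ (ζ k) z / r ≤ Real.exp (-(Fintype.card κ : ℝ)) := by
      rw [prod_div_distrib, prod_const, card_univ, div_le_iff₀ (pow_pos hr _)]
      have h3 : ∏ k, W univ (ζ k) z ≤ T ^ Fintype.card ι := by
        unfold W
        rw [prod_comm, ← card_univ, ← prod_const]
        refine prod_le_prod (fun i _ => prod_nonneg fun _ _ => norm_nonneg _) fun i _ => ?_
        simp only [norm_sub_rev (ζ _)]
        exact hT _ (hz i)
      refine h3.trans (hcon.trans (le_of_eq ?_))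
      rw [mul_pow, ← Real.exp_nat_mul, mul_comm]
      simp
    have h4 := g_sum univ (fun k => W univ (ζ k) z / r)
      (fun k _ => div_nonneg (W_nonneg _ _ _) hr.le) _ h2
    calc ENNReal.ofReal (Fintype.card κ) * ENNReal.ofReal (D univ z)
        ≤ (∑ k, g (W univ (ζ k) z / r)) * ENNReal.ofReal (D univ z) := by gcongr
      _ = ∑ k, ENNReal.ofReal (D univ z) * g (W univ (ζ k) z / r) := by
          rw [sum_mul]
          simp only [mul_comm]
      _ ≤ _ := by
          refine sum_le_sum fun k _ => ?_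
          rw [← sum_mul, ← mul_assoc]
          gcongr
          refine (ENNReal.ofReal_le_ofReal (lagr univ_nonempty z (ζ k))).trans ?_
          rw [ENNReal.ofReal_mul (sq_nonneg _), card_univ]
          gcongr
          exact ofReal_sum_le _ _
  rw [lintegral_finsetSum _ (fun k _ => (Finset.measurable_fun_sum _ fun j _ => hF j k).const_mul _)]
    at h1
  have h5 : ∀ k, ∫⁻ z, ENNReal.ofReal ((Fintype.card ι : ℝ) ^ 2) * ∑ j,
        ENNReal.ofReal (D (univ.erase j) z * W (univ.erase j) (ζ k) z ^ 2) *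
          g (W univ (ζ k) z / r) ∂P ≤
      ENNReal.ofReal ((Fintype.card ι : ℝ) ^ 3 * (r ^ 2 / M * I)) * Z := by
    intro k
    rw [lintegral_const_mul _ (Finset.measurable_fun_sum _ fun j _ => hF j k),
      lintegral_finsetSum _ (fun j _ => hF j k)]
    calc _ ≤ ENNReal.ofReal ((Fintype.card ι : ℝ) ^ 2) *
          ∑ _j : ι, (ENNReal.ofReal (r ^ 2 / M) * ENNReal.ofReal I) * Z := by
          gcongr with j
          refine (key K M r hM0 hr j (ζ k) (hM j)).trans ?_
          gcongr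
      _ = _ := by
          rw [sum_const, card_univ, nsmul_eq_mul, ← ENNReal.ofReal_mul (by positivity),
            ← ENNReal.ofReal_natCast, ← mul_assoc, ← mul_assoc,
            ← ENNReal.ofReal_mul (by positivity), ← ENNReal.ofReal_mul (by positivity)]
          congr 2
  have h6 := h1.trans (sum_le_sum fun k _ => h5 k)
  rw [sum_const, card_univ, nsmul_eq_mul, ENNReal.ofReal_natCast,
    ENNReal.mul_le_mul_iff_right (by simp) (by simp)] at h6
  have hZ0 : Z ≠ 0 := Z_pos K hK0
  have hZ1 : Z ≠ ⊤ := Z_fin K hK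
  have h7 : ENNReal.ofReal ((Fintype.card ι : ℝ) ^ 3 * (r ^ 2 / M * I)) * Z < 1 * Z := by
    refine ENNReal.mul_lt_mul_left hZ0 hZ1 ?_
    exact ENNReal.ofReal_lt_one.2 hrI
  rw [one_mul] at h7
  exact absurd h6 (not_le.2 h7)

end main

end Pool.Agent.H5.Cap
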