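import Mathlib

set_option autoImplicit false

namespace Pool.Agent.H5.Cen

open Set Filter Topology TopologicalSpace

/-! ### the remainder of `βℕ` -/

def st (E : Set ℕ) : Set (StoneCech ℕ) := closure (stoneCechUnit '' E)

theorem st_union (E F : Set ℕ) : st (E ∪ F) = st E ∪ st F := by
  unfold st
  rw [image_union, closure_union]

theorem st_mono {E F : Set ℕ} (h : E ⊆ F) : st E ⊆ st F := closure_mono (image_mono h)

theorem st_univ : st univ = univ := by
  unfold st
  rw [image_univ]
  exact denseRange_stoneCechUnit.closure_range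

theorem st_disj {E F : Set ℕ} (h : Disjoint E F) : Disjoint (st E) (st F) := by
  classical
  let g : ℕ → Bool := fun n => decide (n ∈ E)
  have hg : Continuous g := continuous_of_discreteTopology
  have h1 : st E ⊆ stoneCechExtend hg ⁻¹' {true} := by
    refine closure_minimal ?_ ((isClosed_discrete _).preimage (continuous_stoneCechExtend hg))
    rintro _ ⟨n, hn, rfl⟩
    simp [g, hn]
  have h2 : st F ⊆ stoneCechExtend hg ⁻¹' {false} := by
    refine closure_minimal ?_ ((isClosed_discrete _).preimage (continuous_stoneCechExtend hg))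
    rintro _ ⟨n, hn, rfl⟩
    simp [g, Set.disjoint_right.1 h hn]
  refine Set.disjoint_left.2 fun x a b => ?_
  have := (h1 a).symm.trans (h2 b)
  simp at this

theorem st_compl (E : Set ℕ) : st Eᶜ = (st E)ᶜ := by
  refine Subset.antisymm (st_disj disjoint_compl_left).subset_compl_right fun x hx => ?_
  have : x ∈ st (E ∪ Eᶜ) := by simp [st_univ]
  rw [st_union] at this
  exact this.resolve_left hx

theorem st_clopen (E : Set ℕ) : IsClopen (st E) := by
  refine ⟨isClosed_closure, ?_⟩
  rw [← isClosed_compl_iff, ← st_compl]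
  exact isClosed_closure

theorem st_finite {E : Set ℕ} (h : E.Finite) : st E = stoneCechUnit '' E :=
  (h.image _).isClosed.closure_eq

def R : Set (StoneCech ℕ) := (range (stoneCechUnit : ℕ → StoneCech ℕ))ᶜ

theorem R_closed : IsClosed R := by
  rw [R, isClosed_compl_iff, range_eq_iUnion]
  refine isOpen_iUnion fun n => ?_
  rw [← image_singleton, ← st_finite (finite_singleton n)]
  exact (st_clopen _).isOpen

theorem st_infinite {E : Set ℕ} (h : E.Infinite) : (st E ∩ R).Nonempty := by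
  obtain ⟨x, hx⟩ := IsCompact.nonempty_iInter_of_sequence_nonempty_isCompact_isClosed
    (fun n => st (E \ Iio n))
    (fun n => st_mono (sdiff_subset_sdiff_right (Iio_subset_Iio (Nat.le_succ n))))
    (fun n => ((h.sdiff (finite_Iio n)).nonempty.image _).closure)
    isClosed_closure.isCompact fun _ => isClosed_closure
  rw [mem_iInter] at hx
  refine ⟨x, st_mono sdiff_subset (hx 0), ?_⟩
  rintro ⟨n, rfl⟩
  exact Set.disjoint_left.1 (st_disj (disjoint_sdiff_left (s := Iio (n + 1)) (t := E))) (hx (n + 1))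
    (subset_closure ⟨n, Nat.lt_succ_self n, rfl⟩)

theorem trace {e : Set R} (he : IsClopen e) : ∃ E, ∀ y : R, y ∈ e ↔ y.1 ∈ st E := by
  obtain ⟨U, V, hU, hV, h1, h2, h3⟩ := normal_separation
    (R_closed.isClosedMap_subtype_val _ he.isClosed)
    (R_closed.isClosedMap_subtype_val _ he.compl.isClosed)
    (Set.disjoint_image_of_injective Subtype.val_injective disjoint_compl_right)
  refine ⟨stoneCechUnit ⁻¹' U, fun y => ⟨fun hy => ?_, fun hy => ?_⟩⟩
  · have := denseRange_stoneCechUnit.open_subset_closure_inter hU (h1 ⟨y, hy, rfl⟩)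
    rwa [st, image_preimage_eq_inter_range]
  · by_contra h
    have h4 : Disjoint (st (stoneCechUnit ⁻¹' U)) V :=
      (h3.mono_left (image_preimage_subset _ _)).closure_left hV
    exact Set.disjoint_left.1 h4 hy (h2 ⟨y, h, rfl⟩)

theorem sep (e : ℕ → Set R) (he : ∀ n, IsClopen (e n))
    (hd : ∀ m n, m < n → Disjoint (e m) (e n)) (x : R) :
    ∃ a : Clopens R, x ∈ a ∧ {n | Disjoint (a : Set R) (e n)}.Infinite := by
  choose E hE using fun n => trace (he n)
  let D : ℕ → Set ℕ := fun n => E n \ ⋃ m ∈ Finset.range n, E m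
  have h1 : ∀ n, ∀ y ∈ e n, y.1 ∈ st (D n) := by
    intro n y hy
    have h2 : ∀ k ≤ n, y.1 ∉ st (⋃ m ∈ Finset.range k, E m) := by
      intro k hk
      induction k with
      | zero => simp [st]
      | succ k ih =>
        rw [Finset.range_add_one, Finset.set_biUnion_insert, st_union]
        rintro (h | h)
        · exact Set.disjoint_left.1 (hd k n hk) ((hE k y).2 h) hy
        · exact ih (by omega) h
    have h3 := st_mono (subset_sdiff_union (E n) (⋃ m ∈ Finset.range n, E m)) ((hE n y).1 hy)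
    rw [st_union] at h3
    exact h3.resolve_right (h2 n le_rfl)
  have h2 : ∀ m n, m ≠ n → Disjoint (D m) (D n) := by
    have : ∀ m n, m < n → Disjoint (D m) (D n) := fun m n h =>
      Set.disjoint_left.2 fun k a b => b.2 (mem_biUnion (Finset.mem_range.2 h) a.1)
    intro m n h
    rcases lt_or_gt_of_ne h with h | h
    · exact this m n h
    · exact (this n m h).symm
  have key : ∀ (A : Set ℕ) (φ : ℕ → ℕ), Function.Injective φ → x.1 ∈ st A →
      (∀ n, Disjoint A (D (φ n))) →
      ∃ a : Clopens R, x ∈ a ∧ {n | Disjoint (a : Set R) (e n)}.Infinite :=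
    fun A φ hφ hx h => ⟨⟨Subtype.val ⁻¹' st A, (st_clopen A).preimage continuous_subtype_val⟩, hx,
      infinite_of_injective_forall_mem hφ fun n => Set.disjoint_left.2 fun y a b =>
        Set.disjoint_left.1 (st_disj (h n)) a (h1 _ y b)⟩
  by_cases hx : x.1 ∈ st (⋃ n, D (2 * n))
  · exact key _ (fun n => 2 * n + 1) (fun a b h => by dsimp only at h; omega) hx fun n =>
      disjoint_iUnion_left.2 fun m => h2 _ _ (by omega)
  · rw [← mem_compl_iff, ← st_compl] at hx
    exact key _ (fun n => 2 * n) (fun a b h => by dsimp only at h; omega) hx fun n =>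
      disjoint_compl_left.mono_right (subset_iUnion (fun n => D (2 * n)) n)

theorem ad : ∃ a : Set ℕ → Clopens R, (∀ i, (a i : Set R).Nonempty) ∧
    ∀ i j, i ≠ j → Disjoint (a i : Set R) (a j) := by
  classical
  let c : Set ℕ → ℕ → ℕ := fun s n =>
    Encodable.encode (n, (Finset.range n).filter fun k => k ∈ s)
  have hc : ∀ s t n m, c s n = c t m → n = m ∧ ∀ k < n, (k ∈ s ↔ k ∈ t) := by
    intro s t n m h
    have h1 := Encodable.encode_injective h
    obtain ⟨rfl, h2⟩ := Prod.mk.inj h1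
    refine ⟨rfl, fun k hk => ?_⟩
    have := Finset.ext_iff.1 h2 k
    simpa [hk] using this
  refine ⟨fun s => ⟨Subtype.val ⁻¹' st (range (c s)),
    (st_clopen _).preimage continuous_subtype_val⟩, fun s => ?_, fun s t hst => ?_⟩
  · obtain ⟨y, h1, h2⟩ := st_infinite
      (infinite_range_of_injective (f := c s) fun n m h => (hc s s n m h).1)
    exact ⟨⟨y, h2⟩, h1⟩
  · obtain ⟨k, hk⟩ : ∃ k, ¬ (k ∈ s ↔ k ∈ t) := by
      by_contra h
      push Not at h
      exact hst (Set.ext h)
    have h1 : (range (c s) ∩ range (c t)).Finite := by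
      refine ((finite_le_nat k).image (c s)).subset ?_
      rintro _ ⟨⟨n, rfl⟩, m, hm⟩
      exact ⟨n, not_lt.1 fun h => hk ((hc s t n m hm.symm).2 k h), rfl⟩
    refine Set.disjoint_left.2 fun y (a : y.1 ∈ st _) (b : y.1 ∈ st _) => ?_
    rw [← inter_union_sdiff (range (c s)) (range (c t)), st_union, st_finite h1] at a
    rcases a with ⟨n, -, a⟩ | a
    · exact y.2 ⟨n, a⟩
    · exact Set.disjoint_left.1 (st_disj disjoint_sdiff_left) a b

/-! ### sunflowers and finite supports -/

theorem sunflower {I B : Type} [Uncountable I] (S : I → Finset B) :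
    ∃ (T : Set B) (ξ : ℕ → I), T.Finite ∧
      ∀ m n, m < n → ξ m ≠ ξ n ∧ ∀ b ∈ S (ξ m), b ∈ S (ξ n) → b ∈ T := by
  classical
  obtain ⟨k, hk⟩ : ∃ k, {i | (S i).card = k}.Infinite := by
    by_contra h
    push Not at h
    exact not_countable_univ (α := I)
      ((countable_iUnion fun k => (h k).countable).mono fun i _ => mem_iUnion.2 ⟨(S i).card, rfl⟩)
  have := cofinite_inf_principal_neBot_iff.2 hk
  let 𝒰 := Ultrafilter.of (cofinite ⊓ 𝓟 {i | (S i).card = k})
  have h1 : (𝒰 : Filter I) ≤ cofinite := (Ultrafilter.of_le _).trans inf_le_left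
  have h2 : {i | (S i).card = k} ∈ 𝒰 := le_principal_iff.1 ((Ultrafilter.of_le _).trans inf_le_right)
  obtain ⟨ξ, -, h3⟩ := exists_seq_of_forall_finset_exists (fun _ : I => True)
    (fun i j => i ≠ j ∧ ∀ b ∈ S i, b ∈ S j → {l | b ∈ S l} ∈ 𝒰) (by
      intro s _
      have : ∀ᶠ j in (𝒰 : Filter I), ∀ i ∈ s,
          i ≠ j ∧ ∀ b ∈ S i, b ∈ S j → {l | b ∈ S l} ∈ 𝒰 := by
        refine (eventually_all_finset s).2 fun i _ => Eventually.and
          (h1 ((eventually_cofinite_ne i).mono fun j h => h.symm))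
          ((eventually_all_finset _).2 fun b _ => ?_)
        by_cases h : {l | b ∈ S l} ∈ 𝒰
        · exact Eventually.of_forall fun _ _ => h
        · exact mem_of_superset (Ultrafilter.compl_mem_iff_notMem.2 h) fun j a b => absurd b a
      obtain ⟨j, hj⟩ := this.exists
      exact ⟨j, trivial, hj⟩)
  refine ⟨{b | {l | b ∈ S l} ∈ 𝒰}, ξ, ?_, h3⟩
  by_contra h
  obtain ⟨F, a1, a2⟩ := Set.Infinite.exists_subset_card_eq h (k + 1)
  have : ∀ᶠ l in (𝒰 : Filter I), (S l).card = k ∧ ∀ b ∈ F, b ∈ S l :=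
    Eventually.and h2 ((eventually_all_finset _).2 fun b hb => a1 hb)
  obtain ⟨l, b1, b2⟩ := this.exists
  have := Finset.card_le_card (show F ⊆ S l from b2)
  omega

theorem cyl_open {B : Type} (C : Set (B → Bool)) (T : Set B) (hT : T.Finite) (g : B → Bool) :
    IsOpen {f : C | ∀ b ∈ T, f.1 b = g b} := by
  rw [Set.ofPred_forall]
  simp_rw [Set.ofPred_forall]
  refine hT.isOpen_biInter fun b _ => ?_
  have h : Continuous fun f : C => f.1 b := (continuous_apply b).comp continuous_subtype_val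
  exact (isOpen_discrete {g b}).preimage h

theorem cyl_sub {B : Type} (C : Set (B → Bool)) (U : Set C) (hU : IsOpen U) (g : C) (hg : g ∈ U) :
    ∃ T : Finset B, ∀ f : C, (∀ b ∈ T, f.1 b = g.1 b) → f ∈ U := by
  obtain ⟨V, hV, rfl⟩ := isOpen_induced_iff.1 hU
  obtain ⟨T, u, h1, h2⟩ := isOpen_pi_iff.1 hV g.1 hg
  exact ⟨T, fun f hf => h2 fun b hb => hf b hb ▸ (h1 b hb).2⟩

theorem support {B : Type} (C : Set (B → Bool)) (U : Set C) (hU : IsOpen U) (hK : IsCompact U) :
    ∃ T : Finset B, ∀ f g : C, (∀ b ∈ T, f.1 b = g.1 b) → g ∈ U → f ∈ U := by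
  classical
  choose T hT using fun g : U => cyl_sub C U hU g.1 g.2
  obtain ⟨t, ht⟩ := hK.elim_finite_subcover
    (fun g : U => {f : C | ∀ b ∈ (T g : Set B), f.1 b = g.1.1 b})
    (fun g => cyl_open C _ (T g).finite_toSet _) fun g hg => mem_iUnion.2 ⟨⟨g, hg⟩, fun _ _ => rfl⟩
  refine ⟨t.biUnion T, fun f g h hg => ?_⟩
  obtain ⟨k, hk, h1⟩ := mem_iUnion₂.1 (ht hg)
  exact hT k f fun b hb => (h b (Finset.mem_biUnion.2 ⟨k, hk, hb⟩)).trans (h1 b hb)

theorem clopen_of_trace {X : Type} [TopologicalSpace X] (S : Finset (Clopens X)) (e : Set X)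
    (h : ∀ y z, (∀ b ∈ S, y ∈ b ↔ z ∈ b) → y ∈ e → z ∈ e) : IsClopen e := by
  have key : ∀ e : Set X, (∀ y z, (∀ b ∈ S, y ∈ b ↔ z ∈ b) → y ∈ e → z ∈ e) → IsOpen e := by
    intro e h
    refine isOpen_iff_mem_nhds.2 fun y hy => ?_
    have : ∀ᶠ z in 𝓝 y, ∀ b ∈ S, y ∈ b ↔ z ∈ b := by
      refine (eventually_all_finset _).2 fun b _ => ?_
      by_cases hb : y ∈ b
      · exact mem_of_superset (b.isClopen.isOpen.mem_nhds hb) fun z hz => iff_of_true hb hz
      · exact mem_of_superset (b.isClopen.compl.isOpen.mem_nhds hb) fun z hz => iff_of_false hb hz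
    exact this.mono fun z hz => h y z hz hy
  exact ⟨isOpen_compl_iff.1 (key _ fun y z a b c => b (h z y (fun d hd => (a d hd).symm) c)),
    key e h⟩

def Cn (X : Type) [TopologicalSpace X] : Set (Clopens X → Bool) :=
  {f | ∀ F : Finset (Clopens X), (∀ U ∈ F, f U = true) → (⋂ U ∈ F, (U : Set X)).Nonempty}

theorem Cn_closed (X : Type) [TopologicalSpace X] : IsClosed (Cn X) := by
  rw [Cn, Set.ofPred_forall]
  refine isClosed_iInter fun F => ?_
  by_cases h : (⋂ U ∈ F, (U : Set X)).Nonempty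
  · simp [h]
  · rw [← isOpen_compl_iff]
    have : {f : Clopens X → Bool | (∀ U ∈ F, f U = true) → (⋂ U ∈ F, (U : Set X)).Nonempty}ᶜ =
        ⋂ U ∈ F, (fun f => f U) ⁻¹' {true} := by
      ext f
      simp [h]
    rw [this]
    exact isOpen_biInter_finset fun U _ => (isOpen_discrete _).preimage (continuous_apply U)

theorem mem_Cn {X : Type} [TopologicalSpace X] (f : Clopens X → Bool) (y : X)
    (h : ∀ U, f U = true → y ∈ U) : f ∈ Cn X :=
  fun _ hF => ⟨y, mem_iInter₂.2 fun U hU => h U (hF U hU)⟩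

theorem main : ¬ ∀ x y : Cn R, ∃ h : Cn R ≃ₜ Cn R, h x = y := by
  classical
  intro H
  obtain ⟨a, ha1, ha2⟩ := ad
  obtain ⟨x, -⟩ := ha1 ∅
  have : CompactSpace (Cn R) := isCompact_iff_compactSpace.1 (Cn_closed R).isCompact
  let p : Cn R := ⟨fun U => decide (x ∈ U), mem_Cn _ x fun U h => by simpa using h⟩
  let z : Cn R := ⟨fun _ => false, mem_Cn _ x fun U h => by simp at h⟩
  obtain ⟨h, hh⟩ := H p z
  let O : Set ℕ → Set (Cn R) := fun i => h ⁻¹' {f | f.1 (a i) = true}
  have hO : ∀ i, IsClopen (O i) := fun i => ((isClopen_discrete {true}).preimage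
    ((continuous_apply (a i)).comp continuous_subtype_val)).preimage h.continuous
  have hOd : ∀ i j, i ≠ j → ∀ f, f ∈ O i → f ∈ O j → False := by
    intro i j hij f b1 b2
    obtain ⟨y, hy⟩ := (h f).2 {a i, a j} (by
      intro U hU
      rcases Finset.mem_insert.1 hU with rfl | hU
      · exact b1
      · rw [Finset.mem_singleton.1 hU]
        exact b2)
    rw [mem_iInter₂] at hy
    exact Set.disjoint_left.1 (ha2 i j hij) (hy _ (by simp)) (hy _ (by simp))
  choose S hS using fun i => support (Cn R) (O i) (hO i).isOpen (hO i).isClosed.isCompact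
  have : Uncountable (Set ℕ) := by
    rw [uncountable_iff_forall_not_surjective]
    exact Function.cantor_surjective
  obtain ⟨T, ξ, hT, hξ⟩ := sunflower S
  let e : ℕ → Set R := fun n => {y | ∃ f ∈ O (ξ n), (∀ b ∈ T, f.1 b = p.1 b) ∧
    ∀ b ∈ S (ξ n), f.1 b = true → y ∈ b}
  obtain ⟨c, hc1, hc2⟩ := sep e (fun n => clopen_of_trace (S (ξ n)) _
    fun y w b1 ⟨f, b2, b3, b4⟩ => ⟨f, b2, b3, fun b hb hf => (b1 b hb).1 (b4 b hb hf)⟩) (by
      intro m n hmn
      refine Set.disjoint_left.2 ?_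
      rintro y ⟨f, b1, b2, b3⟩ ⟨g, c1, c2, c3⟩
      let k : Cn R := ⟨fun b => if b ∈ S (ξ m) then f.1 b else if b ∈ S (ξ n) then g.1 b else false,
        mem_Cn _ y fun U hU => by
          split_ifs at hU with d1 d2
          · exact b3 U d1 hU
          · exact c3 U d2 hU⟩
      refine hOd _ _ (hξ m n hmn).1 k (hS _ k f (fun b hb => if_pos hb) b1)
        (hS _ k g (fun b hb => ?_) c1)
      by_cases d1 : b ∈ S (ξ m)
      · have := (hξ m n hmn).2 b d1 hb
        exact (if_pos d1).trans ((b2 b this).trans (c2 b this).symm)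
      · exact (if_neg d1).trans (if_pos hb)) x
  obtain ⟨W, hW⟩ := cyl_sub (Cn R) (h.symm ⁻¹' {f | ∀ b ∈ insert c T, f.1 b = p.1 b})
    ((cyl_open _ _ (hT.insert c) _).preimage h.symm.continuous) z (by
      rw [← hh, mem_preimage, h.symm_apply_apply]
      exact fun _ _ => rfl)
  have hinj : Function.Injective fun n => a (ξ n) := by
    have : ∀ m n, m < n → a (ξ m) ≠ a (ξ n) := fun m n hmn h => by
      obtain ⟨y, hy⟩ := ha1 (ξ m)
      exact Set.disjoint_left.1 (ha2 _ _ (hξ m n hmn).1) hy (h ▸ hy)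
    intro m n h
    by_contra hne
    rcases lt_or_gt_of_ne hne with d | d
    · exact this m n d h
    · exact this n m d h.symm
  obtain ⟨n, d1, d2⟩ := (hc2.sdiff (W.finite_toSet.preimage hinj.injOn)).nonempty
  obtain ⟨y, hy⟩ := ha1 (ξ n)
  let q : Cn R := ⟨fun U => decide (U = a (ξ n)), mem_Cn _ y fun U h => by
    rw [of_decide_eq_true h]
    exact hy⟩
  have d3 := hW q fun b hb => decide_eq_false fun d => d2 (by
    rw [mem_preimage, ← d]
    exact hb)
  have d4 : h.symm q ∈ O (ξ n) := by simp [O, q]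
  obtain ⟨w, hw⟩ := (h.symm q).2 (insert c ((S (ξ n)).filter fun b => (h.symm q).1 b = true)) (by
    intro U hU
    rcases Finset.mem_insert.1 hU with rfl | hU
    · exact (d3 U (mem_insert _ _)).trans (decide_eq_true hc1)
    · exact (Finset.mem_filter.1 hU).2)
  rw [mem_iInter₂] at hw
  exact Set.disjoint_left.1 d1 (hw c (Finset.mem_insert_self _ _))
    ⟨_, d4, fun b hb => d3 b (mem_insert_of_mem _ hb), fun b b1 b2 =>
      hw b (Finset.mem_insert_of_mem (Finset.mem_filter.2 ⟨b1, b2⟩))⟩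

end Pool.Agent.H5.Cen
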