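import Mathlib

set_option autoImplicit false

namespace Pool.Agent.H5.Creede

open Set Filter Topology

def Thick (X : Set (ℕ × ℕ)) : Prop := {n | {k | (n, k) ∈ X}.Infinite}.Infinite

def PG (M : Set (ℕ × ℕ)) : Prop := M.Infinite ∧ ∀ n, {k | (n, k) ∈ M}.Finite

theorem exists_mad : ∃ 𝓜 : Set (Set (ℕ × ℕ)), (∀ M ∈ 𝓜, PG M) ∧
    (∀ M ∈ 𝓜, ∀ M' ∈ 𝓜, M ≠ M' → (M ∩ M').Finite) ∧
    ∀ Z, PG Z → ∃ M ∈ 𝓜, (M ∩ Z).Infinite := by
  obtain ⟨𝓜, h⟩ := zorn_subset {𝓜 : Set (Set (ℕ × ℕ)) | (∀ M ∈ 𝓜, PG M) ∧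
      ∀ M ∈ 𝓜, ∀ M' ∈ 𝓜, M ≠ M' → (M ∩ M').Finite} (by
    intro c hc hch
    refine ⟨⋃₀ c, ⟨?_, ?_⟩, fun s hs => subset_sUnion_of_mem hs⟩
    · rintro M ⟨A, hA, hM⟩
      exact (hc hA).1 M hM
    · rintro M ⟨A, hA, hM⟩ M' ⟨B, hB, hM'⟩ hne
      rcases hch.total hA hB with h | h
      · exact (hc hB).2 M (h hM) M' hM' hne
      · exact (hc hA).2 M hM M' (h hM') hne)
  refine ⟨𝓜, h.prop.1, h.prop.2, fun Z hZ => ?_⟩
  by_contra hc
  push Not at hc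
  have h1 : insert Z 𝓜 ⊆ 𝓜 := h.le_of_ge (y := insert Z 𝓜) ⟨?_, ?_⟩ (subset_insert _ _)
  · have := hc Z (h1 (mem_insert _ _))
    rw [inter_self] at this
    exact hZ.1 this
  · rintro M (rfl | hM)
    · exact hZ
    · exact h.prop.1 M hM
  · rintro M (rfl | hM) M' (rfl | hM') hne
    · exact absurd rfl hne
    · rw [inter_comm]
      exact hc M' hM'
    · exact hc M hM
    · exact h.prop.2 M hM M' hM' hne

theorem Thick.diff {X M : Set (ℕ × ℕ)} (hX : Thick X) (hM : PG M) : Thick (X \ M) :=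
  hX.mono fun n hn => (Set.Infinite.sdiff hn (hM.2 n)).mono fun _ hk => hk

theorem selector (X : ℕ → Set (ℕ × ℕ)) (hX : ∀ n, Thick (X n)) (hm : Antitone X) :
    ∃ Z, PG Z ∧ Z ⊆ X 0 ∧ ∀ n, (Z \ X n).Finite := by
  have h1 : ∀ n, ∃ z ∈ X n, n < z.1 := by
    intro n
    obtain ⟨m, hm1, hm2⟩ := (hX n).exists_gt n
    obtain ⟨k, hk⟩ := Set.Infinite.nonempty hm1
    exact ⟨(m, k), hk, hm2⟩
  choose z hz1 hz2 using h1
  refine ⟨range z, ⟨?_, fun m => ?_⟩, ?_, fun n => ?_⟩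
  · refine Set.Infinite.of_image Prod.fst (infinite_of_forall_exists_gt fun n => ?_)
    exact ⟨(z n).1, ⟨z n, ⟨n, rfl⟩, rfl⟩, hz2 n⟩
  · refine ((finite_lt_nat m).image fun n => (z n).2).subset ?_
    rintro k ⟨n, hn⟩
    have := hz2 n
    rw [hn] at this
    exact ⟨n, this, by simp [hn]⟩
  · rintro _ ⟨n, rfl⟩
    exact hm (Nat.zero_le n) (hz1 n)
  · refine ((finite_lt_nat n).image z).subset ?_
    rintro _ ⟨⟨m, rfl⟩, h2⟩
    refine ⟨m, ?_, rfl⟩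
    by_contra h3
    exact h2 (hm (not_lt.1 h3) (hz1 m))

theorem simon : ∃ (X : Set (ℕ × ℕ)) (𝓙 : Set (Set (ℕ × ℕ))), Thick X ∧ (∀ J ∈ 𝓙, PG J) ∧
    ∀ T ⊆ X, Thick T → (∃ J ∈ 𝓙, (J ∩ T).Infinite) ∧
      ∃ M, PG M ∧ (M ∩ T).Infinite ∧ ∀ J ∈ 𝓙, (J ∩ M).Finite := by
  obtain ⟨𝓜, h1, h2, h3⟩ := exists_mad
  suffices h : ∃ (X : Set (ℕ × ℕ)) (p : ℕ × ℕ), Thick X ∧ ∀ T ⊆ X, Thick T →
      (∃ M ∈ 𝓜, p ∈ M ∧ (M ∩ T).Infinite) ∧ ∃ M ∈ 𝓜, p ∉ M ∧ (M ∩ T).Infinite by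
    obtain ⟨X, p, hX, h⟩ := h
    refine ⟨X, {M ∈ 𝓜 | p ∈ M}, hX, fun J hJ => h1 J hJ.1, fun T hT hT' => ?_⟩
    obtain ⟨⟨M, a1, a2, a3⟩, M', b1, b2, b3⟩ := h T hT hT'
    exact ⟨⟨M, ⟨a1, a2⟩, a3⟩, M', h1 M' b1, b3,
      fun J hJ => h2 J hJ.1 M' b1 fun e => b2 (e ▸ hJ.2)⟩
  by_contra hc
  have h4 : ∀ (n : ℕ) (X : {X // Thick X}), ∃ T : {X // Thick X}, T.1 ⊆ X.1 ∧
      ∀ M ∈ 𝓜, ∀ M' ∈ 𝓜, (M ∩ T.1).Infinite → (M' ∩ T.1).Infinite →
        n.unpair ∈ M → n.unpair ∈ M' := by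
    intro n X
    by_contra h5
    push Not at h5
    refine hc ⟨X.1, n.unpair, X.2, fun T hT hT' => ?_⟩
    obtain ⟨M, a1, M', a2, a3, a4, a5, a6⟩ := h5 ⟨T, hT'⟩ hT
    exact ⟨⟨M, a1, a5, a3⟩, M', a2, a6, a4⟩
  choose F hF1 hF2 using h4
  let X : ℕ → {X // Thick X} := fun n => Nat.rec ⟨univ, by simp [Thick, infinite_univ]⟩ F n
  have hm : Antitone fun n => (X n).1 := antitone_nat_of_succ_le fun n => hF1 n (X n)
  have key : ∀ (M Z : Set (ℕ × ℕ)) (W : Set (ℕ × ℕ)), (M ∩ Z).Infinite → (Z \ W).Finite →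
      (M ∩ W).Infinite := fun M Z W a1 a2 =>
    (a1.sdiff a2).mono fun p hp => ⟨hp.1.1, by_contra fun h => hp.2 ⟨hp.1.2, h⟩⟩
  obtain ⟨Z0, a1, -, a2⟩ := selector (fun n => (X n).1) (fun n => (X n).2) hm
  obtain ⟨M0, a3, a4⟩ := h3 Z0 a1
  obtain ⟨Z1, b1, b0, b2⟩ := selector (fun n => (X n).1 \ M0) (fun n => (X n).2.diff (h1 M0 a3))
    fun _ _ h => sdiff_subset_sdiff_left (hm h)
  obtain ⟨M1, b3, b4⟩ := h3 Z1 b1
  have c0 : ∀ n, (M0 ∩ (X n).1).Infinite := fun n => key _ _ _ a4 (a2 n)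
  have c1 : ∀ n, (M1 ∩ (X n).1).Infinite := fun n =>
    (key _ _ _ b4 (b2 n)).mono (inter_subset_inter_right _ sdiff_subset)
  obtain ⟨p, hp1, hp2⟩ := b4.nonempty
  have := hF2 (Nat.pair p.1 p.2) (X _) M1 b3 M0 a3 (c1 (Nat.pair p.1 p.2 + 1))
    (c0 (Nat.pair p.1 p.2 + 1))
  rw [Nat.unpair_pair] at this
  exact (b0 hp2).2 (this hp1)

/-- the countable space: a top point, the column points and the isolated points -/
inductive Y (X : Set (ℕ × ℕ)) (𝓙 : Set (Set (ℕ × ℕ))) : Type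
  | top : Y X 𝓙
  | col (n : ℕ) : Y X 𝓙
  | pt (p : ℕ × ℕ) : Y X 𝓙

variable {X : Set (ℕ × ℕ)} {𝓙 : Set (Set (ℕ × ℕ))}

instance : Countable (Y X 𝓙) := by
  let f : Option (ℕ ⊕ ℕ × ℕ) → Y X 𝓙 := fun o => o.elim .top (Sum.elim .col .pt)
  refine Function.Surjective.countable (f := f) fun y => ?_
  cases y with
  | top => exact ⟨none, rfl⟩
  | col n => exact ⟨some (.inl n), rfl⟩
  | pt p => exact ⟨some (.inr p), rfl⟩

instance : TopologicalSpace (Y X 𝓙) where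
  IsOpen U := (∀ n, .col n ∈ U → {k | (n, k) ∈ X ∧ .pt (n, k) ∉ U}.Finite) ∧
    (.top ∈ U → {n | .col n ∉ U}.Finite ∧ ∀ J ∈ 𝓙, {p | p ∈ J ∩ X ∧ .pt p ∉ U}.Finite)
  isOpen_univ := by simp
  isOpen_inter := by
    rintro U V ⟨a1, a2⟩ ⟨b1, b2⟩
    refine ⟨fun n hn => ((a1 n hn.1).union (b1 n hn.2)).subset ?_, fun h =>
      ⟨((a2 h.1).1.union (b2 h.2).1).subset ?_,
        fun J hJ => (((a2 h.1).2 J hJ).union ((b2 h.2).2 J hJ)).subset ?_⟩⟩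
    · intro k hk
      simp only [mem_ofPred_eq, mem_union, mem_inter_iff] at hk ⊢
      tauto
    · intro k hk
      simp only [mem_ofPred_eq, mem_union, mem_inter_iff] at hk ⊢
      tauto
    · intro k hk
      simp only [mem_ofPred_eq, mem_union, mem_inter_iff] at hk ⊢
      tauto
  isOpen_sUnion := by
    intro S hS
    refine ⟨fun n ⟨U, hU, hn⟩ => ((hS U hU).1 n hn).subset ?_, fun ⟨U, hU, h⟩ =>
      ⟨((hS U hU).2 h).1.subset ?_, fun J hJ => (((hS U hU).2 h).2 J hJ).subset ?_⟩⟩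
    · exact fun k hk => ⟨hk.1, fun h => hk.2 ⟨U, hU, h⟩⟩
    · exact fun k hk h => hk ⟨U, hU, h⟩
    · exact fun k hk => ⟨hk.1, fun h => hk.2 ⟨U, hU, h⟩⟩

theorem open_iff {U : Set (Y X 𝓙)} : IsOpen U ↔
    (∀ n, .col n ∈ U → {k | (n, k) ∈ X ∧ .pt (n, k) ∉ U}.Finite) ∧
    (.top ∈ U → {n | .col n ∉ U}.Finite ∧ ∀ J ∈ 𝓙, {p | p ∈ J ∩ X ∧ .pt p ∉ U}.Finite) :=
  Iff.rfl

instance : T1Space (Y X 𝓙) := by
  refine ⟨fun y => ⟨open_iff.2 ⟨fun n _ => ?_, fun _ => ⟨?_, fun J _ => ?_⟩⟩⟩⟩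
  · refine Set.Subsingleton.finite fun a ha b hb => ?_
    simp only [mem_ofPred_eq, mem_compl_iff, mem_singleton_iff, not_not] at ha hb
    have := ha.2.trans hb.2.symm
    simpa using this
  · refine Set.Subsingleton.finite fun a ha b hb => ?_
    simp only [mem_ofPred_eq, mem_compl_iff, mem_singleton_iff, not_not] at ha hb
    have := ha.trans hb.symm
    simpa using this
  · refine Set.Subsingleton.finite fun a ha b hb => ?_
    simp only [mem_ofPred_eq, mem_compl_iff, mem_singleton_iff, not_not] at ha hb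
    have := ha.2.trans hb.2.symm
    simpa using this

theorem seq_of_infinite {Z ι : Type} [TopologicalSpace Z] (e : ι → Z) (B : Set ι)
    (hB : B.Infinite) (s : Set Z) (hs : ∀ i ∈ B, e i ∈ s) (a : Z)
    (h : ∀ U, IsOpen U → a ∈ U → {i | i ∈ B ∧ e i ∉ U}.Finite) : a ∈ seqClosure s := by
  refine ⟨fun n => e (hB.natEmbedding B n), fun n => hs _ (hB.natEmbedding B n).2, ?_⟩
  rw [← Nat.cofinite_eq_atTop]
  refine tendsto_nhds.2 fun U hU ha => ?_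
  have hi : Function.Injective fun n => ((hB.natEmbedding B n : B) : ι) :=
    Subtype.val_injective.comp (hB.natEmbedding B).injective
  exact ((h U hU ha).preimage hi.injOn).subset fun n hn => ⟨(hB.natEmbedding B n).2, hn⟩

theorem frechet (h : ∀ T ⊆ X, Thick T → ∃ J ∈ 𝓙, (J ∩ T).Infinite) :
    FrechetUrysohnSpace (Y X 𝓙) := by
  refine ⟨fun s a ha => ?_⟩
  by_cases has : a ∈ s
  · exact subset_seqClosure has
  rw [mem_closure_iff] at ha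
  cases a with
  | pt p =>
    obtain ⟨_, rfl, h2⟩ := ha {.pt p} (open_iff.2 (by simp)) rfl
    exact absurd h2 has
  | col n =>
    by_cases h1 : {k | (n, k) ∈ X ∧ Y.pt (n, k) ∈ s}.Infinite
    · exact seq_of_infinite (fun k => Y.pt (n, k)) _ h1 s (fun _ hk => hk.2) _
        fun U hU hn => ((open_iff.1 hU).1 n hn).subset fun k hk => ⟨hk.1.1, hk.2⟩
    · obtain ⟨z, hz1, hz2⟩ := ha {z | z = .col n ∨ ∃ p, z = .pt p ∧ z ∉ s}
        (open_iff.2 ⟨fun m hm => by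
          have : m = n := by simpa using hm
          subst this
          simpa using h1, by simp⟩) (Or.inl rfl)
      rcases hz1 with rfl | ⟨_, -, h2⟩
      · exact absurd hz2 has
      · exact absurd hz2 h2
  | top =>
    by_cases h1 : {n | Y.col n ∈ s}.Infinite
    · exact seq_of_infinite Y.col _ h1 s (fun _ hk => hk) _
        fun U hU hn => ((open_iff.1 hU).2 hn).1.subset fun k hk => hk.2
    by_cases h2 : ∃ J ∈ 𝓙, (J ∩ {p | p ∈ X ∧ Y.pt p ∈ s}).Infinite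
    · obtain ⟨J, hJ, h2⟩ := h2
      exact seq_of_infinite Y.pt _ h2 s (fun _ hk => hk.2.2) _
        fun U hU hn => (((open_iff.1 hU).2 hn).2 J hJ).subset fun k hk =>
          ⟨⟨hk.1.1, hk.1.2.1⟩, hk.2⟩
    have h3 : ¬ Thick {p | p ∈ X ∧ Y.pt p ∈ s} := fun h3 => h2 (h _ (fun _ hp => hp.1) h3)
    push Not at h2
    obtain ⟨z, hz1, hz2⟩ := ha {z | z ∉ s ∧ ∀ n, z = .col n →
        {k | (n, k) ∈ X ∧ Y.pt (n, k) ∈ s}.Finite}
      (open_iff.2 ⟨fun m hm => by simpa using hm.2 m rfl, fun _ => ⟨by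
        refine ((not_infinite.1 h1).union (not_infinite.1 h3)).subset fun n hn => ?_
        by_cases h4 : Y.col n ∈ s
        · exact Or.inl h4
        · right
          simpa [h4] using hn, fun J hJ => (h2 J hJ).subset fun p hp =>
        ⟨hp.1.1, hp.1.2, by simpa using hp.2⟩⟩⟩) ⟨has, by simp⟩
    exact absurd hz2 hz1.1

theorem regular (h : ∀ J ∈ 𝓙, PG J) : RegularSpace (Y X 𝓙) := by
  refine RegularSpace.of_exists_mem_nhds_isClosed_subset fun a s hs => ?_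
  obtain ⟨U, hUs, hU, ha⟩ := mem_nhds_iff.1 hs
  have hcol : ∀ (n : ℕ) (J), J ∈ 𝓙 → {p : ℕ × ℕ | p ∈ J ∧ p.1 = n}.Finite := fun n J hJ =>
    (((h J hJ).2 n).image fun k => (n, k)).subset fun p hp =>
      ⟨p.2, by simpa [← hp.2] using hp.1, by simp [← hp.2]⟩
  cases a with
  | pt p =>
    exact ⟨{.pt p}, IsOpen.mem_nhds (open_iff.2 (by simp)) rfl, isClosed_singleton,
      singleton_subset_iff.2 (hUs ha)⟩
  | col n =>
    refine ⟨{z | z ∈ U ∧ (z = .col n ∨ ∃ k, z = .pt (n, k))},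
      IsOpen.mem_nhds (open_iff.2 ⟨fun m hm => ?_, by simp⟩) ⟨ha, Or.inl rfl⟩,
      ⟨open_iff.2 ⟨fun m hm => ?_, fun _ => ⟨?_, fun J hJ => ?_⟩⟩⟩, fun z hz => hUs hz.1⟩
    · have : m = n := by simpa using hm.2
      subst this
      simpa using (open_iff.1 hU).1 m ha
    · have : m ≠ n := by
        rintro rfl
        exact hm ⟨ha, Or.inl rfl⟩
      simp [this]
    · refine (finite_singleton n).subset fun m hm => ?_
      simp only [mem_ofPred_eq, mem_compl_iff, not_not] at hm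
      simpa using hm.2
    · refine (hcol n J hJ).subset fun p hp => ?_
      simp only [mem_ofPred_eq, mem_compl_iff, not_not] at hp
      obtain ⟨k, hk⟩ : ∃ k, p = (n, k) := by simpa using hp.2.2
      exact ⟨hp.1.1, by rw [hk]⟩
  | top =>
    obtain ⟨a1, a2⟩ := open_iff.1 hU
    refine ⟨{z | z ∈ U ∧ ∀ p, z = .pt p → .col p.1 ∈ U},
      IsOpen.mem_nhds (open_iff.2 ⟨fun m hm => ?_, fun _ => ⟨?_, fun J hJ => ?_⟩⟩) ⟨ha, by simp⟩,
      ⟨open_iff.2 ⟨fun m hm => ?_, fun h => absurd ⟨ha, by simp⟩ h⟩⟩, fun z hz => hUs hz.1⟩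
    · simpa [hm.1] using a1 m hm.1
    · simpa using (a2 ha).1
    · refine (((a2 ha).2 J hJ).union ((a2 ha).1.biUnion fun n _ => hcol n J hJ)).subset
        fun p hp => ?_
      by_cases h1 : Y.pt p ∈ U
      · right
        have : Y.col p.1 ∉ U := fun h2 => hp.2 ⟨h1, fun q hq => by
          cases hq
          exact h2⟩
        exact mem_biUnion this ⟨hp.1.1, rfl⟩
      · exact Or.inl ⟨hp.1, h1⟩
    · have : Y.col m ∉ U := by simpa using hm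
      simp [this]

theorem semistrat (Z : Type) [TopologicalSpace Z] [T1Space Z] [Countable Z] [Nonempty Z] :
    ∃ G : Set Z → ℕ → Set Z,
      (∀ F : Set Z, IsClosed F → ∀ n, IsOpen (G F n)) ∧
      (∀ F : Set Z, IsClosed F → ⋂ n, G F n = F) ∧
      (∀ F K : Set Z, IsClosed F → IsClosed K → F ⊆ K → ∀ n, G F n ⊆ G K n) := by
  obtain ⟨e, he⟩ := exists_surjective_nat Z
  refine ⟨fun F n => ({e n} \ F)ᶜ, fun F _ n =>
    ((finite_singleton _).subset sdiff_subset).isClosed.isOpen_compl, fun F _ => ?_,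
    fun F K _ _ h n => compl_subset_compl.2 (sdiff_subset_sdiff_right h)⟩
  ext z
  simp only [mem_iInter, mem_compl_iff, Set.mem_sdiff, mem_singleton_iff, not_and, not_not]
  obtain ⟨n, rfl⟩ := he z
  exact ⟨fun h => h n rfl, fun h _ _ => h⟩

theorem not_image (hX : Thick X)
    (h : ∀ T ⊆ X, Thick T → ∃ M, PG M ∧ (M ∩ T).Infinite ∧ ∀ J ∈ 𝓙, (J ∩ M).Finite)
    (Z : Type) [TopologicalSpace Z] [FirstCountableTopology Z] (f : Z → Y X 𝓙)
    (hf : Continuous f) (hc : IsClosedMap f) (hs : Function.Surjective f) : False := by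
  obtain ⟨g, hg⟩ := hs.hasRightInverse
  have h1 : ∀ n, ∃ x, {k | (n, k) ∈ X}.Infinite →
      x ∈ closure (g '' (Y.pt '' {p | p ∈ X ∧ p.1 = n})) ∧ f x = .col n := by
    intro n
    by_cases hn : {k | (n, k) ∈ X}.Infinite
    · have h2 : Y.col n ∈ closure (f '' (g '' (Y.pt '' {p | p ∈ X ∧ p.1 = n}))) := by
        rw [hg.image_image, mem_closure_iff]
        intro U hU h3
        obtain ⟨k, a1, a2⟩ := (hn.sdiff ((open_iff.1 hU).1 n h3)).nonempty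
        exact ⟨_, by_contra fun a3 => a2 ⟨a1, a3⟩, (n, k), ⟨a1, rfl⟩, rfl⟩
      obtain ⟨x, a1, a2⟩ := hc.closure_image_subset _ h2
      exact ⟨x, fun _ => ⟨a1, a2⟩⟩
    · exact ⟨g .top, fun a => absurd a hn⟩
  choose x hx using h1
  have h2 : Y.top ∈ closure (f '' (x '' {n | {k | (n, k) ∈ X}.Infinite})) := by
    rw [mem_closure_iff]
    intro U hU h3
    obtain ⟨n, a1, a2⟩ := (Set.Infinite.sdiff hX ((open_iff.1 hU).2 h3).1).nonempty
    exact ⟨_, (hx n a1).2 ▸ not_not.1 a2, x n, ⟨n, a1, rfl⟩, rfl⟩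
  obtain ⟨w, hw1, hw2⟩ := hc.closure_image_subset _ h2
  obtain ⟨B, hB⟩ := (𝓝 w).exists_antitone_basis
  have h3 : ∀ j : ℕ, ∃ n, j ≤ n ∧ {k | (n, k) ∈ X ∧ g (.pt (n, k)) ∈ B j}.Infinite := by
    intro j
    have a1 : IsOpen (f ⁻¹' (Y.col '' {m | m < j})ᶜ) :=
      ((finite_lt_nat j).image _).isClosed.isOpen_compl.preimage hf
    obtain ⟨_, ⟨a2, a3⟩, n, a4, rfl⟩ := mem_closure_iff.1 hw1 _ (isOpen_interior.inter a1)
      ⟨mem_interior_iff_mem_nhds.2 (hB.mem j), by simp [hw2]⟩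
    refine ⟨n, not_lt.1 fun a5 => a3 ⟨n, a5, (hx n a4).2.symm⟩, fun a5 => ?_⟩
    have a6 : IsOpen (f ⁻¹' ((fun k => Y.pt (n, k)) ''
        {k | (n, k) ∈ X ∧ g (.pt (n, k)) ∈ B j})ᶜ) :=
      (a5.image _).isClosed.isOpen_compl.preimage hf
    obtain ⟨_, ⟨b1, b2⟩, _, ⟨⟨m, k⟩, ⟨b3, rfl⟩, rfl⟩, rfl⟩ := mem_closure_iff.1 (hx n a4).1 _
      (isOpen_interior.inter a6) ⟨a2, by simp [(hx n a4).2]⟩
    exact b2 ⟨k, ⟨b3, interior_subset b1⟩, (hg _).symm⟩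
  choose N hN1 hN2 using h3
  obtain ⟨M, a1, a2, a3⟩ := h {p | p ∈ X ∧ ∃ j, p.1 = N j ∧ g (.pt p) ∈ B j} (fun _ hp => hp.1)
    (infinite_of_forall_exists_gt fun j => ⟨N (j + 1),
      (hN2 (j + 1)).mono fun k hk => ⟨hk.1, j + 1, rfl, hk.2⟩, hN1 (j + 1)⟩)
  have a4 : IsOpen (Y.pt '' M : Set (Y X 𝓙))ᶜ :=
    open_iff.2 ⟨fun n _ => (a1.2 n).subset fun k hk => by simpa using hk.2,
      fun _ => ⟨by simp, fun J hJ => (a3 J hJ).subset fun p hp => ⟨hp.1.1, by simpa using hp.2⟩⟩⟩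
  obtain ⟨j0, hj0⟩ := hB.mem_iff.1 ((a4.preimage hf).mem_nhds (by simp [hw2]))
  refine a2 (((finite_lt_nat j0).biUnion fun j _ =>
    (a1.2 (N j)).image fun k => (N j, k)).subset ?_)
  rintro ⟨m, k⟩ ⟨b1, -, j, rfl, b2⟩
  refine mem_biUnion (x := j) ?_ ⟨k, b1, rfl⟩
  by_contra b3
  exact hj0 (hB.antitone (not_lt.1 b3) b2) ⟨_, b1, (hg _).symm⟩

theorem first_countable (Z : Type) [TopologicalSpace Z] (d : Z → Z → ℝ)
    (h : ∀ x, (nhds x).HasBasis (fun ε : ℝ => 0 < ε) (fun ε => {y | d x y < ε})) :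
    FirstCountableTopology Z := by
  refine ⟨fun x => ?_⟩
  have : (nhds x).HasBasis (fun _ : ℕ => True) (fun n => {y | d x y < 1 / ((n : ℝ) + 1)}) :=
    (h x).to_hasBasis (fun ε hε => by
      obtain ⟨n, hn⟩ := exists_nat_one_div_lt hε
      exact ⟨n, trivial, fun y hy => lt_trans hy hn⟩)
      fun n _ => ⟨_, Nat.one_div_pos_of_nat, subset_rfl⟩
  exact this.isCountablyGenerated

end Pool.Agent.H5.Creede
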