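import Mathlib

set_option autoImplicit false

namespace Pool.Agent.H5.Cvx

open Finset MeasureTheory ProbabilityTheory
open scoped NNReal ENNReal

/-- discrete convexity on the first `n` indices -/
def Cv (n : ℕ) (θ : ℕ → ℝ) : Prop := ∀ i, i + 2 < n → θ (i + 1) - θ i ≤ θ (i + 2) - θ (i + 1)

theorem slope_mono {n : ℕ} {θ : ℕ → ℝ} (h : Cv n θ) (i j : ℕ) (hij : i ≤ j) (hj : j + 1 < n) :
    θ (i + 1) - θ i ≤ θ (j + 1) - θ j := by
  induction j, hij using Nat.le_induction with
  | base => exact le_rfl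
  | succ j hij ih => exact (ih (by omega)).trans (h j (by omega))

theorem shift_le {n : ℕ} {θ : ℕ → ℝ} (h : Cv n θ) (p t u : ℕ) (hu : p + t + u < n) :
    θ (p + u) - θ p ≤ θ (p + t + u) - θ (p + t) := by
  induction u with
  | zero => simp
  | succ u ih =>
    have h1 := ih (by omega)
    have h2 := slope_mono h (p + u) (p + t + u) (by omega) (by omega)
    rw [← add_assoc, ← add_assoc]
    linarith

theorem sum_inj_le (n T : ℕ) (g : ℕ → ℝ) (hg : ∀ i, 0 ≤ g i) (φ : ℕ → ℕ)
    (hφ : ∀ t ∈ range T, φ t < n) (hi : Set.InjOn φ (range T)) :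
    ∑ t ∈ range T, g (φ t) ≤ ∑ i ∈ range n, g i := by
  rw [← sum_image hi]
  refine sum_le_sum_of_subset_of_nonneg ?_ fun i _ _ => hg i
  intro i hi'
  obtain ⟨t, ht, rfl⟩ := mem_image.1 hi'
  exact mem_range.2 (hφ t ht)

theorem min_bound {n : ℕ} {θ : ℕ → ℝ} (h : Cv n θ) (a : ℕ) (ha : a < n) (L : ℝ) (hL0 : 0 ≤ L)
    (hL : ∑ i ∈ range n, |θ i| ≤ n * L) : -(12 * L) ≤ θ a := by
  have key : ∀ (T : ℕ) (φ ψ : ℕ → ℕ), n ≤ 4 * T → (∀ t ∈ range T, φ t < n) →
      (∀ t ∈ range T, ψ t < n) → Set.InjOn φ (range T) → Set.InjOn ψ (range T) →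
      (∀ t ∈ range T, 2 * θ (φ t) ≤ θ a + θ (ψ t)) → -(12 * L) ≤ θ a := by
    intro T φ ψ hT h1 h2 h3 h4 h5
    have h6 := sum_inj_le n T (fun i => |θ i|) (fun _ => abs_nonneg _) φ h1 h3
    have h7 := sum_inj_le n T (fun i => |θ i|) (fun _ => abs_nonneg _) ψ h2 h4
    have h8 : ∑ _t ∈ range T, -θ a ≤ ∑ t ∈ range T, (|θ (ψ t)| + 2 * |θ (φ t)|) :=
      sum_le_sum fun t ht => by
        have := h5 t ht
        have := le_abs_self (θ (ψ t))
        have := neg_abs_le (θ (φ t))
        linarith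
    rw [sum_add_distrib, ← mul_sum, sum_const, card_range, nsmul_eq_mul] at h8
    have h9 : (n : ℝ) ≤ 4 * T := by exact_mod_cast hT
    have h10 : (0 : ℝ) < n := by exact_mod_cast (Nat.zero_le a).trans_lt ha
    have h11 : (T : ℝ) * -θ a ≤ T * (12 * L) := by nlinarith
    have h12 : (0 : ℝ) < T := by linarith
    have := le_of_mul_le_mul_left h11 h12
    linarith
  rcases le_total (2 * a) n with hc | hc
  · refine key ((n - 1 - a) / 2 + 1) (fun t => a + t) (fun t => a + t + t) (by omega) ?_ ?_ ?_ ?_ ?_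
    · intro t ht
      have := mem_range.1 ht
      omega
    · intro t ht
      have := mem_range.1 ht
      omega
    · intro t _ s _ hts
      dsimp only at hts
      omega
    · intro t _ s _ hts
      dsimp only at hts
      omega
    · intro t ht
      have := mem_range.1 ht
      have := shift_le h a t t (by omega)
      linarith
  · refine key (a / 2 + 1) (fun t => a - t) (fun t => a - t - t) (by omega) ?_ ?_ ?_ ?_ ?_
    · intro t ht
      omega
    · intro t ht
      omega
    · intro t ht s hs hts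
      have := mem_range.1 (mem_coe.1 ht)
      have := mem_range.1 (mem_coe.1 hs)
      dsimp only at hts
      omega
    · intro t ht s hs hts
      have := mem_range.1 (mem_coe.1 ht)
      have := mem_range.1 (mem_coe.1 hs)
      dsimp only at hts
      omega
    · intro t ht
      have := mem_range.1 ht
      have h1 := shift_le h (a - t - t) t t (by omega)
      rw [show a - t - t + t = a - t by omega, show a - t + t = a by omega] at h1
      linarith

theorem var_ineq {n : ℕ} {Y θ : ℕ → ℝ}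
    (hopt : ∀ θ', Cv n θ' → ∑ i ∈ range n, (Y i - θ i) ^ 2 ≤ ∑ i ∈ range n, (Y i - θ' i) ^ 2)
    (d : ℕ → ℝ) (s0 : ℝ) (hs0 : 0 < s0)
    (hd : ∀ s, 0 < s → s ≤ s0 → Cv n (fun i => θ i + s * d i)) :
    ∑ i ∈ range n, (Y i - θ i) * d i ≤ 0 := by
  set a := ∑ i ∈ range n, (Y i - θ i) * d i
  set b := ∑ i ∈ range n, d i ^ 2
  have hb : 0 ≤ b := sum_nonneg fun _ _ => sq_nonneg _
  have h1 : ∀ s, 0 < s → s ≤ s0 → 2 * a ≤ s * b := by
    intro s hs hs'
    have h2 := hopt _ (hd s hs hs')
    have h3 : ∑ i ∈ range n, (Y i - (θ i + s * d i)) ^ 2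
        = ∑ i ∈ range n, (Y i - θ i) ^ 2 - 2 * s * a + s ^ 2 * b := by
      simp only [a, b, mul_sum, ← sum_sub_distrib, ← sum_add_distrib]
      exact sum_congr rfl fun i _ => by ring
    rw [h3] at h2
    have h4 : s * (2 * a) ≤ s * (s * b) := by nlinarith
    exact le_of_mul_le_mul_left h4 hs
  by_contra hc
  push Not at hc
  have h5 := h1 (min s0 (a / (b + 1))) (lt_min hs0 (by positivity)) (min_le_left _ _)
  have h6 : min s0 (a / (b + 1)) * b ≤ a / (b + 1) * b :=
    mul_le_mul_of_nonneg_right (min_le_right _ _) hb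
  have h7 : a / (b + 1) * b ≤ a := by
    rw [div_mul_eq_mul_div, div_le_iff₀ (by positivity)]
    nlinarith
  linarith

theorem abel (Z : ℕ → ℝ) (k : ℕ) (h : ∀ j ≤ k, ∑ i ∈ range j, Z i ≤ 0) :
    ∑ i ∈ range k, ((k : ℝ) - i) * Z i ≤ 0 := by
  induction k with
  | zero => simp
  | succ k ih =>
    have h1 := ih fun j hj => h j (by omega)
    have h2 := h (k + 1) le_rfl
    have h3 : ∑ i ∈ range (k + 1), (((k + 1 : ℕ) : ℝ) - i) * Z i
        = ∑ i ∈ range (k + 1), ((k : ℝ) - i) * Z i + ∑ i ∈ range (k + 1), Z i := by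
      rw [← sum_add_distrib]
      exact sum_congr rfl fun i _ => by push_cast; ring
    rw [h3, sum_range_succ (fun i => ((k : ℝ) - i) * Z i)]
    simp only [sub_self, zero_mul, add_zero]
    linarith

theorem s1 (k : ℕ) : ∑ i ∈ range k, (i : ℝ) = k * (k - 1) / 2 := by
  induction k with
  | zero => simp
  | succ k ih => rw [sum_range_succ, ih]; push_cast; ring

theorem s2 (k : ℕ) : ∑ i ∈ range k, (i : ℝ) ^ 2 = (k - 1) * k * (2 * k - 1) / 6 := by
  induction k with
  | zero => simp
  | succ k ih => rw [sum_range_succ, ih]; push_cast; ring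

theorem det {n : ℕ} (hn : 3 ≤ n) {Y θ : ℕ → ℝ} (hc : Cv n θ)
    (hopt : ∀ θ', Cv n θ' → ∑ i ∈ range n, (Y i - θ i) ^ 2 ≤ ∑ i ∈ range n, (Y i - θ' i) ^ 2)
    (U Q : ℝ) (hU0 : 0 ≤ U) (hQ0 : 0 ≤ Q) (hU : ∀ j ≤ n, ∑ i ∈ range j, Y i ≤ j * U)
    (hQ : ∑ i ∈ range n, Y i ^ 2 ≤ n * Q) : Y 0 ≤ θ 0 ∧ θ 0 ≤ 2 * U + 12 * (1 + 4 * Q) := by
  classical
  constructor
  · have h1 := var_ineq hopt (fun i => if i = 0 then 1 else 0) 1 one_pos (by
      intro s hs _ i hi
      have := hc i hi
      by_cases h0 : i = 0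
      · subst h0
        simp
        linarith
      · simp [h0]
        linarith)
    rw [sum_eq_single 0] at h1
    · simpa using h1
    · intro i _ hi
      simp [hi]
    · intro h
      exact absurd (mem_range.2 (by omega)) h
  have hL : ∑ i ∈ range n, |θ i| ≤ n * (1 + 4 * Q) := by
    have h1 := hopt (fun _ => 0) (fun _ _ => by simp)
    simp only [sub_zero] at h1
    have h2 : ∑ i ∈ range n, |θ i| ≤ ∑ i ∈ range n, (1 + 2 * (Y i - θ i) ^ 2 + 2 * Y i ^ 2) :=
      sum_le_sum fun i _ => by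
        have := sq_abs (θ i)
        nlinarith [sq_nonneg (|θ i| - 1), sq_nonneg (2 * Y i - θ i), abs_nonneg (θ i)]
    rw [sum_add_distrib, sum_add_distrib, ← mul_sum, ← mul_sum, sum_const, card_range,
      nsmul_eq_mul] at h2
    linarith
  have hex : ∃ i, i + 2 = n ∨ θ (i + 1) - θ i < θ (i + 2) - θ (i + 1) := ⟨n - 2, Or.inl (by omega)⟩
  set m := Nat.find hex with hm
  have hm2 : m + 2 ≤ n := by
    have : m ≤ n - 2 := Nat.find_min' hex (Or.inl (by omega))
    omega
  have hlin : ∀ i, i < m → θ (i + 2) - θ (i + 1) = θ (i + 1) - θ i := by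
    intro i hi
    have h1 := Nat.find_min hex hi
    push Not at h1
    exact le_antisymm h1.2 (hc i (by omega))
  set s := θ 0 - θ 1 with hs
  have hlin1 : ∀ i, i ≤ m → θ (i + 1) - θ i = -s := by
    intro i hi
    induction i with
    | zero => simp [hs]
    | succ i ih => rw [← ih (by omega)]; exact hlin i (by omega)
  have hlin2 : ∀ i, i ≤ m + 1 → θ i = θ 0 - s * i := by
    intro i hi
    induction i with
    | zero => simp
    | succ i ih =>
      have := hlin1 i (by omega)
      have := ih (by omega)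
      push_cast
      linarith
  obtain ⟨s0, hs0, hs0'⟩ : ∃ s0 : ℝ, 0 < s0 ∧
      (m + 2 < n → s0 ≤ θ (m + 2) - θ (m + 1) - (θ (m + 1) - θ m)) := by
    rcases Nat.find_spec hex with h | h
    · exact ⟨1, one_pos, fun h' => absurd h (by omega)⟩
    · exact ⟨_, sub_pos.2 h, fun _ => le_rfl⟩
  have h1 := var_ineq hopt (fun i => if i ≤ m + 1 then -(((m + 1 : ℕ) : ℝ) - i) else 0) s0 hs0 (by
    intro t ht ht' i hi
    have h2 := hc i hi
    dsimp only
    rcases lt_trichotomy i m with h | h | h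
    · rw [if_pos (by omega), if_pos (by omega), if_pos (by omega)]
      push_cast
      linarith
    · subst h
      have := hs0' hi
      rw [if_pos (by omega), if_pos (by omega), if_neg (by omega)]
      push_cast
      linarith
    · rw [if_neg (show ¬ i + 1 ≤ m + 1 by omega), if_neg (show ¬ i + 2 ≤ m + 1 by omega)]
      by_cases h3 : i ≤ m + 1
      · have : i = m + 1 := by omega
        subst this
        simp
        linarith
      · rw [if_neg h3]
        linarith)
  have h3 : ∑ i ∈ range n, (Y i - θ i) * (if i ≤ m + 1 then -(((m + 1 : ℕ) : ℝ) - i) else 0)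
      = ∑ i ∈ range (m + 1), (Y i - θ i) * -(((m + 1 : ℕ) : ℝ) - i) := by
    symm
    refine sum_subset_zero_on_sdiff (range_subset_range.2 (by omega)) ?_ ?_
    · intro i hi
      have h4 : ¬ i < m + 1 := fun h => (mem_sdiff.1 hi).2 (mem_range.2 h)
      by_cases h3 : i ≤ m + 1
      · have : i = m + 1 := by omega
        subst this
        simp
      · simp [h3]
    · intro i hi
      rw [if_pos (mem_range.1 hi).le]
  rw [h3] at h1
  have h4 := abel (fun i => Y i - U) (m + 1) (by
    intro j hj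
    rw [sum_sub_distrib, sum_const, card_range, nsmul_eq_mul]
    linarith [hU j (by omega)])
  set k : ℝ := ((m + 1 : ℕ) : ℝ) with hk
  have hk1 : 1 ≤ k := by
    rw [hk]
    exact_mod_cast Nat.succ_pos m
  have h5 : ∑ i ∈ range (m + 1), (k - i) * (θ 0 - s * i - U) ≤ 0 := by
    have : ∑ i ∈ range (m + 1), (k - i) * (θ 0 - s * i - U) = ∑ i ∈ range (m + 1),
        (Y i - θ i) * -(k - i) + ∑ i ∈ range (m + 1), (k - i) * (Y i - U) := by
      rw [← sum_add_distrib]
      refine sum_congr rfl fun i hi => ?_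
      rw [hlin2 i (mem_range.1 hi).le]
      ring
    linarith
  have h6 : ∑ i ∈ range (m + 1), (k - i) * (θ 0 - s * i - U)
      = k * (k + 1) / 2 * (θ 0 - U - s * (k - 1) / 3) := by
    have : ∑ i ∈ range (m + 1), (k - i) * (θ 0 - s * i - U) = ∑ i ∈ range (m + 1),
        (k * (θ 0 - U) - (k * s + (θ 0 - U)) * i + s * (i : ℝ) ^ 2) :=
      sum_congr rfl fun i _ => by ring
    rw [this, sum_add_distrib, sum_sub_distrib, ← mul_sum, ← mul_sum, ← mul_sum, s1, s2, sum_const,
      card_range, nsmul_eq_mul, ← hk]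
    ring
  rw [h6] at h5
  have h7 : θ 0 - U - s * (k - 1) / 3 ≤ 0 := by
    by_contra h
    push Not at h
    have : 0 < k * (k + 1) / 2 * (θ 0 - U - s * (k - 1) / 3) := by positivity
    linarith
  have h8 := min_bound hc (m + 1) (by omega) (1 + 4 * Q) (by positivity) hL
  rw [hlin2 (m + 1) le_rfl, ← hk] at h8
  rcases le_total s 0 with h | h
  · nlinarith
  · nlinarith

theorem coord_subg (n : ℕ) (v : ℝ≥0) (i : Fin n) :
    HasSubgaussianMGF (fun ω : Fin n → ℝ => ω i) v (Measure.pi fun _ => gaussianReal 0 v) := by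
  have h1 : HasSubgaussianMGF id v (gaussianReal 0 v) :=
    ⟨integrable_exp_mul_gaussianReal, fun t => by rw [mgf_id_gaussianReal]; simp⟩
  rw [← HasSubgaussianMGF.id_map_iff (measurable_pi_apply i).aemeasurable]
  have h2 : Measure.map (fun ω : Fin n → ℝ => ω i) (Measure.pi fun _ => gaussianReal 0 v)
      = gaussianReal 0 v := (measurePreserving_eval (fun _ : Fin n => gaussianReal 0 v) i).map_eq
  rw [h2]
  exact h1

theorem sq_markov (n : ℕ) (hn : 0 < n) (v : ℝ≥0) (M : ℝ) (hM : 0 < M) :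
    (Measure.pi fun _ : Fin n => gaussianReal 0 v).real {ω | n * M ≤ ∑ i, ω i ^ 2} ≤ v / M := by
  have h0 : ∫ x, x ^ 2 ∂gaussianReal 0 v = v := by
    have h := variance_fun_id_gaussianReal (μ := 0) (v := v)
    rw [variance_eq_integral measurable_id'.aemeasurable] at h
    simpa using h
  have hi : Integrable (fun x : ℝ => x ^ 2) (gaussianReal 0 v) :=
    (memLp_id_gaussianReal' (μ := 0) (v := v) 2 (by simp)).integrable_sq
  have h1 : ∀ i : Fin n, Integrable (fun ω : Fin n → ℝ => ω i ^ 2)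
      (Measure.pi fun _ => gaussianReal 0 v) := fun i =>
    (measurePreserving_eval (fun _ : Fin n => gaussianReal 0 v) i).integrable_comp_of_integrable hi
  have h2 : ∀ i : Fin n, ∫ ω : Fin n → ℝ, ω i ^ 2 ∂(Measure.pi fun _ => gaussianReal 0 v) = v := by
    intro i
    have h4 : Measure.map (fun ω : Fin n → ℝ => ω i) (Measure.pi fun _ => gaussianReal 0 v)
      = gaussianReal 0 v := (measurePreserving_eval (fun _ : Fin n => gaussianReal 0 v) i).map_eq
    have := integral_map (μ := Measure.pi fun _ : Fin n => gaussianReal 0 v)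
      (φ := fun ω : Fin n → ℝ => ω i) (measurable_pi_apply i).aemeasurable
      (f := fun x : ℝ => x ^ 2) (by fun_prop)
    rw [h4] at this
    rw [← this, h0]
  have h3 := mul_meas_ge_le_integral_of_nonneg
    (μ := Measure.pi fun _ : Fin n => gaussianReal 0 v) (f := fun ω => ∑ i, ω i ^ 2)
    (Filter.Eventually.of_forall fun ω => sum_nonneg fun _ _ => sq_nonneg _)
    (integrable_finsetSum _ fun i _ => h1 i) (n * M)
  rw [integral_finsetSum _ fun i _ => h1 i] at h3
  simp only [h2, sum_const, card_univ, Fintype.card_fin, nsmul_eq_mul] at h3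
  have hn' : (0 : ℝ) < n := by exact_mod_cast hn
  rw [le_div_iff₀ hM]
  refine le_of_mul_le_mul_left ?_ hn'
  linarith

theorem psum_tail (n : ℕ) (v : ℝ≥0) (hv : 0 < v) (M : ℝ) (hM : 0 ≤ M) (j : ℕ) (hj : j < n) :
    (Measure.pi fun _ : Fin n => gaussianReal 0 v).real
      {ω | ((j + 1 : ℕ) : ℝ) * M ≤ ∑ i ∈ univ.filter (fun i : Fin n => (i : ℕ) < j + 1), ω i}
      ≤ Real.exp (-M ^ 2 / (2 * v)) ^ (j + 1) := by
  have h := HasSubgaussianMGF.measure_sum_ge_le_of_iIndepFun
    (iIndepFun_pi (μ := fun _ : Fin n => gaussianReal 0 v) (X := fun _ => id)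
      fun _ => aemeasurable_id) (c := fun _ => v)
    (s := univ.filter (fun i : Fin n => (i : ℕ) < j + 1)) (fun i _ => coord_subg n v i)
    (ε := ((j + 1 : ℕ) : ℝ) * M) (by positivity)
  refine h.trans (le_of_eq ?_)
  rw [← Real.exp_nat_mul, sum_const, Fin.card_filter_val_lt, min_eq_right (by omega)]
  congr 1
  have : (0 : ℝ) < v := hv
  simp only [nsmul_eq_mul, NNReal.coe_mul, NNReal.coe_natCast]
  field_simp

end Pool.Agent.H5.Cvx
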