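import Mathlib

open Set Filter Topology MeasureTheory
open scoped Uniformity

namespace Pool.Agent.H5.Delta

variable {X : Type*} [NormedAddCommGroup X]

/-- upward closed -/
def Up (J : Set ℝ) : Prop := ∀ t ∈ J, ∀ a, 0 ≤ a → t + a ∈ J

def Back (J : Set ℝ) : Prop := ∀ a : ℝ, ∃ R, ∀ t ∈ J, R ≤ |t| → t - a ∈ J

def Bdd (J : Set ℝ) (w : ℝ → X) : Prop := ∃ C, ∀ t ∈ J, ‖w t‖ ≤ C

def Small (J : Set ℝ) (w : ℝ → X) : Prop := ∀ ε > 0, ∃ R, ∀ t ∈ J, R ≤ |t| → ‖w t‖ ≤ ε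

def LocUC (J : Set ℝ) (w : ℝ → X) : Prop := ∀ R, UniformContinuousOn w (J ∩ Icc (-R) R)

theorem up_back {J : Set ℝ} (h : (∃ α, J = Ici α) ∨ (∃ α, J = Ioi α) ∨ J = univ) :
    Up J ∧ Back J := by
  rcases h with ⟨α, rfl⟩ | ⟨α, rfl⟩ | rfl
  · refine ⟨fun t ht a ha => by simp only [mem_Ici] at *; linarith, fun a =>
      ⟨|α| + |a| + 1, fun t ht hR => ?_⟩⟩
    simp only [mem_Ici] at *
    cases abs_cases t <;> cases abs_cases α <;> cases abs_cases a <;> linarith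
  · refine ⟨fun t ht a ha => by simp only [mem_Ioi] at *; linarith, fun a =>
      ⟨|α| + |a| + 1, fun t ht hR => ?_⟩⟩
    simp only [mem_Ioi] at *
    cases abs_cases t <;> cases abs_cases α <;> cases abs_cases a <;> linarith
  · exact ⟨fun _ _ _ _ => trivial, fun _ => ⟨0, fun _ _ _ => trivial⟩⟩

theorem uc_iff {J : Set ℝ} {f : ℝ → X} : UniformContinuousOn f J ↔
    Tendsto (fun p : ℝ × ℝ => f p.2 - f p.1) (𝓤 ℝ ⊓ 𝓟 (J ×ˢ J)) (𝓝 0) := by
  unfold UniformContinuousOn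
  rw [uniformity_eq_comap_nhds_zero X, tendsto_comap_iff]
  rfl

theorem uc_eps {J : Set ℝ} {f : ℝ → X} (h : UniformContinuousOn f J) {ε : ℝ} (hε : 0 < ε) :
    ∃ δ > 0, ∀ s ∈ J, ∀ t ∈ J, |s - t| ≤ δ → ‖f s - f t‖ ≤ ε := by
  obtain ⟨δ, hδ, H⟩ := Metric.uniformContinuousOn_iff_le.1 h ε hε
  exact ⟨δ, hδ, fun s hs t ht hst => by
    simpa [dist_eq_norm] using H s hs t ht (by simpa [Real.dist_eq] using hst)⟩

theorem uc_of_eps {J : Set ℝ} {f : ℝ → X}
    (h : ∀ ε > 0, ∃ δ > 0, ∀ s ∈ J, ∀ t ∈ J, |s - t| ≤ δ → ‖f s - f t‖ ≤ ε) :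
    UniformContinuousOn f J := by
  rw [Metric.uniformContinuousOn_iff_le]
  intro ε hε
  obtain ⟨δ, hδ, H⟩ := h ε hε
  exact ⟨δ, hδ, fun s hs t ht hst => by
    simpa [dist_eq_norm] using H s hs t ht (by simpa [Real.dist_eq] using hst)⟩

theorem uc_add {J : Set ℝ} {f g : ℝ → X} (hf : UniformContinuousOn f J)
    (hg : UniformContinuousOn g J) : UniformContinuousOn (fun t => f t + g t) J := by
  rw [uc_iff] at *
  have := hf.add hg
  simp only [add_zero] at this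
  exact this.congr fun p => by abel

theorem uc_sub {J : Set ℝ} {f g : ℝ → X} (hf : UniformContinuousOn f J)
    (hg : UniformContinuousOn g J) : UniformContinuousOn (fun t => f t - g t) J := by
  rw [uc_iff] at *
  have := hf.sub hg
  simp only [sub_zero] at this
  exact this.congr fun p => by abel

theorem uc_congr {J : Set ℝ} {f g : ℝ → X} (hf : UniformContinuousOn f J)
    (h : ∀ t ∈ J, f t = g t) : UniformContinuousOn g J := by
  refine uc_of_eps fun ε hε => ?_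
  obtain ⟨δ, hδ, H⟩ := uc_eps hf hε
  exact ⟨δ, hδ, fun s hs t ht hst => by rw [← h s hs, ← h t ht]; exact H s hs t ht hst⟩

theorem uc_comp {J K : Set ℝ} {f : ℝ → X} {σ : ℝ → ℝ} {L : ℝ} (hL : 0 < L)
    (hf : UniformContinuousOn f K)
    (hσ : ∀ s t, |σ s - σ t| ≤ L * |s - t|) (hm : ∀ t ∈ J, σ t ∈ K) :
    UniformContinuousOn (fun t => f (σ t)) J := by
  refine uc_of_eps fun ε hε => ?_
  obtain ⟨δ, hδ, H⟩ := uc_eps hf hε
  refine ⟨δ / L, by positivity, fun s hs t ht hst => H _ (hm s hs) _ (hm t ht) ?_⟩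
  refine (hσ s t).trans ?_
  rw [le_div_iff₀ hL] at hst
  linarith

theorem uc_shift {J : Set ℝ} (hJ : Up J) {f : ℝ → X} (hf : UniformContinuousOn f J) {a : ℝ}
    (ha : 0 ≤ a) : UniformContinuousOn (fun t => f (t + a)) J :=
  uc_comp (σ := fun t => t + a) one_pos hf (fun s t => by simp) (fun t ht => hJ t ht a ha)

theorem uc_smul {𝕜 : Type*} [NormedField 𝕜] [NormedSpace 𝕜 X] {K : Set ℝ} {g : ℝ → 𝕜}
    {v : ℝ → X} (hg : UniformContinuousOn g K) (hv : UniformContinuousOn v K)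
    (hgb : Bdd K g) (hvb : Bdd K v) : UniformContinuousOn (fun t => g t • v t) K := by
  obtain ⟨A, hA⟩ := hgb
  obtain ⟨B, hB⟩ := hvb
  refine uc_of_eps fun ε hε => ?_
  obtain ⟨δ₁, hδ₁, H₁⟩ := uc_eps hg (ε := ε / (2 * (|B| + 1))) (by positivity)
  obtain ⟨δ₂, hδ₂, H₂⟩ := uc_eps hv (ε := ε / (2 * (|A| + 1))) (by positivity)
  refine ⟨min δ₁ δ₂, by positivity, fun s hs t ht hst => ?_⟩
  have e : g s • v s - g t • v t = (g s - g t) • v s + g t • (v s - v t) := by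
    rw [sub_smul, smul_sub]; abel
  have h1 := H₁ s hs t ht (hst.trans (min_le_left _ _))
  have h2 := H₂ s hs t ht (hst.trans (min_le_right _ _))
  have h3 : ‖v s‖ ≤ |B| + 1 := (hB s hs).trans (by linarith [le_abs_self B])
  have h4 : ‖g t‖ ≤ |A| + 1 := (hA t ht).trans (by linarith [le_abs_self A])
  rw [e]
  refine (norm_add_le _ _).trans ?_
  rw [norm_smul, norm_smul]
  have h5 : ‖g s - g t‖ * ‖v s‖ ≤ ε / (2 * (|B| + 1)) * (|B| + 1) := by gcongr
  have h6 : ‖g t‖ * ‖v s - v t‖ ≤ (|A| + 1) * (ε / (2 * (|A| + 1))) := by gcongr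
  have h7 : ε / (2 * (|B| + 1)) * (|B| + 1) = ε / 2 := by field_simp
  have h8 : (|A| + 1) * (ε / (2 * (|A| + 1))) = ε / 2 := by field_simp
  linarith

theorem locUC_of_uc {J : Set ℝ} {w : ℝ → X} (h : UniformContinuousOn w J) : LocUC J w :=
  fun _ => h.mono inter_subset_left

theorem locUC_smul {𝕜 : Type*} [NormedField 𝕜] [NormedSpace 𝕜 X] {J : Set ℝ} {g : ℝ → 𝕜}
    {v : ℝ → X} (hg : Continuous g) (hv : UniformContinuousOn v J) (hvb : Bdd J v) :
    LocUC J (fun t => g t • v t) := by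
  intro R
  refine uc_smul ((isCompact_Icc.uniformContinuousOn_of_continuous hg.continuousOn).mono
    inter_subset_right) (hv.mono inter_subset_left) ?_ ?_
  · obtain ⟨C, hC⟩ := (isCompact_Icc (a := -R) (b := R)).exists_bound_of_continuousOn
      hg.continuousOn
    exact ⟨C, fun t ht => hC t ht.2⟩
  · obtain ⟨C, hC⟩ := hvb
    exact ⟨C, fun t ht => hC t ht.1⟩

theorem uc_of_small {J : Set ℝ} {w : ℝ → X} (h1 : LocUC J w) (h2 : Small J w) :
    UniformContinuousOn w J := by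
  refine uc_of_eps fun ε hε => ?_
  obtain ⟨R, hR⟩ := h2 (ε / 2) (by positivity)
  obtain ⟨δ, hδ, H⟩ := uc_eps (h1 (|R| + 1)) hε
  refine ⟨min δ 1, by positivity, fun s hs t ht hst => ?_⟩
  have h3 : |s - t| ≤ 1 := hst.trans (min_le_right _ _)
  by_cases hc : |R| ≤ |s| ∧ |R| ≤ |t|
  · have := hR s hs ((le_abs_self R).trans hc.1)
    have := hR t ht ((le_abs_self R).trans hc.2)
    refine (norm_sub_le _ _).trans (by linarith)
  · have h4 : |s| ≤ |R| + 1 ∧ |t| ≤ |R| + 1 := by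
      have a1 := abs_sub_abs_le_abs_sub s t
      have a2 := abs_sub_abs_le_abs_sub t s
      rw [abs_sub_comm] at a2
      rw [not_and_or] at hc
      rcases hc with hc | hc <;> constructor <;> linarith [not_le.1 hc]
    exact H s ⟨hs, abs_le.1 h4.1⟩ t ⟨ht, abs_le.1 h4.2⟩ (hst.trans (min_le_left _ _))

theorem uc_smul_small {𝕜 : Type*} [NormedField 𝕜] [NormedSpace 𝕜 X] {J : Set ℝ} {g : ℝ → 𝕜}
    {v : ℝ → X} (hg : Continuous g) (hg1 : ∀ t, ‖g t‖ ≤ 1) (hv : UniformContinuousOn v J)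
    (hvb : Bdd J v) (hs : Small J v) : UniformContinuousOn (fun t => g t • v t) J := by
  refine uc_of_small (locUC_smul hg hv hvb) fun ε hε => ?_
  obtain ⟨R, hR⟩ := hs ε hε
  refine ⟨R, fun t ht h => ?_⟩
  rw [norm_smul]
  calc ‖g t‖ * ‖v t‖ ≤ 1 * ε := by gcongr; exacts [hg1 t, hR t ht h]
    _ = ε := one_mul _

theorem osc_of_uc {J : Set ℝ} (hJ : Up J) {u : ℝ → X} (hu : UniformContinuousOn u J) (r : ℝ) :
    ∃ C, ∀ s ∈ J, ∀ t ∈ J, |s - t| ≤ r → ‖u s - u t‖ ≤ C := by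
  obtain ⟨δ, hδ, H⟩ := uc_eps hu one_pos
  have key : ∀ k : ℕ, ∀ s ∈ J, ∀ d, 0 ≤ d → d ≤ k * δ → ‖u (s + d) - u s‖ ≤ k := by
    intro k
    induction k with
    | zero =>
      intro s _ d h1 h2
      have : d = 0 := by simp at h2; linarith
      simp [this]
    | succ k ih =>
      intro s hs d h1 h2
      push_cast at h2 ⊢
      by_cases hd : d ≤ δ
      · have := H (s + d) (hJ s hs d h1) s hs (by simp [abs_of_nonneg h1, hd])
        have : (0 : ℝ) ≤ k := Nat.cast_nonneg k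
        linarith
      · push Not at hd
        have a1 := ih (s + δ) (hJ s hs δ hδ.le) (d - δ) (by linarith) (by linarith)
        have a2 := H (s + δ) (hJ s hs δ hδ.le) s hs (by simp [abs_of_pos hδ])
        have e : s + δ + (d - δ) = s + d := by ring
        rw [e] at a1
        calc ‖u (s + d) - u s‖ = ‖(u (s + d) - u (s + δ)) + (u (s + δ) - u s)‖ := by
              congr 1; abel
          _ ≤ _ := (norm_add_le _ _).trans (by linarith)
  obtain ⟨k, hk⟩ := exists_nat_ge (r / δ)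
  have hk' : r ≤ k * δ := by rwa [div_le_iff₀ hδ] at hk
  refine ⟨k, fun s hs t ht hst => ?_⟩
  rcases le_total s t with h | h
  · have := key k s hs (t - s) (by linarith) (by rw [abs_sub_comm, abs_of_nonneg (by linarith)] at hst; linarith)
    rw [add_sub_cancel] at this
    rwa [norm_sub_rev]
  · have := key k t ht (s - t) (by linarith) (by rw [abs_of_nonneg (by linarith)] at hst; linarith)
    rwa [add_sub_cancel] at this

theorem exists_phase {ψ : ℝ → ℝ} (hψ : Continuous ψ) {t δ : ℝ} (hδ : 0 ≤ δ)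
    (h : 2 * Real.pi ≤ |ψ (t + δ) - ψ t|) (θ : ℝ) :
    ∃ s ∈ Icc t (t + δ), ∃ k : ℤ, ψ s = θ + k * (2 * Real.pi) := by
  have hp : 0 < 2 * Real.pi := by positivity
  set m := min (ψ t) (ψ (t + δ)) with hm
  let k : ℤ := ⌈(m - θ) / (2 * Real.pi)⌉
  have h1 : m ≤ θ + k * (2 * Real.pi) := by
    have := Int.le_ceil ((m - θ) / (2 * Real.pi))
    rw [div_le_iff₀ hp] at this
    linarith
  have h2 : θ + k * (2 * Real.pi) ≤ m + 2 * Real.pi := by
    have := (Int.ceil_lt_add_one ((m - θ) / (2 * Real.pi))).le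
    have h3 : (k : ℝ) * (2 * Real.pi) ≤ ((m - θ) / (2 * Real.pi) + 1) * (2 * Real.pi) := by
      gcongr
    have h4 : ((m - θ) / (2 * Real.pi) + 1) * (2 * Real.pi) = m - θ + 2 * Real.pi := by
      field_simp
    linarith
  have h3 : θ + k * (2 * Real.pi) ∈ uIcc (ψ t) (ψ (t + δ)) := by
    rw [mem_uIcc]
    rcases le_total (ψ t) (ψ (t + δ)) with h5 | h5
    · rw [min_eq_left h5] at hm
      rw [abs_of_nonneg (by linarith)] at h
      left; constructor <;> linarith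
    · rw [min_eq_right h5] at hm
      rw [abs_of_nonpos (by linarith)] at h
      right; constructor <;> linarith
  obtain ⟨s, hs, hse⟩ := intermediate_value_uIcc hψ.continuousOn h3
  rw [uIcc_of_le (by linarith)] at hs
  exact ⟨s, hs, k, hse⟩

theorem exists_sq_phase {δ : ℝ} (hδ : 0 < δ) : ∃ R, ∀ t, R ≤ |t| → ∀ θ,
    ∃ s ∈ Icc t (t + δ), ∃ k : ℤ, s ^ 2 = θ + k * (2 * Real.pi) := by
  refine ⟨Real.pi / δ + δ, fun t ht θ => exists_phase (ψ := fun s => s ^ 2) (by fun_prop) hδ.le ?_ θ⟩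
  have e : (t + δ) ^ 2 - t ^ 2 = δ * (2 * t + δ) := by ring
  have hp : Real.pi / δ * δ = Real.pi := by field_simp
  have hq : 0 < Real.pi / δ := div_pos Real.pi_pos hδ
  rw [e, abs_mul, abs_of_pos hδ]
  have : 2 * (Real.pi / δ) ≤ |2 * t + δ| := by
    cases abs_cases t <;> cases abs_cases (2 * t + δ) <;> linarith
  nlinarith

theorem integrableOn_shift [NormedSpace ℝ X] {J : Set ℝ} (hJ : Up J) {f : ℝ → X}
    (hf : ∀ a b, Icc a b ⊆ J → IntegrableOn f (Icc a b)) {t : ℝ} (ht : t ∈ J) {h : ℝ}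
    (hh : 0 < h) : IntegrableOn (fun a => f (t + a) - f t) (Ioc 0 h) := by
  have h1 : IntervalIntegrable f volume t (t + h) := by
    rw [intervalIntegrable_iff_integrableOn_Icc_of_le (by linarith)]
    refine hf _ _ fun s hs => ?_
    have := hJ t ht (s - t) (by linarith [hs.1])
    simpa using this
  have h2 := h1.comp_add_left t
  simp only [sub_self, add_sub_cancel_left] at h2
  have h3 := (intervalIntegrable_iff_integrableOn_Ioc_of_le hh.le).1 h2
  exact h3.sub (integrableOn_const (by simp))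

theorem sub_mean [NormedSpace ℝ X] [CompleteSpace X] {J : Set ℝ} (hJ : Up J) {f : ℝ → X}
    (hf : ∀ a b, Icc a b ⊆ J → IntegrableOn f (Icc a b)) {t : ℝ} (ht : t ∈ J) {h : ℝ}
    (hh : 0 < h) : f t - h⁻¹ • ∫ s in t..(t + h), f s =
      (-h⁻¹) • ∫ a in Ioc 0 h, (f (t + a) - f t) := by
  have h1 := integrableOn_shift hJ hf ht hh
  have h2 : IntegrableOn (fun a => f (t + a)) (Ioc 0 h) := by
    have := h1.add (integrableOn_const (C := f t) (by simp))
    exact this.congr_fun (fun a _ => by simp) measurableSet_Ioc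
  rw [integral_sub h2 (integrableOn_const (by simp)), ← intervalIntegral.integral_of_le hh.le,
    intervalIntegral.integral_comp_add_left]
  simp only [add_zero, integral_const, MeasurableSet.univ, measureReal_restrict_apply, univ_inter,
    Real.volume_real_Ioc, sub_zero, max_eq_left hh.le, smul_sub, smul_smul]
  rw [show -h⁻¹ * h = -1 by field_simp]
  simp only [neg_smul, one_smul]
  abel

theorem uc_integral [NormedSpace ℝ X] {J : Set ℝ} {Φ : ℝ → ℝ → X} {h C : ℝ}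
    (h1 : ∀ a ∈ Ioc 0 h, UniformContinuousOn (Φ a) J)
    (h2 : ∀ t ∈ J, IntegrableOn (fun a => Φ a t) (Ioc 0 h))
    (h3 : ∀ a ∈ Ioc 0 h, ∀ s ∈ J, ∀ t ∈ J, |s - t| ≤ 1 → ‖Φ a s - Φ a t‖ ≤ C) :
    UniformContinuousOn (fun t => ∫ a in Ioc 0 h, Φ a t) J := by
  rw [uc_iff]
  have ev : ∀ᶠ p : ℝ × ℝ in 𝓤 ℝ ⊓ 𝓟 (J ×ˢ J), p.1 ∈ J ∧ p.2 ∈ J ∧ |p.2 - p.1| ≤ 1 := by
    rw [eventually_inf_principal]
    filter_upwards [Metric.dist_mem_uniformity one_pos] with p hp hJ
    refine ⟨hJ.1, hJ.2, ?_⟩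
    rw [abs_sub_comm]
    exact le_of_lt hp
  have := tendsto_integral_filter_of_dominated_convergence (μ := volume.restrict (Ioc 0 h))
    (l := 𝓤 ℝ ⊓ 𝓟 (J ×ˢ J)) (F := fun p a => Φ a p.2 - Φ a p.1) (f := fun _ => 0)
    (fun _ => C) ?_ ?_ (integrableOn_const (by simp)) ?_
  · simp only [integral_zero] at this
    refine this.congr' ?_
    filter_upwards [ev] with p hp
    exact integral_sub (h2 _ hp.2.1) (h2 _ hp.1)
  · filter_upwards [ev] with p hp
    exact ((h2 _ hp.2.1).sub (h2 _ hp.1)).aestronglyMeasurable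
  · filter_upwards [ev] with p hp
    filter_upwards [ae_restrict_mem measurableSet_Ioc] with a ha
    exact h3 a ha _ hp.2.1 _ hp.1 hp.2.2
  · filter_upwards [ae_restrict_mem measurableSet_Ioc] with a ha
    exact uc_iff.1 (h1 a ha)

theorem unif_bound [NormedSpace ℝ X] {J : Set ℝ} (hJ : Up J) {f : ℝ → X}
    (hf : ∀ a b, Icc a b ⊆ J → IntegrableOn f (Icc a b)) (c r : ℝ)
    (hc : ∀ a > 0, ContinuousOn (fun t => f (t + a) - f t) J)
    (hb : ∀ a > 0, ∃ C, ∀ s ∈ J, ∀ t ∈ J, |s - t| ≤ r →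
      ‖(f (s + a) - f s) - c • (f (t + a) - f t)‖ ≤ C) {h : ℝ} (hh : 0 < h) :
    ∃ C, ∀ a ∈ Ioc 0 h, ∀ s ∈ J, ∀ t ∈ J, |s - t| ≤ r →
      ‖(f (s + a) - f s) - c • (f (t + a) - f t)‖ ≤ C := by
  let S : Set (ℝ × ℝ) := {p | p.1 ∈ J ∧ p.2 ∈ J ∧ |p.1 - p.2| ≤ r}
  let G : ℝ → ℝ × ℝ → X := fun a p => (f (p.1 + a) - f p.1) - c • (f (p.2 + a) - f p.2)
  obtain ⟨D, hDS, hDc, hSD⟩ := (TopologicalSpace.IsSeparable.of_separableSpace S).exists_countable_dense_subset
  let E : ℕ → Set ℝ := fun n => {a | ∃ p ∈ D, (n : ℝ) < ‖G a p‖} ∩ Ioc 0 (2 * h)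
  have hE : ∀ n a, a ∈ Ioc 0 (2 * h) → a ∉ E n → ∀ p ∈ S, ‖G a p‖ ≤ n := by
    intro n a ha hn p hp
    have h1 : ∀ q ∈ D, ‖G a q‖ ≤ n := by
      intro q hq
      by_contra hcon
      exact hn ⟨⟨q, hq, not_le.1 hcon⟩, ha⟩
    have h2 : ContinuousOn (G a) S :=
      ((hc a ha.1).comp continuous_fst.continuousOn (fun q hq => hq.1)).sub
        (((hc a ha.1).comp continuous_snd.continuousOn (fun q hq => hq.2.1)).const_smul c)
    have h3 : ContinuousWithinAt (fun q => ‖G a q‖) D p := ((h2 p hp).mono hDS).norm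
    exact h3.closure_le (hSD hp) continuousWithinAt_const h1
  have hmeas : ∀ n, NullMeasurableSet (E n) volume := by
    intro n
    rw [← nullMeasurableSet_restrict measurableSet_Ioc.nullMeasurableSet]
    have e : {a | ∃ p ∈ D, (n : ℝ) < ‖G a p‖} = ⋃ p ∈ D, {a | (n : ℝ) < ‖G a p‖} := by
      ext; simp
    rw [e]
    refine NullMeasurableSet.biUnion hDc fun p hp => ?_
    have i1 := integrableOn_shift hJ hf (hDS hp).1 (h := 2 * h) (by positivity)
    have i2 := integrableOn_shift hJ hf (hDS hp).2.1 (h := 2 * h) (by positivity)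
    have i3 : AEStronglyMeasurable (fun a => G a p) (volume.restrict (Ioc 0 (2 * h))) :=
      (i1.sub (i2.smul c)).aestronglyMeasurable
    exact nullMeasurableSet_lt aemeasurable_const i3.norm.aemeasurable
  have hanti : Antitone E := by
    intro m n hmn a ha
    obtain ⟨⟨p, hp, hlt⟩, h2⟩ := ha
    exact ⟨⟨p, hp, lt_of_le_of_lt (by exact_mod_cast hmn) hlt⟩, h2⟩
  have hint : ⋂ n, E n = ∅ := by
    refine eq_empty_of_forall_notMem fun a ha => ?_
    rw [mem_iInter] at ha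
    obtain ⟨C, hC⟩ := hb a (ha 0).2.1
    obtain ⟨n, hn⟩ := exists_nat_ge C
    obtain ⟨⟨p, hp, hlt⟩, -⟩ := ha n
    have := hC _ (hDS hp).1 _ (hDS hp).2.1 (hDS hp).2.2
    exact absurd (hlt.trans_le (this.trans hn)) (lt_irrefl _)
  have hlim := tendsto_measure_iInter_atTop hmeas hanti
    ⟨0, ((measure_mono inter_subset_right).trans_lt measure_Ioc_lt_top).ne⟩
  rw [hint, measure_empty] at hlim
  obtain ⟨n, hn⟩ := (hlim.eventually (gt_mem_nhds
    (show (0 : ENNReal) < ENNReal.ofReal (h / 2) by simpa using hh))).exists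
  refine ⟨n + n, fun a ha s hs t ht hst => ?_⟩
  have hex : ∃ b ∈ Ioc 0 h, b ∉ E n ∧ a + b ∉ E n := by
    by_contra hcon
    have hsub : Ioc 0 h ⊆ E n ∪ (fun b => a + b) ⁻¹' E n := by
      intro b hb
      by_contra h5
      rw [mem_union, not_or] at h5
      exact hcon ⟨b, hb, h5⟩
    have h6 := (measure_mono (μ := volume) hsub).trans (measure_union_le _ _)
    rw [measure_preimage_add, Real.volume_Ioc, sub_zero] at h6
    have h7 : volume (E n) + volume (E n) < ENNReal.ofReal (h / 2) + ENNReal.ofReal (h / 2) :=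
      ENNReal.add_lt_add hn hn
    rw [← ENNReal.ofReal_add (by positivity) (by positivity), add_halves] at h7
    exact absurd (h6.trans_lt h7) (lt_irrefl _)
  obtain ⟨b, hb, hb1, hb2⟩ := hex
  have a1 := hE n b ⟨hb.1, by linarith [hb.2]⟩ hb1 (s + a, t + a)
    ⟨hJ s hs a ha.1.le, hJ t ht a ha.1.le, by simpa using hst⟩
  have a2 := hE n (a + b) ⟨by linarith [ha.1, hb.1], by linarith [ha.2, hb.2]⟩ hb2 (s, t)
    ⟨hs, ht, hst⟩
  have e : (f (s + a) - f s) - c • (f (t + a) - f t) = G (a + b) (s, t) - G b (s + a, t + a) := by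
    simp only [G, smul_sub, add_assoc]
    abel
  rw [e]
  exact (norm_sub_le _ _).trans (add_le_add a2 a1)

end Pool.Agent.H5.Delta
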