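import Pool.Agent.H5.Torus

open Set Filter Topology MeasureTheory Function InnerProductSpace
open scoped NNReal ENNReal InnerProductSpace
open Pool.Agent.H5.Torus ContinuousLinearMap

namespace Pool.Agent.H5.Diffuse

open ProbabilityTheory in
theorem map_cdf (ν : Measure ℝ) [IsProbabilityMeasure ν] [NullSingletonClass ν] :
    ν.map (cdf ν) = volume.restrict (Icc 0 1) := by
  have hc : Continuous (cdf ν) := continuous_iff_continuousAt.2 fun a => by
    rw [(monotone_cdf ν).continuousAt_iff_leftLim_eq_rightLim, (cdf ν).rightLim_eq]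
    have h := (cdf ν).measure_singleton a
    rw [measure_cdf, measure_singleton, eq_comm, ENNReal.ofReal_eq_zero] at h
    exact le_antisymm ((monotone_cdf ν).leftLim_le le_rfl) (by linarith)
  refine Measure.ext_of_Iic _ _ fun t => ?_
  rw [Measure.map_apply hc.measurable measurableSet_Iic, Measure.restrict_apply measurableSet_Iic]
  rcases le_or_gt 1 t with h1 | h1
  · rw [show cdf ν ⁻¹' Iic t = univ from eq_univ_of_forall fun x => (cdf_le_one ν x).trans h1,
      show Iic t ∩ Icc 0 1 = Icc 0 1 from inter_eq_right.2 fun x hx => hx.2.trans h1]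
    simp
  have h2 : Iic t ∩ Icc 0 1 = Icc 0 t :=
    subset_antisymm (fun x h => ⟨h.2.1, h.1⟩) fun x h => ⟨h.2, h.1, h.2.trans h1.le⟩
  rw [h2, Real.volume_Icc, sub_zero]
  rcases (cdf ν ⁻¹' Iic t).eq_empty_or_nonempty with h | h
  · rw [h, measure_empty, eq_comm, ENNReal.ofReal_eq_zero]
    by_contra h3
    obtain ⟨x, hx⟩ := ((tendsto_cdf_atBot ν).eventually (gt_mem_nhds (not_le.1 h3))).exists
    have : x ∈ cdf ν ⁻¹' Iic t := hx.le
    rw [h] at this
    exact this
  · obtain ⟨y, hy⟩ := ((tendsto_cdf_atTop ν).eventually (lt_mem_nhds h1)).exists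
    have hb : BddAbove (cdf ν ⁻¹' Iic t) := ⟨y, fun x hx => by
      by_contra h4
      exact (hy.trans_le ((monotone_cdf ν) (not_le.1 h4).le)).not_ge hx⟩
    have hs := (isClosed_Iic.preimage hc).csSup_mem h hb
    have h7 : ∀ x, x ∈ cdf ν ⁻¹' Iic t → x ≤ sSup (cdf ν ⁻¹' Iic t) := fun x hx => le_csSup hb hx
    generalize sSup (cdf ν ⁻¹' Iic t) = s at hs h7
    have h5 : cdf ν ⁻¹' Iic t = Iic s :=
      subset_antisymm h7 fun x hx => ((monotone_cdf ν) hx).trans hs
    rw [h5, ← ofReal_cdf]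
    congr 1
    refine le_antisymm hs ?_
    refine ge_of_tendsto (x := 𝓝[>] s) (hc.continuousAt.tendsto.mono_left nhdsWithin_le_nhds) ?_
    filter_upwards [self_mem_nhdsWithin] with x hx
    by_contra h6
    exact (h7 x (not_le.1 h6).le).not_gt hx

open ProbabilityTheory in
theorem exists_g0 {Y : Type} [MeasurableSpace Y] [StandardBorelSpace Y] (ν : Measure Y)
    [IsProbabilityMeasure ν] [NullSingletonClass ν] : ∃ (g : Y → ℝ) (N : Set Y),
    MeasurePreserving g ν (volume.restrict (Icc 0 1)) ∧ MeasurableSet N ∧ ν N = 0 ∧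
      InjOn g Nᶜ := by
  have he := measurableEmbedding_embeddingReal Y
  set e := embeddingReal Y
  have : IsProbabilityMeasure (ν.map e) :=
    Measure.isProbabilityMeasure_map he.measurable.aemeasurable
  have : NullSingletonClass (ν.map e) := ⟨fun x => by
    rw [he.map_apply]
    exact (subsingleton_singleton.preimage he.injective).measure_zero _⟩
  have hm := monotone_cdf (ν.map e)
  have h0 : MeasurePreserving (cdf (ν.map e) ∘ e) ν (volume.restrict (Icc 0 1)) :=
    MeasurePreserving.comp ⟨hm.measurable, map_cdf _⟩ ⟨he.measurable, rfl⟩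
  have hT := hm.countable_setOfPred_two_preimages
  refine ⟨_, _, h0, h0.measurable hT.measurableSet, ?_, fun x hx y _ h2 => ?_⟩
  · exact le_zero_iff.1 ((h0.measure_preimage_le _).trans (hT.measure_zero _).le)
  · by_contra h3
    rcases lt_or_gt_of_ne (he.injective.ne h3) with h4 | h4
    · exact hx ⟨_, _, h4, rfl, h2.symm⟩
    · exact hx ⟨_, _, h4, h2.symm, rfl⟩

theorem exists_g (k : ℤ) : ∃ (g : T2 → ℝ) (N : Set T2),
    MeasurePreserving g μ (volume.restrict (Icc (k : ℝ) (k + 1))) ∧ MeasurableSet N ∧ μ N = 0 ∧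
      InjOn g Nᶜ := by
  have : Nontrivial UnitAddCircle := ⟨⟨((1 / 2 : ℝ) : UnitAddCircle), 0, fun h => by
    rw [AddCircle.coe_eq_zero_iff_of_mem_Ico (by norm_num)] at h
    norm_num at h⟩⟩
  have : NullSingletonClass (AddCircle.haarAddCircle : Measure UnitAddCircle) := inferInstance
  have : NullSingletonClass μ := Measure.pi_nullSingletonClass 0
  obtain ⟨g, N, h0, a, b, c⟩ := exists_g0 μ
  have h1 := (measurePreserving_add_right volume (k : ℝ)).restrict_preimage
    (measurableSet_Icc (a := (k : ℝ)) (b := k + 1))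
  rw [show (fun x => x + (k : ℝ)) ⁻¹' Icc (k : ℝ) (k + 1) = Icc 0 1 by simp] at h1
  exact ⟨_, N, h1.comp h0, a, b, fun x hx y hy h => c hx hy (add_right_cancel h)⟩

theorem exists_h {Y : Type} [MeasurableSpace Y] [StandardBorelSpace Y] (ν : Measure Y)
    [IsFiniteMeasure ν] [NullSingletonClass ν] : ∃ (g : Y → ℝ) (N : Set Y) (c : ℝ),
    MeasurePreserving g ν (volume.restrict (Icc 0 c)) ∧ MeasurableSet N ∧ ν N = 0 ∧
      InjOn g Nᶜ := by
  rcases eq_zero_or_neZero ν with rfl | h
  · exact ⟨fun _ => 0, univ, 0, ⟨measurable_const, by simp⟩, .univ, rfl, by simp⟩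
  have : NullSingletonClass ((ν univ)⁻¹ • ν) := ⟨fun x => by simp⟩
  obtain ⟨g, N, h0, a, b, d⟩ := exists_g0 ((ν univ)⁻¹ • ν)
  have u0 : ν univ ≠ 0 := NeZero.ne _
  have u1 : ν univ ≠ ∞ := measure_ne_top _ _
  have hc : 0 < (ν univ).toReal := ENNReal.toReal_pos u0 u1
  have h1 := h0.smul_measure (ν univ)
  rw [smul_smul, ENNReal.mul_inv_cancel u0 u1, one_smul, ← Measure.restrict_smul] at h1
  have h2 : MeasurePreserving (fun x : ℝ => (ν univ).toReal * x) (ν univ • volume) volume :=
    ⟨by fun_prop, by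
      rw [Measure.map_smul, Real.map_volume_mul_left hc.ne', smul_smul, abs_of_pos (inv_pos.2 hc),
        ENNReal.ofReal_inv_of_pos hc, ENNReal.ofReal_toReal u1, ENNReal.mul_inv_cancel u0 u1,
        one_smul]⟩
  have h3 := h2.restrict_preimage (measurableSet_Icc (a := 0) (b := (ν univ).toReal))
  rw [preimage_const_mul_Icc₀ _ _ hc, zero_div, div_self hc.ne'] at h3
  refine ⟨_, N, _, h3.comp h1, a, ?_, fun x hx y hy h => d hx hy (mul_left_cancel₀ hc.ne' h)⟩
  simpa [u1] using b

theorem exists_R {X Y : Type} [MeasurableSpace X] [StandardBorelSpace X] [MeasurableSpace Y]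
    [StandardBorelSpace Y] {m : Measure X} {ν : Measure Y} {g : Y → X} {J : Set X} {N : Set Y}
    (hJ : MeasurableSet J) (hg : MeasurePreserving g ν (m.restrict J)) (hN : MeasurableSet N)
    (h0 : ν N = 0) (hi : InjOn g Nᶜ) : ∃ R : Hs m →L[ℂ] Hs ν,
    (∀ ξ, ν (support (R ξ)) ≤ m (support ξ)) ∧
      (∀ η, m (support (adjoint R η)) ≤ ν (support η)) ∧
        (∀ ξ, R ξ = 0 → ∀ᵐ x ∂(m.restrict J), ξ x = 0) ∧ Surjective R := by
  let R : Hs m →L[ℂ] Hs ν :=
    (Lp.compMeasurePreservingₗᵢ ℂ g hg).toContinuousLinearMap ∘L LpToLpRestrictCLM X ℂ ℂ m 2 J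
  have hR : ∀ ξ, ∀ᵐ x ∂ν, R ξ x = ξ (g x) := fun ξ => by
    filter_upwards [Lp.coeFn_compMeasurePreserving (LpToLpRestrictCLM X ℂ ℂ m 2 J ξ) hg,
      hg.quasiMeasurePreserving.ae (LpToLpRestrictCLM_coeFn ℂ J ξ)] with x h1 h2
    exact h1.trans h2
  refine ⟨R, fun ξ => ?_, fun η => ?_, fun ξ h => ?_, fun ζ => ?_⟩
  · refine le_trans (measure_mono_ae ?_)
      ((hg.measure_preimage_le (support ξ)).trans (Measure.restrict_le_self _))
    filter_upwards [hR ξ] with x hx h h1
    exact h (hx.trans h1)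
  · have hB : MeasurableSet (g '' (support η \ N)) :=
      ((Lp.stronglyMeasurable η).measurableSet_support.diff hN).image_of_measurable_injOn
        hg.measurable (hi.mono fun x hx => hx.2)
    have hA : MeasurableSet (g '' (support η \ N) ∩ J) := hB.inter hJ
    have hm := (Lp.memLp (adjoint R η)).indicator hA.compl
    have h1 : ⟪adjoint R η, hm.toLp⟫_ℂ = 0 := by
      rw [adjoint_inner_left, L2.inner_def]
      refine integral_eq_zero_of_ae ?_
      filter_upwards [hR hm.toLp, hg.quasiMeasurePreserving.ae (ae_restrict_of_ae hm.coeFn_toLp),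
        hg.quasiMeasurePreserving.ae (ae_restrict_mem hJ),
        measure_eq_zero_iff_ae_notMem.1 h0] with x a1 a2 a3 a4
      by_cases a5 : η x = 0
      · simp [a5]
      · rw [a1, a2, indicator_of_notMem (not_not.2 ⟨⟨x, ⟨a5, a4⟩, rfl⟩, a3⟩)]
        simp
    have h2 : ⟪adjoint R η, hm.toLp⟫_ℂ = ⟪hm.toLp, hm.toLp⟫_ℂ := by
      rw [L2.inner_def, L2.inner_def]
      refine integral_congr_ae ?_
      filter_upwards [hm.coeFn_toLp] with x hx
      rw [hx]
      by_cases a : x ∈ (g '' (support η \ N) ∩ J)ᶜ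
      · rw [indicator_of_mem a]
      · rw [indicator_of_notMem a]; simp
    have h3 := hm.coeFn_toLp
    rw [inner_self_eq_zero.1 (h2.symm.trans h1)] at h3
    refine le_trans (measure_mono_ae (t := g '' (support η \ N) ∩ J) ?_) ?_
    · filter_upwards [h3, Lp.coeFn_zero ℂ 2 m] with x a1 a2 h
      by_contra a
      rw [indicator_of_mem (show x ∈ (g '' (support η \ N) ∩ J)ᶜ from a), a2] at a1
      exact h a1.symm
    · rw [← Measure.restrict_apply hB, ← hg.measure_preimage hB.nullMeasurableSet]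
      refine measure_mono_ae ?_
      filter_upwards [measure_eq_zero_iff_ae_notMem.1 h0] with x hx ⟨y, hy, h⟩
      exact hi hy.2 hx h ▸ hy.1
  · rw [← hg.map_eq]
    refine (ae_map_iff hg.measurable.aemeasurable
      ((Lp.stronglyMeasurable ξ).measurable (measurableSet_singleton 0))).2 ?_
    filter_upwards [hR ξ, Lp.coeFn_zero ℂ 2 ν] with x h1 h2
    rw [← h1, h, h2]; rfl
  · have := hN.compl.standardBorel
    have he : MeasurableEmbedding (g ∘ Subtype.val : (Nᶜ : Set Y) → X) :=
      (hg.measurable.comp measurable_subtype_coe).measurableEmbedding hi.injective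
    obtain ⟨f, f1, f2⟩ := he.exists_measurable_extend
      ((Lp.stronglyMeasurable ζ).measurable.comp measurable_subtype_coe) fun _ => inferInstance
    have f3 : f ∘ g =ᵐ[ν] ζ := by
      filter_upwards [measure_eq_zero_iff_ae_notMem.1 h0] with x hx
      exact congrFun f2 ⟨x, hx⟩
    have f4 : MemLp (J.indicator f) 2 m := by
      rw [memLp_indicator_iff_restrict hJ, ← hg.map_eq,
        memLp_map_measure_iff f1.aestronglyMeasurable hg.measurable.aemeasurable]
      exact (Lp.memLp ζ).ae_eq f3.symm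
    refine ⟨f4.toLp, Lp.ext ?_⟩
    filter_upwards [hR f4.toLp, hg.quasiMeasurePreserving.ae (ae_restrict_of_ae f4.coeFn_toLp),
      hg.quasiMeasurePreserving.ae (ae_restrict_mem hJ), f3] with x a1 a2 a3 a4
    rw [a1, a2, indicator_of_mem a3, ← a4, comp_apply]

noncomputable def D' {X : Type} [MeasurableSpace X] (m : Measure X) : Submodule ℂ (Op m) where
  carrier := {a | E a ∧ E (star a)}
  add_mem' ha hb := ⟨ha.1.add hb.1, by rw [star_add]; exact ha.2.add hb.2⟩
  zero_mem' := by
    have h : E (1 : Op m) := ⟨1, fun ξ => by simp⟩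
    have : E (0 : Op m) := by simpa using h.smul 0
    exact ⟨this, by rw [star_zero]; exact this⟩
  smul_mem' c a ha := ⟨ha.1.smul c, by rw [star_smul]; exact ha.2.smul _⟩

theorem transfer {X Y ι : Type} [MeasurableSpace X] [MeasurableSpace Y] {m : Measure X}
    {ν : Measure Y} (hν : ∀ a : Op ν, IsCompactOperator a → a ∈ Cu ν) (R : ι → Hs m →L[ℂ] Hs ν)
    (r1 : ∀ k ξ, ν (support (R k ξ)) ≤ m (support ξ))
    (r2 : ∀ k η, m (support (adjoint (R k) η)) ≤ ν (support η))
    (r3 : ∀ ξ, (∀ k, R k ξ = 0) → ξ = 0) (a : Op m) (ha : IsCompactOperator a) : a ∈ Cu m := by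
  have hE : ∀ k l (c : Op ν) n, Expands ν c n → E (adjoint (R k) ∘L c ∘L R l) :=
    fun k l c n h => ⟨n, fun ξ => (r2 k _).trans ((h _).trans (by gcongr; exact r1 l ξ))⟩
  have h1 : ∀ k l x y, rankOne ℂ (adjoint (R k) x) (adjoint (R l) y) ∈ (D' m).topologicalClosure := by
    intro k l x y
    have h2 := hν (rankOne ℂ x y)
      ((isCompactOperator_of_locallyCompactSpace_dom (innerSL ℂ y)).clm_comp
        (toSpanSingleton ℂ x))
    rw [← rankOne_comp, ← comp_rankOne, ContinuousLinearMap.comp_assoc]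
    refine map_mem_closure (f := fun c : Op ν => adjoint (R k) ∘L c ∘L R l) (by fun_prop) h2 ?_
    rintro c ⟨n, c1, c2⟩
    refine ⟨hE _ _ _ _ c1, ?_⟩
    rw [star_eq_adjoint, adjoint_comp, adjoint_comp, adjoint_adjoint,
      ContinuousLinearMap.comp_assoc]
    exact hE _ _ _ _ c2
  have h3 : ∀ y, (∀ k x, rankOne ℂ (adjoint (R k) x) y ∈ (D' m).topologicalClosure) →
      ∀ x, rankOne ℂ y x ∈ (D' m).topologicalClosure := by
    intro y h x
    let K := (D' m).topologicalClosure.comap (smulRightL ℂ _ _ (innerSL ℂ y)).toLinearMap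
    have hK : IsClosed (K : Set (Hs m)) :=
      (D' m).isClosed_topologicalClosure.preimage (smulRightL ℂ _ _ (innerSL ℂ y)).continuous
    have := hK.completeSpace_coe
    have h4 : K = ⊤ := by
      rw [← Submodule.orthogonal_eq_bot_iff, eq_bot_iff]
      intro ξ hξ
      have h5 : ∀ k, R k ξ = 0 := fun k => by
        rw [← inner_self_eq_zero (𝕜 := ℂ), ← adjoint_inner_left]
        exact hξ _ (h k _)
      exact r3 ξ h5
    have h7 : rankOne ℂ x y ∈ (D' m).topologicalClosure := (h4.ge Submodule.mem_top : x ∈ K)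
    rw [← adjoint_rankOne, ← star_eq_adjoint]
    exact map_mem_closure continuous_star h7 fun c hc => ⟨hc.2, by rw [star_star]; exact hc.1⟩
  obtain ⟨w, b, -⟩ := exists_hilbertBasis ℂ (Hs m)
  have h8 : a ∈ (D' m).topologicalClosure := all_compact b _ (D' m).isClosed_topologicalClosure
    (fun _ _ => h3 _ (fun k x => h3 _ (fun l z => h1 l k z x) _) _) a ha
  refine closure_mono ?_ h8
  rintro c ⟨⟨l, hl⟩, l', hl'⟩
  exact ⟨max l l', fun ξ => (hl ξ).trans (by gcongr; exact le_max_left _ _),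
    fun ξ => (hl' ξ).trans (by gcongr; exact le_max_right _ _)⟩

theorem line (a : Op (volume : Measure ℝ)) (ha : IsCompactOperator a) : a ∈ Cu volume := by
  choose g N h1 h2 h3 h4 using exists_g
  choose R r1 r2 r3 _ using fun k => exists_R measurableSet_Icc (h1 k) (h2 k) (h3 k) (h4 k)
  refine transfer torus R r1 r2 (fun ξ h => ?_) a ha
  have h6 := (ae_restrict_iUnion_iff _ _).2 fun k => r3 k ξ (h k)
  rw [iUnion_Icc_intCast, Measure.restrict_univ] at h6
  exact Lp.eq_zero_iff_ae_eq_zero.2 h6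

theorem diffuse {X : Type} [MeasurableSpace X] [StandardBorelSpace X] (m : Measure X)
    [SigmaFinite m] (hm : ∀ x, m {x} = 0) (a : Op m) (ha : IsCompactOperator a) : a ∈ Cu m := by
  have : NullSingletonClass m := ⟨hm⟩
  have : ∀ k, IsFiniteMeasure (m.restrict (spanningSets m k)) := fun k =>
    ⟨by simpa using measure_spanningSets_lt_top m k⟩
  choose g N c h1 h2 h3 h4 using fun k => exists_h (m.restrict (spanningSets m k))
  choose R r1 r2 _ r4 using fun k => exists_R measurableSet_Icc (h1 k) (h2 k) (h3 k) (h4 k)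
  choose P p1 p2 p3 _ using fun k => exists_R (measurableSet_spanningSets m k)
    (MeasurePreserving.id _) MeasurableSet.empty measure_empty (injOn_id _)
  refine transfer line (fun k => adjoint (R k) ∘L P k) (fun k ξ => (r2 k _).trans (p1 k ξ))
    (fun k η => ?_) (fun ξ h => ?_) a ha
  · rw [adjoint_comp, adjoint_adjoint]
    exact (p2 k _).trans (r1 k η)
  · have h5 : ∀ k, P k ξ = 0 := fun k => by
      obtain ⟨y, hy⟩ := r4 k (P k ξ)
      rw [← inner_self_eq_zero (𝕜 := ℂ)]
      conv_lhs => enter [2]; rw [← hy]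
      rw [← adjoint_inner_right, show adjoint (R k) (P k ξ) = 0 from h k, inner_zero_right]
    have h6 := (ae_restrict_iUnion_iff _ _).2 fun k => p3 k ξ (h5 k)
    rw [iUnion_spanningSets, Measure.restrict_univ] at h6
    exact Lp.eq_zero_iff_ae_eq_zero.2 h6

end Pool.Agent.H5.Diffuse
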