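import Mathlib

set_option autoImplicit false
open MvPolynomial Finset
open scoped ComplexConjugate

namespace Pool.Agent.H5.Fock

theorem perm_succ {R : Type*} [CommSemiring R] {n : ℕ} (A : Matrix (Fin (n+1)) (Fin (n+1)) R) :
    A.permanent = ∑ i : Fin (n+1), A i 0 * (A.submatrix i.succAbove Fin.succ).permanent := by
  rw [Matrix.permanent, Finset.univ_perm_fin_succ, ← Finset.univ_product_univ]
  simp only [Finset.sum_map, Equiv.toEmbedding_apply, Finset.sum_product]
  refine Finset.sum_congr rfl fun i _ => Fin.cases ?_ (fun i => ?_) i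
  · simp only [Fin.prod_univ_succ, Matrix.permanent, Finset.mul_sum,
      Equiv.Perm.decomposeFin_symm_apply_zero,
      Equiv.swap_self,
      Equiv.Perm.decomposeFin_symm_apply_succ, Fin.succAbove_zero, Equiv.coe_refl, id,
      Matrix.submatrix_apply]
  · rw [← Matrix.permanent_permute_cols i.cycleRange, Matrix.permanent, Finset.mul_sum]
    refine Finset.sum_congr rfl fun σ _ => ?_
    simp only [Fin.prod_univ_succ, Fin.succAbove_cycleRange, Matrix.submatrix_apply, id,
        Equiv.Perm.decomposeFin_symm_apply_zero, Equiv.Perm.decomposeFin_symm_apply_succ]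

theorem perm_succ_row {R : Type*} [CommSemiring R] {n : ℕ} (A : Matrix (Fin (n+1)) (Fin (n+1)) R) :
    A.permanent = ∑ j : Fin (n+1), A 0 j * (A.submatrix Fin.succ j.succAbove).permanent := by
  rw [← Matrix.permanent_transpose A, perm_succ]
  refine Finset.sum_congr rfl fun j _ => ?_
  rw [← Matrix.permanent_transpose (A.submatrix Fin.succ j.succAbove)]
  rfl

variable {σ : Type*} [Fintype σ] [DecidableEq σ]

theorem deriv_prod {ι : Type*} [DecidableEq ι] (k : σ) (f : ι → MvPolynomial σ ℂ) (s : Finset ι) :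
    pderiv k (∏ j ∈ s, f j) = ∑ j ∈ s, (∏ j' ∈ s.erase j, f j') * pderiv k (f j) := by
  induction s using Finset.induction_on with
  | empty => simp
  | insert a s ha ih =>
    rw [Finset.prod_insert ha, Finset.sum_insert ha, Derivation.leibniz, ih, Finset.erase_insert ha,
      smul_eq_mul, smul_eq_mul, Finset.mul_sum, add_comm]
    congr 1
    refine Finset.sum_congr rfl fun j hj => ?_
    have hja : j ≠ a := fun h => ha (h ▸ hj)
    rw [Finset.erase_insert_of_ne hja.symm, Finset.prod_insert (fun h => ha (Finset.mem_of_mem_erase h))]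
    ring

theorem deriv_prod_fin {n : ℕ} (k : σ) (f : Fin (n+1) → MvPolynomial σ ℂ) :
    pderiv k (∏ j, f j) = ∑ j, (∏ j', f (j.succAbove j')) * pderiv k (f j) := by
  rw [deriv_prod]
  refine Finset.sum_congr rfl fun j _ => ?_
  congr 1
  rw [Fin.univ_succAbove n j, Finset.erase_cons, Finset.prod_map]
  rfl

noncomputable def w (m : σ →₀ ℕ) : ℝ := ∏ i, ((m i).factorial : ℝ)

theorem w_pos (m : σ →₀ ℕ) : 0 < w m :=
  Finset.prod_pos fun i _ => by exact_mod_cast Nat.factorial_pos _

theorem w_add (m : σ →₀ ℕ) (i : σ) : w (Finsupp.single i 1 + m) = (m i + 1) * w m := by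
  unfold w
  rw [← Finset.mul_prod_erase _ _ (Finset.mem_univ i),
    ← Finset.mul_prod_erase _ (fun j => ((m j).factorial : ℝ)) (Finset.mem_univ i)]
  have : ∏ j ∈ Finset.univ.erase i, (((Finsupp.single i 1 + m : σ →₀ ℕ) j).factorial : ℝ)
      = ∏ j ∈ Finset.univ.erase i, ((m j).factorial : ℝ) := by
    refine Finset.prod_congr rfl fun j hj => ?_
    have hj' : j ≠ i := Finset.ne_of_mem_erase hj
    simp [Finsupp.single_apply, hj'.symm]
  rw [this]
  simp only [Finsupp.add_apply, Finsupp.single_eq_same, add_comm 1 (m i), Nat.factorial_succ]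
  push_cast
  ring

noncomputable def B (p q : MvPolynomial σ ℂ) : ℂ :=
  ∑ m ∈ p.support, (w m : ℂ) * (conj (coeff m p) * coeff m q)

theorem B_eq (p q : MvPolynomial σ ℂ) (s : Finset (σ →₀ ℕ)) (hs : p.support ⊆ s) :
    B p q = ∑ m ∈ s, (w m : ℂ) * (conj (coeff m p) * coeff m q) := by
  unfold B
  refine Finset.sum_subset hs fun m _ hm => ?_
  rw [MvPolynomial.notMem_support_iff.mp hm]
  simp

theorem B_add_left (p p' q : MvPolynomial σ ℂ) : B (p + p') q = B p q + B p' q := by
  rw [B_eq (p + p') q (p.support ∪ p'.support) MvPolynomial.support_add,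
    B_eq p q (p.support ∪ p'.support) Finset.subset_union_left,
    B_eq p' q (p.support ∪ p'.support) Finset.subset_union_right, ← Finset.sum_add_distrib]
  refine Finset.sum_congr rfl fun m _ => ?_
  rw [coeff_add, map_add]; ring

theorem B_add_right (p q q' : MvPolynomial σ ℂ) : B p (q + q') = B p q + B p q' := by
  unfold B
  rw [← Finset.sum_add_distrib]
  refine Finset.sum_congr rfl fun m _ => ?_
  rw [coeff_add]; ring

theorem B_C_left (c : ℂ) (p q : MvPolynomial σ ℂ) : B (C c * p) q = conj c * B p q := by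
  have h : (C c * p).support ⊆ p.support := by
    rw [C_mul']; exact MvPolynomial.support_smul
  rw [B_eq _ q _ h, B, Finset.mul_sum]
  refine Finset.sum_congr rfl fun m _ => ?_
  rw [coeff_C_mul, map_mul]; ring

theorem B_C_right (c : ℂ) (p q : MvPolynomial σ ℂ) : B p (C c * q) = c * B p q := by
  unfold B
  rw [Finset.mul_sum]
  refine Finset.sum_congr rfl fun m _ => ?_
  rw [coeff_C_mul]; ring

theorem B_zero_left (q : MvPolynomial σ ℂ) : B 0 q = 0 := by simp [B]

theorem B_zero_right (p : MvPolynomial σ ℂ) : B p 0 = 0 := by simp [B]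

theorem B_sum_left {ι : Type*} (s : Finset ι) (f : ι → MvPolynomial σ ℂ) (q : MvPolynomial σ ℂ) :
    B (∑ i ∈ s, f i) q = ∑ i ∈ s, B (f i) q := by
  classical
  induction s using Finset.induction_on with
  | empty => simp [B_zero_left]
  | insert a s ha ih => rw [Finset.sum_insert ha, Finset.sum_insert ha, B_add_left, ih]

theorem B_sum_right {ι : Type*} (s : Finset ι) (f : ι → MvPolynomial σ ℂ) (p : MvPolynomial σ ℂ) :
    B p (∑ i ∈ s, f i) = ∑ i ∈ s, B p (f i) := by
  classical
  induction s using Finset.induction_on with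
  | empty => simp [B_zero_right]
  | insert a s ha ih => rw [Finset.sum_insert ha, Finset.sum_insert ha, B_add_right, ih]

theorem B_X_mul (i : σ) (p q : MvPolynomial σ ℂ) : B (X i * p) q = B p (pderiv i q) := by
  unfold B
  rw [support_X_mul, Finset.sum_map]
  refine Finset.sum_congr rfl fun m _ => ?_
  simp only [addLeftEmbedding_apply]
  rw [coeff_X_mul, coeff_pderiv, w_add, add_comm m]
  push_cast
  ring

noncomputable def ell (v : σ → ℂ) : MvPolynomial σ ℂ := ∑ k, C (v k) * X k

theorem pderiv_ell (k : σ) (v : σ → ℂ) : pderiv k (ell v) = C (v k) := by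
  unfold ell
  rw [map_sum, Finset.sum_eq_single k]
  · simp
  · intro j _ hj
    simp [pderiv_X, hj.symm, Pi.single_apply, hj]
  · simp

theorem perm_gram (n : ℕ) (v u : Fin n → σ → ℂ) :
    (Matrix.of fun i j => ∑ k, conj (v i k) * u j k).permanent
      = B (∏ i, ell (v i)) (∏ j, ell (u j)) := by
  induction n with
  | zero =>
    rw [Matrix.permanent_isEmpty]
    simp only [Finset.univ_eq_empty, Finset.prod_empty]
    rw [B_eq 1 1 {0} (by
      intro m hm
      simp only [Finset.mem_singleton]
      by_contra h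
      apply MvPolynomial.mem_support_iff.mp hm
      rw [coeff_one, if_neg (Ne.symm h)])]
    simp [w]
  | succ n ih =>
    rw [perm_succ_row, Fin.prod_univ_succ]
    have : ∀ p q : MvPolynomial σ ℂ, B (ell (v 0) * p) q = ∑ k, conj (v 0 k) * B p (pderiv k q) := by
      intro p q
      unfold ell
      rw [Finset.sum_mul, B_sum_left]
      refine Finset.sum_congr rfl fun k _ => ?_
      rw [mul_assoc, B_C_left, B_X_mul]
    rw [this]
    simp only [deriv_prod_fin, pderiv_ell, B_sum_right, Finset.mul_sum, Matrix.of_apply,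
      Finset.sum_mul]
    rw [Finset.sum_comm]
    refine Finset.sum_congr rfl fun k _ => Finset.sum_congr rfl fun j _ => ?_
    rw [mul_comm _ (C (u j k)), B_C_right, ← ih (fun i => v i.succ) (fun j' => u (j.succAbove j')),
      mul_assoc]
    rfl

end Pool.Agent.H5.Fock
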