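import Pool.Agent.H5.FreeZ

set_option autoImplicit false

namespace Pool.Agent.H5.FreeZ

open Submodule IntermediateField

section sep
variable (R : Type*) [CommRing R] {K E : Type*} [Field K] [Field E] [Algebra R K] [Algebra K E]
  [Algebra R E] [IsScalarTower R K E]

def RL (L : IntermediateField K E) : Submodule R E where
  carrier := {y | y ∈ L ∧ IsIntegral R y}
  zero_mem' := ⟨L.zero_mem, isIntegral_zero⟩
  add_mem' := fun ha hb => ⟨L.add_mem ha.1 hb.1, ha.2.add hb.2⟩
  smul_mem' := fun r a ha => ⟨by
    rw [← algebraMap_smul K r a]; exact L.smul_mem ha.1, ha.2.smul r⟩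

theorem mem_RL {L : IntermediateField K E} {y : E} : y ∈ RL R L ↔ y ∈ L ∧ IsIntegral R y := Iff.rfl

variable [IsDomain R] [IsPrincipalIdealRing R]

theorem sep_step [PerfectField K] [Algebra.IsAlgebraic K E] (L : IntermediateField K E) (θ : E)
    (hθ : IsIntegral R θ) (B : Set E) (hB : Good B (RL R L)) :
    ∃ B', B ⊆ B' ∧ Good B' (RL R ((adjoin L {θ}).restrictScalars K)) := by
  have hfree := free_of_good B _ hB
  have hP : PerfectField L := Algebra.IsAlgebraic.perfectField K
  have hT1 : IsScalarTower R L E := IsScalarTower.of_algebraMap_eq fun r => rfl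
  have hT2 : IsScalarTower R (adjoin L {θ}) E := IsScalarTower.of_algebraMap_eq fun r => rfl
  have hθL : IsIntegral L θ := hθ.tower_top
  have hfd : FiniteDimensional L (adjoin L {θ}) := adjoin.finiteDimensional hθL
  let pb := adjoin.powerBasis hθL
  have hint : ∀ y : adjoin L {θ}, IsIntegral R y ↔ IsIntegral R (y : E) := fun y =>
    (isIntegral_algebraMap_iff (algebraMap (adjoin L {θ}) E).injective).symm
  have hintL : ∀ y : L, IsIntegral R y ↔ IsIntegral R (y : E) := fun y =>
    (isIntegral_algebraMap_iff (algebraMap L E).injective).symm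
  have hb : ∀ i, IsIntegral R (pb.basis i) := by
    intro i
    rw [pb.basis_eq_pow]
    exact ((hint _).mpr hθ).pow _
  have hnd : ∀ y : adjoin L {θ}, (∀ i, Algebra.trace L _ (y * pb.basis i) = 0) → y = 0 := by
    intro y hy
    refine (traceForm_nondegenerate L (adjoin L {θ})).1 y fun z => ?_
    have : Algebra.traceForm L (adjoin L {θ}) y = 0 := pb.basis.ext fun i => by
      simpa [Algebra.traceForm_apply] using hy i
    rw [this]; rfl
  obtain ⟨i0, hi0⟩ : ∃ i, Algebra.trace L _ (pb.basis i) ≠ 0 := by
    by_contra hc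
    push Not at hc
    exact one_ne_zero (hnd 1 fun i => by rw [one_mul]; exact hc i)
  set u := pb.basis i0 with hu
  let g : adjoin L {θ} →ₗ[L] adjoin L {θ} :=
    Algebra.trace L _ u • LinearMap.id -
      (Algebra.linearMap L _).comp ((Algebra.trace L _).comp (LinearMap.mulLeft L u))
  have hg : ∀ y, g y = Algebra.trace L _ u • y - algebraMap L _ (Algebra.trace L _ (u * y)) :=
    fun y => rfl
  have hgint : ∀ y, IsIntegral R y → IsIntegral R (g y) := by
    intro y hy
    rw [hg, Algebra.smul_def]
    exact (((Algebra.isIntegral_trace (hb i0)).algebraMap).mul hy).sub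
      (Algebra.isIntegral_trace ((hb i0).mul hy)).algebraMap
  have hg0 : ∀ y : adjoin L {θ}, g y = 0 ↔ (y : E) ∈ L := by
    intro y
    rw [hg, sub_eq_zero]
    constructor
    · intro h
      have : y = algebraMap L _ ((Algebra.trace L _ u)⁻¹ * Algebra.trace L _ (u * y)) := by
        rw [map_mul, ← h, ← Algebra.smul_def, smul_smul, inv_mul_cancel₀ hi0, one_smul]
      rw [this]
      exact ((Algebra.trace L _ u)⁻¹ * Algebra.trace L _ (u * y)).2
    · intro h
      have : y = algebraMap L _ (⟨y, h⟩ : L) := rfl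
      rw [this, mul_comm u, ← Algebra.smul_def (A := adjoin L {θ}) _ u, map_smul, smul_eq_mul,
        map_mul, Algebra.smul_def, mul_comm]
  let e : RL R ((adjoin L {θ}).restrictScalars K) → adjoin L {θ} := fun y => ⟨y, y.2.1⟩
  let f : RL R ((adjoin L {θ}).restrictScalars K) →ₗ[R] (Fin pb.dim → RL R L) :=
    { toFun := fun y i => ⟨(Algebra.trace L _ (g (e y) * pb.basis i) : L), SetLike.coe_mem _,
        (hintL _).mp (Algebra.isIntegral_trace ((hgint _ ((hint _).mpr y.2.2)).mul (hb i)))⟩
      map_add' := by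
        intro a b
        funext i
        apply Subtype.ext
        have : e (a + b) = e a + e b := rfl
        simp only [this, map_add, add_mul, Pi.add_apply, Submodule.coe_add]
        rfl
      map_smul' := by
        intro r a
        funext i
        apply Subtype.ext
        have : e (r • a) = (algebraMap R L r) • e a := by
          rw [algebraMap_smul]; rfl
        simp only [this, map_smul, smul_mul_assoc, Pi.smul_apply, RingHom.id_apply,
          Submodule.coe_smul]
        rw [algebraMap_smul]
        rfl }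
  refine ext_step _ _ ?_ f ?_ B hB
  · intro y hy
    exact ⟨(adjoin L {θ}).algebraMap_mem (⟨y, hy.1⟩ : L), hy.2⟩
  · intro y
    constructor
    · intro h
      refine ⟨(hg0 (e y)).mp (hnd _ fun i => ?_), y.2.2⟩
      have := congrArg Subtype.val (congrFun h i)
      exact Subtype.ext this
    · intro h
      funext i
      apply Subtype.ext
      have : g (e y) = 0 := (hg0 (e y)).mpr h.1
      simp [f, this]

theorem sep_all [PerfectField K] [Algebra.IsAlgebraic K E] [Algebra.IsAlgebraic R E]
    [FaithfulSMul R K] (B0 : Set E) (hB0 : Good B0 (RL R (⊥ : IntermediateField K E))) :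
    ∃ B, Good B (RL R (⊤ : IntermediateField K E)) := by
  have hmono : ∀ L L' : IntermediateField K E, RL R L ≤ RL R L' → L ≤ L' := by
    intro L L' h y hy
    obtain ⟨r, hr, hi⟩ := (Algebra.IsAlgebraic.isAlgebraic (R := R) y).exists_integral_multiple
    have h1 : r • y ∈ L' := (h ⟨by rw [← algebraMap_smul K r y]; exact L.smul_mem hy, hi⟩).1
    have h2 : algebraMap R K r ≠ 0 := by
      rwa [ne_eq, FaithfulSMul.algebraMap_eq_zero_iff]
    have h3 := L'.smul_mem (x := (algebraMap R K r)⁻¹) h1
    rwa [← algebraMap_smul K r y, smul_smul, inv_mul_cancel₀ h2, one_smul] at h3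
  obtain ⟨B, -, hB⟩ := zornB (Set.range (RL R (K := K) (E := E))) (RL R (⊤ : IntermediateField K E))
    (by
      intro c hc hch hne
      have hne' : Nonempty {L : IntermediateField K E // RL R L ∈ c} := by
        obtain ⟨N, hN⟩ := hne
        obtain ⟨L, rfl⟩ := hc hN
        exact ⟨⟨L, hN⟩⟩
      have hdir : Directed (· ≤ ·) fun L : {L : IntermediateField K E // RL R L ∈ c} => L.1 := by
        intro a b
        rcases hch.total a.2 b.2 with h | h
        · exact ⟨b, hmono _ _ h, le_rfl⟩
        · exact ⟨a, le_rfl, hmono _ _ h⟩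
      refine ⟨⨆ L : {L : IntermediateField K E // RL R L ∈ c}, L.1, ?_⟩
      ext y
      rw [mem_RL, ← SetLike.mem_coe, IntermediateField.coe_iSup_of_directed hdir, Set.mem_iUnion,
        mem_sSup_of_directed hne hch.directedOn]
      constructor
      · rintro ⟨⟨L, hL⟩, hi⟩
        exact ⟨_, L.2, hL, hi⟩
      · rintro ⟨N, hN, hy⟩
        obtain ⟨L, rfl⟩ := hc hN
        exact ⟨⟨⟨L, hN⟩, hy.1⟩, hy.2⟩)
    (by
      rintro _ ⟨L, rfl⟩ hne B hB
      obtain ⟨θ, h1, h2⟩ : ∃ θ, IsIntegral R θ ∧ θ ∉ L := by
        by_contra hc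
        push Not at hc
        apply hne
        ext y
        exact ⟨fun h => ⟨trivial, h.2⟩, fun h => ⟨hc y h.2, h.2⟩⟩
      refine ⟨_, ⟨(adjoin L {θ}).restrictScalars K, rfl⟩, fun h => h2 ?_, sep_step R L θ h1 B hB⟩
      have : θ ∈ RL R ((adjoin L {θ}).restrictScalars K) := ⟨mem_adjoin_simple_self L θ, h1⟩
      rw [h] at this
      exact this.1) _ ⟨⊥, rfl⟩ B0 hB0
  exact ⟨B, hB⟩

end sep

end Pool.Agent.H5.FreeZ
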