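import Mathlib

set_option autoImplicit false

namespace Pool.Agent.H5.FreeZ

open Submodule

variable {R : Type*} [CommRing R]

def Good {E : Type*} [AddCommGroup E] [Module R E] (B : Set E) (N : Submodule R E) : Prop :=
  LinearIndepOn R id B ∧ span R B = N

theorem zornB {E : Type*} [AddCommGroup E] [Module R E] (F : Set (Submodule R E))
    (T : Submodule R E)
    (hchain : ∀ c ⊆ F, IsChain (· ≤ ·) c → c.Nonempty → sSup c ∈ F)
    (hstep : ∀ N ∈ F, N ≠ T → ∀ B, Good B N → ∃ N' ∈ F, N' ≠ N ∧ ∃ B', B ⊆ B' ∧ Good B' N')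
    (N0 : Submodule R E) (h0 : N0 ∈ F) (B0 : Set E) (hB0 : Good B0 N0) :
    ∃ B, B0 ⊆ B ∧ Good B T := by
  obtain ⟨B, hB, hmax⟩ := zorn_subset_nonempty {B : Set E | LinearIndepOn R id B ∧ span R B ∈ F}
    (by
      intro c hc hch hne
      refine ⟨⋃₀ c, ⟨linearIndepOn_sUnion_of_directed hch.directedOn fun a ha => (hc ha).1, ?_⟩,
        fun s hs => Set.subset_sUnion_of_mem hs⟩
      rw [Set.sUnion_eq_biUnion, span_iUnion₂, ← sSup_image]
      refine hchain _ ?_ (hch.image_of_map_rel _ _ _ fun a b h => span_mono h) (hne.image _)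
      rintro _ ⟨s, hs, rfl⟩
      exact (hc hs).2) B0 ⟨hB0.1, hB0.2 ▸ h0⟩
  refine ⟨B, hB, hmax.1.1, ?_⟩
  by_contra hne
  obtain ⟨N', hN', hne', B', hBB', hg⟩ := hstep _ hmax.1.2 hne B ⟨hmax.1.1, rfl⟩
  have : B' ⊆ B := hmax.2 (y := B') ⟨hg.1, hg.2 ▸ hN'⟩ hBB'
  apply hne'
  rw [← hg.2, Set.Subset.antisymm this hBB']

theorem ext_top [IsDomain R] [IsPrincipalIdealRing R] {M : Type*} [AddCommGroup M] [Module R M]
    {I : Type*} (f : M →ₗ[R] (I →₀ R)) (B0 : Set M) (h : Good B0 (LinearMap.ker f)) :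
    ∃ B, B0 ⊆ B ∧ Good B (⊤ : Submodule R M) := by
  classical
  refine zornB {N | ∀ x, (∀ i ∈ (f x).support, ∃ y ∈ N, i ∈ (f y).support) → x ∈ N} ⊤ ?_ ?_ _ ?_ B0 h
  · intro c hc hch hne x hx
    have key : ∀ s : Finset I, (∀ i ∈ s, ∃ y ∈ sSup c, i ∈ (f y).support) →
        ∃ N ∈ c, ∀ i ∈ s, ∃ y ∈ N, i ∈ (f y).support := by
      intro s
      induction s using Finset.induction_on with
      | empty => intro _; obtain ⟨N, hN⟩ := hne; exact ⟨N, hN, by simp⟩
      | insert a s _ ih =>
        intro hs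
        obtain ⟨N, hN, h1⟩ := ih fun i hi => hs i (Finset.mem_insert_of_mem hi)
        obtain ⟨y, hy, hy'⟩ := hs a (Finset.mem_insert_self _ _)
        obtain ⟨N', hN', hyN⟩ := (mem_sSup_of_directed hne hch.directedOn).mp hy
        obtain ⟨N'', hN'', l1, l2⟩ := hch.directedOn N hN N' hN'
        refine ⟨N'', hN'', fun i hi => ?_⟩
        rcases Finset.mem_insert.mp hi with rfl | hi
        · exact ⟨y, l2 hyN, hy'⟩
        · obtain ⟨z, hz, hz'⟩ := h1 i hi
          exact ⟨z, l1 hz, hz'⟩
    obtain ⟨N, hN, h1⟩ := key _ hx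
    exact le_sSup hN (hc hN x h1)
  · intro N hN hne B hB
    let J : I → Prop := fun i => ∃ y ∈ N, i ∈ (f y).support
    have hex : ∃ n, ∃ x, x ∉ N ∧ ((f x).support.filter fun i => ¬ J i).card = n := by
      by_contra hc
      push Not at hc
      apply hne
      rw [eq_top_iff]
      intro x _
      by_contra hx
      exact hc _ x hx rfl
    obtain ⟨x, hx, hxn⟩ := Nat.find_spec hex
    have hmin : ∀ y, ((f y).support.filter fun i => ¬ J i).card < Nat.find hex → y ∈ N := by
      intro y hy
      by_contra hyN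
      exact Nat.find_min hex hy ⟨y, hyN, rfl⟩
    set D := (f x).support.filter fun i => ¬ J i with hD
    obtain ⟨i0, hi0⟩ : D.Nonempty := by
      rw [Finset.nonempty_iff_ne_empty]
      intro hD0
      apply hx
      refine hN x fun i hi => ?_
      by_contra hJ
      have : i ∈ D := Finset.mem_filter.mpr ⟨hi, hJ⟩
      rw [hD0] at this
      simp at this
    let N' : Submodule R M :=
      { carrier := {y | ∀ i, ¬ J i → i ∉ D → f y i = 0}
        zero_mem' := by intro i _ _; simp
        add_mem' := by intro a b ha hb i h1 h2; simp [ha i h1 h2, hb i h1 h2]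
        smul_mem' := by intro r a ha i h1 h2; simp [ha i h1 h2] }
    have hNJ : ∀ y ∈ N, ∀ i, ¬ J i → f y i = 0 := by
      intro y hy i hi
      by_contra h0
      exact hi ⟨y, hy, Finsupp.mem_support_iff.mpr h0⟩
    have hle : N ≤ N' := fun y hy i h1 _ => hNJ y hy i h1
    have hxN' : x ∈ N' := by
      intro i h1 h2
      by_contra h0
      exact h2 (Finset.mem_filter.mpr ⟨Finsupp.mem_support_iff.mpr h0, h1⟩)
    have hker : ∀ y ∈ N', f y i0 = 0 → y ∈ N := by
      intro y hy h0
      apply hmin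
      rw [← hxn]
      refine Finset.card_lt_card ⟨fun i hi => ?_, fun hsub => ?_⟩
      · obtain ⟨h1, h2⟩ := Finset.mem_filter.mp hi
        by_contra h3
        exact Finsupp.mem_support_iff.mp h1 (hy i h2 h3)
      · exact Finsupp.mem_support_iff.mp (Finset.mem_filter.mp (hsub hi0)).1 h0
    let φ : M →ₗ[R] R := (Finsupp.lapply i0).comp f
    obtain ⟨g, hg⟩ := (IsPrincipalIdealRing.principal (N'.map φ)).principal
    obtain ⟨z, hz, hzg⟩ : g ∈ N'.map φ := by rw [hg]; exact mem_span_singleton_self g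
    have hdvd : ∀ y ∈ N', ∃ r : R, r • g = f y i0 := by
      intro y hy
      have : φ y ∈ N'.map φ := mem_map_of_mem hy
      rw [hg] at this
      exact mem_span_singleton.mp this
    have hzg' : f z i0 = g := hzg
    have hg0 : g ≠ 0 := by
      intro h0
      obtain ⟨r, hr⟩ := hdvd x hxN'
      rw [h0, smul_zero] at hr
      exact Finsupp.mem_support_iff.mp (Finset.mem_filter.mp hi0).1 hr.symm
    refine ⟨N', ?_, fun h => hx (h ▸ hxN'), insert z B, Set.subset_insert _ _, ?_, ?_⟩
    · intro y hy i h1 h2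
      by_contra h0
      obtain ⟨w, hw, hw'⟩ := hy i (Finsupp.mem_support_iff.mpr h0)
      exact Finsupp.mem_support_iff.mp hw' (hw i h1 h2)
    · refine hB.1.id_insert' fun r hr => ?_
      rw [hB.2] at hr
      have := hNJ _ hr i0 (Finset.mem_filter.mp hi0).2
      rw [map_smul, Finsupp.smul_apply, hzg', smul_eq_mul] at this
      exact (mul_eq_zero.mp this).resolve_right hg0
    · rw [span_insert, hB.2]
      refine le_antisymm (sup_le ((span_singleton_le_iff_mem _ _).mpr hz) hle) fun y hy => ?_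
      obtain ⟨r, hr⟩ := hdvd y hy
      have h1 : y - r • z ∈ N := hker _ (N'.sub_mem hy (N'.smul_mem r hz)) (by
        rw [map_sub, map_smul, Finsupp.sub_apply, Finsupp.smul_apply, hzg', hr, sub_self])
      have : y = r • z + (y - r • z) := by abel
      rw [this]
      exact add_mem_sup (smul_mem _ r (mem_span_singleton_self z)) h1
  · intro x hx
    rw [LinearMap.mem_ker]
    ext i
    by_contra h0
    obtain ⟨y, hy, hy'⟩ := hx i (Finsupp.mem_support_iff.mpr h0)
    rw [LinearMap.mem_ker.mp hy] at hy'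
    simp at hy'

theorem ext_step [IsDomain R] [IsPrincipalIdealRing R] {E : Type*} [AddCommGroup E] [Module R E]
    {F : Type*} [AddCommGroup F] [Module R F] [Module.Free R F] (N N' : Submodule R E)
    (hle : N ≤ N') (f : N' →ₗ[R] F) (hf : ∀ y : N', f y = 0 ↔ (y : E) ∈ N) (B : Set E)
    (hB : Good B N) : ∃ B', B ⊆ B' ∧ Good B' N' := by
  let b := Module.Free.chooseBasis R F
  have hBN : B ⊆ N' := fun x hx => hle (hB.2 ▸ subset_span hx)
  have himg : N'.subtype '' (N'.subtype ⁻¹' B) = B :=
    Set.image_preimage_eq_of_subset (fun x hx => ⟨⟨x, hBN hx⟩, rfl⟩)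
  obtain ⟨B', h1, h2⟩ := ext_top (b.repr.toLinearMap.comp f) (N'.subtype ⁻¹' B) (by
    constructor
    · refine LinearIndepOn.of_comp N'.subtype ?_
      have := hB.1
      rw [← himg] at this
      exact this.comp_of_image N'.injective_subtype.injOn
    · apply map_injective_of_injective N'.injective_subtype
      rw [map_span, himg, hB.2]
      ext y
      constructor
      · intro hy
        exact ⟨⟨y, hle hy⟩, by simpa using (hf ⟨y, hle hy⟩).mpr hy, rfl⟩
      · rintro ⟨z, hz, rfl⟩
        exact (hf z).mp (by simpa using hz))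
  refine ⟨N'.subtype '' B', ?_, h2.1.id_imageₛ N'.injective_subtype.injOn, ?_⟩
  · rw [← himg]; exact Set.image_mono h1
  · rw [← map_span, h2.2, Submodule.map_top, range_subtype]

theorem free_of_good {E : Type*} [AddCommGroup E] [Module R E] (B : Set E) (N : Submodule R E)
    (h : Good B N) : Module.Free R N := by
  obtain ⟨h1, rfl⟩ := h
  have := Module.Free.of_basis (Module.Basis.span h1)
  rwa [show Set.range (fun x : B => id (x : E)) = B by simp] at this

theorem seqB {E : Type*} [AddCommGroup E] [Module R E] (N : ℕ → Submodule R E)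
    (hstep : ∀ n B, Good B (N n) → ∃ B', B ⊆ B' ∧ Good B' (N (n + 1)))
    (B0 : Set E) (h0 : Good B0 (N 0)) : ∃ B, Good B (⨆ n, N n) := by
  choose! nx h1 h2 using hstep
  let S : ℕ → Set E := fun n => Nat.rec B0 (fun k s => nx k s) n
  have hS : ∀ n, Good (S n) (N n) := by
    intro n
    induction n with
    | zero => exact h0
    | succ n ih => exact h2 n _ ih
  have hm : Monotone S := monotone_nat_of_le_succ fun n => h1 n _ (hS n)
  refine ⟨⋃ n, S n, linearIndepOn_iUnion_of_directed hm.directed_le fun n => (hS n).1, ?_⟩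
  rw [span_iUnion]
  exact iSup_congr fun n => (hS n).2

end Pool.Agent.H5.FreeZ
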