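import Mathlib

set_option autoImplicit false

namespace Pool.Agent.H5.Gap

open Matrix MeasureTheory ProbabilityTheory
open scoped NNReal ENNReal

theorem eig_basis {n : ℕ} (N : Matrix (Fin n) (Fin n) ℝ) (hN : N.IsHermitian) :
    (∀ i, N *ᵥ ⇑(hN.eigenvectorBasis i) = hN.eigenvalues i • ⇑(hN.eigenvectorBasis i)) ∧
    (∀ i j, ⇑(hN.eigenvectorBasis i) ⬝ᵥ ⇑(hN.eigenvectorBasis j) = if i = j then 1 else 0) ∧
    (∀ y : Fin n → ℝ, ∑ i, (⇑(hN.eigenvectorBasis i) ⬝ᵥ y) ^ 2 = y ⬝ᵥ y) := by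
  refine ⟨hN.mulVec_eigenvectorBasis, fun i j => ?_, fun y => ?_⟩
  · have h := orthonormal_iff_ite.1 hN.eigenvectorBasis.orthonormal j i
    rw [EuclideanSpace.inner_eq_star_dotProduct] at h
    simpa [eq_comm] using h
  · have h := hN.eigenvectorBasis.sum_inner_mul_inner (WithLp.toLp 2 y) (WithLp.toLp 2 y)
    simp only [EuclideanSpace.inner_eq_star_dotProduct, star_trivial] at h
    rw [← h]
    refine Finset.sum_congr rfl fun i _ => ?_
    rw [pow_two, dotProduct_comm y]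

theorem near_eig {n : ℕ} (N : Matrix (Fin n) (Fin n) ℝ) (hs : Nᵀ = N) (w : Fin n → Fin n → ℝ)
    (ν : Fin n → ℝ) (h1 : ∀ i, N *ᵥ w i = ν i • w i)
    (h3 : ∀ y : Fin n → ℝ, ∑ i, (w i ⬝ᵥ y) ^ 2 = y ⬝ᵥ y) (y : Fin n → ℝ) (l η : ℝ)
    (hy : 0 < y ⬝ᵥ y)
    (h : (N *ᵥ y - l • y) ⬝ᵥ (N *ᵥ y - l • y) ≤ η ^ 2 * (y ⬝ᵥ y)) : ∃ i, (ν i - l) ^ 2 ≤ η ^ 2 := by
  by_contra hc
  push Not at hc
  have h4 : ∀ i, w i ⬝ᵥ (N *ᵥ y - l • y) = (ν i - l) * (w i ⬝ᵥ y) := by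
    intro i
    rw [dotProduct_sub, dotProduct_mulVec, ← hs, vecMul_transpose, h1, smul_dotProduct,
      dotProduct_smul]
    simp only [smul_eq_mul]
    ring
  rw [← h3, ← h3, Finset.mul_sum] at h
  rw [← h3] at hy
  obtain ⟨i, -, hi⟩ := Finset.exists_ne_zero_of_sum_ne_zero hy.ne'
  have : ∑ i, η ^ 2 * (w i ⬝ᵥ y) ^ 2 < ∑ i, (w i ⬝ᵥ (N *ᵥ y - l • y)) ^ 2 := by
    refine Finset.sum_lt_sum (fun j _ => ?_) ⟨i, Finset.mem_univ _, ?_⟩
    · rw [h4, mul_pow]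
      exact mul_le_mul_of_nonneg_right (hc j).le (sq_nonneg _)
    · rw [h4, mul_pow]
      exact mul_lt_mul_of_pos_right (hc i) (lt_of_le_of_ne (sq_nonneg _) hi.symm)
  linarith

theorem split_row {m n : ℕ} (A : Matrix (Fin m) (Fin n) ℝ) (r : Fin m) (y z : Fin n → ℝ) :
    (A *ᵥ y) ⬝ᵥ (A *ᵥ z) = (A.updateRow r 0 *ᵥ y) ⬝ᵥ (A.updateRow r 0 *ᵥ z)
      + (A r ⬝ᵥ y) * (A r ⬝ᵥ z) := by
  have h : ∀ (y : Fin n → ℝ) i, (A.updateRow r 0 *ᵥ y) i = if i = r then 0 else (A *ᵥ y) i := by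
    intro y i
    by_cases hi : i = r
    · subst hi
      simp [mulVec]
    · simp [mulVec, hi]
  have h2 : (A r ⬝ᵥ y) * (A r ⬝ᵥ z) = ∑ i, if i = r then (A *ᵥ y) i * (A *ᵥ z) i else 0 := by
    simp [mulVec]
  rw [h2, dotProduct, dotProduct, ← Finset.sum_add_distrib]
  refine Finset.sum_congr rfl fun i _ => ?_
  rw [h, h]
  split_ifs <;> simp

theorem dot_gram {m n : ℕ} (B : Matrix (Fin m) (Fin n) ℝ) (y z : Fin n → ℝ) :
    y ⬝ᵥ ((Bᵀ * B) *ᵥ z) = (B *ᵥ y) ⬝ᵥ (B *ᵥ z) := by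
  rw [← mulVec_mulVec, dotProduct_mulVec, vecMul_transpose]

theorem key {m n : ℕ} (hmn : m ≤ n) (A : Matrix (Fin m) (Fin n) ℝ) (r : Fin m)
    (w : Fin n → Fin n → ℝ) (ν : Fin n → ℝ)
    (h1 : ∀ i, ((A.updateRow r 0)ᵀ * A.updateRow r 0) *ᵥ w i = ν i • w i)
    (h3 : ∀ y : Fin n → ℝ, ∑ i, (w i ⬝ᵥ y) ^ 2 = y ⬝ᵥ y)
    (u u' : Fin m → ℝ) (l l' c : ℝ) (hu : u ⬝ᵥ u = 1) (hu' : u' ⬝ᵥ u' = 1) (huu : u ⬝ᵥ u' = 0)
    (e1 : (A * Aᵀ) *ᵥ u = l • u) (e2 : (A * Aᵀ) *ᵥ u' = l' • u') (hl : l ≤ l')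
    (hl' : l' ≤ (1 + c) * l) (hr : u r ≠ 0) :
    ∃ i, (A r ⬝ᵥ w i) ^ 2 * u r ^ 2 ≤ c ^ 2 * l := by
  set B := A.updateRow r 0 with hB
  have hs : (Bᵀ * B)ᵀ = Bᵀ * B := by rw [transpose_mul, transpose_transpose]
  have hAp : ∀ v : Fin m → ℝ, A *ᵥ (Aᵀ *ᵥ v) = (A * Aᵀ) *ᵥ v := fun v => mulVec_mulVec _ _ _
  have hpp : ∀ v v' : Fin m → ℝ, (Aᵀ *ᵥ v) ⬝ᵥ (Aᵀ *ᵥ v') = v ⬝ᵥ ((A * Aᵀ) *ᵥ v') := by
    intro v v'
    have := dot_gram Aᵀ v v'
    rw [transpose_transpose] at this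
    exact this.symm
  set p := Aᵀ *ᵥ u with hp
  set p' := Aᵀ *ᵥ u' with hp'
  have pp : p ⬝ᵥ p = l := by rw [hpp, e1, dotProduct_smul, hu]; simp
  have pp' : p' ⬝ᵥ p' = l' := by rw [hpp, e2, dotProduct_smul, hu']; simp
  have pq : p ⬝ᵥ p' = 0 := by rw [hpp, e2, dotProduct_smul, huu]; simp
  have l0 : 0 ≤ l := by
    rw [← pp]
    exact Finset.sum_nonneg fun i _ => mul_self_nonneg _
  have Ap : A *ᵥ p = l • u := by rw [hAp, e1]
  have Ap' : A *ᵥ p' = l' • u' := by rw [hAp, e2]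
  have hadj : ∀ (y : Fin n → ℝ) (v : Fin m → ℝ), (A *ᵥ y) ⬝ᵥ v = y ⬝ᵥ (Aᵀ *ᵥ v) := by
    intro y v
    rw [dotProduct_mulVec, vecMul_transpose]
  rcases l0.eq_or_lt with l0 | l0
  · -- degenerate case
    have hp0 : p = 0 := dotProduct_self_eq_zero.1 (pp.trans l0.symm)
    obtain ⟨y, hy0, hy⟩ : ∃ y : Fin n → ℝ, y ≠ 0 ∧ B *ᵥ y = 0 := by
      let L : (Fin n → ℝ) →ₗ[ℝ] ({i : Fin m // i ≠ r} → ℝ) :=
        LinearMap.pi fun i => (LinearMap.proj i.1).comp B.mulVecLin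
      have hlt : Module.finrank ℝ ({i : Fin m // i ≠ r} → ℝ) < Module.finrank ℝ (Fin n → ℝ) := by
        simp only [Module.finrank_fintype_fun_eq_card, Fintype.card_fin]
        have := Fintype.card_subtype_lt (p := fun i : Fin m => i ≠ r) (x := r) (by simp)
        rw [Fintype.card_fin] at this
        omega
      obtain ⟨y, hy, hy0⟩ := (Submodule.ne_bot_iff _).1 (LinearMap.ker_ne_bot_of_finrank_lt (f := L) hlt)
      refine ⟨y, hy0, funext fun i => ?_⟩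
      by_cases hi : i = r
      · subst hi
        simp [hB, mulVec]
      · exact congrFun (LinearMap.mem_ker.1 hy) ⟨i, hi⟩
    have hyy : 0 < y ⬝ᵥ y := lt_of_le_of_ne (Finset.sum_nonneg fun i _ => mul_self_nonneg _)
      (fun h => hy0 (dotProduct_self_eq_zero.1 h.symm))
    obtain ⟨i, hi⟩ := near_eig _ hs w ν h1 h3 y 0 0 hyy (by
      rw [← mulVec_mulVec, hy]
      simp)
    have hν : ν i = 0 := by nlinarith [sq_nonneg (ν i)]
    have hBw : B *ᵥ w i = 0 := by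
      apply dotProduct_self_eq_zero.1
      rw [← dot_gram, h1, hν]
      simp
    refine ⟨i, ?_⟩
    have h5 : (A *ᵥ w i) ⬝ᵥ u = 0 := by rw [hadj, ← hp, hp0]; simp
    have h6 : (A *ᵥ w i) ⬝ᵥ u = (A r ⬝ᵥ w i) * u r := by
      rw [dotProduct, Finset.sum_eq_single r]
      · rfl
      · intro j _ hj
        have := congrFun hBw j
        simp only [hB, mulVec, updateRow_ne hj, Pi.zero_apply] at this
        change (A j ⬝ᵥ w i) * u j = 0
        rw [this, zero_mul]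
      · simp
    rw [← mul_pow, ← h6, h5, ← l0]
    simp
  · have ap : A r ⬝ᵥ p = l * u r := congrFun Ap r
    have ap' : A r ⬝ᵥ p' = l' * u' r := congrFun Ap' r
    set α := l' * u' r with hα
    set β := l * u r with hβ
    have hβ0 : β ≠ 0 := mul_ne_zero l0.ne' hr
    let y := α • p - β • p'
    have hay : A r ⬝ᵥ y = 0 := by
      simp only [y, dotProduct_sub, dotProduct_smul, ap, ap', smul_eq_mul]
      ring
    have yy : y ⬝ᵥ y = α ^ 2 * l + β ^ 2 * l' := by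
      simp only [y, dotProduct_sub, sub_dotProduct, dotProduct_smul, smul_dotProduct, pp, pp', pq,
        dotProduct_comm p' p, smul_eq_mul]
      ring
    have hNy : (Bᵀ * B) *ᵥ y - l • y = (β * (l - l')) • p' := by
      apply dotProduct_eq
      intro z
      rw [dotProduct_comm, dotProduct_sub, dot_gram]
      have h7 := split_row A r z y
      rw [hay, mul_zero, add_zero, ← hB] at h7
      rw [← h7]
      simp only [y, mulVec_sub, mulVec_smul, Ap, Ap', dotProduct_sub, dotProduct_smul, hadj, ← hp,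
        ← hp', smul_eq_mul, smul_dotProduct, dotProduct_comm p' z]
      ring
    have l0' : 0 < l' := l0.trans_le hl
    obtain ⟨i, hi⟩ := near_eig _ hs w ν h1 h3 y l (c * l) (by rw [yy]; positivity) (by
      rw [hNy, yy, smul_dotProduct, dotProduct_smul, pp']
      simp only [smul_eq_mul]
      have h8 : (l - l') ^ 2 ≤ (c * l) ^ 2 := by
        have : 0 ≤ l' - l := by linarith
        have : l' - l ≤ c * l := by linarith
        nlinarith
      have h9 : 0 ≤ β ^ 2 * l' := by positivity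
      have h10 : 0 ≤ (c * l) ^ 2 * (α ^ 2 * l) := by positivity
      nlinarith [mul_le_mul_of_nonneg_right h8 h9])
    refine ⟨i, ?_⟩
    have h11 := split_row A r (w i) p
    have h11' : (B *ᵥ w i) ⬝ᵥ (B *ᵥ p) = ν i • (w i ⬝ᵥ p) := by
      rw [← dot_gram, dotProduct_mulVec, ← hs, vecMul_transpose, h1, smul_dotProduct]
    rw [← hB, h11', Ap, dotProduct_smul, hadj, ← hp, ap] at h11
    simp only [smul_eq_mul] at h11
    have h12 : (w i ⬝ᵥ p) ^ 2 ≤ l := by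
      rw [← pp, ← h3]
      exact Finset.single_le_sum (f := fun i => (w i ⬝ᵥ p) ^ 2) (fun _ _ => sq_nonneg _)
        (Finset.mem_univ i)
    have h13 : (A r ⬝ᵥ w i) * β = -((ν i - l) * (w i ⬝ᵥ p)) := by linarith
    have h14 : ((A r ⬝ᵥ w i) * β) ^ 2 ≤ (c * l) ^ 2 * l := by
      rw [h13, neg_sq, mul_pow]
      exact mul_le_mul hi h12 (sq_nonneg _) (sq_nonneg _)
    have h15 : l ^ 2 * ((A r ⬝ᵥ w i) ^ 2 * u r ^ 2) ≤ l ^ 2 * (c ^ 2 * l) := by
      calc _ = ((A r ⬝ᵥ w i) * β) ^ 2 := by rw [hβ]; ring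
        _ ≤ _ := h14
        _ = _ := by ring
    exact le_of_mul_le_mul_left h15 (by positivity)

theorem pi_section {α : Type} [MeasurableSpace α] (μ : Measure α) [IsProbabilityMeasure μ] {m : ℕ}
    (r : Fin m) (F : Set (Fin m → α)) (hF : MeasurableSet F) (c : ℝ≥0∞)
    (h : ∀ G : Fin m → α, μ {a | Function.update G r a ∈ F} ≤ c) :
    Measure.pi (fun _ : Fin m => μ) F ≤ c := by
  cases m with
  | zero => exact r.elim0
  | succ m =>
    have hp := (measurePreserving_piFinSuccAbove (fun _ : Fin (m + 1) => μ) r).symm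
    rw [← hp.measure_preimage hF.nullMeasurableSet,
      Measure.prod_apply_symm (hp.measurable hF)]
    obtain ⟨a0⟩ := nonempty_of_isProbabilityMeasure μ
    calc _ ≤ ∫⁻ _, c ∂(Measure.pi fun _ : Fin m => μ) := by
          refine lintegral_mono fun y => ?_
          refine le_trans (le_of_eq ?_) (h (Fin.insertNth r a0 y))
          congr 1
          ext a
          simp only [Set.mem_preimage, Set.mem_ofPred_eq, Fin.update_insertNth]
          rfl
      _ = c := by simp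

theorem gauss_interval (σ : ℝ≥0) (hσ : 0 < σ) (a δ : ℝ) :
    gaussianReal 0 (σ ^ 2) (Set.Icc (a - δ) (a + δ)) ≤ ENNReal.ofReal (δ / σ) := by
  have hσ' : (0 : ℝ) < σ := hσ
  rw [gaussianReal_apply _ (pow_ne_zero 2 hσ.ne')]
  calc _ ≤ ∫⁻ _ in Set.Icc (a - δ) (a + δ), ENNReal.ofReal (1 / (2 * σ)) := by
        refine lintegral_mono fun x => ENNReal.ofReal_le_ofReal ?_
        unfold gaussianPDFReal
        have h1 : Real.exp (-(x - 0) ^ 2 / (2 * ((σ ^ 2 : ℝ≥0) : ℝ))) ≤ 1 := by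
          rw [Real.exp_le_one_iff]
          exact div_nonpos_of_nonpos_of_nonneg (neg_nonpos.2 (sq_nonneg _)) (by positivity)
        have h2 : 2 * (σ : ℝ) ≤ √(2 * Real.pi * ((σ ^ 2 : ℝ≥0) : ℝ)) := by
          apply Real.le_sqrt_of_sq_le
          push_cast
          nlinarith [Real.pi_gt_three, sq_nonneg (σ : ℝ)]
        have h3 : (√(2 * Real.pi * ((σ ^ 2 : ℝ≥0) : ℝ)))⁻¹ ≤ 1 / (2 * σ) := by
          rw [one_div]
          exact inv_anti₀ (by positivity) h2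
        calc _ ≤ (√(2 * Real.pi * ((σ ^ 2 : ℝ≥0) : ℝ)))⁻¹ * 1 :=
              mul_le_mul_of_nonneg_left h1 (by positivity)
          _ ≤ _ := by rw [mul_one]; exact h3
    _ = _ := by
        rw [setLIntegral_const, Real.volume_Icc, ← ENNReal.ofReal_mul (by positivity)]
        congr 1
        field_simp
        ring

theorem slab {n : ℕ} (σ : ℝ≥0) (hσ : 0 < σ) (w b : Fin n → ℝ) (hw : w ⬝ᵥ w = 1) (ε : ℝ)
    (hε : 0 ≤ ε) :
    Measure.pi (fun _ : Fin n => gaussianReal 0 (σ ^ 2)) {g | ((b + g) ⬝ᵥ w) ^ 2 ≤ ε ^ 2}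
      ≤ ENNReal.ofReal (ε * n / σ) := by
  obtain ⟨l, hl⟩ : ∃ l, 1 ≤ (n : ℝ) * w l ^ 2 := by
    by_contra hc
    push Not at hc
    rcases Nat.eq_zero_or_pos n with rfl | hn
    · simp [dotProduct] at hw
    have : ∑ l, (n : ℝ) * w l ^ 2 < ∑ _l : Fin n, (1 : ℝ) :=
      Finset.sum_lt_sum_of_nonempty ⟨⟨0, hn⟩, Finset.mem_univ _⟩ fun l _ => hc l
    rw [← Finset.mul_sum] at this
    have h2 : ∑ l, w l ^ 2 = 1 := by
      rw [← hw]
      exact Finset.sum_congr rfl fun l _ => pow_two _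
    simp [h2] at this
  have hn : (1 : ℝ) ≤ n := by exact_mod_cast Fin.pos l
  have hw0 : w l ≠ 0 := by
    intro h
    rw [h] at hl
    linarith
  refine pi_section _ l _ ?_ _ fun g => ?_
  · exact (isClosed_le (by fun_prop) continuous_const).measurableSet
  · have h1 : ∀ a, (b + Function.update g l a) ⬝ᵥ w
        = (b + Function.update g l 0) ⬝ᵥ w + a * w l := by
      intro a
      have : Function.update g l a = Function.update g l 0 + Pi.single l a := by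
        funext j
        by_cases hj : j = l
        · subst hj; simp
        · simp [hj]
      rw [this, ← add_assoc, add_dotProduct _ (Pi.single l a), single_dotProduct]
    set s := (b + Function.update g l 0) ⬝ᵥ w
    refine le_trans (measure_mono ?_) (gauss_interval σ hσ (-s / w l) (ε * n))
    intro a ha
    have h2 : (s + a * w l) ^ 2 ≤ ε ^ 2 := by
      rw [← h1]
      exact ha
    have h3 : s + a * w l = (a - -s / w l) * w l := by field_simp; ring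
    rw [h3, mul_pow] at h2
    have h4 : (a - -s / w l) ^ 2 ≤ (ε * n) ^ 2 := by
      have h5 : (a - -s / w l) ^ 2 ≤ (a - -s / w l) ^ 2 * (n * w l ^ 2) :=
        le_mul_of_one_le_right (sq_nonneg _) hl
      have h6 : (n : ℝ) * ((a - -s / w l) ^ 2 * w l ^ 2) ≤ n * ε ^ 2 :=
        mul_le_mul_of_nonneg_left h2 (by linarith)
      nlinarith [mul_nonneg (sq_nonneg ε) (mul_nonneg (by linarith : (0 : ℝ) ≤ n)
        (by linarith : (0 : ℝ) ≤ n - 1))]
    have h7 := abs_le_of_sq_le_sq' h4 (by positivity)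
    exact ⟨by linarith [h7.1], by linarith [h7.2]⟩

theorem gauss_tail (σ : ℝ≥0) (hσ : σ ≤ 1) (t : ℝ) (ht : 0 < t) :
    gaussianReal 0 (σ ^ 2) {a | t ≤ |a|} ≤ ENNReal.ofReal (1 / t ^ 2) := by
  have h := meas_ge_le_variance_div_sq (memLp_id_gaussianReal' (μ := 0) (v := σ ^ 2) 2 (by simp)) ht
  rw [variance_id_gaussianReal] at h
  simp only [id, integral_id_gaussianReal, sub_zero] at h
  refine h.trans (ENNReal.ofReal_le_ofReal ?_)
  have h1 : (σ : ℝ) ≤ 1 := hσ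
  have h2 : ((σ ^ 2 : ℝ≥0) : ℝ) ≤ 1 := by
    push_cast
    nlinarith [σ.2]
  gcongr

/-- closed event -/
def Ev {m n : ℕ} (Abar : Matrix (Fin m) (Fin n) ℝ) (t c : ℝ) (r : Fin m) :
    Set (Fin m → Fin n → ℝ) :=
  {G | ∃ q : (Fin m → ℝ) × (Fin m → ℝ), (q.1 ⬝ᵥ q.1 = 1 ∧ q.2 ⬝ᵥ q.2 = 1 ∧ q.1 ⬝ᵥ q.2 = 0) ∧
    (∀ i j, |G i j| ≤ t) ∧
    ((Abar + of G) * (Abar + of G)ᵀ) *ᵥ q.1 =
      (q.1 ⬝ᵥ ((Abar + of G) * (Abar + of G)ᵀ) *ᵥ q.1) • q.1 ∧
    ((Abar + of G) * (Abar + of G)ᵀ) *ᵥ q.2 =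
      (q.2 ⬝ᵥ ((Abar + of G) * (Abar + of G)ᵀ) *ᵥ q.2) • q.2 ∧
    q.1 ⬝ᵥ ((Abar + of G) * (Abar + of G)ᵀ) *ᵥ q.1 ≤
      q.2 ⬝ᵥ ((Abar + of G) * (Abar + of G)ᵀ) *ᵥ q.2 ∧
    q.2 ⬝ᵥ ((Abar + of G) * (Abar + of G)ᵀ) *ᵥ q.2 ≤
      (1 + c) * (q.1 ⬝ᵥ ((Abar + of G) * (Abar + of G)ᵀ) *ᵥ q.1) ∧
    1 ≤ (m : ℝ) * q.1 r ^ 2}

theorem unit_le {m : ℕ} (u : Fin m → ℝ) (hu : u ⬝ᵥ u = 1) : ‖u‖ ≤ 1 := by
  refine (pi_norm_le_iff_of_nonneg zero_le_one).2 fun i => ?_
  have h : u i * u i ≤ u ⬝ᵥ u :=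
    Finset.single_le_sum (f := fun i => u i * u i) (fun _ _ => mul_self_nonneg _) (Finset.mem_univ i)
  rw [Real.norm_eq_abs, abs_le]
  constructor <;> nlinarith

theorem Ev_closed {m n : ℕ} (Abar : Matrix (Fin m) (Fin n) ℝ) (t c : ℝ) (r : Fin m) :
    IsClosed (Ev Abar t c r) := by
  let K : Set ((Fin m → ℝ) × (Fin m → ℝ)) := {q | q.1 ⬝ᵥ q.1 = 1 ∧ q.2 ⬝ᵥ q.2 = 1 ∧ q.1 ⬝ᵥ q.2 = 0}
  have hK : IsCompact K := by
    refine ((isCompact_closedBall (0 : Fin m → ℝ) 1).prod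
      (isCompact_closedBall (0 : Fin m → ℝ) 1)).of_isClosed_subset ?_ ?_
    · exact (isClosed_eq (by fun_prop) continuous_const).inter
        ((isClosed_eq (by fun_prop) continuous_const).inter
          (isClosed_eq (by fun_prop) continuous_const))
    · intro q hq
      exact ⟨mem_closedBall_zero_iff.2 (unit_le _ hq.1), mem_closedBall_zero_iff.2 (unit_le _ hq.2.1)⟩
  have : CompactSpace K := isCompact_iff_compactSpace.1 hK
  let M : (Fin m → Fin n → ℝ) × K → Matrix (Fin m) (Fin m) ℝ :=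
    fun p => (Abar + of p.1) * (Abar + of p.1)ᵀ
  have hA : Continuous (fun p : (Fin m → Fin n → ℝ) × K => Abar + of p.1) :=
    continuous_const.add continuous_fst
  have hM : Continuous M := hA.matrix_mul hA.matrix_transpose
  have h1 : Continuous (fun p : (Fin m → Fin n → ℝ) × K => p.2.1.1) := by fun_prop
  have h2 : Continuous (fun p : (Fin m → Fin n → ℝ) × K => p.2.1.2) := by fun_prop
  have h3 := hM.matrix_mulVec h1
  have h4 := hM.matrix_mulVec h2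
  have h5 := h1.dotProduct h3
  have h6 := h2.dotProduct h4
  have h8 : Continuous (fun p : (Fin m → Fin n → ℝ) × K => (m : ℝ) * p.2.1.1 r ^ 2) := by fun_prop
  let C : Set ((Fin m → Fin n → ℝ) × K) := {p | (∀ i j, |p.1 i j| ≤ t) ∧
    M p *ᵥ p.2.1.1 = (p.2.1.1 ⬝ᵥ M p *ᵥ p.2.1.1) • p.2.1.1 ∧
    M p *ᵥ p.2.1.2 = (p.2.1.2 ⬝ᵥ M p *ᵥ p.2.1.2) • p.2.1.2 ∧
    p.2.1.1 ⬝ᵥ M p *ᵥ p.2.1.1 ≤ p.2.1.2 ⬝ᵥ M p *ᵥ p.2.1.2 ∧
    p.2.1.2 ⬝ᵥ M p *ᵥ p.2.1.2 ≤ (1 + c) * (p.2.1.1 ⬝ᵥ M p *ᵥ p.2.1.1) ∧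
    1 ≤ (m : ℝ) * p.2.1.1 r ^ 2}
  have hC : IsClosed C := by
    refine IsClosed.inter ?_ ((isClosed_eq h3 (h5.smul h1)).inter ((isClosed_eq h4 (h6.smul h2)).inter
      ((isClosed_le h5 h6).inter ((isClosed_le h6 (continuous_const.mul h5)).inter
        (isClosed_le continuous_const h8)))))
    change IsClosed {p : (Fin m → Fin n → ℝ) × K | ∀ i j, |p.1 i j| ≤ t}
    simp only [Set.ofPred_forall]
    exact isClosed_iInter fun i => isClosed_iInter fun j => isClosed_le (by fun_prop) continuous_const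
  have h7 : Ev Abar t c r = Prod.fst '' C := by
    ext G
    constructor
    · rintro ⟨q, hq, h⟩
      exact ⟨(G, ⟨q, hq⟩), h, rfl⟩
    · rintro ⟨p, h, rfl⟩
      exact ⟨p.2.1, p.2.2, h⟩
  rw [h7]
  exact isClosedMap_fst_of_compactSpace _ hC

theorem Ev_bound {m n : ℕ} (hmn : m ≤ n) (Abar : Matrix (Fin m) (Fin n) ℝ)
    (hA : ∀ i j, |Abar i j| ≤ 1) (t c : ℝ) (ht : 1 ≤ t) (hc : 0 ≤ c) (r : Fin m)
    (σ : ℝ≥0) (hσ : 0 < σ) :
    Measure.pi (fun _ : Fin m => Measure.pi (fun _ : Fin n => gaussianReal 0 (σ ^ 2)))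
      (Ev Abar t c r) ≤ n * ENNReal.ofReal (2 * c * t * n ^ 2 * n / σ) := by
  refine pi_section _ r _ (Ev_closed Abar t c r).measurableSet _ fun G => ?_
  let B := (Abar + of G).updateRow r 0
  have hN : (Bᵀ * B).IsHermitian := isHermitian_conjTranspose_mul_self B
  obtain ⟨e1, e2, e3⟩ := eig_basis _ hN
  have hm : (1 : ℝ) ≤ m := by exact_mod_cast Fin.pos r
  have hmn' : (m : ℝ) ≤ n := by exact_mod_cast hmn
  calc _ ≤ Measure.pi (fun _ : Fin n => gaussianReal 0 (σ ^ 2))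
        (⋃ i, {g | ((Abar r + g) ⬝ᵥ ⇑(hN.eigenvectorBasis i)) ^ 2 ≤ (2 * c * t * n ^ 2) ^ 2}) := by
        refine measure_mono ?_
        rintro g ⟨⟨u, u'⟩, ⟨hu, hu', huu⟩, hG, f1, f2, f3, f4, f5⟩
        dsimp only at hu hu' huu f1 f2 f3 f4 f5
        set A := Abar + of (Function.update G r g) with hAdef
        have hB : A.updateRow r 0 = B := by
          ext i j
          by_cases hi : i = r
          · subst hi
            simp [B]
          · simp [B, hAdef, hi]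
        have hAr : A r = Abar r + g := by
          funext j
          simp [hAdef]
        have hur : u r ≠ 0 := by
          intro h
          rw [h] at f5
          norm_num at f5
        obtain ⟨i, hi⟩ := key hmn A r (fun i => ⇑(hN.eigenvectorBasis i)) hN.eigenvalues
          (by rw [hB]; exact e1) e3 u u' _ _ c hu hu' huu f1 f2 f3 f4 hur
        refine Set.mem_iUnion.2 ⟨i, ?_⟩
        rw [hAr] at hi
        have hent : ∀ i j, A i j ^ 2 ≤ (2 * t) ^ 2 := by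
          intro i j
          have h1 := hA i j
          have h2 := hG i j
          have h3 : |A i j| ≤ 2 * t := by
            have : A i j = Abar i j + Function.update G r g i j := rfl
            rw [this]
            exact (abs_add_le _ _).trans (by linarith)
          exact sq_le_sq' (abs_le.1 h3).1 (abs_le.1 h3).2
        have hl : u ⬝ᵥ (A * Aᵀ) *ᵥ u ≤ n * (m * (2 * t) ^ 2) := by
          have h1 := dot_gram Aᵀ u u
          rw [transpose_transpose] at h1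
          rw [h1]
          calc _ ≤ ∑ _j : Fin n, (m * (2 * t) ^ 2) := by
                refine Finset.sum_le_sum fun j _ => ?_
                have h2 := Finset.sum_mul_sq_le_sq_mul_sq Finset.univ (fun i => A i j) u
                have h3 : ∑ i, u i ^ 2 = 1 := by
                  rw [← hu]
                  exact Finset.sum_congr rfl fun l _ => pow_two _
                have h4 : ∑ i, A i j ^ 2 ≤ ∑ _i : Fin m, (2 * t) ^ 2 :=
                  Finset.sum_le_sum fun i _ => hent i j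
                rw [h3, mul_one] at h2
                simp only [Finset.sum_const, Finset.card_univ, Fintype.card_fin, nsmul_eq_mul] at h4
                rw [← pow_two]
                exact h2.trans h4
            _ = _ := by simp
        change ((Abar r + g) ⬝ᵥ ⇑(hN.eigenvectorBasis i)) ^ 2 ≤ (2 * c * t * n ^ 2) ^ 2
        set s := ((Abar r + g) ⬝ᵥ ⇑(hN.eigenvectorBasis i)) ^ 2
        have hs : 0 ≤ s := sq_nonneg _
        have h5 : s ≤ m * (s * u r ^ 2) := by nlinarith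
        have h6 : (m : ℝ) * (s * u r ^ 2) ≤ n * (c ^ 2 * (n * (n * (2 * t) ^ 2))) := by
          refine mul_le_mul hmn' (hi.trans ?_) (by positivity) (by positivity)
          refine mul_le_mul_of_nonneg_left (hl.trans ?_) (sq_nonneg _)
          gcongr
        have hn : (1 : ℝ) ≤ n := hm.trans hmn'
        have h7 : (n : ℝ) * (c ^ 2 * (n * (n * (2 * t) ^ 2))) ≤ (2 * c * t * n ^ 2) ^ 2 := by
          have : 0 ≤ (n : ℝ) * (c ^ 2 * (n * (n * (2 * t) ^ 2))) := by positivity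
          calc _ ≤ (n : ℝ) * (c ^ 2 * (n * (n * (2 * t) ^ 2))) * n := le_mul_of_one_le_right this hn
            _ = _ := by ring
        linarith
    _ ≤ ∑ i : Fin n, Measure.pi (fun _ : Fin n => gaussianReal 0 (σ ^ 2))
        {g | ((Abar r + g) ⬝ᵥ ⇑(hN.eigenvectorBasis i)) ^ 2 ≤ (2 * c * t * n ^ 2) ^ 2} :=
        measure_iUnion_fintype_le _ _
    _ ≤ ∑ _i : Fin n, ENNReal.ofReal (2 * c * t * n ^ 2 * n / σ) :=
        Finset.sum_le_sum fun i _ => slab σ hσ _ _ (by simpa using e2 i i) _ (by positivity)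
    _ = _ := by simp

end Pool.Agent.H5.Gap
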