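import Pool.Agent.H5.Split

set_option autoImplicit false

namespace Pool.Agent.H5.Glue

section
variable {S K : Type} [CommRing S] [Field K] (e1 e2 : S →+* K)

theorem noeth [IsNoetherianRing S] (hs : ∀ u v, ∃ s, e1 s = u ∧ e2 s = v) :
    IsNoetherianRing (e1.eqLocus e2) := by
  classical
  set R := e1.eqLocus e2
  have hr : ∀ u, ∃ r : R, e1 r = u ∧ e2 r = u := fun u => by
    obtain ⟨s, h1, h2⟩ := hs u u
    exact ⟨⟨s, h1.trans h2.symm⟩, h1, h2⟩
  have hfin : Module.Finite R S := by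
    obtain ⟨ε, h1, h2⟩ := hs 1 0
    refine ⟨⟨{1, ε}, eq_top_iff.2 fun s _ => ?_⟩⟩
    obtain ⟨r, h3, h4⟩ := hr (e1 s - e2 s)
    rw [Finset.coe_pair, Submodule.mem_span_pair]
    refine ⟨⟨s - r * ε, ?_⟩, r, ?_⟩
    · simp [R, h1, h2, h3]
    · simp [Subring.smul_def]
  let : Algebra R K := (e1.comp R.subtype).toAlgebra
  have hsm : ∀ (r : R) (x : K), r • x = e1 r * x := fun _ _ => rfl
  have : IsSimpleModule R K := by
    refine isSimpleModule_iff_toSpanSingleton_surjective.2 ⟨inferInstance, fun x hx y => ?_⟩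
    obtain ⟨r, h, -⟩ := hr (y / x)
    exact ⟨r, by simp [hsm, h, hx]⟩
  let f0 : S →ₗ[R] K × K :=
    { toFun := fun s => (e1 s, e2 s)
      map_add' := fun a b => by simp
      map_smul' := fun r s => by
        have : e2 r = e1 r := Eq.symm r.2
        simp [Subring.smul_def, hsm, this] }
  have hN : IsNoetherian R S := by
    refine ⟨fun N => ?_⟩
    obtain ⟨t, ht1, ht2⟩ := (Submodule.fg_span_iff_fg_span_finset_subset (N : Set S)).1
      (IsNoetherian.noetherian (Submodule.span S (N : Set S)))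
    let π : (t → S) →ₗ[R] S := (Fintype.linearCombination S fun i : t => (i : S)).restrictScalars R
    have h1 : N = (N.comap π).map π := by
      refine (Submodule.map_comap_eq_self fun x hx => ?_).symm
      have h2 : x ∈ Submodule.span S (Set.range fun i : t => (i : S)) := by
        rw [Subtype.range_coe_subtype, Finset.setOfPred_mem, ← ht2]
        exact Submodule.subset_span hx
      rw [← Fintype.range_linearCombination] at h2
      exact h2
    rw [h1]
    refine (Submodule.fg_of_fg_map_of_fg_inf_ker (f0.compLeft t) (IsNoetherian.noetherian _)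
      ?_).map π
    let W : Submodule S (t → S) := Submodule.pi Set.univ fun _ => RingHom.ker e1 ⊓ RingHom.ker e2
    have hW : (W.restrictScalars R).FG := (IsNoetherian.noetherian W).restrictScalars
    have h3 : N.comap π ⊓ LinearMap.ker (f0.compLeft t) = W.restrictScalars R := by
      ext c
      have h4 : c ∈ LinearMap.ker (f0.compLeft t) ↔ c ∈ W := by
        simp [W, f0, funext_iff, Submodule.mem_pi]
      rw [Submodule.mem_inf, h4]
      refine ⟨fun h => h.2, fun h => ⟨?_, h⟩⟩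
      change ∑ i : t, c i • (i : S) ∈ N
      refine N.sum_mem fun i _ => ?_
      have h5 := h i trivial
      exact N.smul_mem (⟨c i, Eq.trans h5.1 h5.2.symm⟩ : R) (ht1 i.2)
    rw [h3]
    exact hW
  exact isNoetherian_of_injective (Algebra.linearMap R S) Subtype.val_injective

/-- the ideal of `S` attached to an ideal of the glued ring -/
def lf (q : Ideal (e1.eqLocus e2)) : Ideal S where
  carrier := {s | ∀ r : e1.eqLocus e2, ∀ j, e1 j = 0 → e2 j = 0 → r = j * s → r ∈ q}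
  zero_mem' := fun r j _ _ h => by
    rw [mul_zero] at h
    rw [show r = 0 from Subtype.ext h]
    exact q.zero_mem
  add_mem' := fun {a b} ha hb r j h1 h2 h => by
    have := q.add_mem (ha ⟨j * a, by simp [h1, h2]⟩ j h1 h2 rfl)
      (hb ⟨j * b, by simp [h1, h2]⟩ j h1 h2 rfl)
    convert this
    exact Subtype.ext (h.trans (mul_add j a b))
  smul_mem' := fun c s hs r j h1 h2 h =>
    hs r (j * c) (by simp [h1]) (by simp [h2]) (by rw [h, smul_eq_mul, mul_assoc])

theorem lf_mono {q q' : Ideal (e1.eqLocus e2)} (h : q ≤ q') : lf e1 e2 q ≤ lf e1 e2 q' :=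
  fun _ hs r j h1 h2 e => h (hs r j h1 h2 e)

theorem lf_comap (P : Ideal S) [hP : P.IsPrime] {j : S} (h1 : e1 j = 0) (h2 : e2 j = 0)
    (h : j ∉ P) : lf e1 e2 (P.comap (e1.eqLocus e2).subtype) = P := by
  ext s
  refine ⟨fun hs => ?_, fun hs r j _ _ e => ?_⟩
  · exact (hP.mem_or_mem (hs ⟨j * s, by simp [h1, h2]⟩ j h1 h2 rfl)).resolve_left h
  · change (r : S) ∈ P
    rw [e]
    exact P.mul_mem_left _ hs

theorem comap_lf (q : Ideal (e1.eqLocus e2)) [hq : q.IsPrime] {j : e1.eqLocus e2}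
    (h1 : e1 j = 0) (h : j ∉ q) : (lf e1 e2 q).comap (e1.eqLocus e2).subtype = q := by
  ext r
  refine ⟨fun hr => ?_, fun hr r' j' h1 h2 e => ?_⟩
  · exact (hq.mem_or_mem (hr (j * r) j h1 (Eq.trans (Eq.symm j.2) h1) rfl)).resolve_left h
  · rw [show r' = ⟨j', h1.trans h2.symm⟩ * r from Subtype.ext e]
    exact q.mul_mem_left _ hr

theorem lf_prime (q : Ideal (e1.eqLocus e2)) [hq : q.IsPrime] {j : e1.eqLocus e2}
    (h1 : e1 j = 0) (h : j ∉ q) : (lf e1 e2 q).IsPrime := by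
  refine ⟨fun ht => ?_, fun {a b} hab => ?_⟩
  · have := comap_lf e1 e2 q h1 h
    rw [ht, Ideal.comap_top] at this
    exact hq.ne_top this.symm
  · by_contra hc
    push Not at hc
    obtain ⟨ha, hb⟩ := hc
    change ¬ ∀ _ _, _ at ha hb
    push Not at ha hb
    obtain ⟨r, i, a1, a2, a3, a4⟩ := ha
    obtain ⟨r', i', b1, b2, b3, b4⟩ := hb
    refine (hq.mem_or_mem (hab (r * r') (i * i') (by simp [a1]) (by simp [a2]) ?_)).elim a4 b4
    rw [Subring.coe_mul, a3, b3]
    ring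

theorem chains [IsDomain S] (hs : ∀ u v, ∃ s, e1 s = u ∧ e2 s = v)
    (h3 : (RingHom.ker e1).height ≤ 2) (P Q1 Q2 : Ideal S) [P.IsPrime] [Q1.IsPrime] [Q2.IsPrime]
    (hP0 : ⊥ < P) (hP1 : P < RingHom.ker e1) (hP2 : ¬ P ≤ RingHom.ker e2)
    (hQ0 : ⊥ < Q1) (hQ1 : Q1 < Q2) (hQ2 : Q2 < RingHom.ker e2) :
    ∃ a b c d m : PrimeSpectrum (e1.eqLocus e2),
      a ⋖ b ∧ b ⋖ m ∧ a < c ∧ c < d ∧ d < m := by
  have := RingHom.ker_isPrime e1
  have := RingHom.ker_isPrime e2
  set R := e1.eqLocus e2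
  have no3 : ∀ A B : Ideal S, A.IsPrime → B.IsPrime → ⊥ < A → A < B → B < RingHom.ker e1 →
      False := by
    intro A B _ _ h0 h1 h2
    have a0 := Ideal.height_add_one_le_of_lt_of_isPrime h0
    have a1 := Ideal.height_add_one_le_of_lt_of_isPrime h1
    have a2 := Ideal.height_add_one_le_of_lt_of_isPrime h2
    rw [Ideal.height_bot] at a0
    have a3 : (0 : ℕ∞) + 1 + 1 + 1 ≤ 2 := by
      refine le_trans ?_ (a2.trans h3)
      gcongr
      refine le_trans ?_ a1
      gcongr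
    norm_num at a3
  obtain ⟨x, x1, x2⟩ := hs 0 1
  obtain ⟨y, y1, y2⟩ := hs 1 0
  have hjP : ∃ j, e1 j = 0 ∧ e2 j = 0 ∧ j ∉ P := by
    obtain ⟨z, z1, z2⟩ := SetLike.exists_of_lt hP1
    refine ⟨z * y, by simp [show e1 z = 0 from z1], by simp [y2], fun h => ?_⟩
    have := hP1.le ((Ideal.IsPrime.mem_or_mem ‹_› h).resolve_left z2)
    simp [y1] at this
  have hjQ : ∃ j, e1 j = 0 ∧ e2 j = 0 ∧ j ∉ Q2 := by
    obtain ⟨z, z1, z2⟩ := SetLike.exists_of_lt hQ2
    refine ⟨z * x, by simp [x1], by simp [show e2 z = 0 from z1], fun h => ?_⟩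
    have := hQ2.le ((Ideal.IsPrime.mem_or_mem ‹_› h).resolve_left z2)
    simp [x2] at this
  obtain ⟨j, j1, j2, j3⟩ := hjP
  obtain ⟨i, i1, i2, i3⟩ := hjQ
  let cm : (A : Ideal S) → [A.IsPrime] → PrimeSpectrum R := fun A _ =>
    ⟨A.comap R.subtype, inferInstance⟩
  have hlt : ∀ (A B : Ideal S) [A.IsPrime] [B.IsPrime] (k : S), e1 k = 0 → e2 k = 0 → k ∉ A →
      A < B → cm A < cm B := by
    intro A B _ _ k k1 k2 k3 h
    obtain ⟨z, z1, z2⟩ := SetLike.exists_of_lt h
    refine lt_of_le_not_ge (Ideal.comap_mono h.le) fun h' => ?_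
    have := h' (x := ⟨k * z, by simp [R, k1, k2]⟩) (B.mul_mem_left _ z1)
    exact ((Ideal.IsPrime.mem_or_mem ‹_› this).resolve_left k3 |> z2)
  have hm : cm (RingHom.ker e2) = cm (RingHom.ker e1) := by
    ext r
    have : e1 r = e2 r := r.2
    simp [cm, this]
  refine ⟨cm ⊥, cm P, cm Q1, cm Q2, cm (RingHom.ker e1),
    ⟨hlt _ _ j j1 j2 (fun h => j3 (hP0.le h)) hP0, fun q q1 q2 => ?_⟩,
    ⟨hlt _ _ j j1 j2 j3 hP1, fun q q1 q2 => ?_⟩,
    hlt _ _ i i1 i2 (fun h => i3 ((hQ0.trans hQ1).le h)) hQ0,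
    hlt _ _ i i1 i2 (fun h => i3 (hQ1.le h)) hQ1, hm ▸ hlt _ _ i i1 i2 i3 hQ2⟩
  · have hj : (⟨j, j1.trans j2.symm⟩ : R) ∉ q.asIdeal := fun h => j3 (q2.le h)
    have b1 := comap_lf e1 e2 q.asIdeal j1 hj
    have b2 : lf e1 e2 q.asIdeal ≤ P := lf_comap e1 e2 P j1 j2 j3 ▸ lf_mono e1 e2 q2.le
    refine no3 _ P (lf_prime e1 e2 q.asIdeal j1 hj) ‹_› (bot_lt_iff_ne_bot.2 fun h => ?_)
      (lt_of_le_of_ne b2 fun h => ?_) hP1
    · rw [h] at b1
      exact q1.ne (PrimeSpectrum.ext b1)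
    · rw [h] at b1
      exact q2.ne' (PrimeSpectrum.ext b1)
  · obtain ⟨k, k1, k2⟩ := SetLike.exists_of_lt (show q.asIdeal < _ from q2)
    have b1 := comap_lf e1 e2 q.asIdeal k1 k2
    have b2 : P ≤ lf e1 e2 q.asIdeal := lf_comap e1 e2 P j1 j2 j3 ▸ lf_mono e1 e2 q1.le
    have b3 : lf e1 e2 q.asIdeal ≤ RingHom.ker e1 := by
      intro a ha
      by_contra ha1
      obtain ⟨b, hb, hb2⟩ := SetLike.not_le_iff_exists.1 hP2
      obtain ⟨s, s1, s2⟩ := hs (e1 a)⁻¹ 0
      obtain ⟨t, t1, t2⟩ := hs 0 (e2 b)⁻¹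
      have c1 : e1 (s * a + t * b) = 1 := by
        simp [s1, t1, inv_mul_cancel₀ (show e1 a ≠ 0 from ha1)]
      have c2 : e2 (s * a + t * b) = 1 := by
        simp [s2, t2, inv_mul_cancel₀ (show e2 b ≠ 0 from hb2)]
      have c3 : (⟨s * a + t * b, c1.trans c2.symm⟩ : R) ∈ q.asIdeal := by
        rw [← b1]
        exact Ideal.add_mem _ (Ideal.mul_mem_left _ _ ha) (Ideal.mul_mem_left _ _ (b2 hb))
      exact one_ne_zero (c1.symm.trans (q2.le c3))
    refine no3 P _ ‹_› (lf_prime e1 e2 q.asIdeal k1 k2) hP0 (lt_of_le_of_ne b2 fun h => ?_)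
      (lt_of_le_of_ne b3 fun h => ?_)
    · rw [← h] at b1
      exact q1.ne (PrimeSpectrum.ext b1)
    · rw [h] at b1
      exact q2.ne' (PrimeSpectrum.ext b1)

end

theorem loc {A : Type} [CommRing A] (U : Submonoid A) (S : Type) [CommRing S] [Algebra A S]
    [IsLocalization U S] (L : Type) [Field L] [Algebra A L] [Algebra S L] [IsScalarTower A S L]
    (φ : integralClosure A L →ₗ[A] A) (h : φ 1 = 1) :
    ∃ ψ : integralClosure S L →ₗ[S] S, ψ 1 = 1 := by
  let inc : integralClosure A L →ₗ[A] integralClosure S L :=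
    { toFun := fun x => ⟨x, IsIntegral.tower_top x.2⟩
      map_add' := fun _ _ => rfl
      map_smul' := fun _ _ => rfl }
  have : IsLocalizedModule U inc := by
    refine ⟨fun u => ?_, fun y => ?_, fun {a b} e => ⟨1, ?_⟩⟩
    · have h1 := (IsLocalization.map_units S u).map (Algebra.lsmul A A (integralClosure S L))
      rwa [AlgHom.commutes] at h1
    · obtain ⟨m, hm⟩ := IsIntegral.exists_multiple_integral_of_isLocalization U (y : L) y.2
      exact ⟨(⟨m • (y : L), hm⟩, m), rfl⟩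
    · rw [show a = b from Subtype.ext (congrArg Subtype.val e :)]
  refine ⟨IsLocalizedModule.mapExtendScalars U inc (Algebra.linearMap A S) S φ, ?_⟩
  have h2 := IsLocalizedModule.map_apply U inc (Algebra.linearMap A S) φ 1
  rw [h, Algebra.linearMap_apply, map_one (algebraMap A S)] at h2
  exact h2

end Pool.Agent.H5.Glue
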