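import Mathlib

set_option autoImplicit false

namespace Pool.Agent.H5.Gold

/-- number of `true` letters -/
def o (w : List Bool) : ℤ := (w.count true : ℤ)
/-- number of `false` letters -/
def z (w : List Bool) : ℤ := (w.count false : ℤ)

@[simp] theorem o_nil : o [] = 0 := rfl
@[simp] theorem z_nil : z [] = 0 := rfl
@[simp] theorem o_append (u v : List Bool) : o (u ++ v) = o u + o v := by simp [o]
@[simp] theorem z_append (u v : List Bool) : z (u ++ v) = z u + z v := by simp [z]
@[simp] theorem o_reverse (u : List Bool) : o u.reverse = o u := by simp [o]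
@[simp] theorem z_reverse (u : List Bool) : z u.reverse = z u := by simp [z]
theorem o_cons (a : Bool) (u : List Bool) : o (a :: u) = o [a] + o u := o_append [a] u
theorem z_cons (a : Bool) (u : List Bool) : z (a :: u) = z [a] + z u := z_append [a] u
theorem o_nonneg (u : List Bool) : 0 ≤ o u := Int.natCast_nonneg _
theorem z_nonneg (u : List Bool) : 0 ≤ z u := Int.natCast_nonneg _
theorem oz_one (a : Bool) : z [a] + o [a] = 1 := by cases a <;> simp [o, z]
theorem oz_length (u : List Bool) : z u + o u = u.length := by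
  induction u with
  | nil => simp
  | cons a u ih => rw [o_cons, z_cons, List.length_cons]; have := oz_one a; push_cast; omega

/-- the comparison machine -/
inductive G : ℤ → ℤ → List Bool → Prop
  | stop (l d : ℤ) (w : List Bool) : 3 ≤ |d| → G l d w
  | left (l d : ℤ) (a : Bool) (w : List Bool) : ¬ 3 ≤ |d| → l ≤ 0 →
      G (l + 1) (d + o [a]) w → G l d (a :: w)
  | right (l d : ℤ) (a : Bool) (w : List Bool) : ¬ 3 ≤ |d| → ¬ l ≤ 0 →
      G (l - (2 * z [a] + o [a])) (d - z [a]) w → G l d (w ++ [a])

/-- the ideal -/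
def I (w : List Bool) : Prop := ∃ s m t, w = s ++ m ++ t ∧ G 0 0 m

theorem I_append_left {v : List Bool} (u : List Bool) (h : I v) : I (u ++ v) := by
  obtain ⟨s, m, t, rfl, hm⟩ := h
  exact ⟨u ++ s, m, t, by simp, hm⟩

theorem I_append_right {u : List Bool} (v : List Bool) (h : I u) : I (u ++ v) := by
  obtain ⟨s, m, t, rfl, hm⟩ := h
  exact ⟨s, m, t ++ v, by simp, hm⟩

theorem G_sound {l d : ℤ} {w : List Bool} (h : G l d w) (hl : |l| ≤ 1) :
    ∃ X Z Y, w = X ++ Z ++ Y ∧ |l + (z X + o X) - (2 * z Y + o Y)| ≤ 1 ∧ 3 ≤ |d + o X - z Y| := by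
  induction h with
  | stop l d w hd => exact ⟨[], w, [], by simp, by simpa using hl, by simpa using hd⟩
  | left l d a w hd hl0 _ ih =>
    obtain ⟨X, Z, Y, rfl, h1, h2⟩ := ih (by rw [abs_le] at hl ⊢; omega)
    refine ⟨a :: X, Z, Y, by simp, ?_, ?_⟩
    · rw [o_cons, z_cons]
      have := oz_one a
      convert h1 using 2
      omega
    · rw [o_cons]
      convert h2 using 2
      omega
  | right l d a w hd hl0 _ ih =>
    have h3 := oz_one a
    have h4 := o_nonneg [a]
    have h5 := z_nonneg [a]
    obtain ⟨X, Z, Y, rfl, h1, h2⟩ := ih (by rw [abs_le] at hl ⊢; omega)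
    refine ⟨X, Z, Y ++ [a], by simp, ?_, ?_⟩
    · rw [o_append, z_append]
      convert h1 using 2
      omega
    · rw [z_append]
      convert h2 using 2
      omega

theorem I_ne_nil : ¬ I [] := by
  rintro ⟨s, m, t, h, hm⟩
  have : m = [] := by
    have := congrArg List.length h
    simp only [List.length_nil, List.length_append] at this
    exact List.length_eq_zero_iff.mp (by omega)
  subst this
  obtain ⟨X, Z, Y, h0, -, h2⟩ := G_sound hm (by simp)
  have h3 := congrArg List.length h0
  simp only [List.length_nil, List.length_append] at h3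
  have hX : X = [] := List.length_eq_zero_iff.mp (by omega)
  have hY : Y = [] := List.length_eq_zero_iff.mp (by omega)
  subst hX hY
  simp at h2

theorem G_run (n : ℕ) : ∀ (X Y : List Bool) (l d : ℤ), X.length + Y.length = n → |l| ≤ 1 →
    G l d (X ++ Y.reverse) ∨ ∃ X' Y', X' <+: X ∧ Y' <+: Y ∧ (X' = X ∨ Y' = Y) ∧
      |l + (z X' + o X') - (2 * z Y' + o Y')| ≤ 1 ∧ |d + o X' - z Y'| ≤ 3 := by
  induction n with
  | zero =>
    intro X Y l d hn hl
    by_cases hd : 3 ≤ |d|
    · exact Or.inl (G.stop _ _ _ hd)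
    · right
      have hX : X = [] := List.length_eq_zero_iff.mp (by omega)
      exact ⟨[], [], List.nil_prefix, List.nil_prefix, Or.inl hX.symm, by simpa using hl,
        by simpa using (not_le.mp hd).le⟩
  | succ n ih =>
    intro X Y l d hn hl
    by_cases hd : 3 ≤ |d|
    · exact Or.inl (G.stop _ _ _ hd)
    by_cases hl0 : l ≤ 0
    · cases X with
      | nil =>
        exact Or.inr ⟨[], [], List.nil_prefix, List.nil_prefix, Or.inl rfl, by simpa using hl,
          by simpa using (not_le.mp hd).le⟩
      | cons a X =>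
        rcases ih X Y (l + 1) (d + o [a]) (by simp at hn; omega) (by rw [abs_le] at hl ⊢; omega) with
          h | ⟨X', Y', h1, h2, h3, h4, h5⟩
        · exact Or.inl (G.left _ _ _ _ hd hl0 h)
        · refine Or.inr ⟨a :: X', Y', by simpa using h1, h2, by simpa using h3, ?_, ?_⟩
          · rw [o_cons, z_cons]
            have := oz_one a
            convert h4 using 2
            omega
          · rw [o_cons]
            convert h5 using 2
            omega
    · cases Y with
      | nil =>
        exact Or.inr ⟨[], [], List.nil_prefix, List.nil_prefix, Or.inr rfl, by simpa using hl,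
          by simpa using (not_le.mp hd).le⟩
      | cons a Y =>
        have h6 := oz_one a
        have h7 := o_nonneg [a]
        have h8 := z_nonneg [a]
        rcases ih X Y (l - (2 * z [a] + o [a])) (d - z [a]) (by simp at hn; omega)
          (by rw [abs_le] at hl ⊢; omega) with h | ⟨X', Y', h1, h2, h3, h4, h5⟩
        · left
          rw [List.reverse_cons, ← List.append_assoc]
          exact G.right _ _ _ _ hd hl0 h
        · refine Or.inr ⟨X', a :: Y', h1, by simpa using h2, by simpa using h3, ?_, ?_⟩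
          · rw [o_cons, z_cons]
            convert h4 using 2
            omega
          · rw [z_cons]
            convert h5 using 2
            omega

/-- `n`-th power of a word -/
def pw (u : List Bool) : ℕ → List Bool
  | 0 => []
  | n + 1 => u ++ pw u n

theorem pw_add (u : List Bool) (m n : ℕ) : pw u (m + n) = pw u m ++ pw u n := by
  induction m with
  | zero => simp [pw]
  | succ m ih => rw [Nat.succ_add, pw, pw, ih, List.append_assoc]

theorem pw_one (u : List Bool) : pw u 1 = u := by simp [pw]

theorem pw_reverse (u : List Bool) (n : ℕ) : (pw u.reverse n).reverse = pw u n := by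
  induction n with
  | zero => simp [pw]
  | succ n ih => rw [pw, List.reverse_append, ih, List.reverse_reverse, pw_add, pw_one]

theorem pw_length (u : List Bool) (n : ℕ) : (pw u n).length = n * u.length := by
  induction n with
  | zero => simp [pw]
  | succ n ih => rw [pw, List.length_append, ih]; ring

theorem prefix_bound (u : List Bool) (n : ℕ) : ∀ X, X <+: pw u n →
    |(u.length : ℤ) * o X - o u * (z X + o X)| ≤ (u.length : ℤ) ^ 2 := by
  induction n with
  | zero =>
    intro X hX
    have : X = [] := by simpa [pw] using hX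
    subst this
    simp
  | succ n ih =>
    intro X hX
    rw [pw] at hX
    rcases List.prefix_or_prefix_of_prefix hX (List.prefix_append u (pw u n)) with h | ⟨t, rfl⟩
    · have h1 : (X.length : ℤ) ≤ u.length := by exact_mod_cast h.length_le
      have h2 := oz_length X
      have h3 := oz_length u
      have h4 := o_nonneg X
      have h5 := z_nonneg X
      have h6 := o_nonneg u
      have h7 := z_nonneg u
      rw [abs_le]
      constructor <;> nlinarith
    · have := ih t ((List.prefix_append_right_inj u).mp hX)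
      rw [o_append, z_append]
      convert this using 2
      rw [← oz_length u]
      ring

theorem disc_ne (p q : ℤ) (hp : 0 < p) : p ^ 2 - 3 * p * q + q ^ 2 ≠ 0 := by
  intro h
  have h5 : Irrational (Real.sqrt (5 : ℕ)) := (by norm_num : Nat.Prime 5).irrational_sqrt
  apply h5
  refine ⟨(|2 * q - 3 * p| : ℤ) / p, ?_⟩
  have hp' : (0 : ℝ) < p := by exact_mod_cast hp
  have h' : (p : ℝ) ^ 2 - 3 * p * q + q ^ 2 = 0 := by exact_mod_cast h
  push_cast
  symm
  rw [Real.sqrt_eq_iff_mul_self_eq (by norm_num) (by positivity)]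
  rw [div_mul_div_comm, abs_mul_abs_self, eq_div_iff (by positivity)]
  nlinarith

theorem exists_pw_I (u : List Bool) (hu : u ≠ []) : ∃ n, I (pw u n) := by
  obtain ⟨p, hp⟩ : ∃ p : ℤ, p = (u.length : ℤ) := ⟨_, rfl⟩
  have hp0 : 0 < p := by
    rw [hp]; exact_mod_cast List.length_pos_iff.mpr hu
  obtain ⟨n, hn⟩ : ∃ n : ℕ, 2 * (3 * p ^ 3 + 4 * p ^ 2) + 1 < (n : ℤ) := exists_nat_gt _
  rcases G_run _ (pw u n) (pw u.reverse n) 0 0 rfl (by simp) with h | ⟨X, Y, h1, h2, h3, h4, h5⟩
  · refine ⟨n + n, [], _, [], ?_, h⟩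
    rw [pw_reverse, pw_add]; simp
  · exfalso
    have b1 := prefix_bound u n X h1
    have b2 := prefix_bound u.reverse n Y h2
    rw [List.length_reverse, o_reverse] at b2
    rw [← hp] at b1 b2
    have hq := oz_length u
    have hq1 := o_nonneg u
    have hq2 := z_nonneg u
    rw [← hp] at hq
    set q := o u
    have hD := disc_ne p q hp0
    have hX1 := o_nonneg X
    have hX2 := z_nonneg X
    have hY1 := o_nonneg Y
    have hY2 := z_nonneg Y
    obtain ⟨l', hl'⟩ : ∃ l', l' = 0 + (z X + o X) - (2 * z Y + o Y) := ⟨_, rfl⟩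
    obtain ⟨d', hd'⟩ : ∃ d', d' = 0 + o X - z Y := ⟨_, rfl⟩
    obtain ⟨e2, he2⟩ : ∃ e2, e2 = p * o X - q * (z X + o X) := ⟨_, rfl⟩
    obtain ⟨e1, he1⟩ : ∃ e1, e1 = p * o Y - q * (z Y + o Y) := ⟨_, rfl⟩
    rw [← hl'] at h4
    rw [← hd'] at h5
    rw [← he2] at b1
    rw [← he1] at b2
    have key : (z Y + o Y) * (p ^ 2 - 3 * p * q + q ^ 2)
        = (p - q) * e1 - p ^ 2 * d' + p * q * l' + p * e2 := by
      rw [hl', hd', he1, he2]; ring
    have t1 : |(p - q) * e1| ≤ p * p ^ 2 := by
      rw [abs_mul]
      exact mul_le_mul (by rw [abs_le]; omega) b2 (abs_nonneg _) hp0.le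
    have t2 : |p ^ 2 * d'| ≤ p ^ 2 * 3 := by
      rw [abs_mul, abs_of_nonneg (sq_nonneg p)]
      exact mul_le_mul_of_nonneg_left h5 (sq_nonneg p)
    have t3 : |p * q * l'| ≤ p * p * 1 := by
      rw [abs_mul, abs_of_nonneg (mul_nonneg hp0.le hq1)]
      exact mul_le_mul (mul_le_mul_of_nonneg_left (by omega) hp0.le) h4 (abs_nonneg _)
        (by positivity)
    have t4 : |p * e2| ≤ p * p ^ 2 := by
      rw [abs_mul, abs_of_pos hp0]
      exact mul_le_mul_of_nonneg_left b1 hp0.le
    have t5 : z Y + o Y ≤ |(z Y + o Y) * (p ^ 2 - 3 * p * q + q ^ 2)| := by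
      rw [abs_mul, abs_of_nonneg (by omega : 0 ≤ z Y + o Y)]
      have : 1 ≤ |p ^ 2 - 3 * p * q + q ^ 2| := Int.one_le_abs hD
      nlinarith
    have t6 : z Y + o Y ≤ 3 * p ^ 3 + 4 * p ^ 2 := by
      rw [key] at t5
      rw [abs_le] at t1 t2 t3 t4
      have : |(p - q) * e1 - p ^ 2 * d' + p * q * l' + p * e2| ≤ 3 * p ^ 3 + 4 * p ^ 2 := by
        have : 0 ≤ p ^ 3 := by positivity
        rw [abs_le]; constructor <;> nlinarith
      linarith
    have hn0 : (0 : ℤ) ≤ n := Int.natCast_nonneg n
    have hnp : (n : ℤ) ≤ n * p := by nlinarith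
    rw [abs_le] at h4
    rcases h3 with rfl | rfl
    · have := oz_length (pw u n)
      rw [pw_length] at this
      push_cast at this
      rw [← hp] at this
      omega
    · have := oz_length (pw u.reverse n)
      rw [pw_length, List.length_reverse] at this
      push_cast at this
      rw [← hp] at this
      omega

theorem exists_not_I (n : ℕ) : ∃ w : List Bool, w.length = n ∧ ¬ I w := by
  obtain ⟨α, hα, h0, h1⟩ : ∃ α : ℝ, α ^ 2 - 3 * α + 1 = 0 ∧ 0 < α ∧ α < 1 / 2 := by
    have h5 : Real.sqrt 5 ^ 2 = 5 := Real.sq_sqrt (by norm_num)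
    have h6 : 0 ≤ Real.sqrt 5 := Real.sqrt_nonneg _
    refine ⟨(3 - Real.sqrt 5) / 2, by nlinarith, by nlinarith, by nlinarith⟩
  let D : List Bool → ℝ := fun w => (o w : ℝ) - α * (z w + o w)
  have Dapp : ∀ u v, D (u ++ v) = D u + D v := by
    intro u v; simp only [D, o_append, z_append]; push_cast; ring
  have ex : ∀ n : ℕ, ∃ w : List Bool, w.length = n ∧ ∀ u, u <+: w → -1 < D u ∧ D u ≤ 0 := by
    intro n
    induction n with
    | zero =>
      refine ⟨[], rfl, fun u hu => ?_⟩
      have : u = [] := by simpa using hu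
      subst this
      simp [D]
    | succ n ih =>
      obtain ⟨w, hw, hD⟩ := ih
      have hw' := hD w (List.prefix_refl w)
      by_cases hc : D w + 1 - α ≤ 0
      · refine ⟨w ++ [true], by simp [hw], fun u hu => ?_⟩
        rcases List.prefix_concat_iff.mp hu with rfl | hu
        · rw [Dapp]
          have : D [true] = 1 - α := by simp [D, o, z]
          rw [this]
          constructor <;> linarith [hw'.1]
        · exact hD u hu
      · refine ⟨w ++ [false], by simp [hw], fun u hu => ?_⟩
        rcases List.prefix_concat_iff.mp hu with rfl | hu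
        · rw [Dapp]
          have : D [false] = - α := by simp [D, o, z]
          rw [this]
          constructor <;> linarith [hw'.2]
        · exact hD u hu
  obtain ⟨w, hw, hD⟩ := ex n
  refine ⟨w, hw, ?_⟩
  rintro ⟨s, m, t, rfl, hm⟩
  obtain ⟨X, Z, Y, rfl, h2, h3⟩ := G_sound hm (by simp)
  have a1 := hD s ⟨X ++ Z ++ Y ++ t, by simp⟩
  have a2 := hD (s ++ X) ⟨Z ++ Y ++ t, by simp⟩
  have a3 := hD (s ++ X ++ Z) ⟨Y ++ t, by simp⟩
  have a4 := hD (s ++ X ++ Z ++ Y) ⟨t, by simp⟩
  rw [Dapp (s ++ X ++ Z)] at a4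
  rw [Dapp] at a2
  have hX : |D X| < 1 := by rw [abs_lt]; constructor <;> linarith [a1.1, a1.2, a2.1, a2.2]
  have hY : |D Y| < 1 := by rw [abs_lt]; constructor <;> linarith [a3.1, a3.2, a4.1, a4.2]
  have h2' : |(0 : ℝ) + (z X + o X) - (2 * z Y + o Y)| ≤ 1 := by exact_mod_cast h2
  have h3' : 3 ≤ |(0 : ℝ) + o X - z Y| := by exact_mod_cast h3
  have key : (0 : ℝ) + o X - z Y = D X + (1 - α) * D Y + α * (0 + (z X + o X) - (2 * z Y + o Y)) := by
    simp only [D]
    linear_combination (-(z Y : ℝ) - o Y) * hα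
  rw [key] at h3'
  rw [abs_lt] at hX hY
  rw [abs_le] at h2'
  have : |D X + (1 - α) * D Y + α * (0 + (z X + o X) - (2 * z Y + o Y))| < 3 := by
    rw [abs_lt]; constructor <;> nlinarith
  linarith

end Pool.Agent.H5.Gold
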