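import Mathlib

set_option autoImplicit false

namespace Pool.Agent.H5.Img
open Polynomial

lemma exists_prime_not_inv {K : Type*} [Field K] [CharZero K] (s : Finset K) (e n0 : ℕ)
    (he : e ≠ 0) :
    ∃ p : ℕ, p.Prime ∧ n0 < p ∧ p ≡ 1 [MOD e] ∧ (p : K)⁻¹ ∉ Subring.closure (s : Set K) := by
  classical
  let B := Algebra.adjoin ℚ (s : Set K)
  obtain ⟨m, hm⟩ := Ideal.exists_maximal B
  let := Ideal.Quotient.field m
  have : Algebra.FiniteType ℚ B := (Subalgebra.fg_iff_finiteType B).1 ⟨s, rfl⟩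
  have : Module.Finite ℚ (B ⧸ m) := finite_of_finite_type_of_isJacobsonRing ℚ (B ⧸ m)
  have : Algebra.IsAlgebraic ℚ (B ⧸ m) := inferInstance
  have : Algebra.IsAlgebraic ℤ ℚ := IsLocalization.isAlgebraic ℚ (nonZeroDivisors ℤ)
  have : Algebra.IsAlgebraic ℤ (B ⧸ m) := Algebra.IsAlgebraic.trans ℤ ℚ (B ⧸ m)
  obtain ⟨y, hy, hint⟩ := Algebra.IsAlgebraic.exists_integral_multiples ℤ
    (s.attach.image fun x : {x // x ∈ s} =>
      (Ideal.Quotient.mk m (⟨x.1, Algebra.subset_adjoin x.2⟩ : B) : B ⧸ m))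
  have key : ∀ z ∈ Subring.closure (s : Set K), ∃ (b : B) (k : ℕ), (b : K) = z ∧
      IsIntegral ℤ (y^k • Ideal.Quotient.mk m b) := by
    intro z hz
    induction hz using Subring.closure_induction with
    | mem x hx =>
      refine ⟨⟨x, Algebra.subset_adjoin hx⟩, 1, rfl, ?_⟩
      rw [pow_one]
      exact hint _ (Finset.mem_image.2 ⟨⟨x, hx⟩, Finset.mem_attach _ _, rfl⟩)
    | zero => exact ⟨0, 0, rfl, by simpa using isIntegral_zero⟩
    | one => exact ⟨1, 0, rfl, by simpa using isIntegral_one⟩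
    | add x z _ _ hx hz =>
      obtain ⟨b, k, rfl, hb⟩ := hx
      obtain ⟨b', k', rfl, hb'⟩ := hz
      refine ⟨b + b', k + k', rfl, ?_⟩
      have := (hb.smul (y^k')).add (hb'.smul (y^k))
      rw [smul_smul, smul_smul, mul_comm (y^k') (y^k)] at this
      rw [map_add, smul_add, pow_add]; exact this
    | neg x _ hx =>
      obtain ⟨b, k, rfl, hb⟩ := hx
      refine ⟨-b, k, rfl, ?_⟩
      rw [map_neg, smul_neg]; exact hb.neg
    | mul x z _ _ hx hz =>
      obtain ⟨b, k, rfl, hb⟩ := hx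
      obtain ⟨b', k', rfl, hb'⟩ := hz
      refine ⟨b * b', k + k', rfl, ?_⟩
      have := hb.mul hb'
      rw [smul_mul_smul_comm] at this
      rw [map_mul, pow_add]; exact this
  obtain ⟨p, hp, hlt, hmod⟩ := Nat.exists_prime_gt_modEq_one (max n0 y.natAbs) he
  refine ⟨p, hp, lt_of_le_of_lt (le_max_left _ _) hlt, hmod, fun h => ?_⟩
  obtain ⟨b, k, hb, hk⟩ := key _ h
  have hb' : b = algebraMap ℚ B ((p : ℚ)⁻¹) := by
    apply Subtype.ext
    rw [hb]; simp
  have e1 : y^k • Ideal.Quotient.mk m b = algebraMap ℚ (B ⧸ m) ((y^k : ℤ) • (p : ℚ)⁻¹) := by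
    rw [hb', map_zsmul]; rfl
  rw [e1, isIntegral_algebraMap_iff (algebraMap ℚ (B ⧸ m)).injective] at hk
  obtain ⟨z, hz⟩ := IsIntegrallyClosed.isIntegral_iff.1 hk
  have hp0 : (p : ℚ) ≠ 0 := by exact_mod_cast hp.ne_zero
  have e2 : (y^k : ℤ) = p * z := by
    have : ((y^k : ℤ) : ℚ) = p * (z : ℚ) := by
      simp only [zsmul_eq_mul, eq_intCast] at hz
      rw [hz]; field_simp
    exact_mod_cast this
  have e3 : (p : ℤ) ∣ y := (Nat.prime_iff_prime_int.1 hp).dvd_of_dvd_pow ⟨z, e2⟩
  have e4 : p ∣ y.natAbs := Int.natCast_dvd.1 e3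
  have e5 := Nat.le_of_dvd (Int.natAbs_pos.2 hy) e4
  have := lt_of_le_of_lt (le_max_right _ _) hlt
  omega

/-- polynomials with all coefficients in a subring -/
noncomputable def PR {K : Type*} [CommRing K] (R0 : Subring K) : Subring K[X] :=
  liftsRing R0.subtype

lemma mem_PR {K : Type*} [CommRing K] (R0 : Subring K) (p : K[X]) :
    p ∈ PR R0 ↔ ∀ i, p.coeff i ∈ R0 := by
  unfold PR
  rw [← lifts_iff_liftsRing, lifts_iff_coeff_lifts]
  simp

lemma C_mem_PR {K : Type*} [CommRing K] (R0 : Subring K) (x : K) (hx : x ∈ R0) : C x ∈ PR R0 := by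
  rw [mem_PR]; intro i; rw [coeff_C]; split_ifs
  · exact hx
  · exact R0.zero_mem

lemma deriv_mem_PR {K : Type*} [CommRing K] (R0 : Subring K) (p : K[X]) (hp : p ∈ PR R0) :
    derivative p ∈ PR R0 := by
  rw [mem_PR] at *
  intro i; rw [coeff_derivative]
  exact R0.mul_mem (hp _) (R0.add_mem (natCast_mem R0 i) R0.one_mem)

lemma mem_PR_of_coeffs {K : Type*} [CommRing K] (R0 : Subring K) (p : K[X])
    (h : ∀ x ∈ p.coeffs, x ∈ R0) : p ∈ PR R0 := by
  rw [mem_PR]; intro i
  by_cases h0 : p.coeff i = 0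
  · rw [h0]; exact R0.zero_mem
  · exact h _ (coeff_mem_coeffs h0)

lemma lemZ {K : Type*} [Field K] [CharZero K] (V : Submodule K K[X]) (F : K[X])
    (hF : F.natDegree ≠ 0) (hV : ∀ m, 1 ≤ m → F^m ∈ V) (s : Finset K) :
    ∃ (R0 : Subring K) (n : ℕ) (H : K[X]), (∀ x ∈ s, x ∈ R0) ∧ (n+1).Prime ∧
      ((n + 1 : ℕ) : K)⁻¹ ∉ R0 ∧ H ∈ PR R0 ∧ H.coeff 0 ≠ 0 ∧ (H.coeff 0)⁻¹ ∈ R0 ∧
      X^n * H ∈ V := by
  classical
  set c0 := F.coeff 0 with hc0
  set G := F - C c0 with hG
  have hG0 : G ≠ 0 := by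
    intro h
    apply hF
    have : F = C c0 := by rw [hG] at h; exact sub_eq_zero.1 h
    rw [this, natDegree_C]
  obtain ⟨G1, hG1, hnd⟩ := exists_eq_pow_rootMultiplicity_mul_and_not_dvd G hG0 0
  set e := rootMultiplicity 0 G with he
  simp only [map_zero, sub_zero] at hG1 hnd
  rw [X_dvd_iff] at hnd
  have he0 : e ≠ 0 := by
    intro h
    rw [h, pow_zero, one_mul] at hG1
    apply hnd; rw [← hG1, hG]; simp [hc0]
  have hFG : ∀ m j, 1 ≤ j → F^j * G^m ∈ V := by
    intro m
    induction m with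
    | zero => intro j hj; simpa using hV j hj
    | succ m ih =>
      intro j hj
      have : F^j * G^(m+1) = F^(j+1) * G^m - c0 • (F^j * G^m) := by
        rw [smul_eq_C_mul, pow_succ G, hG]; ring
      rw [this]
      exact V.sub_mem (ih _ (by omega)) (V.smul_mem _ (ih _ hj))
  let s' : Finset K := s ∪ F.coeffs ∪ G1.coeffs ∪ {(G1.coeff 0)⁻¹, c0⁻¹}
  obtain ⟨p, hp, hlt, hmod, hinv⟩ := exists_prime_not_inv s' e 1 he0
  obtain ⟨t, ht⟩ : e ∣ p - 1 := (Nat.modEq_iff_dvd' hp.one_le).1 hmod.symm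
  have ht0 : t ≠ 0 := by rintro rfl; omega
  have hsub : ∀ x ∈ s', x ∈ Subring.closure (s' : Set K) := fun x hx => Subring.subset_closure hx
  set R0 := Subring.closure (s' : Set K)
  have hp1 : p - 1 + 1 = p := by omega
  have hFm : F ∈ PR R0 := mem_PR_of_coeffs _ _ fun x hx => hsub x (by simp [s', hx])
  have hG1m : G1 ∈ PR R0 := mem_PR_of_coeffs _ _ fun x hx => hsub x (by simp [s', hx])
  have hi1 : (G1.coeff 0)⁻¹ ∈ R0 := hsub _ (by simp [s'])
  have hi2 : c0⁻¹ ∈ R0 := hsub _ (by simp [s'])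
  have hc : ∀ (Q : K[X]) (k : ℕ), (Q^k).coeff 0 = (Q.coeff 0)^k := by
    intro Q k; simp [coeff_zero_eq_eval_zero]
  by_cases h0 : c0 = 0
  · refine ⟨R0, p - 1, G1^t, fun x hx => hsub x (by simp [s', hx]), by rwa [hp1], by rwa [hp1],
      (PR R0).pow_mem hG1m t, by rw [hc]; exact pow_ne_zero _ hnd, ?_, ?_⟩
    · rw [hc, ← inv_pow]; exact R0.pow_mem hi1 t
    · have : X^(p-1) * G1^t = F^t := by
        have hFG' : F = G := by rw [hG, h0]; simp
        rw [hFG', ht, pow_mul, ← mul_pow, ← hG1]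
      rw [this]; exact hV t (by omega)
  · refine ⟨R0, p - 1, F * G1^t, fun x hx => hsub x (by simp [s', hx]), by rwa [hp1], by rwa [hp1],
      (PR R0).mul_mem hFm ((PR R0).pow_mem hG1m t), ?_, ?_, ?_⟩
    · rw [mul_coeff_zero, hc]; exact mul_ne_zero h0 (pow_ne_zero _ hnd)
    · rw [mul_coeff_zero, hc, mul_inv, ← inv_pow]; exact R0.mul_mem hi2 (R0.pow_mem hi1 t)
    · have : X^(p-1) * (F * G1^t) = F^1 * G^t := by
        rw [ht, pow_mul, hG1, mul_pow]; ring
      rw [this]; exact hFG t 1 le_rfl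

/-- the factorial functional `t^n ↦ n!` -/
noncomputable def Lf (R : Type*) [CommRing R] : R[X] →ₗ[R] R :=
  lsum fun n => (n.factorial : R) • LinearMap.id

lemma Lf_monomial {R : Type*} [CommRing R] (n : ℕ) (a : R) :
    Lf R (monomial n a) = n.factorial * a := by
  simp [Lf, lsum_apply, sum_monomial_index]

lemma Lf_map {R S : Type*} [CommRing R] [CommRing S] (φ : R →+* S) (p : R[X]) :
    Lf S (p.map φ) = φ (Lf R p) := by
  induction p using Polynomial.induction_on' with
  | add p q hp hq => rw [Polynomial.map_add, map_add, map_add, map_add, hp, hq]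
  | monomial n a => rw [Polynomial.map_monomial, Lf_monomial, Lf_monomial]; simp

lemma Lf_deriv {R : Type*} [CommRing R] (p : R[X]) :
    Lf R (derivative p) - Lf R p = - p.coeff 0 := by
  induction p using Polynomial.induction_on' with
  | add p q hp hq =>
    rw [derivative_add, map_add, map_add, coeff_add, neg_add, ← hp, ← hq]; ring
  | monomial n a =>
    rw [derivative_monomial, Lf_monomial, Lf_monomial]
    cases n with
    | zero => simp
    | succ n => simp [Nat.factorial_succ, coeff_monomial]; ring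

lemma factorial_lemma {K : Type*} [Field K] [CharZero K] (F : K[X])
    (h : ∀ m, 1 ≤ m → Lf K (F^m) = 0) : F = 0 := by
  by_cases hF : F.natDegree = 0
  · have h1 := h 1 le_rfl
    rw [pow_one, eq_C_of_natDegree_eq_zero hF, ← monomial_zero_left, Lf_monomial] at h1
    rw [eq_C_of_natDegree_eq_zero hF]
    simpa using h1
  exfalso
  obtain ⟨R0, n, H, -, hp, hinv, hH, h0, hi, hV⟩ := lemZ (LinearMap.ker (Lf K)) F hF h ∅
  rw [LinearMap.mem_ker] at hV
  have hd : ∀ i, H.divX.coeff i ∈ R0 := by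
    intro i; rw [coeff_divX]; exact (mem_PR _ _).1 hH _
  have e1 : X^n * H = monomial n (H.coeff 0) + X^(n+1) * H.divX := by
    conv_lhs => rw [← X_mul_divX_add H]
    rw [← C_mul_X_pow_eq_monomial]; ring
  have hz : Lf K (X^(n+1) * H.divX) / ((n+1).factorial : K) ∈ R0 := by
    rw [H.divX.as_sum_support, Finset.mul_sum, map_sum, Finset.sum_div]
    refine R0.sum_mem fun i _ => ?_
    rw [X_pow_mul_monomial, Lf_monomial]
    obtain ⟨d, hd'⟩ := Nat.factorial_dvd_factorial (show n + 1 ≤ i + (n+1) by omega)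
    have hne : ((n+1).factorial : K) ≠ 0 := by exact_mod_cast Nat.factorial_ne_zero _
    rw [hd']; push_cast
    rw [mul_assoc, mul_div_cancel_left₀ _ hne]
    exact R0.mul_mem (natCast_mem R0 d) (hd i)
  rw [e1, map_add, Lf_monomial] at hV
  apply hinv
  have hne : (n.factorial : K) ≠ 0 := by exact_mod_cast Nat.factorial_ne_zero _
  have hne1 : ((n : K) + 1) ≠ 0 := by exact_mod_cast Nat.succ_ne_zero n
  have : ((n + 1 : ℕ) : K)⁻¹ =
      -(Lf K (X^(n+1) * H.divX) / ((n+1).factorial : K)) * (H.coeff 0)⁻¹ := by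
    rw [eq_neg_of_add_eq_zero_right hV, Nat.factorial_succ]
    push_cast
    field_simp
  rw [this]
  exact R0.mul_mem (R0.neg_mem hz) hi

/-- formal antiderivative over a `ℚ`-algebra -/
noncomputable def anti {A : Type*} [CommRing A] [Algebra ℚ A] (x : A[X]) : A[X] :=
  x.sum fun k b => monomial (k+1) (((k + 1 : ℚ)⁻¹) • b)

lemma anti_coeff_zero {A : Type*} [CommRing A] [Algebra ℚ A] (x : A[X]) :
    (anti x).coeff 0 = 0 := by
  simp [anti, Polynomial.sum, coeff_monomial]

lemma anti_coeff_succ {A : Type*} [CommRing A] [Algebra ℚ A] (x : A[X]) (k : ℕ) :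
    (anti x).coeff (k+1) = ((k + 1 : ℚ)⁻¹) • x.coeff k := by
  simp only [anti, Polynomial.sum, finsetSum_coeff, coeff_monomial, add_left_inj]
  rw [Finset.sum_ite_eq']
  split_ifs with h
  · rfl
  · rw [notMem_support_iff.1 h, smul_zero]

lemma deriv_anti {A : Type*} [CommRing A] [Algebra ℚ A] (x : A[X]) : derivative (anti x) = x := by
  ext k
  rw [coeff_derivative, anti_coeff_succ]
  have : ((k : A) + 1) = algebraMap ℚ A (k + 1) := by simp
  rw [this, mul_comm, ← Algebra.smul_def, smul_smul, mul_inv_cancel₀ (by positivity), one_smul]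

lemma PR_of_D {K : Type*} [Field K] (R0 : Subring K) (a : K[X]) (ha : a ∈ PR R0)
    (hl : a.leadingCoeff⁻¹ ∈ R0) (hd : a.natDegree ≠ 0) :
    ∀ (n : ℕ) (h : K[X]), h.support.card = n → derivative h - a * h ∈ PR R0 → h ∈ PR R0 := by
  intro n
  induction n using Nat.strong_induction_on with
  | _ n ih =>
  intro h hn hD
  by_cases h0 : h = 0
  · rw [h0]; exact (PR R0).zero_mem
  have ha0 : a.leadingCoeff ≠ 0 := by
    rw [leadingCoeff_ne_zero]; rintro rfl; simp at hd
  have h1 : h.leadingCoeff ∈ R0 := by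
    have := (mem_PR _ _).1 hD (a.natDegree + h.natDegree)
    rw [coeff_sub, coeff_derivative, coeff_mul_degree_add_degree,
      coeff_eq_zero_of_natDegree_lt (by omega), zero_mul, zero_sub] at this
    have e : h.leadingCoeff = a.leadingCoeff⁻¹ * -(-(a.leadingCoeff * h.leadingCoeff)) := by
      field_simp
    rw [e]; exact R0.mul_mem hl (R0.neg_mem this)
  have h2 : monomial h.natDegree h.leadingCoeff ∈ PR R0 := by
    rw [mem_PR]; intro i; rw [coeff_monomial]; split_ifs
    · exact h1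
    · exact R0.zero_mem
  have e := eraseLead_add_monomial_natDegree_leadingCoeff h
  have h3 : h.eraseLead ∈ PR R0 := by
    refine ih _ (hn ▸ eraseLead_support_card_lt h0) _ rfl ?_
    have : derivative h.eraseLead - a * h.eraseLead = (derivative h - a * h) -
        (derivative (monomial h.natDegree h.leadingCoeff) -
          a * monomial h.natDegree h.leadingCoeff) := by
      have e' : h.eraseLead = h - monomial h.natDegree h.leadingCoeff := eq_sub_of_add_eq e
      rw [e', derivative_sub]; ring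
    rw [this]
    exact (PR R0).sub_mem hD ((PR R0).sub_mem (deriv_mem_PR _ _ h2) ((PR R0).mul_mem ha h2))
  rw [← e]; exact (PR R0).add_mem h3 h2

lemma exp_trunc {K : Type*} [Field K] [CharZero K] (a Q : K[X]) (hQ : derivative Q = -a) (n : ℕ) :
    derivative (∑ k ∈ Finset.range (n+1), C ((k.factorial : K)⁻¹) * Q^k) +
      a * ∑ k ∈ Finset.range (n+1), C ((k.factorial : K)⁻¹) * Q^k =
      C ((n.factorial : K)⁻¹) * a * Q^n := by
  induction n with
  | zero => simp
  | succ n ih =>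
    rw [Finset.sum_range_succ, derivative_add, mul_add, add_add_add_comm, ih, derivative_C_mul,
      derivative_pow, hQ]
    have hne : (n.factorial : K) ≠ 0 := by exact_mod_cast Nat.factorial_ne_zero _
    have hne1 : ((n : K) + 1) ≠ 0 := by exact_mod_cast Nat.succ_ne_zero n
    have e : C (((n+1).factorial : K)⁻¹) * C ((n + 1 : ℕ) : K) = C ((n.factorial : K)⁻¹) := by
      rw [← C_mul, Nat.factorial_succ]; congr 1; push_cast; field_simp
    rw [← e, Nat.add_sub_cancel]; ring

lemma nonconst0 {K : Type*} [Field K] [CharZero K] (a F : K[X]) (ha0 : a.coeff 0 = 0)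
    (ha : a.natDegree ≠ 0) (hyp : ∀ m, 1 ≤ m → ∃ h, derivative h - a * h = F^m) : F = 0 := by
  classical
  have hane : a ≠ 0 := by rintro rfl; simp at ha
  by_cases hF : F.natDegree = 0
  · obtain ⟨h, hh⟩ := hyp 1 le_rfl
    rw [pow_one] at hh
    by_cases h0 : h = 0
    · rw [← hh, h0]; simp
    · exfalso
      have := congrArg (fun p => p.coeff (a.natDegree + h.natDegree)) hh
      rw [coeff_sub, coeff_derivative, coeff_mul_degree_add_degree,
        coeff_eq_zero_of_natDegree_lt (by omega), zero_mul, zero_sub,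
        coeff_eq_zero_of_natDegree_lt (by omega), neg_eq_zero] at this
      exact mul_ne_zero (leadingCoeff_ne_zero.2 hane) (leadingCoeff_ne_zero.2 h0) this
  exfalso
  let D : K[X] →ₗ[K] K[X] := derivative - LinearMap.mulLeft K a
  obtain ⟨R0, n, H, hs, hp, hinv, hH, h0, hi, hV⟩ := lemZ (LinearMap.range D) F hF
    (fun m hm => by obtain ⟨h, hh⟩ := hyp m hm; exact ⟨h, hh⟩)
    (a.coeffs ∪ (anti a).coeffs ∪ {a.leadingCoeff⁻¹})
  obtain ⟨h, hh⟩ := hV
  have hh' : derivative h - a * h = X^n * H := hh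
  have ham : a ∈ PR R0 := mem_PR_of_coeffs _ _ fun x hx => hs x (by simp [hx])
  have hPm : anti a ∈ PR R0 := mem_PR_of_coeffs _ _ fun x hx => hs x (by simp [hx])
  have hXm : (X : K[X]) ∈ PR R0 := by
    rw [mem_PR]; intro i; rw [coeff_X]; split_ifs
    · exact R0.one_mem
    · exact R0.zero_mem
  have hhm : h ∈ PR R0 := PR_of_D R0 a ham (hs _ (by simp)) ha _ h rfl
    (by rw [hh']; exact (PR R0).mul_mem ((PR R0).pow_mem hXm n) hH)
  set Q := -anti a with hQ
  have hQd : derivative Q = -a := by rw [hQ, derivative_neg, deriv_anti]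
  have hQ0 : Q.coeff 0 = 0 := by rw [hQ, coeff_neg, anti_coeff_zero, neg_zero]
  set E := ∑ k ∈ Finset.range (n+1), C ((k.factorial : K)⁻¹) * Q^k with hE
  have hE1 := exp_trunc a Q hQd n
  rw [← hE] at hE1
  have hEm : C (n.factorial : K) * E ∈ PR R0 := by
    rw [hE, Finset.mul_sum]
    refine (PR R0).sum_mem fun k hk => ?_
    obtain ⟨d, hd⟩ := Nat.factorial_dvd_factorial (show k ≤ n by simpa [Nat.lt_succ_iff] using hk)
    have hne : (k.factorial : K) ≠ 0 := by exact_mod_cast Nat.factorial_ne_zero _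
    have e : C (n.factorial : K) * C ((k.factorial : K)⁻¹) = C (d : K) := by
      rw [← C_mul, hd]; congr 1; push_cast; field_simp
    rw [← mul_assoc, e]
    exact (PR R0).mul_mem (C_mem_PR _ _ (natCast_mem R0 d))
      ((PR R0).pow_mem ((PR R0).neg_mem hPm) k)
  have hE0 : E.coeff 0 = 1 := by
    rw [hE, Finset.sum_range_succ', coeff_add, finsetSum_coeff, Finset.sum_eq_zero]
    · simp
    · intro k _
      rw [pow_succ, ← mul_assoc, mul_coeff_zero, hQ0, mul_zero]
  obtain ⟨a1, ha1⟩ := X_dvd_iff.2 ha0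
  obtain ⟨Q1, hQ1⟩ := X_dvd_iff.2 hQ0
  have key : derivative (E * h) =
      X^n * (E * H) + X^(n+1) * (C ((n.factorial : K)⁻¹) * a1 * Q1^n * h) := by
    have e1 : derivative (E * h) = E * (derivative h - a * h) + (derivative E + a * E) * h := by
      rw [derivative_mul]; ring
    rw [e1, hh', hE1]
    generalize E = E'
    rw [hQ1, ha1]; ring
  have k2 := congrArg (fun p => p.coeff n) key
  rw [coeff_add, coeff_derivative, coeff_X_pow_mul', coeff_X_pow_mul', if_pos le_rfl,
    if_neg (by omega), add_zero, Nat.sub_self, mul_coeff_zero, hE0, one_mul] at k2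
  have hz : (n.factorial : K) * (E * h).coeff (n+1) ∈ R0 := by
    rw [← coeff_C_mul, ← mul_assoc]
    exact (mem_PR _ _).1 ((PR R0).mul_mem hEm hhm) _
  have hcop : Nat.Coprime (n+1) n.factorial :=
    (Nat.Prime.coprime_iff_not_dvd hp).2 (by rw [hp.dvd_factorial]; omega)
  obtain ⟨u, v, huv⟩ := Nat.isCoprime_iff_coprime.2 hcop
  have huv' : (u : K) * ((n : K) + 1) + v * n.factorial = 1 := by exact_mod_cast congrArg (Int.cast : ℤ → K) huv
  have hne1 : ((n : K) + 1) ≠ 0 := by exact_mod_cast Nat.succ_ne_zero n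
  apply hinv
  have : ((n + 1 : ℕ) : K)⁻¹ =
      u + v * ((n.factorial : K) * (E * h).coeff (n+1)) * (H.coeff 0)⁻¹ := by
    have hw : (E * h).coeff (n+1) ≠ 0 := by
      intro hw; rw [hw, zero_mul] at k2; exact h0 k2.symm
    rw [← k2]; push_cast
    field_simp
    linear_combination (-1 : K) * huv'
  rw [this]
  exact R0.add_mem (intCast_mem R0 u) (R0.mul_mem (R0.mul_mem (intCast_mem R0 v) hz) hi)

lemma deriv_taylor {R : Type*} [CommRing R] (r : R) (p : R[X]) :
    derivative (taylor r p) = taylor r (derivative p) := by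
  simp [taylor_apply, derivative_comp]

lemma transfer {A K : Type*} [CommRing A] [CommRing K] (σ : A →+* K) (τ : K) (c : A)
    (a h f : A[X]) (m : ℕ) (e : C c * derivative h - a * h = f^m) :
    C (σ c) * derivative (taylor τ (h.map σ)) - taylor τ (a.map σ) * taylor τ (h.map σ) =
      (taylor τ (f.map σ))^m := by
  rw [← taylor_pow, ← Polynomial.map_pow, ← e, deriv_taylor, derivative_map]
  simp [taylor_mul]

lemma nonconst {K : Type*} [Field K] [CharZero K] (c : K) (a f : K[X]) (hc : c ≠ 0)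
    (ha : a.natDegree ≠ 0) (hyp : ∀ m, 1 ≤ m → ∃ h, C c * derivative h - a * h = f^m) :
    f = 0 := by
  let L := AlgebraicClosure K
  let σ := algebraMap K L
  have hσ : Function.Injective σ := σ.injective
  have : CharZero L := charZero_of_injective_algebraMap hσ
  have hd : (a.map σ).degree ≠ 0 := by
    rw [degree_map]; intro h; exact ha (natDegree_eq_zero_iff_degree_le_zero.2 h.le)
  obtain ⟨α, hα⟩ := IsAlgClosed.exists_root (a.map σ) hd
  have hc' : σ c ≠ 0 := by simpa using hc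
  have := nonconst0 (C (σ c)⁻¹ * taylor α (a.map σ)) (taylor α (f.map σ))
    (by rw [coeff_C_mul, taylor_coeff_zero, hα.eq_zero, mul_zero])
    (by rw [natDegree_C_mul (inv_ne_zero hc'), natDegree_taylor, natDegree_map]; exact ha)
    (fun m hm => by
      obtain ⟨h, hh⟩ := hyp m hm
      refine ⟨C (σ c) * taylor α (h.map σ), ?_⟩
      rw [← transfer σ α c a h f m hh, derivative_C_mul]
      have e : C (σ c)⁻¹ * C (σ c) = (1 : L[X]) := by
        rw [← C_mul, inv_mul_cancel₀ hc', C_1]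
      linear_combination (-(taylor α (a.map σ) * taylor α (h.map σ))) * e)
  rw [taylor_eq_zero] at this
  exact (Polynomial.map_eq_zero_iff hσ).1 this

lemma val {K : Type*} [Field K] [CharZero K] (V : ValuationSubring K)
    (hQ : ∀ n : ℕ, (n : K)⁻¹ ∈ V) (c : K) (a f : K[X]) (ha0 : a.coeff 0 ≠ 0)
    (hyp : ∀ m, 1 ≤ m → ∃ h : K[X], h.coeff 0 ∈ V ∧ C c * derivative h - a * h = f^m) (j : ℕ)
    (h1 : 1 ≤ V.valuation (f.coeff j * (c / a.coeff 0)^j))
    (h2 : V.valuation (a.coeff 0) < V.valuation (f.coeff j * (c / a.coeff 0)^j)) : False := by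
  classical
  have hne : f.coeff j * (c / a.coeff 0)^j ≠ 0 := by
    intro h; rw [h, map_zero] at h1; exact absurd h1 (by simp)
  by_cases hc : c = 0
  · have hj : j = 0 := by
      by_contra hj; apply hne; rw [hc, zero_div, zero_pow hj, mul_zero]
    obtain ⟨h, hV, hh⟩ := hyp 1 le_rfl
    rw [hc, C_0, zero_mul, zero_sub, pow_one] at hh
    rw [hj, pow_zero, mul_one, ← hh, coeff_neg, mul_coeff_zero, Valuation.map_neg, map_mul] at h2
    have := (V.valuation_le_one_iff _).2 hV
    exact absurd (mul_le_of_le_one_right' this) (not_le.2 h2)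
  by_cases ha : a.natDegree ≠ 0
  · have := nonconst c a f hc ha fun m hm => by obtain ⟨h, -, hh⟩ := hyp m hm; exact ⟨h, hh⟩
    apply hne; rw [this]; simp
  push Not at ha
  set a0 := a.coeff 0 with ha0'
  have haC : a = C a0 := eq_C_of_natDegree_eq_zero ha
  set κ := c / a0 with hκ
  set F0 := f.comp (C κ * X) with hF0
  have hco : ∀ i, F0.coeff i = f.coeff i * κ^i := fun i => comp_C_mul_X_coeff
  rw [← hco] at h1 h2 hne
  obtain ⟨js, hjs, hmax⟩ := Finset.exists_max_image F0.support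
    (fun i => V.valuation (F0.coeff i)) ⟨j, mem_support_iff.2 hne⟩
  set ξ := F0.coeff js with hξ
  have hξ0 : ξ ≠ 0 := mem_support_iff.1 hjs
  have hvξ : V.valuation ξ ≠ 0 := by simpa using hξ0
  have hmax' : ∀ i, V.valuation (F0.coeff i) ≤ V.valuation ξ := by
    intro i
    by_cases hi : i ∈ F0.support
    · exact hmax i hi
    · rw [notMem_support_iff.1 hi, map_zero]; exact zero_le
  have g1 : 1 ≤ V.valuation ξ := h1.trans (hmax' j)
  have g2 : V.valuation a0 < V.valuation ξ := lt_of_lt_of_le h2 (hmax' j)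
  have hl : C ξ⁻¹ * F0 ∈ lifts V.subtype := by
    rw [lifts_iff_coeff_lifts]
    intro i
    refine ⟨⟨_, (V.valuation_le_one_iff (ξ⁻¹ * F0.coeff i)).1 ?_⟩, by simp⟩
    rw [map_mul, map_inv₀, inv_mul_le_iff₀ (zero_lt_iff.2 hvξ), mul_one]
    exact hmax' i
  obtain ⟨F2, hF2⟩ := (mem_lifts _).1 hl
  have : CharZero (IsLocalRing.ResidueField V) := by
    refine ⟨fun x y hxy => ?_⟩
    have hu : ∀ n : ℕ, n ≠ 0 → (n : IsLocalRing.ResidueField V) ≠ 0 := by
      intro n hn
      have : IsUnit (n : V) := by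
        refine isUnit_iff_exists_inv.2 ⟨⟨_, hQ n⟩, Subtype.ext ?_⟩
        have : (n : K) ≠ 0 := by exact_mod_cast hn
        simp [this]
      have := this.map (IsLocalRing.residue V)
      rw [map_natCast] at this
      exact this.ne_zero
    by_contra hxy'
    rcases lt_or_gt_of_ne hxy' with h | h
    · apply hu (y - x) (by omega); rw [Nat.cast_sub h.le, hxy, sub_self]
    · apply hu (x - y) (by omega); rw [Nat.cast_sub h.le, hxy, sub_self]
  have hz := factorial_lemma (F2.map (IsLocalRing.residue V)) (fun m hm => by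
    rw [← Polynomial.map_pow, Lf_map, IsLocalRing.residue_eq_zero_iff,
      ValuationSubring.valuation_lt_one_iff]
    obtain ⟨h, hV, hh⟩ := hyp m hm
    have e1 : ((Lf V (F2^m) : V) : K) = Lf K ((C ξ⁻¹ * F0)^m) := by
      rw [← hF2, ← Polynomial.map_pow, Lf_map]; rfl
    have e2 : F0^m = a0 • (derivative (h.comp (C κ * X)) - h.comp (C κ * X)) := by
      have e3 : C c = C a0 * C κ := by rw [← C_mul, hκ]; congr 1; field_simp
      rw [hF0, ← pow_comp, ← hh, haC, e3, smul_eq_C_mul, derivative_comp]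
      simp
      ring
    have e5 : Lf K ((C ξ⁻¹ * F0)^m) = ξ⁻¹^m * (a0 * -(h.coeff 0)) := by
      rw [mul_pow, ← C_pow, ← smul_eq_C_mul, map_smul, e2, map_smul, map_sub, Lf_deriv,
        comp_C_mul_X_coeff, pow_zero, mul_one, smul_eq_mul, smul_eq_mul]
    rw [e1, e5, map_mul, map_mul,
      Valuation.map_neg, map_pow, map_inv₀, inv_pow,
      inv_mul_lt_iff₀ (pow_pos (zero_lt_iff.2 hvξ) m), mul_one]
    calc V.valuation a0 * V.valuation (h.coeff 0) ≤ V.valuation a0 :=
          mul_le_of_le_one_right' ((V.valuation_le_one_iff _).2 hV)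
      _ < V.valuation ξ := g2
      _ ≤ V.valuation ξ ^ m := le_self_pow₀ g1 (by omega))
  have e4 : F2.coeff js = 1 := by
    apply Subtype.ext
    have := congrArg (fun p => p.coeff js) hF2
    simp only [coeff_map, coeff_C_mul] at this
    rw [← hξ, inv_mul_cancel₀ hξ0] at this
    exact this
  have := congrArg (fun p => p.coeff js) hz
  simp [coeff_map, e4] at this

end Pool.Agent.H5.Img
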