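import Pool.Agent.H5.ImgA

set_option autoImplicit false

namespace Pool.Agent.H5.Img
open Polynomial

/-- `x / α` is integral over the ideal `(a)` after killing `a`-torsion -/
def Cert {R : Type*} [CommRing R] (a α x : R) : Prop :=
  ∃ (k n : ℕ) (q : Fin (n+1) → R),
    a^k * (x^(n+1) - a * α * ∑ i : Fin (n+1), q i * (α^(n - i) * x^(i : ℕ))) = 0

lemma pair_pow {R : Type*} [CommRing R] (α x : R) (n : ℕ) :
    (Ideal.span {α, x})^n ≤ Ideal.span (Set.range fun i : Fin (n+1) => α^(n - i) * x^(i : ℕ)) := by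
  induction n with
  | zero =>
    rw [pow_zero, Ideal.one_eq_top, top_le_iff, Ideal.eq_top_iff_one]
    exact Ideal.subset_span ⟨0, by simp⟩
  | succ n ih =>
    rw [pow_succ]
    refine (Ideal.mul_mono_left ih).trans ?_
    rw [Ideal.span_mul_span', Ideal.span_le]
    rintro _ ⟨_, ⟨i, rfl⟩, y, hy, rfl⟩
    apply Ideal.subset_span
    have hi := i.2
    rcases hy with rfl | rfl
    · refine ⟨⟨i, by omega⟩, ?_⟩
      show y^(n + 1 - i) * x^(i : ℕ) = y^(n - i) * x^(i : ℕ) * y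
      rw [show n + 1 - (i : ℕ) = n - i + 1 by omega]; ring
    · refine ⟨⟨i + 1, by omega⟩, ?_⟩
      show α^(n + 1 - (i + 1)) * y^((i : ℕ) + 1) = α^(n - i) * y^(i : ℕ) * y
      rw [show n + 1 - ((i : ℕ) + 1) = n - i by omega]; ring

lemma charZero_of_hom {A K : Type*} [CommRing A] [Algebra ℚ A] [Field K] (σ : A →+* K) :
    CharZero K :=
  charZero_of_injective_ringHom (σ.comp (algebraMap ℚ A)).injective

lemma nil {A : Type*} [CommRing A] [Algebra ℚ A] (c : A) (a f : A[X])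
    (hyp : ∀ m, 1 ≤ m → ∃ h, C c * derivative h - a * h = f^m) (i j : ℕ) (hi : i ≠ 0) :
    IsNilpotent (c * a.coeff i * f.coeff j) := by
  rw [nilpotent_iff_mem_prime]
  intro P hP
  let K := FractionRing (A ⧸ P)
  let σ : A →+* K := (algebraMap (A ⧸ P) K).comp (Ideal.Quotient.mk P)
  have hσ : ∀ x, σ x = 0 → x ∈ P := by
    intro x hx
    exact Ideal.Quotient.eq_zero_iff_mem.1 ((IsFractionRing.to_map_eq_zero_iff (K := K)).1 hx)
  have := charZero_of_hom σ
  apply hσ
  rw [map_mul, map_mul]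
  by_cases hc : σ c = 0
  · simp [hc]
  by_cases ha : σ (a.coeff i) = 0
  · simp [ha]
  have h1 : (a.map σ).natDegree ≠ 0 := by
    have : i ≤ (a.map σ).natDegree := le_natDegree_of_ne_zero (by rwa [coeff_map])
    omega
  have h2 := nonconst (σ c) (a.map σ) (f.map σ) hc h1 (fun m hm => by
    obtain ⟨h, hh⟩ := hyp m hm
    have := transfer σ 0 c a h f m hh
    simp only [taylor_zero] at this
    exact ⟨_, this⟩)
  have : σ (f.coeff j) = 0 := by rw [← coeff_map, h2, coeff_zero]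
  simp [this]

lemma cert {A : Type*} [CommRing A] [Algebra ℚ A] (c : A) (a f : A[X])
    (hyp : ∀ m, 1 ≤ m → ∃ h, C c * derivative h - a * h = f^m) (j : ℕ) :
    Cert a (a^j) (C c^j * derivative^[j] f) := by
  obtain ⟨α, hα⟩ : ∃ α, α = a^j := ⟨_, rfl⟩
  obtain ⟨x, hx⟩ : ∃ x, x = C c^j * derivative^[j] f := ⟨_, rfl⟩
  rw [← hα, ← hx]
  by_contra hn
  set I : Ideal A[X] := Ideal.span {α, x} with hI
  have hαI : α ∈ I := Ideal.subset_span (by simp)
  have hxI : x ∈ I := Ideal.subset_span (by simp)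
  let S : Submonoid A[X] :=
    { carrier := {s | s = 1 ∨ ∃ k n, ∃ y ∈ I^n, s = a^k * (x^(n+1) - a * α * y)}
      one_mem' := Or.inl rfl
      mul_mem' := by
        rintro s t (rfl | ⟨k, n, y, hy, rfl⟩) ht
        · rwa [one_mul]
        rcases ht with rfl | ⟨k', n', y', hy', rfl⟩
        · rw [mul_one]; exact Or.inr ⟨k, n, y, hy, rfl⟩
        refine Or.inr ⟨k + k', n + n' + 1, y * x^(n'+1) + y' * x^(n+1) - a * (α * (y * y')), ?_,
          by ring⟩
        refine sub_mem (add_mem ?_ ?_) (Ideal.mul_mem_left _ _ ?_)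
        · rw [add_assoc, pow_add]; exact Ideal.mul_mem_mul hy (Ideal.pow_mem_pow hxI _)
        · rw [show n + n' + 1 = n' + (n+1) by omega, pow_add]
          exact Ideal.mul_mem_mul hy' (Ideal.pow_mem_pow hxI _)
        · rw [pow_succ', pow_add]; exact Ideal.mul_mem_mul hαI (Ideal.mul_mem_mul hy hy') }
  have hdis : Disjoint ((⊥ : Ideal A[X]) : Set A[X]) S := by
    rw [Set.disjoint_left]
    intro s hs hS
    have hs0 : s = 0 := hs
    apply hn
    rcases hS with h1 | ⟨k, n, y, hy, h1⟩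
    · have : (1 : A[X]) = 0 := h1 ▸ hs0
      exact ⟨0, 0, 0, by rw [pow_zero, this, zero_mul]⟩
    · obtain ⟨q, hq⟩ := Ideal.mem_span_range_iff_exists_fun.1 (pair_pow α x n hy)
      exact ⟨k, n, q, by rw [hq, ← h1, hs0]⟩
  obtain ⟨P, hP, -, hPS⟩ := Ideal.exists_le_prime_disjoint ⊥ S hdis
  have hPS' : ∀ k n, ∀ y ∈ I^n, a^k * (x^(n+1) - a * α * y) ∉ P := fun k n y hy h =>
    Set.disjoint_left.1 hPS h (Or.inr ⟨k, n, y, hy, rfl⟩)
  let K := FractionRing (A[X] ⧸ P)
  let ρ : A[X] →+* K := (algebraMap (A[X] ⧸ P) K).comp (Ideal.Quotient.mk P)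
  have hρ : ∀ x, ρ x = 0 → x ∈ P := by
    intro x hx
    exact Ideal.Quotient.eq_zero_iff_mem.1 ((IsFractionRing.to_map_eq_zero_iff (K := K)).1 hx)
  have := charZero_of_hom ρ
  have hax : ρ a * ρ x ≠ 0 := by
    intro h
    apply hPS' 1 0 0 (zero_mem _)
    apply hρ; simpa using h
  have ha : ρ a ≠ 0 := left_ne_zero_of_mul hax
  have hx0 : ρ x ≠ 0 := right_ne_zero_of_mul hax
  have hα0 : ρ α ≠ 0 := by rw [hα, map_pow]; exact pow_ne_zero _ ha
  let Z : Subring K :=
    { carrier := {z | ∃ n, ∃ y ∈ I^n, z * ρ x^n = ρ y}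
      one_mem' := ⟨0, 1, by simp, by simp⟩
      zero_mem' := ⟨0, 0, by simp, by simp⟩
      mul_mem' := by
        rintro z z' ⟨n, y, hy, h⟩ ⟨n', y', hy', h'⟩
        refine ⟨n + n', y * y', by rw [pow_add]; exact Ideal.mul_mem_mul hy hy', ?_⟩
        rw [map_mul, ← h, ← h']; ring
      add_mem' := by
        rintro z z' ⟨n, y, hy, h⟩ ⟨n', y', hy', h'⟩
        refine ⟨n + n', y * x^n' + x^n * y', ?_, ?_⟩
        · rw [pow_add]
          exact add_mem (Ideal.mul_mem_mul hy (Ideal.pow_mem_pow hxI _))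
            (Ideal.mul_mem_mul (Ideal.pow_mem_pow hxI _) hy')
        · rw [map_add, map_mul, map_mul, map_pow, map_pow, ← h, ← h']; ring
      neg_mem' := by
        rintro z ⟨n, y, hy, h⟩
        exact ⟨n, -y, neg_mem hy, by rw [map_neg, ← h]; ring⟩ }
  have hZ : ∀ r, ρ r ∈ Z := fun r => ⟨0, r, by simp, by simp⟩
  have hy0 : ρ α / ρ x ∈ Z := ⟨1, α, by rwa [pow_one], by rw [pow_one, div_mul_cancel₀ _ hx0]⟩
  have hJ : Ideal.span {(⟨ρ a * (ρ α / ρ x), Z.mul_mem (hZ a) hy0⟩ : Z)} ≠ ⊤ := by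
    rw [Ne, Ideal.eq_top_iff_one, Ideal.mem_span_singleton']
    rintro ⟨⟨z, n, y, hy, h⟩, hz⟩
    have hz' : z * (ρ a * (ρ α / ρ x)) = 1 := congrArg Subtype.val hz
    apply hPS' 0 n y hy
    apply hρ
    rw [pow_zero, one_mul, map_sub, map_mul, map_mul, map_pow, ← h]
    have e := div_mul_cancel₀ (ρ α) hx0
    linear_combination (-(ρ x)^(n+1)) * hz' + (z * ρ a * ρ x^n) * e
  obtain ⟨V, hV1, hV2⟩ := Ideal.image_subset_nonunits_valuationSubring _ hJ
  have hV3 : V.valuation (ρ a * (ρ α / ρ x)) < 1 :=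
    (V.mem_nonunits_iff).1 (hV2 ⟨_, Ideal.subset_span rfl, rfl⟩)
  have hV4 : V.valuation (ρ α / ρ x) ≤ 1 := (V.valuation_le_one_iff _).2 (hV1 hy0)
  have hQ : ∀ n : ℕ, (n : K)⁻¹ ∈ V := by
    intro n
    have := hZ (algebraMap ℚ A[X] (n : ℚ)⁻¹)
    rw [← RingHom.comp_apply, map_inv₀, map_natCast] at this
    exact hV1 this
  have hev : ∀ p : A[X], (p.map (ρ.comp C)).eval (ρ X) = ρ p := by
    intro p
    rw [eval_map, ← hom_eval₂, eval₂_C_X]
  have hT0 : ∀ p : A[X], (taylor (ρ X) (p.map (ρ.comp C))).coeff 0 = ρ p := by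
    intro p; rw [taylor_coeff_zero, hev]
  have hTj : (j.factorial : K) * (taylor (ρ X) (f.map (ρ.comp C))).coeff j =
      ρ (derivative^[j] f) := by
    rw [taylor_coeff, ← hev (derivative^[j] f), ← iterate_derivative_map, ← factorial_smul_hasseDeriv]
    simp
  have hj0 : (j.factorial : K) ≠ 0 := by exact_mod_cast Nat.factorial_ne_zero _
  have hvj : V.valuation (j.factorial : K) = 1 := by
    apply le_antisymm ((V.valuation_le_one_iff _).2 (natCast_mem V _))
    have := (V.valuation_le_one_iff _).2 (hQ j.factorial)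
    rwa [map_inv₀, inv_le_one₀ (zero_lt_iff.2 (by simpa using hj0))] at this
  have hξ : V.valuation ((taylor (ρ X) (f.map (ρ.comp C))).coeff j *
      ((ρ.comp C) c / (taylor (ρ X) (a.map (ρ.comp C))).coeff 0)^j) =
      (V.valuation (ρ α / ρ x))⁻¹ := by
    rw [← one_mul (V.valuation (_ * _)), ← hvj, ← map_mul, ← mul_assoc, hTj, hT0, ← map_inv₀,
      inv_div]
    congr 1
    rw [hx, hα, map_mul, map_pow, map_pow, div_pow, mul_div_assoc', mul_comm]
    rfl
  have hpos : 0 < V.valuation (ρ α / ρ x) := zero_lt_iff.2 (by simpa using ⟨hα0, hx0⟩)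
  refine val V hQ ((ρ.comp C) c) (taylor (ρ X) (a.map (ρ.comp C)))
    (taylor (ρ X) (f.map (ρ.comp C))) (by rwa [hT0]) (fun m hm => ?_) j ?_ ?_
  · obtain ⟨h, hh⟩ := hyp m hm
    exact ⟨_, by rw [hT0]; exact hV1 (hZ h), transfer (ρ.comp C) (ρ X) c a h f m hh⟩
  · rw [hξ]; exact (one_le_inv₀ hpos).2 hV4
  · rw [hξ, hT0, ← one_mul (_⁻¹), lt_mul_inv_iff₀ hpos, ← map_mul]; exact hV3

lemma stepA {A : Type*} [CommRing A] (c : A) (a f g : A[X]) (ha : a ∈ nonZeroDivisors A[X])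
    (H3 : ∀ j, Cert a (a^j) (C c^j * derivative^[j] f)) :
    ∃ n e : ℕ, ∀ t m l, t * n ≤ m → a^(t + l) ∣ a^e * (C c^l * derivative^[l] (g * f^m)) := by
  classical
  let S := Localization.Away a
  let ι := algebraMap A[X] S
  have hι : Function.Injective ι :=
    IsLocalization.injective S (M := Submonoid.powers a) (Submonoid.powers_le.2 ha)
  let b : S := IsLocalization.Away.invSelf a
  have hb : ι a * b = 1 := IsLocalization.Away.mul_invSelf a
  have hbp : ∀ k, ι a^k * b^k = 1 := fun k => by rw [← mul_pow, hb, one_pow]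
  let φ : ℕ → S := fun j => ι (C c^j * derivative^[j] f) * b^j
  have heq : ∀ j, ∃ (n : ℕ) (q : Fin (n+1) → A[X]),
      φ j^(n+1) = ι a * ∑ i : Fin (n+1), ι (q i) * φ j^(i : ℕ) := by
    intro j
    obtain ⟨k, n, q, h⟩ := H3 j
    refine ⟨n, q, ?_⟩
    have h1 := (mem_nonZeroDivisors_iff_left.1 (pow_mem ha k)) _ h
    have h2 := congrArg ι (sub_eq_zero.1 h1)
    simp only [φ]
    generalize C c^j * derivative^[j] f = x at *
    rw [mul_pow, ← map_pow, h2, map_mul, map_mul, map_sum, mul_assoc, mul_assoc, Finset.sum_mul,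
      Finset.mul_sum]
    congr 1
    refine Finset.sum_congr rfl fun i _ => ?_
    obtain ⟨w, hw⟩ : ∃ w, n = w + i := ⟨n - i, by have := i.2; omega⟩
    have e1 : n - (i : ℕ) = w := by omega
    have e2 : (b^j)^(n+1) = (b^j)^(w+1) * (b^j)^(i : ℕ) := by rw [← pow_add]; congr 1; omega
    rw [e1, e2]
    simp only [map_mul, map_pow]
    have e3 : (ι a^j * b^j)^(w+1) = 1 := by rw [hbp, one_pow]
    linear_combination (ι (q i) * ι x^(i : ℕ) * (b^j)^(i : ℕ)) * e3
  have hint : ∀ j, IsIntegral A[X] (φ j) := by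
    intro j
    obtain ⟨n, q, h⟩ := heq j
    refine ⟨X^(n+1) - ∑ i : Fin (n+1), C (a * q i) * X^(i : ℕ),
      monic_X_pow_sub (degree_sum_fin_lt _), ?_⟩
    rw [← aeval_def, map_sub, map_pow, aeval_X, h, map_sum, Finset.mul_sum, sub_eq_zero]
    refine Finset.sum_congr rfl fun i _ => ?_
    rw [map_mul, map_pow, aeval_X, aeval_C, map_mul, mul_assoc]
  let B := Algebra.adjoin A[X] (Set.range fun j : Fin (f.natDegree + 1) => φ j)
  have hBfg : B.toSubmodule.FG :=
    fg_adjoin_of_finite (Set.finite_range _) (by rintro _ ⟨j, rfl⟩; exact hint j)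
  have hφ0 : ∀ j, f.natDegree < j → φ j = 0 := by
    intro j hj; simp [φ, iterate_derivative_eq_zero hj]
  have hφB : ∀ j, φ j ∈ B := by
    intro j
    by_cases hj : j < f.natDegree + 1
    · exact Algebra.subset_adjoin ⟨⟨j, hj⟩, rfl⟩
    · rw [hφ0 j (by omega)]; exact zero_mem _
  obtain ⟨e, he⟩ : ∃ e : ℕ, ∀ z ∈ B, ∃ w, ι w = ι a^e * z := by
    obtain ⟨s, hs⟩ := hBfg
    obtain ⟨⟨_, e, rfl⟩, hbs⟩ :=
      IsLocalization.exist_integer_multiples_of_finset (Submonoid.powers a) s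
    refine ⟨e, fun z hz => ?_⟩
    have hz' : z ∈ Submodule.span A[X] (s : Set S) := by rw [hs]; exact hz
    clear hz
    induction hz' using Submodule.span_induction with
    | mem z hz =>
      obtain ⟨w, hw⟩ := hbs z hz
      exact ⟨w, by rw [hw, Algebra.smul_def, map_pow]⟩
    | zero => exact ⟨0, by simp⟩
    | add z z' _ _ h h' =>
      obtain ⟨w, hw⟩ := h
      obtain ⟨w', hw'⟩ := h'
      exact ⟨w + w', by rw [map_add, hw, hw', mul_add]⟩
    | smul r z _ h =>
      obtain ⟨w, hw⟩ := h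
      exact ⟨r * w, by rw [map_mul, hw, Algebra.smul_def]; ring⟩
  let Φ : Ideal B := Ideal.span (Set.range fun j : Fin (f.natDegree + 1) => ⟨φ j, hφB j⟩)
  have hφΦ : ∀ j, (⟨φ j, hφB j⟩ : B) ∈ Φ := by
    intro j
    by_cases hj : j < f.natDegree + 1
    · exact Ideal.subset_span ⟨⟨j, hj⟩, rfl⟩
    · have : (⟨φ j, hφB j⟩ : B) = 0 := Subtype.ext (hφ0 j (by omega))
      rw [this]; exact zero_mem _
  let aB : B := algebraMap A[X] B a
  have hrad : Φ ≤ (Ideal.span {aB}).radical := by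
    rw [Ideal.span_le]
    rintro _ ⟨j, rfl⟩
    obtain ⟨n, q, h⟩ := heq j
    refine ⟨n + 1, Ideal.mem_span_singleton.2
      ⟨∑ i : Fin (n+1), algebraMap A[X] B (q i) * ⟨φ j, hφB j⟩^(i : ℕ), Subtype.ext ?_⟩⟩
    simp only [aB]
    push_cast
    exact h
  obtain ⟨n, hn⟩ := Ideal.exists_pow_le_of_le_radical_of_fg hrad
    (Submodule.fg_span (Set.finite_range _))
  have hL : ∀ m l, ∃ y ∈ Φ^m, (y : S) =
      ι (a^g.natDegree * (C c^l * derivative^[l] (g * f^m))) * b^l := by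
    intro m
    induction m with
    | zero =>
      intro l
      by_cases hl : g.natDegree < l
      · exact ⟨0, zero_mem _, by simp [iterate_derivative_eq_zero hl]⟩
      · obtain ⟨w, hw⟩ : ∃ w, g.natDegree = w + l := ⟨g.natDegree - l, by omega⟩
        refine ⟨algebraMap A[X] B (a^w * (C c^l * derivative^[l] g)), by simp, ?_⟩
        rw [hw, pow_zero, mul_one]
        show ι _ = _
        simp only [map_mul, map_pow]
        linear_combination (-(ι a^w * (ι (C c)^l * ι (derivative^[l] g)))) * hbp l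
    | succ m ih =>
      intro l
      choose y hy hy' using ih
      refine ⟨∑ i ∈ Finset.range (l+1), (l.choose i : B) * (y (l - i) * ⟨φ i, hφB i⟩), ?_, ?_⟩
      · refine Ideal.sum_mem _ fun i _ => Ideal.mul_mem_left _ _ ?_
        rw [pow_succ]; exact Ideal.mul_mem_mul (hy _) (hφΦ i)
      · rw [pow_succ f, ← mul_assoc g, iterate_derivative_mul, Finset.mul_sum, Finset.mul_sum,
          map_sum, Finset.sum_mul]
        push_cast
        refine Finset.sum_congr rfl fun i hi => ?_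
        obtain ⟨w, rfl⟩ : ∃ w, l = w + i := ⟨l - i, by have := Finset.mem_range.1 hi; omega⟩
        rw [hy', Nat.add_sub_cancel]
        simp only [φ, nsmul_eq_mul, map_mul, map_pow, map_natCast]
        ring
  refine ⟨n, g.natDegree + e, fun t m l h => ?_⟩
  obtain ⟨y, hy, hy'⟩ := hL m l
  have h1 : y ∈ Ideal.span {aB^t} := by
    rw [← Ideal.span_singleton_pow]
    refine Ideal.pow_right_mono hn t ?_
    rw [← pow_mul]
    exact Ideal.pow_le_pow_right (by rwa [mul_comm]) hy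
  obtain ⟨y', rfl⟩ := Ideal.mem_span_singleton.1 h1
  obtain ⟨w, hw⟩ := he y' y'.2
  refine ⟨w, hι ?_⟩
  have hy2 : ι a^t * (y' : S) =
      ι (a^g.natDegree * (C c^l * derivative^[l] (g * f^m))) * b^l := hy'
  generalize C c^l * derivative^[l] (g * f^m) = G at *
  simp only [map_mul, map_pow] at hy2 ⊢
  rw [hw]
  linear_combination (-(ι a^l * ι a^e)) * hy2 - (ι a^g.natDegree * ι a^e * ι G) * hbp l

end Pool.Agent.H5.Img
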