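import Pool.Agent.H5.ImgB

set_option autoImplicit false

namespace Pool.Agent.H5.Img
open Polynomial

lemma deriv_mem_mapC {A : Type*} [CommRing A] (J : Ideal A) (p : A[X])
    (hp : p ∈ J.map (C : A →+* A[X])) : derivative p ∈ J.map (C : A →+* A[X]) := by
  rw [Ideal.mem_map_C_iff] at *
  intro n; rw [coeff_derivative]; exact J.mul_mem_right _ (hp _)

lemma stepB {A : Type*} [CommRing A] (c : A) (a f g : A[X])
    (H2 : ∀ i j, i ≠ 0 → IsNilpotent (c * a.coeff i * f.coeff j)) :
    ∃ (J : Ideal A) (N : ℕ), (∀ i, i ≠ 0 → a.coeff i ∈ J) ∧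
      ∀ Γ : A[X], (∀ i, Γ.coeff i ∈ J^N) → ∀ m l, N ≤ m →
        C c^N * Γ * derivative^[l] (g * f^m) = 0 := by
  classical
  let J : Ideal A := Ideal.span ((a.support.erase 0).image a.coeff : Finset A)
  let F : Ideal A := Ideal.span (f.support.image f.coeff : Finset A)
  have hfg : (Ideal.span {c} * J * F).FG :=
    ((Submodule.fg_span_singleton c).mul ⟨_, rfl⟩).mul ⟨_, rfl⟩
  have hle : Ideal.span {c} * J * F ≤ nilradical A := by
    rw [Ideal.span_mul_span', Ideal.span_mul_span', Ideal.span_le]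
    rintro _ ⟨_, ⟨_, rfl, y, hy, rfl⟩, z, hz, rfl⟩
    obtain ⟨i, hi, rfl⟩ := Finset.mem_image.1 (Finset.mem_coe.1 hy)
    obtain ⟨j, -, rfl⟩ := Finset.mem_image.1 (Finset.mem_coe.1 hz)
    exact mem_nilradical.2 (H2 i j (Finset.mem_erase.1 hi).1)
  obtain ⟨N, hN⟩ := (hfg.isNilpotent_iff_le_nilradical).2 hle
  refine ⟨J, N, fun i hi => ?_, fun Γ hΓ m l hm => ?_⟩
  · by_cases h : a.coeff i = 0
    · rw [h]; exact zero_mem _
    · exact Ideal.subset_span (Finset.mem_coe.2 (Finset.mem_image_of_mem _
        (Finset.mem_erase.2 ⟨hi, mem_support_iff.2 h⟩)))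
  · have hf : f ∈ F.map (C : A →+* A[X]) := by
      rw [Ideal.mem_map_C_iff]; intro i
      by_cases h : f.coeff i = 0
      · rw [h]; exact zero_mem _
      · exact Ideal.subset_span (Finset.mem_coe.2 (Finset.mem_image_of_mem _
          (mem_support_iff.2 h)))
    have h1 : derivative^[l] (g * f^m) ∈ (F^N).map (C : A →+* A[X]) := by
      induction l with
      | zero =>
        rw [Function.iterate_zero_apply, Ideal.map_pow]
        exact Ideal.mul_mem_left _ _ (Ideal.pow_le_pow_right hm (Ideal.pow_mem_pow hf m))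
      | succ l ih => rw [Function.iterate_succ_apply']; exact deriv_mem_mapC _ _ ih
    have h2 : Γ ∈ (J^N).map (C : A →+* A[X]) := Ideal.mem_map_C_iff.2 hΓ
    have h3 : C c^N ∈ ((Ideal.span {c})^N).map (C : A →+* A[X]) := by
      rw [← C_pow]
      have h5 : c^N ∈ (Ideal.span {c})^N := Ideal.pow_mem_pow (Ideal.mem_span_singleton_self c) N
      exact Ideal.mem_map_of_mem (C : A →+* A[X]) h5
    have h4 := Ideal.mul_mem_mul (Ideal.mul_mem_mul h3 h2) h1
    rw [← Ideal.map_mul, ← Ideal.map_mul, ← mul_pow, ← mul_pow, hN, Ideal.zero_eq_bot,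
      Ideal.map_bot] at h4
    exact h4

/-- weight filtration -/
def FW {A : Type*} [CommRing A] (J : Ideal A) (D w : ℕ) : Submodule A A[X] where
  carrier := {Γ | ∀ i s, s * D ≤ i + w → Γ.coeff i ∈ J^s}
  zero_mem' := fun i s _ => by simp
  add_mem' := fun hx hy i s h => by rw [coeff_add]; exact add_mem (hx i s h) (hy i s h)
  smul_mem' := fun r x hx i s h => by
    rw [coeff_smul, smul_eq_mul]; exact Ideal.mul_mem_left _ _ (hx i s h)

lemma FW_one {A : Type*} [CommRing A] (J : Ideal A) (D : ℕ) (hD : 0 < D) : 1 ∈ FW J D 0 := by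
  intro i s h
  rw [coeff_one]
  split_ifs with hi
  · have : s = 0 := by
      rcases Nat.eq_zero_or_pos s with h0 | h0
      · exact h0
      · have := Nat.mul_pos h0 hD; omega
    simp [this]
  · exact zero_mem _

lemma FW_a {A : Type*} [CommRing A] (J : Ideal A) (a : A[X]) (hJ : ∀ i, i ≠ 0 → a.coeff i ∈ J)
    (w : ℕ) (Γ : A[X]) (h : Γ ∈ FW J (a.natDegree + 1) w) :
    a * derivative Γ ∈ FW J (a.natDegree + 1) (w+1) ∧
      derivative a * Γ ∈ FW J (a.natDegree + 1) (w+1) := by
  constructor
  · intro i s hs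
    rw [coeff_mul]
    refine Ideal.sum_mem _ fun ⟨x, y⟩ hxy => ?_
    have hxy' : x + y = i := by simpa using hxy
    simp only [coeff_derivative]
    by_cases hx : x = 0
    · exact Ideal.mul_mem_left _ _ (Ideal.mul_mem_right _ _ (h _ _ (by omega)))
    by_cases hx' : a.natDegree < x
    · rw [coeff_eq_zero_of_natDegree_lt hx', zero_mul]; exact zero_mem _
    cases s with
    | zero => simp
    | succ s =>
      rw [pow_succ']
      rw [add_mul, one_mul] at hs
      exact Ideal.mul_mem_mul (hJ x hx) (Ideal.mul_mem_right _ _ (h _ _ (by omega)))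
  · intro i s hs
    rw [coeff_mul]
    refine Ideal.sum_mem _ fun ⟨x, y⟩ hxy => ?_
    have hxy' : x + y = i := by simpa using hxy
    simp only [coeff_derivative]
    by_cases hx' : a.natDegree < x + 1
    · rw [coeff_eq_zero_of_natDegree_lt hx', zero_mul, zero_mul]; exact zero_mem _
    cases s with
    | zero => simp
    | succ s =>
      rw [pow_succ']
      rw [add_mul, one_mul] at hs
      exact Ideal.mul_mem_mul (Ideal.mul_mem_right _ _ (hJ _ (by omega))) (h _ _ (by omega))

noncomputable def Lam {A : Type*} [CommRing A] (a G : A[X]) : ℕ → A[X]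
  | 0 => G
  | k+1 => a * derivative (Lam a G k) - (2 * k + 1 : ℕ) * derivative a * Lam a G k

lemma a_deriv_pow {A : Type*} [CommRing A] (a : A[X]) (l : ℕ) :
    a * derivative (a^l) = (l : ℕ) * derivative a * a^l := by
  cases l with
  | zero => simp
  | succ l => rw [derivative_pow, Nat.add_sub_cancel, C_eq_natCast]; ring

lemma Lam_mem {A : Type*} [CommRing A] (J : Ideal A) (a G : A[X])
    (hJ : ∀ i, i ≠ 0 → a.coeff i ∈ J) (k : ℕ) :
    Lam a G k ∈ Submodule.span A {x | ∃ l w Γ, l + w = k ∧ Γ ∈ FW J (a.natDegree + 1) w ∧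
      x = Γ * a^l * derivative^[l] G} := by
  induction k with
  | zero =>
    exact Submodule.subset_span ⟨0, 0, 1, rfl, FW_one _ _ (Nat.succ_pos _), by simp [Lam]⟩
  | succ k ih =>
    rw [Lam]
    generalize Lam a G k = x at ih
    induction ih using Submodule.span_induction with
    | mem x hx =>
      obtain ⟨l, w, Γ, hlw, hΓ, rfl⟩ := hx
      obtain ⟨h1, h2⟩ := FW_a J a hJ w Γ hΓ
      have e : a * derivative (Γ * a^l * derivative^[l] G) -
          (2 * k + 1 : ℕ) * derivative a * (Γ * a^l * derivative^[l] G) =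
          (a * derivative Γ + ((l : A) - (2 * k + 1 : ℕ)) • (derivative a * Γ)) * a^l *
            derivative^[l] G + Γ * a^(l+1) * derivative^[l+1] G := by
        rw [derivative_mul, derivative_mul, Function.iterate_succ_apply', smul_eq_C_mul, C_sub,
          C_eq_natCast, C_eq_natCast]
        linear_combination (Γ * derivative^[l] G) * a_deriv_pow a l
      rw [e]
      exact add_mem
        (Submodule.subset_span ⟨l, w + 1, _, by omega, add_mem h1 (Submodule.smul_mem _ _ h2), rfl⟩)
        (Submodule.subset_span ⟨l + 1, w, _, by omega, hΓ, rfl⟩)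
    | zero => simp
    | add x y _ _ hx hy =>
      have := add_mem hx hy
      convert this using 1
      rw [derivative_add]; ring
    | smul r x _ hx =>
      have := Submodule.smul_mem _ r hx
      convert this using 1
      rw [derivative_smul, smul_eq_C_mul, smul_eq_C_mul, smul_eq_C_mul]; ring

lemma nzd {A : Type*} [CommRing A] (c : A) (a f g : A[X]) (ha : a ∈ nonZeroDivisors A[X])
    (H2 : ∀ i j, i ≠ 0 → IsNilpotent (c * a.coeff i * f.coeff j))
    (H3 : ∀ j, Cert a (a^j) (C c^j * derivative^[j] f)) (r : ℕ) :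
    ∃ N, ∀ m, N ≤ m → ∃ h, C c * derivative (a^r * h) - a * (a^r * h) = g * f^m := by
  obtain ⟨n, e, hA⟩ := stepA c a f g ha H3
  obtain ⟨J, N, hJ, hB⟩ := stepB c a f g H2
  set W := N * (a.natDegree + 1) with hW
  have hNW : N ≤ W := Nat.le_mul_of_pos_right _ (Nat.succ_pos _)
  refine ⟨max N ((2 * W + 1 + r + e) * n), fun m hm => ?_⟩
  have hm1 : N ≤ m := le_trans (le_max_left _ _) hm
  have hm2 : (2 * W + 1 + r + e) * n ≤ m := le_trans (le_max_right _ _) hm
  set G := g * f^m with hG
  have hcan : ∀ k (x y : A[X]), a^k * x = a^k * y → x = y := fun k x y h =>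
    (mul_cancel_left_mem_nonZeroDivisors (pow_mem ha k)).1 h
  have hvan : ∀ l w Γ, W ≤ w → Γ ∈ FW J (a.natDegree + 1) w →
      C c^(l + w) * (Γ * a^l * derivative^[l] G) = 0 := by
    intro l w Γ hw hΓ
    have := hB Γ (fun i => hΓ i N (by omega)) m l hm1
    obtain ⟨u, hu⟩ : ∃ u, l + w = N + u := ⟨l + w - N, by omega⟩
    rw [hu]
    linear_combination (C c^u * a^l) * this
  have hP : ∀ k, a^(2 * k + 1 + r) ∣ C c^k * Lam a G k ∧
      (W + G.natDegree < k → C c^k * Lam a G k = 0) := by
    intro k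
    have h := Lam_mem J a G hJ k
    generalize Lam a G k = x at h
    induction h using Submodule.span_induction with
    | mem x hx =>
      obtain ⟨l, w, Γ, rfl, hΓ, rfl⟩ := hx
      by_cases hw : W ≤ w
      · rw [hvan l w Γ hw hΓ]; exact ⟨dvd_zero _, fun _ => rfl⟩
      refine ⟨?_, fun h => by rw [iterate_derivative_eq_zero (by omega)]; simp⟩
      obtain ⟨y, hy⟩ := hA _ m l hm2
      obtain ⟨u, hu⟩ : ∃ u, W = w + u := ⟨W - w, by omega⟩
      have h1 : C c^l * derivative^[l] G = a^(2 * W + 1 + r + l) * y := by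
        apply hcan e; rw [hy]; ring
      refine ⟨C c^w * Γ * a^(2 * u) * y, ?_⟩
      rw [hu] at h1
      linear_combination (C c^w * Γ * a^l) * h1
    | zero => simp
    | add x y _ _ hx hy =>
      rw [mul_add]
      exact ⟨dvd_add hx.1 hy.1, fun h => by rw [hx.2 h, hy.2 h, add_zero]⟩
    | smul s x _ hx =>
      rw [smul_eq_C_mul, mul_left_comm]
      exact ⟨hx.1.mul_left _, fun h => by rw [hx.2 h, mul_zero]⟩
  choose w hw using fun k => (hP k).1
  have hw' : ∀ k, C c^k * Lam a G k = a^(2 * k + 1) * (a^r * w k) := by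
    intro k; rw [hw k]; ring
  have hrec : ∀ k, C c * derivative (a^r * w k) = a * (a^r * w (k+1)) := by
    intro k
    apply hcan (2 * k + 2)
    have h1 := congrArg derivative (hw' k)
    rw [← C_pow, derivative_C_mul, C_pow, derivative_mul] at h1
    have h2 := hw' (k+1)
    rw [Lam] at h2
    have h3 := a_deriv_pow a (2 * k + 1)
    have h4 := hw' k
    generalize a^r * w k = v at *
    generalize a^r * w (k+1) = v' at *
    linear_combination h2 - (C c * a) * h1 - (C c * v) * h3
      + (C c * ((2 * k + 1 : ℕ) : A[X]) * derivative a) * h4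
  have hsum : ∀ K, C c * derivative (a^r * -∑ k ∈ Finset.range K, w k) -
      a * (a^r * -∑ k ∈ Finset.range K, w k) = a * (a^r * w 0) - a * (a^r * w K) := by
    intro K
    induction K with
    | zero => simp
    | succ K ih =>
      rw [Finset.sum_range_succ, neg_add, mul_add, derivative_add, mul_neg (a^r) (w K),
        derivative_neg]
      linear_combination ih - hrec K
  refine ⟨_, (hsum (W + G.natDegree + 1)).trans ?_⟩
  have h0 : a * (a^r * w 0) = G := by have := hw' 0; simpa [Lam] using this.symm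
  have h1 : a^r * w (W + G.natDegree + 1) = 0 := by
    apply hcan (2 * (W + G.natDegree + 1) + 1)
    rw [← hw', (hP _).2 (by omega), mul_zero]
  rw [h0, h1, mul_zero, sub_zero]

lemma Cert.map {R S : Type*} [CommRing R] [CommRing S] (φ : R →+* S) {a α x : R}
    (h : Cert a α x) : Cert (φ a) (φ α) (φ x) := by
  obtain ⟨k, n, q, h⟩ := h
  refine ⟨k, n, fun i => φ (q i), ?_⟩
  have := congrArg φ h
  simpa using this

lemma anti_mem_mapC {A : Type*} [CommRing A] [Algebra ℚ A] (J : Ideal A) (p : A[X])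
    (hp : p ∈ J.map (C : A →+* A[X])) : anti p ∈ J.map (C : A →+* A[X]) := by
  rw [Ideal.mem_map_C_iff] at *
  intro n
  cases n with
  | zero => rw [anti_coeff_zero]; exact zero_mem _
  | succ n => rw [anti_coeff_succ, Algebra.smul_def]; exact J.mul_mem_left _ (hp _)

lemma noeth {A : Type*} [CommRing A] [Algebra ℚ A] [IsNoetherianRing A] (c : A)
    (a f g h1 : A[X]) (H1 : C c * derivative h1 - a * h1 = f)
    (H2 : ∀ i j, i ≠ 0 → IsNilpotent (c * a.coeff i * f.coeff j))
    (H3 : ∀ j, Cert a (a^j) (C c^j * derivative^[j] f)) :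
    ∃ N, ∀ m, N ≤ m → ∃ h, C c * derivative h - a * h = g * f^m := by
  let U : Ideal A := Ideal.span (Set.range a.coeff)
  have haU : a ∈ U.map (C : A →+* A[X]) :=
    Ideal.mem_map_C_iff.2 fun i => Ideal.subset_span ⟨i, rfl⟩
  let ch : ℕ →o Ideal A := ⟨fun n => (U^n).annihilator, fun n m h =>
    Submodule.annihilator_mono (Ideal.pow_le_pow_right h)⟩
  obtain ⟨n, hn⟩ := (monotone_stabilizes_iff_noetherian.2
    (inferInstance : IsNoetherian A A)) ch
  let T : Ideal A := (U^n).annihilator
  have hT1 : U^n * T = ⊥ := by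
    rw [mul_comm]; exact Submodule.annihilator_mul _
  have hT2 : ∀ z, (∀ i, z * a.coeff i ∈ T) → z ∈ T := by
    intro z hz
    have h1 : ∀ u ∈ U, z * u ∈ T := by
      intro u hu
      induction hu using Submodule.span_induction with
      | mem u hu => obtain ⟨i, rfl⟩ := hu; exact hz i
      | zero => simp
      | add u v _ _ hu hv => rw [mul_add]; exact add_mem hu hv
      | smul s u _ hu => rw [smul_eq_mul, mul_left_comm]; exact T.mul_mem_left _ hu
    have h2 : z ∈ ch (n+1) := by
      refine Submodule.mem_annihilator.2 fun y hy => ?_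
      rw [pow_succ] at hy
      refine Submodule.mul_induction_on hy (fun u hu v hv => ?_) (fun u v hu hv => ?_)
      · have := Submodule.mem_annihilator.1 (h1 v hv) u hu
        rw [smul_eq_mul] at *
        linear_combination this
      · rw [smul_add, hu, hv, add_zero]
    rw [← hn (n+1) (by omega)] at h2
    exact h2
  let π := Ideal.Quotient.mk T
  have hnz : a.map π ∈ nonZeroDivisors (A ⧸ T)[X] := by
    rw [Polynomial.mem_nonZeroDivisors_iff]
    intro z hz
    obtain ⟨z, rfl⟩ := Ideal.Quotient.mk_surjective z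
    refine Ideal.Quotient.eq_zero_iff_mem.2 (hT2 z fun i => Ideal.Quotient.eq_zero_iff_mem.1 ?_)
    have := congrArg (fun p => p.coeff i) hz
    simpa [coeff_map] using this
  let I : Ideal A[X] := Ideal.span {a} ⊔ Ideal.span {C c}
  have haI : a ∈ I := Ideal.mem_sup_left (Ideal.subset_span rfl)
  have hcI : C c ∈ I := Ideal.mem_sup_right (Ideal.subset_span rfl)
  obtain ⟨k, hk⟩ := Ideal.exists_pow_inf_eq_pow_smul I (T.map (C : A →+* A[X]))
  obtain ⟨N, hN⟩ := nzd (π c) (a.map π) (f.map π) (g.map π) hnz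
    (fun i j hi => by
      have := (H2 i j hi).map π
      simpa [coeff_map] using this)
    (fun j => by
      have := (H3 j).map (mapRingHom π)
      simpa [iterate_derivative_map] using this) (n + n + k + 1)
  refine ⟨max N (n + n + k), fun m hm => ?_⟩
  obtain ⟨hb, hhb⟩ := hN m (le_trans (le_max_left _ _) hm)
  obtain ⟨h, rfl⟩ := Polynomial.map_surjective π Ideal.Quotient.mk_surjective hb
  set v := a^(n + n + k + 1) * h with hv
  have hτT : g * f^m - (C c * derivative v - a * v) ∈ T.map (C : A →+* A[X]) := by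
    rw [Ideal.mem_map_C_iff]; intro i
    rw [← Ideal.Quotient.eq_zero_iff_mem, ← coeff_map]
    have : (g * f^m - (C c * derivative v - a * v)).map π = 0 := by
      have e : v.map π = (a.map π)^(n + n + k + 1) * h.map π := by simp [hv]
      rw [← e, derivative_map] at hhb
      simp only [Polynomial.map_sub, Polynomial.map_mul, Polynomial.map_pow, map_C]
      rw [hhb, sub_self]
    rw [this, coeff_zero]
  have hτI : g * f^m - (C c * derivative v - a * v) ∈ I^(n + n + k) := by
    have hfI : f ∈ I := by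
      rw [← H1]; exact sub_mem (I.mul_mem_right _ hcI) (I.mul_mem_right _ haI)
    have hap := Ideal.pow_mem_pow haI (n + n + k)
    refine sub_mem (Ideal.mul_mem_left _ _ (Ideal.pow_le_pow_right
      (le_trans (le_max_right _ _) hm) (Ideal.pow_mem_pow hfI m))) (sub_mem ?_ ?_)
    · rw [hv, derivative_mul, derivative_pow, Nat.add_sub_cancel, pow_succ]
      exact Ideal.mul_mem_left _ _ (add_mem
        (Ideal.mul_mem_right _ _ (Ideal.mul_mem_right _ _ (Ideal.mul_mem_left _ _ hap)))
        (Ideal.mul_mem_right _ _ (Ideal.mul_mem_right _ _ hap)))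
    · rw [hv, pow_succ]
      exact Ideal.mul_mem_left _ _ (Ideal.mul_mem_right _ _ (Ideal.mul_mem_right _ _ hap))
  have hτ : g * f^m - (C c * derivative v - a * v) ∈
      (Ideal.span {C c})^n * T.map (C : A →+* A[X]) := by
    have h1 : g * f^m - (C c * derivative v - a * v) ∈
        I^(n + n + k) • (⊤ : Ideal A[X]) ⊓ T.map (C : A →+* A[X]) :=
      ⟨by rw [smul_eq_mul, Ideal.mul_top]; exact hτI, hτT⟩
    rw [hk _ (by omega), Nat.add_sub_cancel, smul_eq_mul] at h1
    have h2 : I^(n + n) * (I^k • (⊤ : Ideal A[X]) ⊓ T.map (C : A →+* A[X])) ≤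
        ((Ideal.span {a})^n ⊔ (Ideal.span {C c})^n) * T.map (C : A →+* A[X]) :=
      Ideal.mul_mono Ideal.sup_pow_add_le_pow_sup_pow inf_le_right
    have h3 : (Ideal.span {a})^n * T.map (C : A →+* A[X]) ≤ ⊥ := by
      have : (Ideal.span {a})^n ≤ (U.map (C : A →+* A[X]))^n :=
        Ideal.pow_right_mono ((Ideal.span_singleton_le_iff_mem _).2 haU) n
      refine (Ideal.mul_mono_left this).trans ?_
      rw [← Ideal.map_pow, ← Ideal.map_mul, hT1, Ideal.map_bot]
    have h4 := h2 h1
    rw [Ideal.sup_mul, le_bot_iff.1 h3, bot_sup_eq] at h4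
    exact h4
  rw [Ideal.span_singleton_pow, Ideal.mem_span_singleton_mul] at hτ
  obtain ⟨x, hx, hxe⟩ := hτ
  have hP : ∀ i j, i + j = n → ∀ x ∈ (U^j * T).map (C : A →+* A[X]),
      ∃ y, C c * derivative y - a * y = C c^i * x := by
    intro i
    induction i with
    | zero =>
      intro j hj x hx
      rw [show j = n by omega, hT1, Ideal.map_bot] at hx
      exact ⟨0, by rw [show x = 0 from hx]; simp⟩
    | succ i ih =>
      intro j hj x hx
      have h1 : a * anti x ∈ (U^(j+1) * T).map (C : A →+* A[X]) := by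
        rw [pow_succ', mul_assoc, Ideal.map_mul]
        exact Ideal.mul_mem_mul haU (anti_mem_mapC _ _ hx)
      obtain ⟨y, hy⟩ := ih (j+1) (by omega) _ h1
      refine ⟨C c^i * anti x + y, ?_⟩
      rw [derivative_add, ← C_pow, derivative_C_mul, C_pow, deriv_anti]
      linear_combination hy
  obtain ⟨y, hy⟩ := hP n 0 rfl x (by simpa using hx)
  refine ⟨v + y, ?_⟩
  rw [derivative_add]
  linear_combination hy + hxe

end Pool.Agent.H5.Img
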