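import Mathlib

/-! Quadratic forms vanishing on the positive circuits of a planar vector configuration. -/

set_option autoImplicit false

namespace Pool.Agent.H5.Insc

open Finset

variable {I : Type} [Fintype I]

/-- the kernel `-|s - t|` is conditionally positive -/
theorem cpd (w : I → ℝ) (hw : ∑ i, w i = 0) (n : ℕ) : ∀ s : I → ℝ, (univ.image s).card = n →
    0 ≤ ∑ i, ∑ j, -|s i - s j| * w i * w j ∧
    (∑ i, ∑ j, -|s i - s j| * w i * w j = 0 → ∀ v, ∑ i, (if s i = v then w i else 0) = 0) := by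
  classical
  induction n using Nat.strong_induction_on with
  | _ n ih =>
  intro s hs
  by_cases hc : ∀ i j, s i = s j
  · refine ⟨?_, fun _ v => ?_⟩
    · refine le_of_eq (sum_eq_zero fun i _ => sum_eq_zero fun j _ => ?_).symm
      rw [hc i j]; simp
    · by_cases hv : ∃ i, s i = v
      · obtain ⟨i, hi⟩ := hv
        rw [← hw]; exact sum_congr rfl fun j _ => by rw [if_pos ((hc j i).trans hi)]
      · push Not at hv; simp [hv]
  push Not at hc
  obtain ⟨i0, j0, hij⟩ := hc
  obtain ⟨im, -, hm⟩ := exists_max_image univ s ⟨i0, mem_univ _⟩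
  have hne : (univ.filter fun i => s i ≠ s im).Nonempty := by
    by_cases h : s i0 = s im
    · exact ⟨j0, by simp only [mem_filter, mem_univ, true_and]; rw [← h]; exact hij.symm⟩
    · exact ⟨i0, by simpa using h⟩
  obtain ⟨i2, hi2, hm2⟩ := exists_max_image _ s hne
  simp only [mem_filter, mem_univ, true_and] at hi2 hm hm2
  set m := s im
  set m' := s i2
  have hmm : m' < m := lt_of_le_of_ne (hm i2 trivial) hi2
  let s' : I → ℝ := fun i => if s i = m then m' else s i
  have hcard : (univ.image s').card < n := by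
    rw [← hs]
    refine card_lt_card ⟨?_, fun h => ?_⟩
    · intro v hv
      obtain ⟨i, -, rfl⟩ := mem_image.1 hv
      simp only [s']
      split_ifs
      · exact mem_image_of_mem _ (mem_univ i2)
      · exact mem_image_of_mem _ (mem_univ i)
    · obtain ⟨i, -, hi⟩ := mem_image.1 (h (mem_image_of_mem s (mem_univ im)))
      simp only [s'] at hi
      split_ifs at hi with h1
      · exact hmm.ne hi
      · exact h1 hi
  obtain ⟨h1, h2⟩ := ih _ hcard s' rfl
  let χ : I → ℝ := fun i => if s i = m then 1 else 0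
  have key : ∀ i j, |s i - s j| = |s' i - s' j| + (m - m') * (χ i + χ j - 2 * χ i * χ j) := by
    intro i j
    simp only [s', χ]
    by_cases a : s i = m <;> by_cases b : s j = m
    · simp [a, b]; norm_num
    · have := hm2 j b
      rw [if_pos a, if_neg b, if_pos a, if_neg b, a, abs_of_nonneg (by linarith),
        abs_of_nonneg (by linarith)]; ring
    · have := hm2 i a
      rw [if_neg a, if_pos b, if_neg a, if_pos b, b, abs_of_nonpos (by linarith),
        abs_of_nonpos (by linarith)]; ring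
    · simp [a, b]
  set W := ∑ i, χ i * w i with hW
  have hsum : ∑ i, ∑ j, -|s i - s j| * w i * w j =
      ∑ i, ∑ j, -|s' i - s' j| * w i * w j + 2 * (m - m') * W ^ 2 := by
    have e1 : ∑ i, ∑ j, χ i * w i * w j = 0 := by simp only [← mul_sum, hw, mul_zero, sum_const_zero]
    have e2 : ∑ i, ∑ j, w i * (χ j * w j) = 0 := by
      simp only [← mul_sum, ← sum_mul, hw, zero_mul]
    have e3 : ∑ i, ∑ j, (χ i * w i) * (χ j * w j) = W ^ 2 := by
      rw [← sum_mul_sum, sq]
    have e4 : ∑ i, ∑ j, -|s i - s j| * w i * w j = ∑ i, ∑ j, (-|s' i - s' j| * w i * w j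
        - (m - m') * (χ i * w i * w j) - (m - m') * (w i * (χ j * w j)) +
        2 * (m - m') * ((χ i * w i) * (χ j * w j))) :=
      sum_congr rfl fun i _ => sum_congr rfl fun j _ => by rw [key]; ring
    rw [e4]
    simp only [sum_add_distrib, sum_sub_distrib, ← mul_sum (a := m - m'),
      ← mul_sum (a := 2 * (m - m'))]
    rw [e1, e2, e3]; ring
  have hpos : 0 ≤ 2 * (m - m') * W ^ 2 := mul_nonneg (by linarith) (sq_nonneg _)
  refine ⟨by linarith, fun h0 v => ?_⟩
  have hW0 : W = 0 := by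
    have : 2 * (m - m') * W ^ 2 = 0 := by linarith
    rcases mul_eq_zero.1 this with h | h
    · linarith
    · exact pow_eq_zero_iff (two_ne_zero) |>.1 h
  have h3 := h2 (by linarith) v
  by_cases hv : v = m
  · refine Eq.trans ?_ hW0
    rw [hW, hv]
    exact sum_congr rfl fun i _ => by simp only [χ]; split_ifs <;> simp
  · have : ∑ i, (if s' i = v then w i else 0) = ∑ i, ((if s i = v then w i else 0) +
        (if m' = v then 1 else 0) * (χ i * w i)) := by
      refine sum_congr rfl fun i _ => ?_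
      by_cases a : s i = m
      · have : ¬ s i = v := fun e => hv (e.symm.trans a)
        have e1 : s' i = m' := if_pos a
        have e2 : χ i = 1 := if_pos a
        rw [e1, e2, if_neg this]; split_ifs <;> simp
      · have e1 : s' i = s i := if_neg a
        have e2 : χ i = 0 := if_neg a
        rw [e1, e2]; simp
    rw [this, sum_add_distrib, ← mul_sum, ← hW, hW0] at h3
    linarith

theorem finsler (C : Set (I → ℝ)) (hC : IsClosed C) (hs : ∀ t : ℝ, ∀ y ∈ C, t • y ∈ C)
    (A B : (I → ℝ) → ℝ) (hA : Continuous A) (hB : Continuous B)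
    (hA2 : ∀ (t : ℝ) y, A (t • y) = t ^ 2 * A y) (hB2 : ∀ (t : ℝ) y, B (t • y) = t ^ 2 * B y)
    (h0 : ∀ y ∈ C, 0 ≤ A y) (h1 : ∀ y ∈ C, y ≠ 0 → A y = 0 → 0 < B y) :
    ∃ ε : ℝ, ∀ y ∈ C, y ≠ 0 → 0 < A y + ε * B y := by
  have hK : IsCompact (Metric.sphere (0 : I → ℝ) 1 ∩ (C ∩ {y | B y ≤ 0})) :=
    (isCompact_sphere _ _).inter_right (hC.inter (isClosed_le hB continuous_const))
  have hm : ∃ m : ℝ, 0 < m ∧ ∀ y ∈ Metric.sphere (0 : I → ℝ) 1 ∩ (C ∩ {y | B y ≤ 0}), m ≤ A y := by
    refine hK.exists_forall_le' hA.continuousOn fun y hy => ?_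
    refine lt_of_le_of_ne (h0 y hy.2.1) fun e => ?_
    have hy0 : y ≠ 0 := by
      rintro rfl
      simpa using hy.1
    exact absurd (h1 y hy.2.1 hy0 e.symm) (not_lt.2 hy.2.2)
  obtain ⟨m, hm0, hm⟩ := hm
  obtain ⟨M, hM⟩ := (isCompact_sphere (0 : I → ℝ) 1).bddBelow_image hB.continuousOn
  refine ⟨m / (|M| + 1), fun y hy hy0 => ?_⟩
  have hn : 0 < ‖y‖ := norm_pos_iff.2 hy0
  have hu : ‖y‖⁻¹ • y ∈ Metric.sphere (0 : I → ℝ) 1 := by
    simp [norm_smul, inv_mul_cancel₀ hn.ne']
  have huC := hs ‖y‖⁻¹ y hy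
  have hε : 0 < m / (|M| + 1) := by positivity
  have h2 : 0 < A (‖y‖⁻¹ • y) + m / (|M| + 1) * B (‖y‖⁻¹ • y) := by
    by_cases hb : B (‖y‖⁻¹ • y) ≤ 0
    · have a1 := hm _ ⟨hu, huC, hb⟩
      have a2 : M ≤ B (‖y‖⁻¹ • y) := hM ⟨_, hu, rfl⟩
      have a3 : m / (|M| + 1) * (|M| + 1) = m := by field_simp
      nlinarith [neg_abs_le M]
    · push Not at hb
      have := h0 _ huC
      positivity
  rw [hA2, hB2] at h2
  have h3 : 0 < (‖y‖⁻¹) ^ 2 := by positivity
  by_contra hle
  push Not at hle
  nlinarith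

/-- quadratic form of a kernel -/
def qf (K : I → I → ℝ) (y : I → ℝ) : ℝ := ∑ i, ∑ j, K i j * y i * y j

theorem qf_cont (K : I → I → ℝ) : Continuous (qf K) := by unfold qf; fun_prop

theorem qf_smul (K : I → I → ℝ) (t : ℝ) (y : I → ℝ) : qf K (t • y) = t ^ 2 * qf K y := by
  simp only [qf, mul_sum, Pi.smul_apply, smul_eq_mul]
  exact sum_congr rfl fun i _ => sum_congr rfl fun j _ => by ring

theorem qf_add (K K' : I → I → ℝ) (ε : ℝ) (y : I → ℝ) :
    qf (fun i j => K i j + ε * K' i j) y = qf K y + ε * qf K' y := by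
  simp only [qf, mul_sum, ← sum_add_distrib]
  exact sum_congr rfl fun i _ => sum_congr rfl fun j _ => by ring

theorem tri (s1 s2 s3 z1 z2 z3 : ℝ) (h1 : 0 < z1) (h3 : 0 < z3) (e1 : z2 = z1 + z3)
    (e2 : s2 * z2 = s1 * z1 + s3 * z3) :
    |s1 - s2| * z1 * z2 + |s2 - s3| * z2 * z3 = 2 * |s1 - s3| * z1 * z3 := by
  have a1 : (s1 - s2) * z2 = (s1 - s3) * z3 := by rw [sub_mul, e2, e1]; ring
  have a2 : (s2 - s3) * z2 = (s1 - s3) * z1 := by rw [sub_mul, e2, e1]; ring
  have h2 : 0 < z2 := by linarith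
  have b1 := congrArg abs a1
  have b2 := congrArg abs a2
  rw [abs_mul, abs_mul, abs_of_pos h2, abs_of_pos h3] at b1
  rw [abs_mul, abs_mul, abs_of_pos h2, abs_of_pos h1] at b2
  linear_combination z1 * b1 + z3 * b2

theorem tri' (s1 s2 s3 z1 z2 z3 σ1 σ2 σ3 : ℝ) (h1 : 0 < z1) (h2 : 0 < z2) (h3 : 0 < z3)
    (a1 : σ1 = 1 ∨ σ1 = -1) (a2 : σ2 = 1 ∨ σ2 = -1) (a3 : σ3 = 1 ∨ σ3 = -1)
    (e1 : z1 * σ1 + z2 * σ2 + z3 * σ3 = 0)
    (e2 : z1 * (σ1 * s1) + z2 * (σ2 * s2) + z3 * (σ3 * s3) = 0) :
    |s1 - s2| * (σ1 ^ 2 * σ2 ^ 2 + 3 * σ1 * σ2) * z1 * z2 +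
    |s1 - s3| * (σ1 ^ 2 * σ3 ^ 2 + 3 * σ1 * σ3) * z1 * z3 +
    |s2 - s3| * (σ2 ^ 2 * σ3 ^ 2 + 3 * σ2 * σ3) * z2 * z3 = 0 := by
  have c1 := abs_sub_comm s1 s2
  have c2 := abs_sub_comm s1 s3
  have c3 := abs_sub_comm s2 s3
  rcases a1 with rfl | rfl <;> rcases a2 with rfl | rfl <;> rcases a3 with rfl | rfl
  · linarith
  · have := tri s1 s3 s2 z1 z3 z2 h1 h2 (by linarith) (by linarith)
    rw [← c3] at this; linear_combination (-2) * this
  · have := tri s1 s2 s3 z1 z2 z3 h1 h3 (by linarith) (by linarith)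
    linear_combination (-2) * this
  · have := tri s2 s1 s3 z2 z1 z3 h2 h3 (by linarith) (by linarith)
    rw [← c1] at this; linear_combination (-2) * this
  · have := tri s2 s1 s3 z2 z1 z3 h2 h3 (by linarith) (by linarith)
    rw [← c1] at this; linear_combination (-2) * this
  · have := tri s1 s2 s3 z1 z2 z3 h1 h3 (by linarith) (by linarith)
    linear_combination (-2) * this
  · have := tri s1 s3 s2 z1 z3 z2 h1 h2 (by linarith) (by linarith)
    rw [← c3] at this; linear_combination (-2) * this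
  · linarith

theorem qf_zero (K : I → I → ℝ) (z : I → ℝ) (h : ∀ i j, z i ≠ 0 → z j ≠ 0 → K i j = 0) :
    qf K z = 0 := by
  refine sum_eq_zero fun i _ => sum_eq_zero fun j _ => ?_
  by_cases a : z i = 0
  · simp [a]
  by_cases b : z j = 0
  · simp [b]
  simp [h i j a b]

theorem core' (σ s : I → ℝ) (hσ : ∀ i, σ i = 0 ∨ σ i = 1 ∨ σ i = -1) :
    ∃ K : I → I → ℝ, (∀ z : I → ℝ, z ≠ 0 → ∑ i, z i * σ i = 0 → ∑ i, z i = 0 → 0 < qf K z) ∧
      ∀ z : I → ℝ, (∀ i, 0 ≤ z i) → ∑ i, z i * σ i = 0 → ∑ i, z i * (σ i * s i) = 0 →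
        (∀ c : I → ℝ, (∀ i, z i = 0 → c i = 0) → ∑ i, c i * σ i = 0 → ∑ i, c i * (σ i * s i) = 0 →
          ∃ t : ℝ, c = t • z) → qf K z = 0 := by
  classical
  let K1 : I → I → ℝ := fun i j => if σ i = 0 ∧ i ≠ j then -1 else 0
  let K2 : I → I → ℝ := fun i j => -|s i - s j| * (σ i ^ 2 * σ j ^ 2 + 3 * σ i * σ j)
  let K3 : I → I → ℝ := fun i j => if i ≠ j ∧ σ i = σ j ∧ s i = s j then -1 else 0
  let C0 : Set (I → ℝ) := {z | ∑ i, z i * σ i = 0 ∧ ∑ i, z i = 0}
  let C1 : Set (I → ℝ) := C0 ∩ {z | ∀ i, σ i = 0 → z i = 0}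
  have hC0 : IsClosed C0 := (isClosed_eq (by fun_prop) continuous_const).inter
    (isClosed_eq (by fun_prop) continuous_const)
  have hC1 : IsClosed C1 := by
    refine hC0.inter ?_
    simp only [Set.ofPred_forall]
    exact isClosed_iInter fun i => isClosed_iInter fun _ =>
      isClosed_eq (continuous_apply i) continuous_const
  have hs0 : ∀ t : ℝ, ∀ y ∈ C0, t • y ∈ C0 := by
    intro t y hy
    refine ⟨?_, ?_⟩
    · simp only [Pi.smul_apply, smul_eq_mul, mul_assoc, ← mul_sum, hy.1, mul_zero]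
    · simp only [Pi.smul_apply, smul_eq_mul, ← mul_sum, hy.2, mul_zero]
  have hs1 : ∀ t : ℝ, ∀ y ∈ C1, t • y ∈ C1 := fun t y hy =>
    ⟨hs0 t y hy.1, fun i hi => by simp [hy.2 i hi]⟩
  have hq2 : ∀ z, qf K2 z = ∑ i, ∑ j, -|s i - s j| * (z i * σ i ^ 2) * (z j * σ j ^ 2) +
      3 * ∑ i, ∑ j, -|s i - s j| * (z i * σ i) * (z j * σ j) := by
    intro z
    simp only [qf, K2, mul_sum, ← sum_add_distrib]
    exact sum_congr rfl fun i _ => sum_congr rfl fun j _ => by ring
  have hsq : ∀ z ∈ C1, ∑ i, z i * σ i ^ 2 = 0 := by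
    intro z hz
    rw [← hz.1.2]
    refine sum_congr rfl fun i _ => ?_
    rcases hσ i with h | h | h
    · simp [hz.2 i h]
    · simp [h]
    · simp [h]
  obtain ⟨ε, hε⟩ := finsler C1 hC1 hs1 (qf K2) (qf K3) (qf_cont _) (qf_cont _) (qf_smul _)
    (qf_smul _) (by
      intro z hz
      have a := (cpd _ (hsq z hz) _ s rfl).1
      have b := (cpd _ hz.1.1 _ s rfl).1
      rw [hq2]; linarith) (by
      intro z hz hz0 h
      have a := cpd _ (hsq z hz) _ s rfl
      have b := cpd _ hz.1.1 _ s rfl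
      rw [hq2] at h
      have a' := a.2 (by linarith [a.1, b.1])
      have b' := b.2 (by linarith [a.1, b.1])
      have e : qf K3 z = ∑ i, z i ^ 2 := by
        refine sum_congr rfl fun i _ => ?_
        by_cases hi : σ i = 0
        · simp [hz.2 i hi]
        have e1 : ∀ j, K3 i j * z i * z j = (if i = j then z i ^ 2 else 0) -
            z i / 2 * ((if s j = s i then z j * σ j ^ 2 else 0) +
              σ i * (if s j = s i then z j * σ j else 0)) := by
          intro j
          simp only [K3]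
          by_cases hij : i = j
          · subst hij
            rcases hσ i with h | h | h
            · exact absurd h hi
            · simp [h]; ring
            · simp [h]; ring
          · by_cases hs : s j = s i
            · rcases hσ i with h | h | h
              · exact absurd h hi
              · rcases hσ j with h' | h' | h' <;> simp [h, h', hs, hij] <;> norm_num <;> ring
              · rcases hσ j with h' | h' | h' <;> simp [h, h', hs, hij] <;> norm_num <;> ring
            · have hs' : ¬ s i = s j := fun e => hs e.symm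
              simp [hs, hs', hij]
        simp only [e1, sum_sub_distrib, ← mul_sum, sum_add_distrib, a', b']
        simp
      rw [e]
      obtain ⟨i, hi⟩ := Function.ne_iff.1 hz0
      exact sum_pos' (fun i _ => sq_nonneg _) ⟨i, mem_univ _, sq_pos_of_ne_zero hi⟩)
  have hq1 : ∀ z ∈ C0, qf K1 z = ∑ i, if σ i = 0 then z i ^ 2 else 0 := by
    intro z hz
    refine sum_congr rfl fun i _ => ?_
    by_cases hi : σ i = 0
    · have e1 : ∀ j, K1 i j * z i * z j = (if i = j then z i ^ 2 else 0) - z i * z j := by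
        intro j
        simp only [K1]
        by_cases hij : i = j
        · subst hij; simp; ring
        · simp [hi, hij]
      simp only [e1, sum_sub_distrib, ← mul_sum, hz.2]
      simp [hi]
    · simp [K1, hi]
  obtain ⟨ε', hε'⟩ := finsler C0 hC0 hs0 (qf K1) (qf fun i j => K2 i j + ε * K3 i j) (qf_cont _)
    (qf_cont _) (qf_smul _) (qf_smul _) (by
      intro z hz
      rw [hq1 z hz]
      exact sum_nonneg fun i _ => by split_ifs <;> positivity) (by
      intro z hz hz0 h
      rw [hq1 z hz, sum_eq_zero_iff_of_nonneg fun i _ => by split_ifs <;> positivity] at h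
      rw [qf_add]
      refine hε z ⟨hz, fun i hi => ?_⟩ hz0
      have := h i (mem_univ _)
      simpa [hi] using this)
  refine ⟨fun i j => K1 i j + ε' * (K2 i j + ε * K3 i j), fun z hz0 h1 h2 => ?_, ?_⟩
  · rw [qf_add]; exact hε' z ⟨h1, h2⟩ hz0
  intro z hz h1 h2 hmin
  have hpos : ∀ i, z i ≠ 0 → 0 < z i := fun i hi => lt_of_le_of_ne (hz i) hi.symm
  have hap : ∀ i j, z i ≠ 0 → z j ≠ 0 → σ i = 0 → i = j := by
    intro i j hi hj h0
    obtain ⟨t, ht⟩ := hmin (Pi.single i 1)
      (fun k hk => Pi.single_eq_of_ne (show k ≠ i from fun e => hi (e ▸ hk)) _)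
      (by simp [Pi.single_apply, h0]) (by simp [Pi.single_apply, h0])
    by_contra hij
    have e1 := congrFun ht i
    have e2 := congrFun ht j
    simp only [Pi.single_eq_same, Pi.smul_apply, smul_eq_mul] at e1
    simp only [Pi.single_eq_of_ne (Ne.symm hij), Pi.smul_apply, smul_eq_mul] at e2
    rcases mul_eq_zero.1 e2.symm with h | h
    · rw [h] at e1; simp at e1
    · exact hj h
  have z1 : qf K1 z = 0 := qf_zero _ _ fun i j hi hj => by
    simp only [K1]
    rw [if_neg]
    exact fun h => h.2 (hap i j hi hj h.1)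
  have z3 : qf K3 z = 0 := qf_zero _ _ fun i j hi hj => by
    simp only [K3]
    rw [if_neg]
    rintro ⟨hij, h3, h4⟩
    obtain ⟨t, ht⟩ := hmin (Pi.single i 1 - Pi.single j 1)
      (fun k hk => by
        simp [Pi.single_eq_of_ne (show k ≠ i from fun e => hi (e ▸ hk)),
          Pi.single_eq_of_ne (show k ≠ j from fun e => hj (e ▸ hk))])
      (by simp [sub_mul, Pi.single_apply, h3]) (by simp [sub_mul, Pi.single_apply, h3, h4])
    have e1 := congrFun ht i
    have e2 := congrFun ht j
    simp only [Pi.sub_apply, Pi.single_eq_same, Pi.single_eq_of_ne hij,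
      Pi.single_eq_of_ne (Ne.symm hij), Pi.smul_apply, smul_eq_mul] at e1 e2
    have p1 := hpos i hi
    have p2 := hpos j hj
    rcases le_total t 0 with h | h <;> nlinarith
  have z2 : qf K2 z = 0 := by
    by_cases hall : ∀ i j, z i ≠ 0 → z j ≠ 0 → s i = s j
    · exact qf_zero _ _ fun i j hi hj => by simp [K2, hall i j hi hj]
    push Not at hall
    obtain ⟨i, j, hi, hj, hij⟩ := hall
    have hij' : i ≠ j := fun e => hij (e ▸ rfl)
    have hna : ∀ k, z k ≠ 0 → σ k = 1 ∨ σ k = -1 := by
      intro k hk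
      rcases hσ k with h | h
      · exact absurd ((hap k i hk hi h).symm.trans (hap k j hk hj h)) hij'
      · exact h
    have hk : ∃ k, k ≠ i ∧ k ≠ j ∧ z k ≠ 0 := by
      by_contra hcon
      push Not at hcon
      have hsum : ∀ f : I → ℝ, ∑ k, z k * f k = z i * f i + z j * f j := by
        intro f
        rw [← sum_pair (f := fun k => z k * f k) hij']
        refine (sum_subset (subset_univ _) fun k _ hk => ?_).symm
        simp only [mem_insert, mem_singleton, not_or] at hk
        simp [hcon k hk.1 hk.2]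
      rw [hsum] at h1 h2
      have : z i * σ i * (s i - s j) = 0 := by linear_combination h2 - s j * h1
      rcases mul_eq_zero.1 this with h | h
      · rcases mul_eq_zero.1 h with h | h
        · exact hi h
        · rcases hna i hi with h' | h' <;> rw [h'] at h <;> norm_num at h
      · exact hij (sub_eq_zero.1 h)
    obtain ⟨k, hki, hkj, hk⟩ := hk
    have sq1 : ∀ l, z l ≠ 0 → σ l * σ l = 1 := fun l hl => by
      rcases hna l hl with h | h <;> simp [h]
    obtain ⟨t, ht⟩ := hmin (Pi.single i (σ i * (s j - s k)) + Pi.single j (σ j * (s k - s i)) +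
        Pi.single k (σ k * (s i - s j)))
      (fun l hl => by
        simp [Pi.single_eq_of_ne (show l ≠ i from fun e => hi (e ▸ hl)),
          Pi.single_eq_of_ne (show l ≠ j from fun e => hj (e ▸ hl)),
          Pi.single_eq_of_ne (show l ≠ k from fun e => hk (e ▸ hl))])
      (by
        simp only [Pi.add_apply, add_mul, sum_add_distrib, Pi.single_apply, ite_mul, zero_mul,
          sum_ite_eq', mem_univ, if_true]
        linear_combination (s j - s k) * sq1 i hi + (s k - s i) * sq1 j hj + (s i - s j) * sq1 k hk)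
      (by
        simp only [Pi.add_apply, add_mul, sum_add_distrib, Pi.single_apply, ite_mul, zero_mul,
          sum_ite_eq', mem_univ, if_true]
        linear_combination (s j - s k) * s i * sq1 i hi + (s k - s i) * s j * sq1 j hj +
          (s i - s j) * s k * sq1 k hk)
    have ht0 : t ≠ 0 := by
      rintro rfl
      have e := congrFun ht k
      simp only [Pi.add_apply, Pi.single_eq_same, Pi.single_eq_of_ne hki, Pi.single_eq_of_ne hkj,
        zero_smul, Pi.zero_apply, zero_add] at e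
      rcases mul_eq_zero.1 e with h | h
      · have := sq1 k hk; rw [h] at this; simp at this
      · exact hij (sub_eq_zero.1 h)
    have hsupp : ∀ l, l ∉ ({i, j, k} : Finset I) → z l = 0 := by
      intro l hl
      simp only [mem_insert, mem_singleton, not_or] at hl
      have e := congrFun ht l
      simp only [Pi.add_apply, Pi.single_eq_of_ne hl.1, Pi.single_eq_of_ne hl.2.1,
        Pi.single_eq_of_ne hl.2.2, Pi.smul_apply, smul_eq_mul, add_zero] at e
      exact (mul_eq_zero.1 e.symm).resolve_left ht0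
    have hsum : ∀ f : I → ℝ, ∑ l, z l * f l = z i * f i + z j * f j + z k * f k := by
      intro f
      rw [← sum_subset (subset_univ {i, j, k}) fun l _ hl => by simp [hsupp l hl],
        sum_insert (by simp [hij', hki.symm]), sum_pair hkj.symm, add_assoc]
    have e : qf K2 z = ∑ l, z l * ∑ l', z l' * K2 l l' := by
      simp only [qf, mul_sum]
      exact sum_congr rfl fun i _ => sum_congr rfl fun j _ => by ring
    rw [hsum] at h1 h2
    have := tri' (s i) (s j) (s k) (z i) (z j) (z k) (σ i) (σ j) (σ k) (hpos i hi) (hpos j hj)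
      (hpos k hk) (hna i hi) (hna j hj) (hna k hk) h1 h2
    rw [e, hsum, hsum, hsum, hsum]
    simp only [K2, sub_self, abs_zero]
    rw [abs_sub_comm (s j) (s i), abs_sub_comm (s k) (s i), abs_sub_comm (s k) (s j)]
    linear_combination (-2) * this
  rw [qf_add, qf_add, z1, z2, z3]; simp

theorem core (a b : I → ℝ) (hab : ∀ i, a i = 0 → b i = 0) :
    ∃ (w : I → ℝ) (K : I → I → ℝ), (∀ i, 0 < w i) ∧
      (∀ y : I → ℝ, y ≠ 0 → ∑ i, y i * a i = 0 → ∑ i, y i * w i = 0 → 0 < qf K y) ∧
      ∀ y : I → ℝ, (∀ i, 0 ≤ y i) → ∑ i, y i * a i = 0 → ∑ i, y i * b i = 0 →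
        (∀ c : I → ℝ, (∀ i, y i = 0 → c i = 0) → ∑ i, c i * a i = 0 → ∑ i, c i * b i = 0 →
          ∃ t : ℝ, c = t • y) → qf K y = 0 := by
  classical
  let w : I → ℝ := fun i => if a i = 0 then 1 else |a i|
  have hw : ∀ i, 0 < w i := fun i => by
    simp only [w]; split_ifs with h
    · exact one_pos
    · exact abs_pos.2 h
  let σ : I → ℝ := fun i => a i / w i
  let s : I → ℝ := fun i => b i / a i
  have e1 : ∀ i, w i * σ i = a i := fun i => by simp only [σ]; field_simp [(hw i).ne']
  have e2 : ∀ i, w i * (σ i * s i) = b i := fun i => by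
    rw [← mul_assoc, e1]
    by_cases h : a i = 0
    · rw [h, hab i h, zero_mul]
    · simp only [s]; field_simp
  obtain ⟨K, h1, h2⟩ := core' σ s (fun i => by
    simp only [σ, w]
    rcases lt_trichotomy (a i) 0 with h | h | h
    · right; right; rw [if_neg h.ne, abs_of_neg h]; field_simp [h.ne]
    · left; simp [h]
    · right; left; rw [if_neg h.ne', abs_of_pos h]; field_simp)
  have hq : ∀ y, qf (fun i j => K i j * w i * w j) y = qf K (fun i => y i * w i) := fun y =>
    sum_congr rfl fun i _ => sum_congr rfl fun j _ => by ring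
  refine ⟨w, fun i j => K i j * w i * w j, hw, fun y hy0 h3 h4 => ?_, fun y hy h3 h4 hmin => ?_⟩
  · rw [hq]
    refine h1 _ ?_ (by simp only [mul_assoc, e1, h3]) h4
    obtain ⟨i, hi⟩ := Function.ne_iff.1 hy0
    exact Function.ne_iff.2 ⟨i, mul_ne_zero hi (hw i).ne'⟩
  · rw [hq]
    refine h2 _ (fun i => mul_nonneg (hy i) (hw i).le) (by simp only [mul_assoc, e1, h3])
      (by simp only [mul_assoc, e2, h4]) fun c hc h5 h6 => ?_
    obtain ⟨t, ht⟩ := hmin (fun i => c i / w i) (fun i hi => by simp [hc i (by simp [hi])])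
      (by rw [← h5]; exact sum_congr rfl fun i _ => by rw [← e1]; field_simp [(hw i).ne'])
      (by rw [← h6]; exact sum_congr rfl fun i _ => by rw [← e2]; field_simp [(hw i).ne'])
    refine ⟨t, funext fun i => ?_⟩
    have := congrFun ht i
    simp only [Pi.smul_apply, smul_eq_mul] at this ⊢
    rw [div_eq_iff (hw i).ne'] at this
    rw [this]; ring

end Pool.Agent.H5.Insc
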