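import Mathlib

/-! Projective maps preserve the face structure; ellipsoids are linear images of spheres. -/

set_option autoImplicit false

namespace Pool.Agent.H5.Insc

open Set
open scoped InnerProductSpace

variable {E : Type} [NormedAddCommGroup E] [InnerProductSpace ℝ E]

/-- the projective map of a linear automorphism of `E × ℝ` -/
noncomputable def pm (Φ : (E × ℝ) ≃ₗ[ℝ] (E × ℝ)) (x : E) : E := (Φ (x, 1)).2⁻¹ • (Φ (x, 1)).1

theorem pm_hom (Φ : (E × ℝ) ≃ₗ[ℝ] (E × ℝ)) {x : E} (h : 0 < (Φ (x, 1)).2) :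
    Φ.symm (pm Φ x, 1) = (Φ (x, 1)).2⁻¹ • (x, 1) := by
  have : (pm Φ x, (1 : ℝ)) = (Φ (x, 1)).2⁻¹ • Φ (x, 1) := by
    ext
    · rfl
    · simp [inv_mul_cancel₀ h.ne']
  rw [this, map_smul, LinearEquiv.symm_apply_apply]

theorem pm_pos (Φ : (E × ℝ) ≃ₗ[ℝ] (E × ℝ)) {x : E} (h : 0 < (Φ (x, 1)).2) :
    0 < (Φ.symm (pm Φ x, 1)).2 := by
  rw [pm_hom Φ h]; simpa using h

theorem pm_inv (Φ : (E × ℝ) ≃ₗ[ℝ] (E × ℝ)) {x : E} (h : 0 < (Φ (x, 1)).2) :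
    pm Φ.symm (pm Φ x) = x := by
  rw [pm, pm_hom Φ h]
  simp [smul_smul, mul_inv_cancel₀ h.ne']

theorem comb (Φ : (E × ℝ) ≃ₗ[ℝ] (E × ℝ)) (x y : E) {a b : ℝ} (hab : a + b = 1) :
    Φ (a • x + b • y, 1) = a • Φ (x, 1) + b • Φ (y, 1) := by
  rw [← map_smul, ← map_smul, ← map_add]
  congr 1
  ext
  · rfl
  · simp [hab]

theorem pos_convex (Φ : (E × ℝ) ≃ₗ[ℝ] (E × ℝ)) : Convex ℝ {x : E | 0 < (Φ (x, 1)).2} := by
  intro x hx y hy a b ha hb hab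
  simp only [mem_ofPred_eq] at hx hy ⊢
  rw [comb Φ x y hab]
  simp only [Prod.snd_add, Prod.smul_snd, smul_eq_mul]
  rcases ha.eq_or_lt with rfl | ha'
  · rw [zero_add] at hab; subst hab; simpa using hy
  · positivity

theorem pos_hull (Φ : (E × ℝ) ≃ₗ[ℝ] (E × ℝ)) {A : Set E} (h : ∀ x ∈ A, 0 < (Φ (x, 1)).2) :
    ∀ x ∈ convexHull ℝ A, 0 < (Φ (x, 1)).2 :=
  fun _ hx => convexHull_min (t := {x : E | 0 < (Φ (x, 1)).2}) h (pos_convex Φ) hx

theorem pm_hull_sub (Φ : (E × ℝ) ≃ₗ[ℝ] (E × ℝ)) {A : Set E} (h : ∀ x ∈ A, 0 < (Φ (x, 1)).2) :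
    ∀ x ∈ convexHull ℝ A, pm Φ x ∈ convexHull ℝ (pm Φ '' A) := by
  intro x hx
  refine (convexHull_min (t := {x : E | 0 < (Φ (x, 1)).2 ∧ pm Φ x ∈ convexHull ℝ (pm Φ '' A)})
    (fun x hx => ⟨h x hx, subset_convexHull _ _ ⟨x, hx, rfl⟩⟩) ?_ hx).2
  intro x hx y hy a b ha hb hab
  have h0 := pos_convex Φ hx.1 hy.1 ha hb hab
  refine ⟨h0, ?_⟩
  simp only [mem_ofPred_eq] at h0
  have hx1 := hx.1
  have hy1 := hy.1
  have e : pm Φ (a • x + b • y) = (a * (Φ (x, 1)).2 / (Φ (a • x + b • y, 1)).2) • pm Φ x +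
      (b * (Φ (y, 1)).2 / (Φ (a • x + b • y, 1)).2) • pm Φ y := by
    simp only [pm, smul_smul]
    have e1 : (Φ (a • x + b • y, 1)).1 = a • (Φ (x, 1)).1 + b • (Φ (y, 1)).1 := by
      rw [comb Φ x y hab]; rfl
    rw [e1, smul_add, smul_smul, smul_smul]
    congr 2 <;> field_simp
  rw [e]
  refine convex_convexHull ℝ _ hx.2 hy.2 (by positivity) (by positivity) ?_
  rw [← add_div, div_eq_one_iff_eq h0.ne', comb Φ x y hab]
  rfl

theorem pm_hull (Φ : (E × ℝ) ≃ₗ[ℝ] (E × ℝ)) {A : Set E} (h : ∀ x ∈ A, 0 < (Φ (x, 1)).2) :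
    pm Φ '' convexHull ℝ A = convexHull ℝ (pm Φ '' A) := by
  apply Subset.antisymm
  · rintro _ ⟨x, hx, rfl⟩; exact pm_hull_sub Φ h x hx
  · intro y hy
    have h' : ∀ y ∈ pm Φ '' A, 0 < (Φ.symm (y, 1)).2 := by
      rintro _ ⟨x, hx, rfl⟩; exact pm_pos Φ (h x hx)
    have h1 := pm_hull_sub Φ.symm h' y hy
    have h2 : pm Φ.symm '' (pm Φ '' A) = A := by
      rw [image_image]
      exact (image_congr fun x hx => pm_inv Φ (h x hx)).trans (image_id' A)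
    rw [h2] at h1
    exact ⟨_, h1, pm_inv Φ.symm (pos_hull Φ.symm h' y hy)⟩

theorem pm_exposed [FiniteDimensional ℝ E] (Φ : (E × ℝ) ≃ₗ[ℝ] (E × ℝ)) {P F : Set E}
    (h : ∀ x ∈ P, 0 < (Φ (x, 1)).2) (hF : IsExposed ℝ P F) :
    IsExposed ℝ (pm Φ '' P) (pm Φ '' F) := by
  rintro ⟨_, x0, hx0, rfl⟩
  obtain ⟨l, hl⟩ := hF ⟨x0, hx0⟩
  have hx0' := hx0
  rw [hl] at hx0'
  let g : (E × ℝ) →ₗ[ℝ] ℝ := l.toLinearMap ∘ₗ LinearMap.fst ℝ E ℝ - l x0 • LinearMap.snd ℝ E ℝ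
  let l' : E →ₗ[ℝ] ℝ := g ∘ₗ Φ.symm.toLinearMap ∘ₗ LinearMap.inl ℝ E ℝ
  have key : ∀ x ∈ P, l' (pm Φ x) + g (Φ.symm (0, 1)) = (Φ (x, 1)).2⁻¹ * (l x - l x0) := by
    intro x hx
    have e1 : l' (pm Φ x) + g (Φ.symm (0, 1)) = g (Φ.symm (pm Φ x, 1)) := by
      simp only [l', LinearMap.comp_apply, LinearMap.inl_apply, LinearEquiv.coe_coe]
      rw [← map_add, ← map_add]; simp
    rw [e1, pm_hom Φ (h x hx), map_smul]
    simp [g]
  refine ⟨LinearMap.toContinuousLinearMap l', ?_⟩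
  ext y
  simp only [mem_ofPred_eq, LinearMap.coe_toContinuousLinearMap']
  constructor
  · rintro ⟨x, hx, rfl⟩
    rw [hl] at hx
    refine ⟨⟨x, hx.1, rfl⟩, ?_⟩
    rintro _ ⟨z, hz, rfl⟩
    have k1 := key x hx.1
    have k2 := key z hz
    have e1 : l x = l x0 := le_antisymm (hx0'.2 x hx.1) (hx.2 x0 hx0'.1)
    have e2 := hx0'.2 z hz
    have e3 : (Φ (z, 1)).2⁻¹ * (l z - l x0) ≤ 0 :=
      mul_nonpos_of_nonneg_of_nonpos (inv_nonneg.2 (h z hz).le) (by linarith)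
    rw [e1, sub_self, mul_zero] at k1
    linarith
  · rintro ⟨⟨x, hx, rfl⟩, hmax⟩
    refine ⟨x, ?_, rfl⟩
    rw [hl]
    refine ⟨hx, fun z hz => (hx0'.2 z hz).trans ?_⟩
    have k1 := key x hx
    have k2 := key x0 hx0'.1
    have e1 := hmax _ ⟨x0, hx0'.1, rfl⟩
    rw [sub_self, mul_zero] at k2
    have e3 : 0 ≤ (Φ (x, 1)).2⁻¹ * (l x - l x0) := by linarith
    have := (mul_nonneg_iff_of_pos_left (inv_pos.2 (h x hx))).1 e3
    linarith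

theorem pm_exposed_iff [FiniteDimensional ℝ E] (Φ : (E × ℝ) ≃ₗ[ℝ] (E × ℝ)) {P F : Set E}
    (h : ∀ x ∈ P, 0 < (Φ (x, 1)).2) (hFP : F ⊆ P) :
    IsExposed ℝ P F ↔ IsExposed ℝ (pm Φ '' P) (pm Φ '' F) := by
  refine ⟨pm_exposed Φ h, fun h1 => ?_⟩
  have h' : ∀ y ∈ pm Φ '' P, 0 < (Φ.symm (y, 1)).2 := by
    rintro _ ⟨x, hx, rfl⟩; exact pm_pos Φ (h x hx)
  have h2 := pm_exposed Φ.symm h' h1
  have e : ∀ A ⊆ P, pm Φ.symm '' (pm Φ '' A) = A := by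
    intro A hA
    rw [image_image]
    exact (image_congr fun x hx => pm_inv Φ (h x (hA hx))).trans (image_id' A)
  rwa [e P subset_rfl, e F hFP] at h2

theorem pm_extreme (Φ : (E × ℝ) ≃ₗ[ℝ] (E × ℝ)) {P : Set E} (hP : Convex ℝ P)
    (h : ∀ x ∈ P, 0 < (Φ (x, 1)).2) :
    BijOn (pm Φ) (P.extremePoints ℝ) ((pm Φ '' P).extremePoints ℝ) := by
  have hinj : InjOn (pm Φ) P := fun x hx y hy e => by
    rw [← pm_inv Φ (h x hx), e, pm_inv Φ (h y hy)]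
  have hP' : Convex ℝ (pm Φ '' P) := by
    have := pm_hull Φ h
    rw [hP.convexHull_eq] at this
    rw [this]; exact convex_convexHull _ _
  have key : ∀ x ∈ P, x ∈ P.extremePoints ℝ ↔ pm Φ x ∈ (pm Φ '' P).extremePoints ℝ := by
    intro x hx
    rw [hP.mem_extremePoints_iff_mem_sdiff_convexHull_sdiff,
      hP'.mem_extremePoints_iff_mem_sdiff_convexHull_sdiff]
    have e : pm Φ '' P \ {pm Φ x} = pm Φ '' (P \ {x}) := by
      rw [hinj.image_sdiff_subset (singleton_subset_iff.2 hx), image_singleton]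
    rw [e, ← pm_hull Φ fun y hy => h y hy.1]
    have hs : convexHull ℝ (P \ {x}) ⊆ P := convexHull_min sdiff_subset hP
    simp only [mem_sdiff, hx, true_and, mem_image_of_mem _ hx, hinj.mem_image_iff hs hx]
  refine ⟨fun x hx => (key x hx.1).1 hx, hinj.mono extremePoints_subset, fun y hy => ?_⟩
  obtain ⟨x, hx, rfl⟩ := hy.1
  exact ⟨x, (key x hx).2 hy, rfl⟩

theorem to_sphere [FiniteDimensional ℝ E] (B : LinearMap.BilinForm ℝ E)
    (hB : ∀ x y, B x y = B y x)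
    (hpos : ∀ u, u ≠ 0 → 0 < B u u) (β : E →ₗ[ℝ] ℝ) (γ : ℝ) :
    ∃ (M : E ≃ₗ[ℝ] E) (c : E) (r : ℝ), ∀ u, B u u + 2 * β u + γ = 0 → M u ∈ Metric.sphere c r := by
  obtain ⟨v, hv⟩ := LinearMap.BilinForm.exists_orthogonal_basis (B := B) ⟨fun x y => hB x y⟩
  let o := stdOrthonormalBasis ℝ E
  let M0 : E →ₗ[ℝ] E := v.constr ℝ fun i => Real.sqrt (B (v i) (v i)) • o i
  have hM : ∀ x y, ⟪M0 x, M0 y⟫_ℝ = B x y := by
    have : (innerₗ E).compl₁₂ M0 M0 = B := by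
      refine LinearMap.BilinForm.ext_basis v fun i j => ?_
      simp only [LinearMap.compl₁₂_apply, M0, Module.Basis.constr_basis, innerₗ_apply_apply,
        real_inner_smul_left, real_inner_smul_right]
      by_cases hij : i = j
      · subst hij
        rw [real_inner_self_eq_norm_sq, o.orthonormal.1 i, one_pow, mul_one,
          Real.mul_self_sqrt (hpos _ (v.ne_zero i)).le]
      · rw [o.orthonormal.2 hij, mul_zero, mul_zero]
        exact (hv hij).symm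
    intro x y
    rw [← this]; simp
  have hinj : Function.Injective M0 := by
    rw [← LinearMap.ker_eq_bot, LinearMap.ker_eq_bot']
    intro u hu
    by_contra h0
    have := hpos u h0
    rw [← hM, hu] at this
    simp at this
  let M : E ≃ₗ[ℝ] E := LinearEquiv.ofInjectiveEndo M0 hinj
  let c0 : E := (InnerProductSpace.toDual ℝ E).symm
    (LinearMap.toContinuousLinearMap (β ∘ₗ M.symm.toLinearMap))
  have hc0 : ∀ u, ⟪c0, M u⟫_ℝ = β u := by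
    intro u; simp [c0]
  refine ⟨M, -c0, Real.sqrt (‖c0‖ ^ 2 - γ), fun u hu => ?_⟩
  rw [mem_sphere_iff_norm, sub_neg_eq_add]
  have : ‖M u + c0‖ ^ 2 = ‖c0‖ ^ 2 - γ := by
    rw [norm_add_sq_real, real_inner_comm, hc0, ← real_inner_self_eq_norm_sq]
    have : ⟪M u, M u⟫_ℝ = B u u := hM u u
    linarith
  rw [← this, Real.sqrt_sq (norm_nonneg _)]

end Pool.Agent.H5.Insc
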