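import Mathlib

/-! A full-dimensional polytope is the intersection of one half-space for each facet. -/

set_option autoImplicit false

namespace Pool.Agent.H5.Insc

open Set
open scoped InnerProductSpace

variable {E : Type} [NormedAddCommGroup E] [InnerProductSpace ℝ E]

theorem hull_le (A : Set E) (a p : E) (h : ∀ s ∈ A, ⟪a, s - p⟫_ℝ ≤ 1) :
    ∀ x ∈ convexHull ℝ A, ⟪a, x - p⟫_ℝ ≤ 1 := by
  intro x hx
  have := convexHull_min (t := {x : E | innerₗ E a x ≤ 1 + ⟪a, p⟫_ℝ})
    (fun s hs => by
      have := h s hs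
      rw [inner_sub_right] at this
      simp only [mem_ofPred_eq, innerₗ_apply_apply]; linarith)
    (convex_halfSpace_le (innerₗ E a).isLinear _) hx
  simp only [mem_ofPred_eq, innerₗ_apply_apply] at this
  rw [inner_sub_right]; linarith

theorem hull_ext [FiniteDimensional ℝ E] {P : Set E} (hP : IsCompact P) (hc : Convex ℝ P)
    (hf : (P.extremePoints ℝ).Finite) : convexHull ℝ (P.extremePoints ℝ) = P := by
  have := closure_convexHull_extremePoints hP hc
  rwa [(hf.isCompact_convexHull ℝ).isClosed.closure_eq] at this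

theorem hrep [FiniteDimensional ℝ E] [Nontrivial E] (S : Finset E) (p : E)
    (hp : p ∈ interior (convexHull ℝ (S : Set E))) (n d : ℕ) (hd : Module.finrank ℝ E = d)
    (hn : {F : Set E | IsExposed ℝ (convexHull ℝ (S : Set E)) F ∧ F.Nonempty ∧
      Module.finrank ℝ (vectorSpan ℝ F) + 1 = d}.ncard ≤ n) :
    ∃ X : Finset E, X.card ≤ n ∧
      ∀ x, x ∈ convexHull ℝ (S : Set E) ↔ ∀ a ∈ X, ⟪a, x - p⟫_ℝ ≤ 1 := by
  classical
  have : ProperSpace E := FiniteDimensional.proper ℝ E
  set P := convexHull ℝ (S : Set E) with hPdef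
  have hPc : IsCompact P := S.finite_toSet.isCompact_convexHull ℝ
  have hPv : Convex ℝ P := convex_convexHull _ _
  let Q : Set E := {a | ∀ s ∈ S, ⟪a, s - p⟫_ℝ ≤ 1}
  have hQP : ∀ a ∈ Q, ∀ x ∈ P, ⟪a, x - p⟫_ℝ ≤ 1 := fun a ha => hull_le _ a p ha
  have hQv : Convex ℝ Q := by
    intro a ha b hb s t hs ht hst x hx
    rw [inner_add_left, real_inner_smul_left, real_inner_smul_left]
    nlinarith [ha x hx, hb x hx]
  have hQcl : IsClosed Q := by
    simp only [Q, ofPred_forall]
    exact isClosed_iInter fun s => isClosed_iInter fun _ =>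
      isClosed_le (by fun_prop) continuous_const
  obtain ⟨ρ, hρ, hb⟩ := Metric.mem_nhds_iff.1 (mem_interior_iff_mem_nhds.1 hp)
  have hQc : IsCompact Q := by
    refine (isCompact_closedBall (0 : E) (2 / ρ)).of_isClosed_subset hQcl fun a ha => ?_
    rw [mem_closedBall_zero_iff]
    by_cases h0 : a = 0
    · rw [h0, norm_zero]; positivity
    have hn : 0 < ‖a‖ := norm_pos_iff.2 h0
    have := hQP a ha (p + (ρ / 2 / ‖a‖) • a) (hb (by
      rw [mem_ball_iff_norm, add_sub_cancel_left, norm_smul, Real.norm_of_nonneg (by positivity),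
        div_mul_cancel₀ _ hn.ne']
      linarith))
    rw [add_sub_cancel_left, real_inner_smul_right, real_inner_self_eq_norm_sq] at this
    rw [le_div_iff₀ hρ]
    have e : ρ / 2 / ‖a‖ * ‖a‖ ^ 2 = ρ / 2 * ‖a‖ := by field_simp
    linarith
  have hspan : ∀ a ∈ Q.extremePoints ℝ, ∀ v : E,
      (∀ s ∈ S, ⟪a, s - p⟫_ℝ = 1 → ⟪v, s - p⟫_ℝ = 0) → v = 0 := by
    intro a ha v hv
    have hev : ∀ᶠ t : ℝ in nhds 0, a + t • v ∈ Q := by
      simp only [Q, mem_ofPred_eq, Filter.eventually_all_finset]
      intro s hs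
      by_cases h : ⟪a, s - p⟫_ℝ = 1
      · refine Filter.Eventually.of_forall fun t => ?_
        rw [inner_add_left, real_inner_smul_left, hv s hs h, h]; simp
      · have hlt : ⟪a, s - p⟫_ℝ < 1 := lt_of_le_of_ne (ha.1 s hs) h
        have hc : ContinuousAt (fun t : ℝ => ⟪a + t • v, s - p⟫_ℝ) 0 := by fun_prop
        exact (hc.eventually_lt continuousAt_const (by simpa using hlt)).mono fun t ht => ht.le
    obtain ⟨ε, hε, hball⟩ := Metric.eventually_nhds_iff.1 hev
    have h1 := hball (y := ε / 2) (by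
      rw [Real.dist_eq, sub_zero, abs_of_pos (by positivity)]; linarith)
    have h2 := hball (y := -(ε / 2)) (by
      rw [Real.dist_eq, sub_zero, abs_neg, abs_of_pos (by positivity)]; linarith)
    have h3 := (mem_extremePoints.1 ha).2 _ h1 _ h2
      ⟨1 / 2, 1 / 2, by norm_num, by norm_num, by norm_num, by module⟩
    have h4 : (ε / 2) • v = 0 := by simpa using h3.1
    exact (smul_eq_zero.1 h4).resolve_left (by positivity)
  let Fa : E → Set E := fun a => {x ∈ P | ⟪a, x - p⟫_ℝ = 1}
  have hSF : ∀ a, ∀ s ∈ S, ⟪a, s - p⟫_ℝ = 1 → s ∈ Fa a := fun a s hs h =>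
    ⟨subset_convexHull _ _ hs, h⟩
  have hmaps : ∀ a ∈ Q.extremePoints ℝ, Fa a ∈ {F : Set E | IsExposed ℝ P F ∧ F.Nonempty ∧
      Module.finrank ℝ (vectorSpan ℝ F) + 1 = d} := by
    intro a ha
    have hne : ∃ s ∈ S, ⟪a, s - p⟫_ℝ = 1 := by
      by_contra hcon
      obtain ⟨v, hv⟩ := exists_ne (0 : E)
      exact hv (hspan a ha v fun s hs h => absurd ⟨s, hs, h⟩ hcon)
    obtain ⟨s0, hs0, h0⟩ := hne
    refine ⟨fun _ => ⟨innerSL ℝ a, ?_⟩, ⟨s0, hSF a s0 hs0 h0⟩, ?_⟩
    · ext x
      simp only [Fa, mem_ofPred_eq, innerSL_apply_apply]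
      refine and_congr_right fun hx => ⟨fun h y hy => ?_, fun h => ?_⟩
      · have := hQP a ha.1 y hy
        rw [inner_sub_right] at this h; linarith
      · have h1 := h s0 (subset_convexHull _ _ hs0)
        have h2 := hQP a ha.1 x hx
        rw [inner_sub_right] at h0 h2 ⊢; linarith
    · have h1 : vectorSpan ℝ (Fa a) ≠ ⊤ := by
        intro htop
        have hle : vectorSpan ℝ (Fa a) ≤ LinearMap.ker (innerₗ E a) := by
          rw [vectorSpan, Submodule.span_le]
          rintro _ ⟨x, hx, y, hy, rfl⟩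
          have e1 := hx.2
          have e2 := hy.2
          rw [inner_sub_right] at e1 e2
          simp only [SetLike.mem_coe, LinearMap.mem_ker, innerₗ_apply_apply, vsub_eq_sub,
            inner_sub_right]
          linarith
        have := hle (htop ▸ Submodule.mem_top : s0 - p ∈ vectorSpan ℝ (Fa a))
        simp only [LinearMap.mem_ker, innerₗ_apply_apply] at this
        linarith
      have h2 : vectorSpan ℝ (Fa a) ⊔ (ℝ ∙ (s0 - p)) = ⊤ := by
        rw [← Submodule.orthogonal_eq_bot_iff, Submodule.eq_bot_iff]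
        intro v hv
        refine hspan a ha v fun s hs h => ?_
        rw [real_inner_comm]
        refine hv _ ?_
        have : s - p = (s - s0) + (s0 - p) := by abel
        rw [this]
        exact Submodule.add_mem_sup (vsub_mem_vectorSpan ℝ (hSF a s hs h) (hSF a s0 hs0 h0))
          (Submodule.mem_span_singleton_self _)
      have h3 := Submodule.finrank_lt h1
      have h4 := Submodule.finrank_add_le_finrank_add_finrank (vectorSpan ℝ (Fa a)) (ℝ ∙ (s0 - p))
      have h5 : Module.finrank ℝ (ℝ ∙ (s0 - p)) ≤ 1 := by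
        simpa using finrank_span_le_card (R := ℝ) ({s0 - p} : Set E)
      rw [h2, finrank_top] at h4
      omega
  have hinj : InjOn Fa (Q.extremePoints ℝ) := by
    intro a ha a' _ e
    refine sub_eq_zero.1 (hspan a ha _ fun s hs h => ?_)
    have := hSF a s hs h
    rw [e] at this
    rw [inner_sub_left, h, this.2, sub_self]
  have hfin : {F : Set E | IsExposed ℝ P F ∧ F.Nonempty ∧
      Module.finrank ℝ (vectorSpan ℝ F) + 1 = d}.Finite := by
    refine Finite.of_finite_image (f := fun F => F.extremePoints ℝ)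
      (S.finite_toSet.finite_subsets.subset ?_) ?_
    · rintro _ ⟨F, hF, rfl⟩
      exact (hF.1.isExtreme.extremePoints_subset_extremePoints).trans extremePoints_convexHull_subset
    · intro F hF F' hF' e
      simp only at e
      rw [← closure_convexHull_extremePoints (hF.1.isCompact hPc) (hF.1.convex hPv), e,
        closure_convexHull_extremePoints (hF'.1.isCompact hPc) (hF'.1.convex hPv)]
  have hXf : (Q.extremePoints ℝ).Finite := Finite.of_injOn hmaps hinj hfin
  refine ⟨hXf.toFinset, ?_, fun x => ⟨fun hx a ha => hQP a (hXf.mem_toFinset.1 ha).1 x hx, ?_⟩⟩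
  · rw [← ncard_eq_toFinset_card _ hXf]
    exact (ncard_le_ncard_of_injOn Fa hmaps hinj hfin).trans hn
  · intro hx
    by_contra hxP
    obtain ⟨f, u, h1, h2⟩ := geometric_hahn_banach_closed_point hPv hPc.isClosed hxP
    have hu : 0 < u - f p := sub_pos.2 (h1 p (interior_subset hp))
    let a : E := (u - f p)⁻¹ • (InnerProductSpace.toDual ℝ E).symm f
    have ha : ∀ y, ⟪a, y - p⟫_ℝ = (f y - f p) / (u - f p) := by
      intro y
      simp only [a, real_inner_smul_left, InnerProductSpace.toDual_symm_apply, map_sub]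
      rw [div_eq_inv_mul]
    have haQ : a ∈ Q := by
      intro s hs
      rw [ha, div_le_one hu]
      linarith [h1 s (subset_convexHull _ _ hs)]
    rw [← hull_ext hQc hQv hXf] at haQ
    have := hull_le (Q.extremePoints ℝ) (x - p) 0 (fun b hb => by
      rw [sub_zero, real_inner_comm]; exact hx b (hXf.mem_toFinset.2 hb)) a haQ
    rw [sub_zero, real_inner_comm, ha, div_le_one hu] at this
    linarith

end Pool.Agent.H5.Insc
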