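import Mathlib

set_option autoImplicit false

namespace Pool.Agent.H5.LSep

open Set Filter Topology

/-- nodes of the tree of `W`-sequences of length in `W` -/
@[ext] structure Node (W : Type) [LinearOrder W] [Inhabited W] where
  ht : W
  h : W → W
  nf : ∀ x, ht ≤ x → h x = default

variable {W : Type} [LinearOrder W] [Inhabited W]

def res (t : Node W) (δ : W) : Node W :=
  ⟨δ, fun x => if x < δ then t.h x else default, fun _ hx => if_neg (not_lt.2 hx)⟩

def Ex (s t : Node W) : Prop := s.ht ≤ t.ht ∧ ∀ x < s.ht, s.h x = t.h x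

theorem Ex.refl (s : Node W) : Ex s s := ⟨le_rfl, fun _ _ => rfl⟩

theorem Ex.trans {s t u : Node W} (h1 : Ex s t) (h2 : Ex t u) : Ex s u :=
  ⟨h1.1.trans h2.1, fun x hx => (h1.2 x hx).trans (h2.2 x (hx.trans_le h1.1))⟩

theorem ex_res (t : Node W) {δ : W} (h : δ ≤ t.ht) : Ex (res t δ) t :=
  ⟨h, fun _ hx => if_pos hx⟩

theorem res_eq {s t : Node W} (h : Ex s t) : res t s.ht = s := by
  refine Node.ext rfl (funext fun x => ?_)
  by_cases hx : x < s.ht
  · exact (if_pos hx).trans (h.2 x hx).symm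
  · exact (if_neg hx).trans (s.nf x (not_lt.1 hx)).symm

def Cof (t : Node W) (β : W) : Prop := ∀ δ < t.ht, ∃ ε, δ ≤ ε ∧ ε < t.ht ∧ t.h ε = β

variable [WellFoundedLT W]

open Classical in
noncomputable def lay (t : Node W) : W :=
  if h : {β | Cof t β}.Nonempty then wellFounded_lt.min {β | Cof t β} h else default

theorem lay_eq {t : Node W} {β : W} (h1 : Cof t β) (h2 : ∀ γ, Cof t γ → β ≤ γ) : lay t = β := by
  have h : {β | Cof t β}.Nonempty := ⟨β, h1⟩
  unfold lay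
  rw [dif_pos h]
  exact le_antisymm (wellFounded_lt.min_le h1) (h2 _ (wellFounded_lt.min_mem _ h))

def Good (t : Node W) (a : ℕ → W) : Prop :=
  StrictMono a ∧ (∀ n, a n < t.ht) ∧ (∀ δ < t.ht, ∃ n, δ < a n) ∧
    (∀ n, lay t < lay (res t (a n))) ∧ ∀ ε, a 0 ≤ ε → ε < t.ht → t.h ε = lay t → ε ∈ range a

def Act (t : Node W) : Prop := ∃ a, Good t a

noncomputable def sq (t : Node W) : ℕ → W := Classical.epsilon (Good t)

theorem Act.good {t : Node W} (h : Act t) : Good t (sq t) := Classical.epsilon_spec h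

inductive K : Node W → Node W → Prop
  | refl (t : Node W) : K t t
  | step (t : Node W) (n : ℕ) (v : Node W) :
      Act t → K (res t (sq t (n + 1))) v → sq t n < v.ht → K t v

theorem K.ex {t v : Node W} (h : K t v) : Ex v t := by
  induction h with
  | refl t => exact Ex.refl t
  | step t n v ha _ _ ih => exact ih.trans (ex_res t (ha.good.2.1 _).le)

theorem K.lay {t v : Node W} (h : K t v) : v = t ∨ lay t < lay v := by
  induction h with
  | refl t => exact Or.inl rfl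
  | step t n v ha _ _ ih =>
    right
    have := ha.good.2.2.2.1 (n + 1)
    rcases ih with ih | ih
    · rw [ih]
      exact this
    · exact this.trans ih

theorem K.loc {t v : Node W} (h : K t v) (hv : Act v) :
    ∃ δ < v.ht, ∀ w, K v w → δ < w.ht → K t w := by
  induction h with
  | refl t => exact ⟨sq t 0, hv.good.2.1 0, fun w hw _ => hw⟩
  | step t n v ha _ h3 ih =>
    obtain ⟨δ, h1, h2⟩ := ih hv
    exact ⟨max δ (sq t n), max_lt h1 h3, fun w hw hl =>
      K.step t n w ha (h2 w hw (max_lt_iff.1 hl).1) (max_lt_iff.1 hl).2⟩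

instance : TopologicalSpace (Node W) where
  IsOpen U := ∀ t ∈ U, Act t → ∃ δ < t.ht, ∀ v, K t v → δ < v.ht → v ∈ U
  isOpen_univ := fun t _ ha => ⟨sq t 0, ha.good.2.1 0, fun _ _ _ => trivial⟩
  isOpen_inter := by
    intro U V hU hV t ht ha
    obtain ⟨δ, h1, h2⟩ := hU t ht.1 ha
    obtain ⟨ε, h3, h4⟩ := hV t ht.2 ha
    exact ⟨max δ ε, max_lt h1 h3, fun v hv hl =>
      ⟨h2 v hv (max_lt_iff.1 hl).1, h4 v hv (max_lt_iff.1 hl).2⟩⟩
  isOpen_sUnion := by
    rintro S hS t ⟨U, hU, ht⟩ ha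
    obtain ⟨δ, h1, h2⟩ := hS U hU t ht ha
    exact ⟨δ, h1, fun v hv hl => ⟨U, hU, h2 v hv hl⟩⟩

theorem open_iff {U : Set (Node W)} :
    IsOpen U ↔ ∀ t ∈ U, Act t → ∃ δ < t.ht, ∀ v, K t v → δ < v.ht → v ∈ U := Iff.rfl

theorem open_down {U : Set (Node W)} (h : ∀ t ∈ U, ∀ v, K t v → v ∈ U) : IsOpen U :=
  open_iff.2 fun t ht ha => ⟨sq t 0, ha.good.2.1 0, fun v hv _ => h t ht v hv⟩

theorem open_K (t : Node W) : IsOpen {v | K t v} := open_iff.2 fun _ hv ha => K.loc hv ha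

theorem open_le (δ : W) : IsOpen {v : Node W | v.ht ≤ δ} :=
  open_down fun _ ht _ hv => hv.ex.1.trans ht

theorem open_gt (δ : W) : IsOpen {v : Node W | δ < v.ht} :=
  open_iff.2 fun _ ht _ => ⟨δ, ht, fun _ _ h => h⟩

theorem open_val (x c : W) : IsOpen {v : Node W | x < v.ht ∧ v.h x = c} :=
  open_iff.2 fun _ ht _ => ⟨x, ht.1, fun _ hv h => ⟨h, (hv.ex.2 x h).trans ht.2⟩⟩

instance : T2Space (Node W) := by
  have key : ∀ s t : Node W, s.ht < t.ht → ∃ u v : Set (Node W), IsOpen u ∧ IsOpen v ∧ s ∈ u ∧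
      t ∈ v ∧ Disjoint u v := fun s t h =>
    ⟨_, _, open_le s.ht, open_gt s.ht, le_refl s.ht, h,
      Set.disjoint_left.2 fun w (h1 : w.ht ≤ s.ht) (h2 : s.ht < w.ht) => absurd h2 (not_lt.2 h1)⟩
  refine ⟨fun s t hst => ?_⟩
  rcases lt_trichotomy s.ht t.ht with h | h | h
  · exact key s t h
  · have : ∃ x < s.ht, s.h x ≠ t.h x := by
      by_contra hc
      push Not at hc
      apply hst
      rw [← res_eq (s := s) (t := t) ⟨h.le, hc⟩, h]
      exact res_eq (Ex.refl t)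
    obtain ⟨x, hx, hne⟩ := this
    exact ⟨_, _, open_val x (s.h x), open_val x (t.h x), ⟨hx, rfl⟩, ⟨h ▸ hx, rfl⟩,
      Set.disjoint_left.2 fun w h1 h2 => hne (h1.2.symm.trans h2.2)⟩
  · obtain ⟨u, v, h1, h2, h3, h4, h5⟩ := key t s h
    exact ⟨v, u, h2, h1, h4, h3, h5.symm⟩

theorem compact_K (t : Node W) : IsCompact {v | K t v} := by
  induction h : t.ht using WellFoundedLT.induction generalizing t with
  | ind δ ih =>
  subst h
  rw [isCompact_iff_ultrafilter_le_nhds']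
  intro F hF
  by_cases hc : ∃ n, Act t ∧ {v | K (res t (sq t (n + 1))) v} ∩ {v | sq t n < v.ht} ∈ F
  · obtain ⟨n, ha, hn⟩ := hc
    have h1 : IsClosed {v : Node W | sq t n < v.ht} := by
      rw [← isOpen_compl_iff]
      convert open_le (sq t n) using 1
      ext v
      simp
    obtain ⟨x, hx, hx'⟩ := isCompact_iff_ultrafilter_le_nhds'.1
      ((ih _ (ha.good.2.1 (n + 1)) (res t (sq t (n + 1))) rfl).inter_right h1) F hn
    exact ⟨x, K.step t n x ha hx.1 hx.2, hx'⟩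
  · push Not at hc
    refine ⟨t, K.refl t, le_nhds_iff.2 fun U hU hO => ?_⟩
    by_cases ha : Act t
    · obtain ⟨δ, h1, h2⟩ := open_iff.1 hO t hU ha
      obtain ⟨N, hN⟩ := ha.good.2.2.1 δ h1
      have h3 : ⋂ n ∈ Finset.range N,
          ({v | K (res t (sq t (n + 1))) v} ∩ {v | sq t n < v.ht})ᶜ ∈ (F : Filter (Node W)) :=
        (biInter_finset_mem _).2 fun n _ => Ultrafilter.compl_mem_iff_notMem.2 (hc n ha)
      filter_upwards [hF, h3] with v hv hv'
      cases hv with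
      | refl => exact hU
      | step _ n _ _ h4 h5 =>
        by_cases hn : n < N
        · exact absurd ⟨h4, h5⟩ (mem_iInter₂.1 hv' n (Finset.mem_range.2 hn))
        · exact h2 v (K.step t n v ha h4 h5)
            ((hN.trans_le (ha.good.1.monotone (not_lt.1 hn))).trans h5)
    · filter_upwards [hF] with v hv
      cases hv with
      | refl => exact hU
      | step _ n _ h3 _ _ => exact absurd h3 ha

instance : WeaklyLocallyCompactSpace (Node W) :=
  ⟨fun t => ⟨_, compact_K t, (open_K t).mem_nhds (K.refl t)⟩⟩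

theorem left_sep : ∃ r : OnePoint (Node W) → OnePoint (Node W) → Prop,
    IsWellOrder _ r ∧ ∀ x, IsOpen {y | ¬ r y x} := by
  let f : OnePoint (Node W) → ℕ × W × OnePoint (Node W) := fun x =>
    (x.elim 0 fun _ => 1, x.elim default lay, x)
  have hf : Function.Injective f := fun x y hxy => congrArg (fun p => p.2.2) hxy
  have i1 : IsWellOrder (W × OnePoint (Node W)) (Prod.Lex (· < ·) WellOrderingRel) :=
    inferInstance
  have i2 : IsWellOrder (ℕ × W × OnePoint (Node W))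
      (Prod.Lex (· < ·) (Prod.Lex (· < ·) WellOrderingRel)) := inferInstance
  refine ⟨_, hf.isWellOrder (Prod.Lex (· < ·) (Prod.Lex (· < ·) WellOrderingRel)), fun x => ?_⟩
  induction x using OnePoint.rec with
  | infty =>
    convert isOpen_univ
    ext y
    induction y using OnePoint.rec with
    | infty => simp [Function.onFun, f, Prod.lex_def, irrefl_of WellOrderingRel]
    | coe v => simp [Function.onFun, f, Prod.lex_def]
  | coe s =>
    have h1 : IsOpen {v : Node W | lay s ≤ lay v ∧ (lay v = lay s →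
        ¬ WellOrderingRel (v : OnePoint (Node W)) (s : OnePoint (Node W)))} :=
      open_down fun t ht v hv => by
        rcases hv.lay with h | h
        · rw [h]
          exact ht
        · exact ⟨ht.1.trans h.le, fun h' => absurd h' (ht.1.trans_lt h).ne'⟩
    convert OnePoint.isOpen_image_coe.2 h1 using 1
    ext y
    induction y using OnePoint.rec with
    | infty => simp [Function.onFun, f, Prod.lex_def]
    | coe v => simp [Function.onFun, f, Prod.lex_def]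

/-! ### the diagonal branch -/

def Cone (s : Node W) (β : W) (t : Node W) : Prop :=
  Ex s t ∧ ∀ ε, s.ht ≤ ε → ε < t.ht → β ≤ t.h ε

omit [WellFoundedLT W] in
theorem Cone.trans {s t u : Node W} {β γ : W} (h1 : Cone s β t) (h2 : Cone t γ u) (h : β ≤ γ) :
    Cone s β u := by
  refine ⟨h1.1.trans h2.1, fun ε h3 h4 => ?_⟩
  rcases lt_or_ge ε t.ht with h5 | h5
  · rw [← h2.1.2 ε h5]
    exact h1.2 ε h3 h5
  · exact h.trans (h2.2 ε h5 h4)

omit [WellFoundedLT W] in
theorem Cone.refl (s : Node W) (β : W) : Cone s β s :=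
  ⟨Ex.refl s, fun _ h1 h2 => absurd h2 (not_lt.2 h1)⟩

omit [Inhabited W] in
theorem exists_lub (hW : ∀ f : ℕ → W, ∃ b, ∀ n, f n < b) (f : ℕ → W) :
    ∃ b, (∀ n, f n ≤ b) ∧ ∀ x < b, ∃ n, x < f n := by
  obtain ⟨c, hc⟩ := hW f
  have hne : {b | ∀ n, f n ≤ b}.Nonempty := ⟨c, fun n => (hc n).le⟩
  refine ⟨wellFounded_lt.min _ hne, wellFounded_lt.min_mem _ hne, fun x hx => ?_⟩
  by_contra h
  push Not at h
  exact absurd hx (not_lt.2 (wellFounded_lt.min_le (s := {b | ∀ n, f n ≤ b}) h))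

omit [Inhabited W] in
theorem exists_succ (hW : ∀ f : ℕ → W, ∃ b, ∀ n, f n < b) (a : W) :
    ∃ b, a < b ∧ ∀ x < b, x ≤ a := by
  obtain ⟨c, hc⟩ := hW fun _ => a
  have hne : {b | a < b}.Nonempty := ⟨c, hc 0⟩
  refine ⟨wellFounded_lt.min _ hne, wellFounded_lt.min_mem _ hne, fun x hx => ?_⟩
  by_contra h
  push Not at h
  exact absurd hx (not_lt.2 (wellFounded_lt.min_le (s := {b | a < b}) h))

theorem exists_step (hW : ∀ f : ℕ → W, ∃ b, ∀ n, f n < b) (u : Node W) (β : W) :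
    ∃ v, Cone u β v ∧ u.ht < v.ht ∧ (∀ x < v.ht, x ≤ u.ht) ∧ v.h u.ht = β ∧ lay v = β := by
  obtain ⟨b, h1, h2⟩ := exists_succ hW u.ht
  let v : Node W := ⟨b, fun x => if x = u.ht then β else u.h x, fun x hx => by
    rw [if_neg (h1.trans_le hx).ne']
    exact u.nf x (h1.trans_le hx).le⟩
  have h3 : v.h u.ht = β := if_pos rfl
  refine ⟨v, ⟨⟨h1.le, fun x hx => (if_neg hx.ne).symm⟩, fun ε h4 h5 => ?_⟩, h1, h2, h3, ?_⟩
  · rw [le_antisymm (h2 ε h5) h4, h3]
  · refine lay_eq (fun δ hδ => ⟨u.ht, h2 δ hδ, h1, h3⟩) fun γ hγ => ?_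
    obtain ⟨ε, h4, h5, h6⟩ := hγ u.ht h1
    rw [← h6, le_antisymm (h2 ε h5) h4, h3]

theorem exists_lim (hW : ∀ f : ℕ → W, ∃ b, ∀ n, f n < b) (u : ℕ → Node W)
    (hu : ∀ n, Ex (u n) (u (n + 1))) :
    ∃ t, (∀ n, Ex (u n) t) ∧ ∀ x < t.ht, ∃ n, x < (u n).ht := by
  classical
  have hm : ∀ n m, n ≤ m → Ex (u n) (u m) := fun n m h => by
    induction m, h using Nat.le_induction with
    | base => exact Ex.refl _
    | succ m _ ih => exact ih.trans (hu m)
  obtain ⟨b, h1, h2⟩ := exists_lub hW fun n => (u n).ht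
  refine ⟨⟨b, fun x => if h : ∃ n, x < (u n).ht then (u h.choose).h x else default,
    fun x hx => dif_neg fun ⟨n, hn⟩ => absurd (hn.trans_le (h1 n)) (not_lt.2 hx)⟩,
    fun n => ⟨h1 n, fun x hx => ?_⟩, h2⟩
  have h : ∃ n, x < (u n).ht := ⟨n, hx⟩
  dsimp only
  rw [dif_pos h]
  rcases le_total n h.choose with h3 | h3
  · exact (hm _ _ h3).2 x hx
  · exact ((hm _ _ h3).2 x h.choose_spec).symm

theorem cone_lim (hW : ∀ f : ℕ → W, ∃ b, ∀ n, f n < b) (u : ℕ → Node W) (β : ℕ → W)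
    (hβ : Monotone β) (hu : ∀ n, Cone (u n) (β n) (u (n + 1))) :
    ∃ t, (∀ n, Cone (u n) (β n) t) ∧ ∀ x < t.ht, ∃ n, x < (u n).ht := by
  obtain ⟨t, h1, h2⟩ := exists_lim hW u fun n => (hu n).1
  have hm : ∀ n m, n ≤ m → Cone (u n) (β n) (u m) := fun n m h => by
    induction m, h using Nat.le_induction with
    | base => exact Cone.refl _ _
    | succ m h ih => exact ih.trans (hu m) (hβ h)
  refine ⟨t, fun n => ⟨h1 n, fun ε h3 h4 => ?_⟩, h2⟩
  obtain ⟨m, h5⟩ := h2 ε h4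
  have h6 := h5.trans_le (hm m (max n m) (le_max_right _ _)).1.1
  rw [← (h1 (max n m)).2 ε h6]
  exact (hm n (max n m) (le_max_left _ _)).2 ε h3 h6

def Dead (C : Node W → ℕ) (i : ℕ) (p : Node W × W) : Prop :=
  ∀ v, Cone p.1 p.2 v → p.2 ≤ lay v → C v ≠ i

def Le (q p : Node W × W) : Prop := Cone p.1 p.2 q.1 ∧ p.2 ≤ q.2

theorem decided (hW : ∀ f : ℕ → W, ∃ b, ∀ n, f n < b) (C : Node W → ℕ) :
    ∃ p : Node W × W, ∀ i, Dead C i p ∨ ∀ q, Le q p → ¬ Dead C i q := by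
  have h1 : ∀ (i : ℕ) (p : Node W × W), ∃ q, Le q p ∧
      (Dead C i q ∨ ∀ r, Le r q → ¬ Dead C i r) := by
    intro i p
    by_cases h : ∃ q, Le q p ∧ Dead C i q
    · obtain ⟨q, h2, h3⟩ := h
      exact ⟨q, h2, Or.inl h3⟩
    · push Not at h
      exact ⟨p, ⟨Cone.refl _ _, le_rfl⟩, Or.inr h⟩
  choose F hF1 hF2 using h1
  let P : ℕ → Node W × W := fun n =>
    Nat.rec (⟨default, fun _ => default, fun _ _ => rfl⟩, default) F n
  have hP : ∀ n, P (n + 1) = F n (P n) := fun _ => rfl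
  obtain ⟨t, h2, -⟩ := cone_lim hW (fun n => (P n).1) (fun n => (P n).2)
    (monotone_nat_of_le_succ fun n => (hF1 n (P n)).2) fun n => (hF1 n (P n)).1
  obtain ⟨b, hb⟩ := hW fun n => (P n).2
  refine ⟨(t, b), fun i => ?_⟩
  rcases hF2 i (P i) with h | h
  · exact Or.inl fun v h3 h4 => h v ((h2 (i + 1)).trans h3 (hb (i + 1)).le)
      ((hb (i + 1)).le.trans h4)
  · exact Or.inr fun q hq => h q ⟨(h2 (i + 1)).trans hq.1 (hb (i + 1)).le,
      (hb (i + 1)).le.trans hq.2⟩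

theorem diag (hW : ∀ f : ℕ → W, ∃ b, ∀ n, f n < b) (C : Node W → ℕ) :
    ∃ t, Act t ∧ ∀ δ < t.ht, ∃ n, δ < sq t (n + 1) ∧ C (res t (sq t (n + 1))) = C t := by
  obtain ⟨⟨s, β⟩, hp⟩ := decided hW C
  obtain ⟨γ, hγ, -⟩ := exists_succ hW β
  have h1 : ∀ (n : ℕ) (u : Node W), ∃ v, Cone u β v ∧ u.ht < v.ht ∧ v.h u.ht = β ∧
      (∀ ε, u.ht < ε → ε < v.ht → β < v.h ε) ∧ β < lay v ∧
      (Cone s β u → ¬ Dead C n.unpair.1 (s, β) → C v = n.unpair.1) := by
    intro n u
    obtain ⟨w, a1, a2, a3, a4, -⟩ := exists_step hW u β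
    obtain ⟨v, b1, b2, b3⟩ : ∃ v, Cone w γ v ∧ γ ≤ lay v ∧
        (Cone s β u → ¬ Dead C n.unpair.1 (s, β) → C v = n.unpair.1) := by
      by_cases h : Cone s β u ∧ ¬ Dead C n.unpair.1 (s, β)
      · have h2 := (hp n.unpair.1).resolve_left h.2 (w, γ) ⟨h.1.trans a1 le_rfl, hγ.le⟩
        unfold Dead at h2
        push Not at h2
        obtain ⟨v, c1, c2, c3⟩ := h2
        exact ⟨v, c1, c2, fun _ _ => c3⟩
      · obtain ⟨v, c1, -, -, -, c2⟩ := exists_step hW w γ
        exact ⟨v, c1, c2.ge, fun d1 d2 => absurd ⟨d1, d2⟩ h⟩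
    refine ⟨v, a1.trans b1 hγ.le, a2.trans_le b1.1.1, (b1.1.2 _ a2).symm.trans a4,
      fun ε c1 c2 => hγ.trans_le (b1.2 ε ?_ c2), hγ.trans_le b2, b3⟩
    by_contra h
    exact absurd (a3 ε (not_le.1 h)) (not_le.2 c1)
  choose F f1 f2 f3 f4 f5 f6 using h1
  let u : ℕ → Node W := fun n => Nat.rec s F n
  have hu : ∀ n, u (n + 1) = F n (u n) := fun _ => rfl
  obtain ⟨t, h2, h3⟩ := cone_lim hW u (fun _ => β) monotone_const fun n => f1 n (u n)
  have hsu : ∀ n, Cone s β (u n) := fun n => by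
    induction n with
    | zero => exact Cone.refl _ _
    | succ n ih => exact ih.trans (f1 n (u n)) le_rfl
  have hmono : StrictMono fun n => (u n).ht := strictMono_nat_of_lt_succ fun n => f2 n (u n)
  have hlt : ∀ n, (u n).ht < t.ht := fun n => (f2 n (u n)).trans_le (h2 (n + 1)).1.1
  have hval : ∀ n, t.h (u n).ht = β := fun n =>
    ((h2 (n + 1)).1.2 _ (f2 n (u n))).symm.trans (f3 n (u n))
  have hlay : lay t = β := by
    refine lay_eq (fun δ hδ => ?_) fun β' h => ?_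
    · obtain ⟨n, hn⟩ := h3 δ hδ
      exact ⟨_, hn.le, hlt n, hval n⟩
    · obtain ⟨ε, c1, c2, c3⟩ := h _ (hlt 0)
      rw [← c3]
      exact (h2 0).2 ε c1 c2
  have hact : Act t := by
    refine ⟨fun n => (u (n + 1)).ht, fun a b hab => hmono (Nat.succ_lt_succ hab), fun n => hlt (n + 1),
      fun δ hδ => ?_, fun n => ?_, fun ε c1 c2 c3 => ?_⟩
    · obtain ⟨n, hn⟩ := h3 δ hδ
      exact ⟨n, hn.trans (hmono (Nat.lt_succ_self n))⟩
    · rw [res_eq (h2 (n + 1)).1, hlay]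
      exact f5 n (u n)
    · classical
      have hex := h3 ε c2
      obtain ⟨m, hm⟩ : ∃ m, Nat.find hex = m + 2 := by
        refine ⟨Nat.find hex - 2, ?_⟩
        have : ∀ k ≤ 1, ¬ ε < (u k).ht := fun k hk =>
          not_lt.2 ((hmono.monotone hk).trans c1)
        have h4 := Nat.find_spec hex
        by_contra h5
        exact this _ (by omega) h4
      have d1 : ε < (u (m + 2)).ht := hm ▸ Nat.find_spec hex
      have d2 : (u (m + 1)).ht ≤ ε := not_lt.1 (Nat.find_min hex (m := m + 1) (by omega))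
      rcases d2.eq_or_lt with d3 | d3
      · exact ⟨m, d3⟩
      · have := f4 (m + 1) (u (m + 1)) ε d3 d1
        rw [← hu, (h2 (m + 2)).1.2 ε d1, c3, hlay] at this
        exact absurd this (lt_irrefl _)
  refine ⟨t, hact, fun δ hδ => ?_⟩
  have hal : ¬ Dead C (C t) (s, β) := fun h => h t (h2 0) hlay.ge rfl
  obtain ⟨N, hN⟩ := h3 _ (max_lt hδ (hact.good.2.1 0))
  set n := Nat.pair (C t) N with hn
  have e1 : C (u (n + 1)) = C t := by
    have := f6 n (u n) (hsu n)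
    rw [hn, Nat.unpair_pair] at this
    exact this hal
  have e2 : max δ (sq t 0) < (u (n + 1)).ht :=
    hN.trans (hmono (Nat.lt_succ_of_le (Nat.right_le_pair _ _)))
  obtain ⟨k, hk⟩ := hact.good.2.2.2.2 (u (n + 1)).ht (max_lt_iff.1 e2).2.le (hlt (n + 1))
    ((hval (n + 1)).trans hlay.symm)
  rcases k with _ | k
  · exact absurd hk (max_lt_iff.1 e2).2.ne
  · refine ⟨k, hk ▸ (max_lt_iff.1 e2).1, ?_⟩
    rw [hk, res_eq (h2 (n + 1)).1, e1]

theorem not_sigma (hW : ∀ f : ℕ → W, ∃ b, ∀ n, f n < b) (D : ℕ → Set (OnePoint (Node W)))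
    (h1 : ⋃ n, D n = univ) (h2 : ∀ n, DiscreteTopology (D n)) : False := by
  have h3 : ∀ t : Node W, ∃ n, (t : OnePoint (Node W)) ∈ D n := fun t =>
    mem_iUnion.1 (h1 ▸ mem_univ _)
  choose C hC using h3
  obtain ⟨t, ha, ht⟩ := diag hW C
  obtain ⟨U, hU, hU'⟩ := isOpen_inter_eq_singleton_of_mem_discrete
    (isDiscrete_iff_discreteTopology.2 (h2 (C t))) (hC t)
  have h4 : (t : OnePoint (Node W)) ∈ U := (hU' ▸ mem_singleton _ : _ ∈ U ∩ D (C t)).1
  obtain ⟨δ, h5, h6⟩ := open_iff.1 (hU.preimage OnePoint.continuous_coe) t h4 ha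
  obtain ⟨n, h7, h8⟩ := ht δ h5
  have h9 := h6 _ (K.step t n _ ha (K.refl _) (ha.good.1 (Nat.lt_succ_self n))) h7
  have h10 : ((res t (sq t (n + 1)) : Node W) : OnePoint (Node W)) ∈ U ∩ D (C t) :=
    ⟨h9, h8 ▸ hC _⟩
  rw [hU'] at h10
  exact (ha.good.2.1 (n + 1)).ne (congrArg Node.ht (OnePoint.coe_injective h10))

theorem omega_one_bdd (f : ℕ → (Cardinal.aleph 1 : Cardinal.{0}).ord.ToType) :
    ∃ b, ∀ n, f n < b := by
  by_contra h
  push Not at h
  have h1 : ∀ x : (Cardinal.aleph 1 : Cardinal.{0}).ord.ToType, (Iic x).Countable := by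
    intro x
    rw [← Iio_insert]
    refine Countable.insert _ ?_
    rw [← Cardinal.le_aleph0_iff_set_countable, ← Cardinal.lt_aleph_one_iff]
    simpa using Cardinal.mk_Iio_lt x
  have h2 : (univ : Set (Cardinal.aleph 1 : Cardinal.{0}).ord.ToType).Countable :=
    (countable_iUnion fun n => h1 (f n)).mono fun x _ => mem_iUnion.2 (h x)
  rw [← Cardinal.le_aleph0_iff_set_countable, ← Cardinal.lt_aleph_one_iff] at h2
  simp at h2

end Pool.Agent.H5.LSep
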