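import Mathlib

set_option autoImplicit false

namespace Pool.Agent.H5.Medial

theorem zero_of_bdd (t : ℝ) (h : ∀ N : ℕ, 0 < N → |(N : ℝ) * t| ≤ 2) : t = 0 := by
  by_contra ht
  have h0 : 0 < |t| := abs_pos.mpr ht
  obtain ⟨N, hN⟩ := exists_nat_gt (2 / |t|)
  have hN0 : 0 < N := by
    have : (0 : ℝ) < N := lt_trans (by positivity) hN
    exact_mod_cast this
  have := h N hN0
  rw [abs_mul, abs_of_nonneg (Nat.cast_nonneg N)] at this
  rw [div_lt_iff₀ h0] at hN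
  linarith

section std
variable {M : Type*} [AddCommMonoid M] [LinearOrder M] [IsOrderedCancelAddMonoid M]

noncomputable def sg (D x : M) : ℝ := sSup {r | ∃ m n : ℕ, 0 < n ∧ m • D ≤ n • x ∧ r = (m : ℝ) / n}

variable {D : M} (hD : 0 < D) (h0 : ∀ x : M, 0 ≤ x)
include hD h0

theorem cross {x : M} {m n m' n' : ℕ} (hn : 0 < n) (hn' : 0 < n') (h1 : m • D ≤ n • x)
    (h2 : n' • x ≤ m' • D) : (m : ℝ) / n ≤ (m' : ℝ) / n' := by
  have h3 : (n' * m) • D ≤ (n * m') • D := by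
    calc (n' * m) • D = n' • m • D := mul_nsmul' _ _ _
      _ ≤ n' • n • x := nsmul_le_nsmul_right h1 _
      _ = n • n' • x := smul_comm _ _ _
      _ ≤ n • m' • D := nsmul_le_nsmul_right h2 _
      _ = (n * m') • D := (mul_nsmul' _ _ _).symm
  have h4 : n' * m ≤ n * m' := (nsmul_le_nsmul_iff_left hD).mp h3
  rw [div_le_div_iff₀ (by exact_mod_cast hn) (by exact_mod_cast hn')]
  have : ((n' * m : ℕ) : ℝ) ≤ ((n * m' : ℕ) : ℝ) := by exact_mod_cast h4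
  push_cast at this
  linarith

theorem sg_upper {x : M} {m n : ℕ} (hn : 0 < n) (h : n • x ≤ m • D) : sg D x ≤ (m : ℝ) / n := by
  refine csSup_le ⟨_, 0, 1, one_pos, by simpa using h0 x, rfl⟩ ?_
  rintro _ ⟨m', n', hn', h', rfl⟩
  exact cross hD h0 hn' hn h' h

theorem sg_lower {x : M} (hx : ∃ k : ℕ, x ≤ k • D) {m n : ℕ} (hn : 0 < n) (h : m • D ≤ n • x) :
    (m : ℝ) / n ≤ sg D x := by
  obtain ⟨k, hk⟩ := hx
  refine le_csSup ⟨(k : ℝ) / (1 : ℕ), ?_⟩ ⟨m, n, hn, h, rfl⟩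
  rintro _ ⟨m', n', hn', h', rfl⟩
  exact cross hD h0 hn' one_pos h' (by simpa using hk)

theorem sandwich {x : M} (hx : ∃ k : ℕ, x ≤ k • D) (N : ℕ) :
    ∃ p : ℕ, p • D ≤ N • x ∧ N • x ≤ (p + 1) • D := by
  classical
  have hex : ∃ p : ℕ, N • x ≤ (p + 1) • D := by
    obtain ⟨k, hk⟩ := hx
    refine ⟨N * k, (nsmul_le_nsmul_right hk N).trans ?_⟩
    rw [← mul_nsmul']
    exact nsmul_le_nsmul_left hD.le (Nat.le_succ _)
  refine ⟨Nat.find hex, ?_, Nat.find_spec hex⟩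
  rcases Nat.eq_zero_or_pos (Nat.find hex) with h | h
  · rw [h, zero_nsmul]; exact h0 _
  · have := Nat.find_min hex (m := Nat.find hex - 1) (by omega)
    rw [Nat.sub_add_cancel h] at this
    exact (not_le.mp this).le

theorem sg_bounds {x : M} (hx : ∃ k : ℕ, x ≤ k • D) {N p q : ℕ} (hN : 0 < N) (h1 : p • D ≤ N • x)
    (h2 : N • x ≤ q • D) : (p : ℝ) ≤ N * sg D x ∧ N * sg D x ≤ q := by
  have hN' : (0 : ℝ) < N := by exact_mod_cast hN
  have a1 := sg_lower hD h0 hx hN h1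
  have a2 := sg_upper hD h0 hN h2
  rw [div_le_iff₀ hN'] at a1
  rw [le_div_iff₀ hN'] at a2
  constructor <;> linarith

omit hD h0 in
theorem fin_add {x y : M} (hx : ∃ k : ℕ, x ≤ k • D) (hy : ∃ k : ℕ, y ≤ k • D) :
    ∃ k : ℕ, x + y ≤ k • D := by
  obtain ⟨k, hk⟩ := hx
  obtain ⟨l, hl⟩ := hy
  exact ⟨k + l, by rw [add_nsmul]; exact add_le_add hk hl⟩

theorem sg_add {x y : M} (hx : ∃ k : ℕ, x ≤ k • D) (hy : ∃ k : ℕ, y ≤ k • D) :
    sg D (x + y) = sg D x + sg D y := by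
  rw [← sub_eq_zero]
  refine zero_of_bdd _ fun N hN => ?_
  obtain ⟨p, p1, p2⟩ := sandwich hD h0 hx N
  obtain ⟨q, q1, q2⟩ := sandwich hD h0 hy N
  have a := sg_bounds hD h0 hx hN p1 p2
  have b := sg_bounds hD h0 hy hN q1 q2
  have c := sg_bounds hD h0 (fin_add hx hy) hN (p := p + q) (q := (p + 1) + (q + 1))
    (by rw [add_nsmul, nsmul_add]; exact add_le_add p1 q1)
    (by rw [add_nsmul, nsmul_add]; exact add_le_add p2 q2)
  push_cast at a b c
  rw [abs_le]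
  constructor <;> nlinarith [a.1, a.2, b.1, b.2, c.1, c.2]

theorem sg_zero : sg D 0 = 0 := by
  have := sg_add hD h0 (x := 0) (y := 0) ⟨0, by simp⟩ ⟨0, by simp⟩
  rw [add_zero] at this
  linarith

theorem sg_D : sg D D = 1 := by
  have := sg_bounds hD h0 (x := D) ⟨1, by simp⟩ one_pos (p := 1) (q := 1) le_rfl le_rfl
  push_cast at this
  linarith [this.1, this.2]

omit hD h0 in
theorem fin_nsmul {x : M} (hx : ∃ k : ℕ, x ≤ k • D) (n : ℕ) : ∃ k : ℕ, n • x ≤ k • D := by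
  obtain ⟨k, hk⟩ := hx
  exact ⟨n * k, by rw [mul_nsmul']; exact nsmul_le_nsmul_right hk n⟩

theorem sg_nsmul {x : M} (hx : ∃ k : ℕ, x ≤ k • D) (n : ℕ) : sg D (n • x) = n * sg D x := by
  induction n with
  | zero => simp [sg_zero hD h0]
  | succ n ih => rw [succ_nsmul, sg_add hD h0 (fin_nsmul hx n) hx, ih]; push_cast; ring

theorem sg_mono {x y : M} (hy : ∃ k : ℕ, y ≤ k • D) (h : x ≤ y) : sg D x ≤ sg D y := by
  refine csSup_le ⟨_, 0, 1, one_pos, by simpa using h0 x, rfl⟩ ?_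
  rintro _ ⟨m, n, hn, h', rfl⟩
  exact sg_lower hD h0 hy hn (h'.trans (nsmul_le_nsmul_right h n))

theorem sg_hom (Φ : M →+ M) (hΦ : Monotone Φ) (hle : ∀ x, Φ x ≤ x) {x : M}
    (hx : ∃ k : ℕ, x ≤ k • D) : sg D (Φ x) = sg D (Φ D) * sg D x := by
  have hf : ∀ y, (∃ k : ℕ, y ≤ k • D) → ∃ k : ℕ, Φ y ≤ k • D := fun y ⟨k, hk⟩ => ⟨k, (hle y).trans hk⟩
  have hfD : ∃ k : ℕ, D ≤ k • D := ⟨1, by simp⟩
  have a0 : 0 ≤ sg D (Φ D) := by rw [← sg_zero hD h0]; exact sg_mono hD h0 (hf _ hfD) (h0 _)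
  have a1 : sg D (Φ D) ≤ 1 := by rw [← sg_D hD h0]; exact sg_mono hD h0 hfD (hle _)
  rw [← sub_eq_zero]
  refine zero_of_bdd _ fun N hN => ?_
  obtain ⟨p, p1, p2⟩ := sandwich hD h0 hx N
  have a := sg_bounds hD h0 hx hN p1 p2
  have b1 := sg_mono hD h0 (hf _ (fin_nsmul hx N)) (hΦ p1)
  have b2 := sg_mono hD h0 (hf _ (fin_nsmul hfD (p + 1))) (hΦ p2)
  rw [map_nsmul, map_nsmul, sg_nsmul hD h0 (hf _ hfD), sg_nsmul hD h0 (hf _ hx)] at b1 b2
  push_cast at a b2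
  rw [abs_le]
  constructor <;> nlinarith [a.1, a.2, mul_le_mul_of_nonneg_right a.1 a0,
    mul_le_mul_of_nonneg_right a.2 a0]

end std

structure MO (X : Type) [LinearOrder X] where
  op : X → X → X
  left : ∀ y, StrictMono fun x => op x y
  right : ∀ x, StrictMono fun y => op x y
  idem : ∀ x, op x x = x
  med : ∀ x y u v, op (op x y) (op u v) = op (op x u) (op y v)

variable {X : Type} [LinearOrder X] [OrderBot X] (S : MO X)

namespace MO

def ph (x : X) : X := S.op x ⊥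
def ps (x : X) : X := S.op ⊥ x
def th (x : X) : X := S.ph (S.ps x)
def ad (x y : X) : X := S.op (S.ps x) (S.ph y)

theorem ph_op (x y : X) : S.ph (S.op x y) = S.op (S.ph x) (S.ph y) := by
  unfold ph; rw [← S.med, S.idem]
theorem ps_op (x y : X) : S.ps (S.op x y) = S.op (S.ps x) (S.ps y) := by
  unfold ps; rw [← S.med, S.idem]
theorem ph_bot : S.ph ⊥ = ⊥ := S.idem _
theorem ps_bot : S.ps ⊥ = ⊥ := S.idem _
theorem ps_ph (x : X) : S.ps (S.ph x) = S.ph (S.ps x) := by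
  have := S.ps_op x ⊥
  rw [ps_bot] at this
  exact this
theorem th_mono : StrictMono S.th := (S.left ⊥).comp (S.right ⊥)
theorem ad_comm (x y : X) : S.ad x y = S.ad y x := S.med _ _ _ _
theorem ad_bot (x : X) : S.ad x ⊥ = S.th x := by unfold ad; rw [ph_bot]; rfl
theorem ph_ad (x y : X) : S.ph (S.ad x y) = S.ad (S.ph x) (S.ph y) := by
  unfold ad; rw [ph_op, ps_ph]
theorem ps_ad (x y : X) : S.ps (S.ad x y) = S.ad (S.ps x) (S.ps y) := by
  unfold ad; rw [ps_op, ps_ph]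
theorem th_ad (x y : X) : S.th (S.ad x y) = S.ad (S.th x) (S.th y) := by
  unfold th; rw [ps_ad, ph_ad]
theorem ad_med (x y u v : X) : S.ad (S.ad x y) (S.ad u v) = S.ad (S.ad x u) (S.ad y v) := by
  have : ∀ x y u v, S.ad (S.ad x y) (S.ad u v) =
      S.op (S.op (S.ps (S.ps x)) (S.th y)) (S.op (S.th u) (S.ph (S.ph v))) := by
    intro x y u v
    unfold ad th
    rw [ps_op, ph_op, ps_ph]
  rw [this, this, S.med]
theorem ad_ph_ps (x y : X) : S.ad (S.ph x) (S.ps y) = S.th (S.op x y) := by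
  unfold ad th; rw [ps_op, ph_op, ps_ph]
theorem ad_mono (x : X) : StrictMono (S.ad x) := (S.right _).comp (S.left ⊥)
theorem th_bot : S.th ⊥ = ⊥ := by unfold th; rw [ps_bot, ph_bot]

def emb (k : ℕ) : X ↪o X := OrderEmbedding.ofStrictMono (S.th^[k]) (S.th_mono.iterate k)

theorem emb_apply (k : ℕ) (x : X) : S.emb k x = S.th^[k] x := rfl

def sys : ∀ i j : ℕ, i ≤ j → X ↪o X := fun i j _ => S.emb (j - i)

instance : DirectedSystem (fun _ : ℕ => X) (S.sys · · ·) where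
  map_self := by intro i x; simp [sys, emb_apply]
  map_map := by
    intro k j i hij hjk x
    simp only [sys, emb_apply]
    rw [← Function.iterate_add_apply]
    congr 1
    omega

def L : Type := DirectLimit (fun _ : ℕ => X) S.sys

def cl (i : ℕ) (x : X) : S.L := (⟦⟨i, x⟩⟧ : DirectLimit (fun _ : ℕ => X) S.sys)

theorem mk_it (i k : ℕ) (x : X) : S.cl (i + k) (S.th^[k] x) = S.cl i x := by
  have := DirectLimit.mk_apply (f := S.sys) i (i + k) x (Nat.le_add_right _ _)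
  simp only [sys, emb_apply, Nat.add_sub_cancel_left] at this
  exact this

theorem mk_succ (i : ℕ) (x : X) : S.cl (i + 1) (S.th x) = S.cl i x := S.mk_it i 1 x

theorem it_comm {g : X → X} (h : ∀ x, g (S.th x) = S.th (g x)) (k : ℕ) (x : X) :
    g (S.th^[k] x) = S.th^[k] (g x) := Function.Semiconj.iterate_right h k x

theorem it_ad (k : ℕ) (x y : X) : S.th^[k] (S.ad x y) = S.ad (S.th^[k] x) (S.th^[k] y) := by
  induction k with
  | zero => rfl
  | succ k ih => simp only [Function.iterate_succ_apply', ih, th_ad]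

noncomputable instance : Add S.L :=
  ⟨DirectLimit.lift₂ S.sys S.sys (fun i x y => S.cl (i + 1) (S.ad x y)) (by
    intro i j h x y
    simp only [sys, emb_apply]
    rw [← it_ad, ← S.mk_it (i + 1) (j - i)]
    congr 1
    omega)⟩

instance : Zero S.L := ⟨S.cl 0 ⊥⟩

noncomputable instance : LE S.L :=
  ⟨DirectLimit.lift₂ S.sys S.sys (fun _ x y => x ≤ y) (by
    intro i j h x y
    exact propext (S.sys i j h).le_iff_le.symm)⟩

theorem mk_add (i : ℕ) (x y : X) : S.cl i x + S.cl i y = S.cl (i + 1) (S.ad x y) :=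
  DirectLimit.lift₂_def S.sys S.sys (fun i x y => S.cl (i + 1) (S.ad x y)) _ i x y

theorem mk_le (i : ℕ) (x y : X) : S.cl i x ≤ S.cl i y ↔ x ≤ y :=
  Iff.of_eq (DirectLimit.lift₂_def (F₁ := fun _ => X) (F₂ := fun _ => X) S.sys S.sys
    (fun _ x y => x ≤ y) (fun i j h _ _ => propext (S.sys i j h).le_iff_le.symm) i x y)

theorem mk_bot (i : ℕ) : S.cl i ⊥ = 0 := by
  have := S.mk_it 0 i ⊥
  rw [Function.iterate_fixed S.th_bot, zero_add] at this
  exact this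

theorem ex1 (z : S.L) : ∃ i x, z = S.cl i x := DirectLimit.exists_eq_mk _ z
theorem ex2 (z w : S.L) : ∃ i x y, z = S.cl i x ∧ w = S.cl i y := DirectLimit.exists_eq_mk₂ _ z w
theorem ex3 (z w u : S.L) : ∃ i x y v, z = S.cl i x ∧ w = S.cl i y ∧ u = S.cl i v :=
  DirectLimit.exists_eq_mk₃ _ z w u

theorem add_comm' (z w : S.L) : z + w = w + z := by
  obtain ⟨i, x, y, rfl, rfl⟩ := S.ex2 z w
  rw [mk_add, mk_add, ad_comm]

theorem add_zero' (z : S.L) : z + 0 = z := by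
  obtain ⟨i, x, rfl⟩ := S.ex1 z
  rw [← S.mk_bot i, mk_add, ad_bot, mk_succ]

noncomputable instance : AddCommMonoid S.L where
  add_assoc := by
    intro z w u
    obtain ⟨i, x, y, v, rfl, rfl, rfl⟩ := S.ex3 z w u
    rw [mk_add, mk_add, ← S.mk_succ i v, ← S.mk_succ i x, mk_add, mk_add, ← ad_bot, ← ad_bot,
      S.ad_comm v ⊥, ad_med]
  zero_add := fun z => by rw [add_comm', add_zero']
  add_zero := S.add_zero'
  add_comm := S.add_comm'
  nsmul := nsmulRec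

noncomputable instance : LinearOrder S.L where
  le_refl := by
    intro z
    obtain ⟨i, x, rfl⟩ := S.ex1 z
    exact (S.mk_le _ _ _).mpr le_rfl
  le_trans := by
    intro z w u
    obtain ⟨i, x, y, v, rfl, rfl, rfl⟩ := S.ex3 z w u
    simp only [mk_le]
    exact le_trans
  le_antisymm := by
    intro z w
    obtain ⟨i, x, y, rfl, rfl⟩ := S.ex2 z w
    simp only [mk_le]
    intro h1 h2
    rw [le_antisymm h1 h2]
  le_total := by
    intro z w
    obtain ⟨i, x, y, rfl, rfl⟩ := S.ex2 z w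
    simp only [mk_le]
    exact le_total _ _
  toDecidableLE := Classical.decRel _

instance : IsOrderedCancelAddMonoid S.L where
  add_le_add_left := by
    intro z w h u
    obtain ⟨i, x, y, v, rfl, rfl, rfl⟩ := S.ex3 z w u
    rw [mk_add, mk_add, mk_le, S.ad_comm x, S.ad_comm y]
    exact (S.ad_mono v).monotone ((S.mk_le _ _ _).mp h)
  le_of_add_le_add_left := by
    intro u z w h
    obtain ⟨i, x, y, v, rfl, rfl, rfl⟩ := S.ex3 z w u
    rw [mk_add, mk_add, mk_le] at h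
    exact (S.mk_le _ _ _).mpr ((S.ad_mono v).le_iff_le.mp h)

theorem nonneg (z : S.L) : 0 ≤ z := by
  obtain ⟨i, x, rfl⟩ := S.ex1 z
  rw [← S.mk_bot i, mk_le]
  exact bot_le

theorem exists_hom (g : X → X) (h1 : ∀ x, g (S.th x) = S.th (g x)) (h2 : g ⊥ = ⊥)
    (h3 : ∀ x y, g (S.ad x y) = S.ad (g x) (g y)) (h4 : Monotone g) (h5 : ∀ x, g x ≤ x) :
    ∃ Φ : S.L →+ S.L, Monotone Φ ∧ (∀ z, Φ z ≤ z) ∧ ∀ i x, Φ (S.cl i x) = S.cl i (g x) := by
  let G : S.L → S.L := DirectLimit.map S.sys S.sys (fun _ => g) (by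
    intro i j h x
    exact (S.it_comm h1 _ x).symm)
  have hG : ∀ i x, G (S.cl i x) = S.cl i (g x) := fun i x => rfl
  refine ⟨⟨⟨G, ?_⟩, ?_⟩, ?_, ?_, hG⟩
  · rw [← S.mk_bot 0, hG, h2]
  · intro z w
    obtain ⟨i, x, y, rfl, rfl⟩ := S.ex2 z w
    simp only [mk_add, hG, h3]
  · intro z w h
    obtain ⟨i, x, y, rfl, rfl⟩ := S.ex2 z w
    exact (S.mk_le _ _ _).mpr (h4 ((S.mk_le _ _ _).mp h))
  · intro z
    obtain ⟨i, x, rfl⟩ := S.ex1 z
    exact (S.mk_le _ _ _).mpr (h5 x)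

theorem exists_f [OrderTop X] (hbt : (⊥ : X) < ⊤) : ∃ (α : ℝ) (f : X → ℝ), 0 ≤ α ∧ α ≤ 1 ∧
    Monotone f ∧ f ⊥ = 0 ∧ f ⊤ = 1 ∧ ∀ x y, f (S.op x y) = α * f x + (1 - α) * f y := by
  have hp : ∀ x, S.ph x ≤ x := fun x =>
    ((S.right x).monotone bot_le).trans (S.idem x).le
  have hq : ∀ x, S.ps x ≤ x := fun x =>
    ((S.left x).monotone bot_le).trans (S.idem x).le
  obtain ⟨Φ, a1, a2, a3⟩ := S.exists_hom S.ph (fun x => by unfold th; rw [ps_ph]) S.ph_bot S.ph_ad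
    (S.left ⊥).monotone hp
  obtain ⟨Ψ, b1, b2, b3⟩ := S.exists_hom S.ps (fun x => by unfold th; rw [ps_ph]) S.ps_bot S.ps_ad
    (S.right ⊥).monotone hq
  have hD : (0 : S.L) < S.cl 0 ⊤ := by
    rw [← S.mk_bot 0, ← not_le, mk_le, not_le]; exact hbt
  have h0 := S.nonneg
  have hf : ∀ x, ∃ k : ℕ, S.cl 0 x ≤ k • S.cl 0 ⊤ := fun x =>
    ⟨1, by rw [one_nsmul, mk_le]; exact le_top⟩
  have key : ∀ x y, sg (S.cl 0 ⊤) (S.cl 0 (S.op x y)) =
      sg (S.cl 0 ⊤) (Φ (S.cl 0 ⊤)) * sg (S.cl 0 ⊤) (S.cl 0 x)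
        + sg (S.cl 0 ⊤) (Ψ (S.cl 0 ⊤)) * sg (S.cl 0 ⊤) (S.cl 0 y) := by
    intro x y
    rw [← sg_hom hD h0 Φ a1 a2 (hf x), ← sg_hom hD h0 Ψ b1 b2 (hf y), a3, b3,
      ← sg_add hD h0 (hf _) (hf _), mk_add, ad_ph_ps, mk_succ]
  have hs := key ⊤ ⊤
  rw [S.idem, sg_D hD h0] at hs
  have n1 : 0 ≤ sg (S.cl 0 ⊤) (Φ (S.cl 0 ⊤)) := by
    rw [← sg_zero hD h0, a3]; exact sg_mono hD h0 (hf _) (h0 _)
  have n2 : 0 ≤ sg (S.cl 0 ⊤) (Ψ (S.cl 0 ⊤)) := by
    rw [← sg_zero hD h0, b3]; exact sg_mono hD h0 (hf _) (h0 _)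
  refine ⟨sg (S.cl 0 ⊤) (Φ (S.cl 0 ⊤)), fun x => sg (S.cl 0 ⊤) (S.cl 0 x), n1, by linarith,
    fun x y h => sg_mono hD h0 (hf y) ((S.mk_le _ _ _).mpr h), ?_, sg_D hD h0, fun x y => ?_⟩
  · simp only [mk_bot]; exact sg_zero hD h0
  · simp only
    rw [key]
    congr 2
    linarith

end MO

end Pool.Agent.H5.Medial
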