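import Mathlib

set_option autoImplicit false

namespace Pool.Agent.H5.Mono

open Complex

/-- density lemma -/
theorem dense_vanish (μ : ℂ) (hμ : ∀ n : ℕ, 0 < n → (μ ^ n).im ≠ 0) (H : ℂ → ℝ)
    (hc : Continuous H) (hh : ∀ (t : ℝ) (z : ℂ), 0 < t → H (t * z) = t * H z)
    (hv : ∀ n : ℕ, H (μ ^ n) = 0) (z : ℂ) (hz : z ≠ 0) : H z = 0 := by
  have hμ0 : μ ≠ 0 := by
    intro h
    apply hμ 1 one_pos
    simp [h]
  have hpos : 0 < ‖μ‖ := norm_pos_iff.2 hμ0
  have : Fact (0 < 2 * Real.pi) := ⟨by positivity⟩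
  have hcoe : ∀ x : ℝ, ((AddCircle.toCircle (x : AddCircle (2 * Real.pi)) : Circle) : ℂ)
      = Complex.exp (x * I) := by
    intro x
    rw [AddCircle.toCircle_apply_mk, Circle.coe_exp]
    have : 2 * Real.pi / (2 * Real.pi) * x = x := by
      have := Real.pi_pos
      field_simp
    rw [this]
  let a : AddCircle (2 * Real.pi) := ((arg μ : ℝ) : AddCircle (2 * Real.pi))
  have ha : ∀ n : ℕ, ((‖μ‖ ^ n : ℝ) : ℂ) * ((AddCircle.toCircle (n • a) : Circle) : ℂ) = μ ^ n := by
    intro n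
    rw [AddCircle.toCircle_nsmul, Circle.coe_pow, hcoe]
    push_cast
    rw [← mul_pow, norm_mul_exp_arg_mul_I]
  have hord : addOrderOf a = 0 := by
    rw [addOrderOf_eq_zero_iff']
    intro n hn h0
    have h1 := ha n
    rw [h0] at h1
    apply hμ n hn
    rw [← h1]
    simp only [AddCircle.toCircle_zero, Circle.coe_one, mul_one, ofReal_im]
  have hd : DenseRange (· • a : ℕ → AddCircle (2 * Real.pi)) :=
    denseRange_zsmul_iff_nsmul.1 (AddCircle.denseRange_zsmul_iff.2 hord)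
  let g : AddCircle (2 * Real.pi) → ℝ := fun x => H ((AddCircle.toCircle x : Circle) : ℂ)
  have hg : Continuous g :=
    hc.comp (continuous_induced_dom.comp AddCircle.continuous_toCircle)
  have hg0 : g = fun _ => 0 := by
    apply hd.equalizer hg continuous_const
    funext n
    have h1 := hv n
    rw [← ha n, hh _ _ (pow_pos hpos n)] at h1
    have := (mul_eq_zero.1 h1).resolve_left (pow_pos hpos n).ne'
    exact this
  have h2 : g ((arg z : ℝ) : AddCircle (2 * Real.pi)) = 0 := by rw [hg0]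
  have h3 : H z = H ((‖z‖ : ℝ) * Complex.exp (arg z * I)) := by rw [norm_mul_exp_arg_mul_I]
  rw [h3, hh _ _ (norm_pos_iff.2 hz)]
  simp only [g, hcoe] at h2
  rw [h2, mul_zero]

/-- piecewise linear function -/
noncomputable def W (μ z : ℂ) : ℝ :=
  -(μ * z).im - |(μ * z).im| - 3 * z.im + 3 * |z.im|

theorem W_cont (μ : ℂ) : Continuous (W μ) := by
  unfold W
  fun_prop

theorem W_hom (μ : ℂ) (t : ℝ) (z : ℂ) (ht : 0 < t) : W μ (t * z) = t * W μ z := by
  unfold W
  have h1 : (μ * (t * z)).im = t * (μ * z).im := by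
    rw [mul_left_comm, im_ofReal_mul]
  rw [h1, im_ofReal_mul, abs_mul, abs_mul, abs_of_pos ht]
  ring

theorem no_rec (μ : ℂ) (hμ : ∀ n : ℕ, 0 < n → (μ ^ n).im ≠ 0) (d K : ℕ) (a : Fin d → ℝ)
    (h : ∀ k, K ≤ k → W μ (μ ^ (k + d)) = ∑ i : Fin d, a i * W μ (μ ^ (k + (i : ℕ)))) : False := by
  have hμ0 : μ ≠ 0 := by
    intro h
    apply hμ 1 one_pos
    simp [h]
  let H : ℂ → ℝ := fun z => W μ (μ ^ (K + d) * z) - ∑ i : Fin d, a i * W μ (μ ^ (K + (i : ℕ)) * z)
  have hc : Continuous H := by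
    have := W_cont μ
    fun_prop
  have hh : ∀ (t : ℝ) (z : ℂ), 0 < t → H (t * z) = t * H z := by
    intro t z ht
    simp only [H, mul_left_comm _ (t : ℂ), W_hom μ t _ ht, mul_sub, Finset.mul_sum]
    congr 1
    exact Finset.sum_congr rfl fun i _ => by ring
  have hv : ∀ n : ℕ, H (μ ^ n) = 0 := by
    intro n
    have h1 := h (K + n) (Nat.le_add_right _ _)
    simp only [H, ← pow_add]
    rw [sub_eq_zero, show K + d + n = K + n + d by ring, h1]
    exact Finset.sum_congr rfl fun i _ => by rw [show K + (i : ℕ) + n = K + n + i by ring]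
  have hall := dense_vanish μ hμ H hc hh hv
  -- test curve
  let c : ℝ → ℂ := fun s => (μ ^ (K + d + 1))⁻¹ * (1 + s * I)
  have hc0 : ∀ s, c s ≠ 0 := by
    intro s
    refine mul_ne_zero (inv_ne_zero (pow_ne_zero _ hμ0)) ?_
    intro h0
    have := congrArg re h0
    simp at this
  let ψ : ℕ → ℝ → ℝ := fun j s => (μ ^ (K + j) * c s).im
  have hψd : ∀ j, Differentiable ℝ (ψ j) := by
    intro j
    have h1 : Differentiable ℝ (fun s : ℝ => μ ^ (K + j) * c s) := by
      simp only [c]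
      have : Differentiable ℝ (fun s : ℝ => (s : ℂ)) := ofRealCLM.differentiable
      fun_prop
    exact imCLM.differentiable.comp h1
  have hψ0 : ∀ j, j ≤ d → ψ j 0 ≠ 0 := by
    intro j hj
    obtain ⟨e, rfl⟩ := Nat.exists_eq_add_of_le hj
    have h1 : μ ^ (K + j) * c 0 = (μ ^ (e + 1))⁻¹ := by
      simp only [c]
      rw [show K + (j + e) + 1 = (K + j) + (e + 1) by ring, pow_add μ (K + j)]
      have := pow_ne_zero (K + j) hμ0
      have := pow_ne_zero (e + 1) hμ0
      field_simp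
      simp
    simp only [ψ, h1, inv_im]
    refine div_ne_zero (neg_ne_zero.2 (hμ _ (Nat.succ_pos _))) ?_
    exact (normSq_pos.2 (pow_ne_zero _ hμ0)).ne'
  have hψt : ∀ s, ψ (d + 1) s = s := by
    intro s
    have h1 : μ ^ (K + (d + 1)) * c s = 1 + s * I := by
      simp only [c]
      rw [← add_assoc, mul_inv_cancel_left₀ (pow_ne_zero _ hμ0)]
    simp only [ψ, h1]
    simp
  have hW : ∀ j s, W μ (μ ^ (K + j) * c s)
      = -ψ (j + 1) s - |ψ (j + 1) s| - 3 * ψ j s + 3 * |ψ j s| := by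
    intro j s
    simp only [W, ψ]
    rw [← mul_assoc, ← pow_succ', add_assoc]
  have hid : (fun s : ℝ => |s|) = fun s => -s - 3 * ψ d s + 3 * |ψ d s|
      - ∑ i : Fin d, a i * (-ψ (i + 1) s - |ψ (i + 1) s| - 3 * ψ i s + 3 * |ψ i s|) := by
    funext s
    have h1 := hall (c s) (hc0 s)
    simp only [H, hW, hψt] at h1
    linarith
  apply not_differentiableAt_abs_zero
  have habs : ∀ j, j ≤ d → DifferentiableAt ℝ (fun s => |ψ j s|) 0 :=
    fun j hj => (hψd j 0).abs (hψ0 j hj)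
  change DifferentiableAt ℝ (fun s : ℝ => |s|) 0
  rw [hid]
  refine DifferentiableAt.sub ?_ ?_
  · have h1 := habs d le_rfl
    have h2 := hψd d 0
    fun_prop
  · refine DifferentiableAt.fun_sum fun i _ => ?_
    have h1 := habs i i.2.le
    have h2 := habs (i + 1) i.2
    have h3 := hψd i 0
    have h4 := hψd (i + 1) 0
    fun_prop

/-- monomial map -/
def mono {n : ℕ} (B : Matrix (Fin n) (Fin n) ℕ) (z : Fin n → ℂ) : Fin n → ℂ :=
  fun i => ∏ j, z j ^ B i j

theorem mono_mul {n : ℕ} (A B : Matrix (Fin n) (Fin n) ℕ) (z : Fin n → ℂ) :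
    mono A (mono B z) = mono (A * B) z := by
  funext i
  simp only [mono, Matrix.mul_apply, ← Finset.prod_pow, ← pow_mul]
  rw [Finset.prod_comm]
  refine Finset.prod_congr rfl fun j _ => ?_
  rw [Finset.prod_pow_eq_pow_sum]
  congr 1
  exact Finset.sum_congr rfl fun k _ => mul_comm _ _

theorem mono_iter {n : ℕ} (A : Matrix (Fin n) (Fin n) ℕ) (k : ℕ) :
    (mono A)^[k] = mono (A ^ k) := by
  induction k with
  | zero =>
    funext z i
    simp [mono, Matrix.one_apply]
  | succ k ih =>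
    funext z
    rw [Function.iterate_succ_apply', ih, mono_mul, pow_succ']

theorem mono_contDiff {n : ℕ} (B : Matrix (Fin n) (Fin n) ℕ) (m : WithTop ℕ∞) :
    ContDiff ℂ m (mono B) := by
  rw [contDiff_pi]
  intro i
  simp only [mono]
  exact contDiff_prod fun j _ => (contDiff_apply ℂ ℂ j).pow _

theorem hom_zero {n : ℕ} (g : (Fin n → ℂ) → ℂ) (D m : ℕ) (hg : ContDiff ℂ m g)
    (hh : ∀ z, g ((2 : ℂ) • z) = (2 : ℂ) ^ D • g z) (hm : m ≠ D) :
    iteratedFDeriv ℂ m g 0 = 0 := by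
  let L : (Fin n → ℂ) →L[ℂ] (Fin n → ℂ) := (2 : ℂ) • ContinuousLinearMap.id ℂ _
  have h1 := L.iteratedFDeriv_comp_right hg 0 (i := m) le_rfl
  have h2 : g ∘ L = (2 : ℂ) ^ D • g := by
    funext z
    exact hh z
  rw [h2, iteratedFDeriv_const_smul_apply hg.contDiffAt, map_zero] at h1
  ext v
  have h3 := congrArg (fun T => T v) h1
  simp only [smul_apply,
    ContinuousMultilinearMap.compContinuousLinearMap_apply, L,
    ContinuousLinearMap.id_apply] at h3
  rw [ContinuousMultilinearMap.map_smul_univ] at h3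
  simp only [Finset.prod_const, Finset.card_univ, Fintype.card_fin, smul_eq_mul] at h3
  have h4 : (2 : ℂ) ^ D ≠ 2 ^ m := by
    intro h
    have : (2 : ℕ) ^ D = 2 ^ m := by exact_mod_cast h
    exact hm (Nat.pow_right_injective le_rfl this).symm
  have h5 : ((2 : ℂ) ^ D - 2 ^ m) * iteratedFDeriv ℂ m g 0 v = 0 := by
    rw [sub_mul, h3, sub_self]
  exact (mul_eq_zero.1 h5).resolve_left (sub_ne_zero.2 h4)

theorem comp_eq {n : ℕ} (B : Matrix (Fin n) (Fin n) ℕ) (m : ℕ) (i : Fin n)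
    (v : Fin m → Fin n → ℂ) :
    iteratedFDeriv ℂ m (mono B) 0 v i = iteratedFDeriv ℂ m (fun z => mono B z i) 0 v := by
  have h1 := (ContinuousLinearMap.proj (R := ℂ) (φ := fun _ : Fin n => ℂ) i).iteratedFDeriv_comp_left
    (mono_contDiff B m).contDiffAt (x := 0) (i := m) le_rfl
  have h2 := congrArg (fun T => T v) h1
  exact h2.symm

theorem mono_hom {n : ℕ} (B : Matrix (Fin n) (Fin n) ℕ) (i : Fin n) (t : ℂ) (z : Fin n → ℂ) :
    mono B (t • z) i = t ^ (∑ j, B i j) • mono B z i := by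
  simp only [mono, Pi.smul_apply, smul_eq_mul, mul_pow, Finset.prod_mul_distrib,
    Finset.prod_pow_eq_pow_sum]

theorem order_mem {n : ℕ} (B : Matrix (Fin n) (Fin n) ℕ) (m : ℕ) :
    iteratedFDeriv ℂ m (mono B) 0 ≠ 0 ↔ ∃ i, ∑ j, B i j = m := by
  have hci : ∀ i, ContDiff ℂ m (fun z => mono B z i) := fun i =>
    contDiff_pi.1 (mono_contDiff B m) i
  constructor
  · intro h
    by_contra hne
    push Not at hne
    apply h
    ext v i
    rw [comp_eq, hom_zero _ (∑ j, B i j) m (hci i) (mono_hom B i 2) (hne i).symm]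
    rfl
  · rintro ⟨i, hi⟩ h0
    let L : ℂ →L[ℂ] (Fin n → ℂ) := ContinuousLinearMap.toSpanSingleton ℂ (fun _ => 1)
    have h1 := L.iteratedFDeriv_comp_right (hci i) 0 (i := m) le_rfl
    have h2 : (fun z => mono B z i) ∘ L = fun t : ℂ => t ^ m := by
      funext t
      simp only [Function.comp, L, ContinuousLinearMap.toSpanSingleton_apply]
      rw [mono_hom, hi]
      simp [mono]
    rw [h2, map_zero] at h1
    have h3 := congrArg (fun T => T (fun _ => 1)) h1
    simp only [ContinuousMultilinearMap.compContinuousLinearMap_apply] at h3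
    rw [← comp_eq, h0, ← iteratedDeriv_eq_iteratedFDeriv, iteratedDeriv_fun_pow_zero] at h3
    simp [Nat.factorial_ne_zero] at h3

end Pool.Agent.H5.Mono
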