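import Mathlib

set_option autoImplicit false

namespace Pool.Agent.H5.Para

open Metric Set
open scoped InnerProductSpace

section
variable {E : Type} [NormedAddCommGroup E] [InnerProductSpace ℝ E]

theorem proj {K : Set E} (hK : IsCompact K) (hc : Convex ℝ K) (hne : K.Nonempty) {q : E}
    (hq : q ∉ K) : ∃ q' ∈ K, ∃ u : E, ‖u‖ = 1 ∧ ∃ ρ : ℝ, 0 < ρ ∧ q = q' + ρ • u ∧
      ∀ y ∈ K, ⟪u, y - q'⟫_ℝ ≤ 0 := by
  obtain ⟨v, hv, h⟩ := exists_norm_eq_iInf_of_complete_convex hne hK.isComplete hc q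
  rw [norm_eq_iInf_iff_real_inner_le_zero hc hv] at h
  have h0 : q - v ≠ 0 := fun e => hq (by rw [sub_eq_zero.1 e]; exact hv)
  have hp : 0 < ‖q - v‖ := norm_pos_iff.2 h0
  refine ⟨v, hv, ‖q - v‖⁻¹ • (q - v), ?_, ‖q - v‖, hp, ?_, ?_⟩
  · rw [norm_smul, norm_inv, norm_norm, inv_mul_cancel₀ hp.ne']
  · rw [smul_smul, mul_inv_cancel₀ hp.ne', one_smul]; abel
  · intro y hy
    rw [real_inner_smul_left]
    exact mul_nonpos_of_nonneg_of_nonpos (by positivity) (h y hy)

theorem ball_sub {K : Set E} (hK : IsCompact K) (hc : Convex ℝ K) (hne : K.Nonempty) {p : E}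
    {r ε : ℝ} (hε : 0 < ε) (h : ∀ z ∈ ball p r, ∃ y ∈ K, dist z y < ε) : ball p (r - ε) ⊆ K := by
  intro q hq
  by_contra hqK
  obtain ⟨q', hq', u, hu, ρ, hρ, hqe, hy⟩ := proj hK hc hne hqK
  have hz : q + ε • u ∈ ball p r := by
    rw [mem_ball] at hq ⊢
    have h1 : dist (q + ε • u) q = ε := by
      rw [dist_eq_norm, add_sub_cancel_left, norm_smul, hu, Real.norm_of_nonneg hε.le, mul_one]
    linarith [dist_triangle (q + ε • u) q p]
  obtain ⟨y, hyK, hyd⟩ := h _ hz
  have h1 := real_inner_le_norm u (q + ε • u - y)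
  rw [hu, one_mul, ← dist_eq_norm] at h1
  have h2 : q + ε • u - y = (ρ + ε) • u - (y - q') := by
    rw [hqe, add_smul]; abel
  rw [h2, inner_sub_right, real_inner_smul_right, real_inner_self_eq_norm_sq, hu] at h1
  have := hy y hyK
  linarith

theorem hull [FiniteDimensional ℝ E] {K : Set E} (hK : IsCompact K) (hc : Convex ℝ K)
    (hne : K.Nonempty) {ε : ℝ} (hε : 0 < ε) :
    ∃ K' : Set E, IsCompact K' ∧ Convex ℝ K' ∧ K ⊆ K' ∧ (∀ q ∈ K', ∃ y ∈ K, dist q y ≤ ε) ∧
      ∀ δ : ℝ, 0 < δ → ∃ η : ℝ, 0 < η ∧ ∀ p ∈ K', ∀ q ∈ K', δ ≤ dist p q →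
        ball ((1 / 2 : ℝ) • (p + q)) η ⊆ K' := by
  have : ProperSpace E := FiniteDimensional.proper ℝ E
  obtain ⟨D0, hD0⟩ := Metric.isBounded_iff.1 hK.isBounded
  set D := |D0| + 1 with hD
  have hDpos : 0 < D := by positivity
  have hD1 : ∀ x ∈ K, ∀ y ∈ K, dist x y ≤ D := fun x hx y hy =>
    (hD0 hx hy).trans (by linarith [le_abs_self D0])
  set t := D ^ 2 / (2 * ε) with ht
  have htpos : 0 < t := by positivity
  have ht2 : 2 * ε * t = D ^ 2 := by rw [ht]; field_simp
  set R := Real.sqrt (t ^ 2 + D ^ 2) with hR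
  have hR2 : R ^ 2 = t ^ 2 + D ^ 2 := Real.sq_sqrt (by positivity)
  have hRpos : 0 < R := Real.sqrt_pos.2 (by positivity)
  have hDR : D ≤ R := by nlinarith
  let K' : Set E := ⋂ c ∈ {c : E | K ⊆ closedBall c R}, closedBall c R
  have hmem : ∀ q, q ∈ K' ↔ ∀ c, K ⊆ closedBall c R → dist q c ≤ R := by
    intro q; simp [K']
  obtain ⟨y0, hy0⟩ := hne
  refine ⟨K', ?_, ?_, ?_, ?_, ?_⟩
  · refine (isCompact_closedBall y0 R).of_isClosed_subset
      (isClosed_biInter fun c _ => isClosed_closedBall) fun q hq => ?_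
    exact (hmem q).1 hq y0 fun y hy => (hD1 y hy y0 hy0).trans hDR
  · exact convex_iInter₂ fun c _ => convex_closedBall c R
  · intro q hq; exact (hmem q).2 fun c hc => hc hq
  · intro q hq
    by_cases hqK : q ∈ K
    · exact ⟨q, hqK, by simpa using hε.le⟩
    obtain ⟨q', hq', u, hu, ρ, hρ, hqe, hy⟩ := proj hK hc ⟨y0, hy0⟩ hqK
    refine ⟨q', hq', ?_⟩
    have h1 := (hmem q).1 hq (q' - t • u) (by
      intro y hyK
      rw [mem_closedBall, dist_eq_norm]
      have e : y - (q' - t • u) = (y - q') + t • u := by abel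
      have h2 : ‖y - (q' - t • u)‖ ^ 2 ≤ R ^ 2 := by
        rw [e, norm_add_sq_real, norm_smul, hu, real_inner_smul_right, real_inner_comm,
          Real.norm_of_nonneg htpos.le]
        have h3 := hy y hyK
        have h4 := hD1 y hyK q' hq'
        rw [dist_eq_norm] at h4
        nlinarith [norm_nonneg (y - q')]
      exact le_of_sq_le_sq h2 hRpos.le)
    have e : dist q (q' - t • u) = ρ + t := by
      rw [dist_eq_norm, hqe]
      have : q' + ρ • u - (q' - t • u) = (ρ + t) • u := by rw [add_smul]; abel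
      rw [this, norm_smul, hu, Real.norm_of_nonneg (by positivity), mul_one]
    have e2 : dist q q' = ρ := by
      rw [dist_eq_norm, hqe, add_sub_cancel_left, norm_smul, hu, Real.norm_of_nonneg hρ.le, mul_one]
    rw [e] at h1
    rw [e2]
    by_contra hlt
    push Not at hlt
    have h5 : (ρ + t) ^ 2 ≤ R ^ 2 := pow_le_pow_left₀ (by positivity) h1 2
    nlinarith
  · intro δ hδ
    refine ⟨δ ^ 2 / (8 * R), by positivity, fun p hp q hq hpq z hz => (hmem z).2 fun c hc => ?_⟩
    have h1 := (hmem p).1 hp c hc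
    have h2 := (hmem q).1 hq c hc
    rw [dist_eq_norm] at h1 h2 hpq
    set η := δ ^ 2 / (8 * R) with hη
    have hη2 : 8 * R * η = δ ^ 2 := by rw [hη]; field_simp
    have hpar := parallelogram_law_with_norm ℝ (p - c) (q - c)
    have e1 : (1 / 2 : ℝ) • (p + q) - c = (1 / 2 : ℝ) • (p - c + (q - c)) := by
      module
    have e2 : p - c - (q - c) = p - q := by abel
    rw [e2] at hpar
    have e3 : ‖(1 / 2 : ℝ) • (p + q) - c‖ = ‖p - c + (q - c)‖ / 2 := by
      rw [e1, norm_smul, Real.norm_of_nonneg (by norm_num)]; ring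
    have h3 : ‖p - q‖ ≤ 2 * R := by
      rw [← e2]; linarith [norm_sub_le (p - c) (q - c)]
    have h4 : η ≤ R := by
      have : δ ^ 2 ≤ (2 * R) ^ 2 := pow_le_pow_left₀ hδ.le (hpq.trans h3) 2
      nlinarith
    have h5 : ‖(1 / 2 : ℝ) • (p + q) - c‖ ≤ R - η := by
      refine le_of_sq_le_sq ?_ (by linarith)
      rw [e3]
      have a1 : ‖p - c‖ ^ 2 ≤ R ^ 2 := pow_le_pow_left₀ (norm_nonneg _) h1 2
      have a2 : ‖q - c‖ ^ 2 ≤ R ^ 2 := pow_le_pow_left₀ (norm_nonneg _) h2 2
      have a3 : δ ^ 2 ≤ ‖p - q‖ ^ 2 := pow_le_pow_left₀ hδ.le hpq 2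
      nlinarith [sq_nonneg η]
    rw [mem_ball] at hz
    rw [← dist_eq_norm] at h5
    linarith [dist_triangle z ((1 / 2 : ℝ) • (p + q)) c]

theorem generic [FiniteDimensional ℝ E] {d : ℕ} (hd : Module.finrank ℝ E = d)
    (hlt : d + d * d < 2 ^ d) {J : Type} [Fintype J] (f : J → StrongDual ℝ E) (lo hi : J → ℝ)
    (h : ∀ j, lo j < hi j) : ∃ b : J → ℝ, (∀ j, lo j < b j ∧ b j < hi j) ∧
      ∀ σ : Finset (Fin d) → J, Function.Injective σ → ∀ (x : E) (v : Fin d → E),
        ¬ ∀ s, f (σ s) (x + ∑ i ∈ s, v i) = b (σ s) := by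
  classical
  let L : (Finset (Fin d) → J) → (E × (Fin d → E)) →ₗ[ℝ] (Finset (Fin d) → ℝ) := fun σ =>
    { toFun := fun w s => f (σ s) (w.1 + ∑ i ∈ s, w.2 i)
      map_add' := by
        intro w w'; funext s
        simp only [Prod.fst_add, Prod.snd_add, Pi.add_apply, Finset.sum_add_distrib, ← map_add]
        congr 1; abel
      map_smul' := by
        intro c w; funext s
        simp only [Prod.smul_fst, Prod.smul_snd, Pi.smul_apply, ← Finset.smul_sum, ← smul_add,
          map_smul, RingHom.id_apply] }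
  let W : (Finset (Fin d) → J) → Submodule ℝ (J → ℝ) := fun σ =>
    (LinearMap.range (L σ)).comap (LinearMap.funLeft ℝ ℝ σ)
  have hW : ∀ σ : Finset (Fin d) → J, Function.Injective σ → W σ ≠ ⊤ := by
    intro σ hσ htop
    have hs := LinearMap.funLeft_surjective_of_injective ℝ ℝ σ hσ
    have : LinearMap.range (L σ) = ⊤ := by
      rw [eq_top_iff]
      intro y _
      obtain ⟨b, rfl⟩ := hs y
      have : b ∈ W σ := htop ▸ Submodule.mem_top
      exact this
    have h1 := LinearMap.finrank_range_le (L σ)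
    rw [this, finrank_top, Module.finrank_prod, Module.finrank_pi, Module.finrank_pi_fintype,
      Fintype.card_finset, Fintype.card_fin] at h1
    simp [hd] at h1
    omega
  have hdense : Dense (⋂ σ : {σ : Finset (Fin d) → J // Function.Injective σ},
      ((W σ.1 : Set (J → ℝ)))ᶜ) := by
    refine dense_iInter_of_isOpen (fun σ => (Submodule.closed_of_finiteDimensional _).isOpen_compl)
      fun σ => ?_
    rw [← interior_eq_empty_iff_dense_compl]
    by_contra hne
    exact hW σ.1 σ.2 (Submodule.eq_top_of_nonempty_interior' _ (Set.nonempty_iff_ne_empty.2 hne))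
  obtain ⟨b, hb1, hb2⟩ := hdense.inter_open_nonempty (Set.pi univ fun j => Ioo (lo j) (hi j))
    (isOpen_set_pi finite_univ fun j _ => isOpen_Ioo)
    ⟨fun j => (lo j + hi j) / 2, fun j _ => ⟨by linarith [h j], by linarith [h j]⟩⟩
  refine ⟨b, fun j => hb1 j (mem_univ j), fun σ hσ x v hxv => ?_⟩
  refine (mem_iInter.1 hb2 ⟨σ, hσ⟩) ⟨(x, v), ?_⟩
  funext s
  exact hxv s

theorem approx [FiniteDimensional ℝ E] {d : ℕ} (hd : Module.finrank ℝ E = d)
    (hlt : d + d * d < 2 ^ d) (K : ConvexBody E) {ε δ : ℝ} (hε : 0 < ε) (hδ : 0 < δ) :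
    ∃ P : ConvexBody E, dist K P ≤ 2 * ε ∧ ∀ (x : E) (v : Fin d → E),
      (∀ s : Finset (Fin d), x + ∑ i ∈ s, v i ∈ frontier (P : Set E)) →
      ¬ ∀ s t : Finset (Fin d), s ≠ t → δ ≤ dist (x + ∑ i ∈ s, v i) (x + ∑ i ∈ t, v i) := by
  classical
  have : ProperSpace E := FiniteDimensional.proper ℝ E
  obtain ⟨K', hK', hc', hKK', hnear, hη⟩ := hull K.isCompact K.convex K.nonempty hε
  obtain ⟨η, hη0, hη⟩ := hη (δ / 3) (by positivity)
  set e := min ε (min η (δ / 3)) with he
  have he0 : 0 < e := by positivity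
  have he1 : e ≤ ε := min_le_left _ _
  have he2 : e ≤ η := (min_le_right _ _).trans (min_le_left _ _)
  have he3 : e ≤ δ / 3 := (min_le_right _ _).trans (min_le_right _ _)
  obtain ⟨M, hM⟩ := hK'.isBounded.subset_closedBall 0
  have hsep : ∀ q : E, ∃ (f : StrongDual ℝ E) (u : ℝ), q ∉ K' → (∀ a ∈ K', f a < u) ∧ u < f q := by
    intro q
    by_cases hq : q ∈ K'
    · exact ⟨0, 0, fun h => absurd hq h⟩
    · obtain ⟨f, u, h⟩ := geometric_hahn_banach_closed_point hc' hK'.isClosed hq
      exact ⟨f, u, fun _ => h⟩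
  choose f u hfu using hsep
  set T := closedBall (0 : E) (M + e) \ thickening e K' with hT
  have hTc : IsCompact T := (isCompact_closedBall _ _).diff isOpen_thickening
  have hTK : ∀ q ∈ T, q ∉ K' := fun q hq h => hq.2 (self_subset_thickening he0 _ h)
  obtain ⟨t, ht1, ht2⟩ := hTc.elim_nhds_subcover (fun q => {y | (u q + f q q) / 2 < f q y})
    (fun q hq => (isOpen_lt continuous_const (f q).continuous).mem_nhds
      (by have := (hfu q (hTK q hq)).2; simp only [mem_ofPred_eq]; linarith))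
  obtain ⟨b, hb, hgen⟩ := generic hd hlt (J := t) (fun j => f j) (fun j => u j)
    (fun j => (u j + f j j) / 2)
    (fun j => by have := (hfu j (hTK j (ht1 j j.2))).2; linarith)
  let P : Set E := closedBall (0 : E) (M + e) ∩ ⋂ j : t, {y | f j y ≤ b j}
  have hPcl : IsClosed P := isClosed_closedBall.inter
    (isClosed_iInter fun j => isClosed_le (f j).continuous continuous_const)
  have hK'lt : ∀ j : t, ∀ y ∈ K', f j y < b j := fun j y hy =>
    ((hfu j (hTK j (ht1 j j.2))).1 y hy).trans (hb j).1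
  have hK'P : K' ⊆ P := fun y hy => ⟨closedBall_subset_closedBall (by linarith) (hM hy),
    mem_iInter.2 fun j => (hK'lt j y hy).le⟩
  have hPth : ∀ y ∈ P, ∃ z ∈ K', dist y z < e := by
    intro y hy
    by_contra hcon
    have hyT : y ∈ T := ⟨hy.1, fun h => hcon (mem_thickening_iff.1 h)⟩
    obtain ⟨j, hj, hyj⟩ := mem_iUnion₂.1 (ht2 hyT)
    have h1 := mem_iInter.1 hy.2 ⟨j, hj⟩
    have h2 := (hb ⟨j, hj⟩).2
    simp only [mem_ofPred_eq] at h1 h2 hyj
    linarith
  have hfr : ∀ p ∈ frontier P, ∃ j : t, f j p = b j := by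
    intro p hp
    have hpP : p ∈ P := hPcl.frontier_subset hp
    by_contra hcon
    push Not at hcon
    apply hp.2
    have ho : IsOpen (ball (0 : E) (M + e) ∩ ⋂ j : t, {y | f j y < b j}) :=
      isOpen_ball.inter (isOpen_iInter_of_finite fun j =>
        isOpen_lt (f j).continuous continuous_const)
    refine interior_maximal ?_ ho ⟨?_, mem_iInter.2 fun j => ?_⟩
    · exact fun y hy => ⟨ball_subset_closedBall hy.1,
        mem_iInter.2 fun j => le_of_lt (a := f j y) (mem_iInter.1 hy.2 j)⟩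
    · obtain ⟨z, hz, hpz⟩ := hPth p hpP
      have := hM hz
      rw [mem_closedBall] at this
      rw [mem_ball]
      linarith [dist_triangle p z 0]
    · exact lt_of_le_of_ne (mem_iInter.1 hpP.2 j) (hcon j)
  refine ⟨⟨P, ?_, ?_, ?_⟩, ?_, ?_⟩
  · exact (convex_closedBall _ _).inter (convex_iInter fun j =>
      convex_halfSpace_le (f j).toLinearMap.isLinear _)
  · exact (isCompact_closedBall _ _).of_isClosed_subset hPcl inter_subset_left
  · exact K.nonempty.mono (hKK'.trans hK'P)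
  · rw [← ConvexBody.hausdorffDist_coe]
    refine hausdorffDist_le_of_mem_dist (by positivity)
      (fun x hx => ⟨x, hK'P (hKK' hx), by simp; positivity⟩) fun y hy => ?_
    obtain ⟨z, hz, h1⟩ := hPth y hy
    obtain ⟨w, hw, h2⟩ := hnear z hz
    exact ⟨w, hw, by linarith [dist_triangle y z w]⟩
  · intro x v hfront hsep
    change ∀ s : Finset (Fin d), x + ∑ i ∈ s, v i ∈ frontier P at hfront
    choose σ hσ using fun s => hfr _ (hfront s)
    refine hgen σ ?_ x v hσ
    intro s s' hss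
    by_contra hne
    have h1 := hsep s s' hne
    have h2 := hσ s
    have h3 := hσ s'
    rw [← hss] at h3
    obtain ⟨p', hp', hpp⟩ := hPth _ (hPcl.frontier_subset (hfront s))
    obtain ⟨q', hq', hqq⟩ := hPth _ (hPcl.frontier_subset (hfront s'))
    generalize x + ∑ i ∈ s, v i = p at h1 h2 hpp
    generalize x + ∑ i ∈ s', v i = q at h1 h3 hqq
    have h4 : δ / 3 ≤ dist p' q' := by
      have := dist_triangle4 p p' q' q
      rw [dist_comm q' q] at this
      linarith
    have h5 : (1 / 2 : ℝ) • (p + q) ∈ K' := by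
      refine hη p' hp' q' hq' h4 ?_
      rw [mem_ball, dist_eq_norm]
      have e1 : (1 / 2 : ℝ) • (p + q) - (1 / 2 : ℝ) • (p' + q') =
        (1 / 2 : ℝ) • ((p - p') + (q - q')) := by module
      rw [e1, norm_smul, Real.norm_of_nonneg (by norm_num)]
      rw [dist_eq_norm] at hpp hqq
      linarith [norm_add_le (p - p') (q - q')]
    have h6 := hK'lt (σ s) _ h5
    rw [map_smul, map_add, h2, h3, smul_eq_mul] at h6
    linarith

theorem closed_front : IsClosed {w : ConvexBody E × E | w.2 ∈ frontier (w.1 : Set E)} := by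
  rw [← isOpen_compl_iff, Metric.isOpen_iff]
  rintro ⟨K, p⟩ hw
  simp only [mem_compl_iff, mem_ofPred_eq] at hw
  by_cases hp : p ∈ (K : Set E)
  · have hint : p ∈ interior (K : Set E) := by
      by_contra h; exact hw ⟨subset_closure hp, h⟩
    obtain ⟨r, hr, hb⟩ := Metric.mem_nhds_iff.1 (mem_interior_iff_mem_nhds.1 hint)
    refine ⟨r / 2, by positivity, ?_⟩
    rintro ⟨K', p'⟩ h
    rw [mem_ball, Prod.dist_eq, max_lt_iff] at h
    simp only [mem_compl_iff, mem_ofPred_eq]
    intro hf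
    apply hf.2
    have h1 : ball p (r - r / 2) ⊆ (K' : Set E) := by
      refine ball_sub K'.isCompact K'.convex K'.nonempty (by positivity) fun z hz => ?_
      refine exists_dist_lt_of_hausdorffDist_lt (hb hz) ?_ ConvexBody.hausdorffEDist_ne_top
      rw [ConvexBody.hausdorffDist_coe, dist_comm]; exact h.1
    refine interior_maximal h1 isOpen_ball ?_
    rw [mem_ball]; linarith [h.2]
  · obtain ⟨r, hr, hb⟩ := Metric.isOpen_iff.1 K.isClosed.isOpen_compl p hp
    refine ⟨r / 2, by positivity, ?_⟩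
    rintro ⟨K', p'⟩ h
    rw [mem_ball, Prod.dist_eq, max_lt_iff] at h
    simp only [mem_compl_iff, mem_ofPred_eq]
    intro hf
    obtain ⟨y, hy, hd⟩ := exists_dist_lt_of_hausdorffDist_lt (t := (K : Set E))
      (K'.isClosed.frontier_subset hf) (r := r / 2)
      (by rw [ConvexBody.hausdorffDist_coe]; exact h.1) ConvexBody.hausdorffEDist_ne_top
    refine hb (a := y) ?_ hy
    rw [mem_ball]
    have := dist_triangle y p' p
    rw [dist_comm y p'] at this
    linarith [h.2]

theorem main [FiniteDimensional ℝ E] {d : ℕ} (hd : Module.finrank ℝ E = d)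
    (hlt : d + d * d < 2 ^ d) :
    {K : ConvexBody E | ¬ ∃ (x : E) (v : Fin d → E), LinearIndependent ℝ v ∧
      ∀ s : Finset (Fin d), x + ∑ i ∈ s, v i ∈ frontier (K : Set E)} ∈ residual (ConvexBody E) := by
  classical
  have : ProperSpace E := FiniteDimensional.proper ℝ E
  let F : ℕ → Set (ConvexBody E) := fun m => Prod.fst ''
    {w : ConvexBody E × closedBall (0 : E × (Fin d → E)) m |
      (∀ s : Finset (Fin d), w.2.1.1 + ∑ i ∈ s, w.2.1.2 i ∈ frontier (w.1 : Set E)) ∧
      ∀ s t : Finset (Fin d), s ≠ t →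
        1 / ((m : ℝ) + 1) ≤ dist (w.2.1.1 + ∑ i ∈ s, w.2.1.2 i) (w.2.1.1 + ∑ i ∈ t, w.2.1.2 i)}
  have hF : ∀ m, IsClosed (F m) := by
    intro m
    have : CompactSpace (closedBall (0 : E × (Fin d → E)) m) :=
      isCompact_iff_compactSpace.1 (isCompact_closedBall _ _)
    refine isClosedMap_fst_of_compactSpace _ ?_
    simp only [setOf_and, setOf_forall]
    refine IsClosed.inter (isClosed_iInter fun s => ?_)
      (isClosed_iInter fun s => isClosed_iInter fun t => isClosed_iInter fun _ =>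
        isClosed_le continuous_const (by fun_prop))
    have hc : Continuous fun w : ConvexBody E × closedBall (0 : E × (Fin d → E)) m =>
        ((w.1, w.2.1.1 + ∑ i ∈ s, w.2.1.2 i) : ConvexBody E × E) := by fun_prop
    exact closed_front.preimage hc
  have hD : ∀ m, Dense (F m)ᶜ := by
    intro m
    rw [Metric.dense_iff]
    intro K r hr
    obtain ⟨P, hP, h⟩ := approx hd hlt K (ε := r / 3) (δ := 1 / ((m : ℝ) + 1)) (by positivity)
      (by positivity)
    refine ⟨P, by rw [mem_ball, dist_comm]; linarith, ?_⟩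
    rintro ⟨⟨K', w⟩, hw, rfl⟩
    exact h _ _ hw.1 hw.2
  have hres : (⋂ m, (F m)ᶜ) ∈ residual (ConvexBody E) :=
    countable_iInter_mem.2 fun m => residual_of_dense_open (hF m).isOpen_compl (hD m)
  refine Filter.mem_of_superset hres ?_
  rintro K hK ⟨x, v, hv, hfr⟩
  have hev : ∀ᶠ m : ℕ in Filter.atTop, ‖((x, v) : E × (Fin d → E))‖ ≤ m ∧
      ∀ s t : Finset (Fin d), s ≠ t →
        1 / ((m : ℝ) + 1) ≤ dist (x + ∑ i ∈ s, v i) (x + ∑ i ∈ t, v i) := by
    refine (tendsto_natCast_atTop_atTop.eventually_ge_atTop _).and ?_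
    simp only [Filter.eventually_all]
    intro s t hst
    refine tendsto_one_div_add_atTop_nhds_zero_nat.eventually_le_const (dist_pos.2 fun e => hst ?_)
    have e1 : ∑ i, ((if i ∈ s then (1 : ℝ) else 0) - if i ∈ t then (1 : ℝ) else 0) • v i = 0 := by
      simp only [sub_smul, Finset.sum_sub_distrib, ite_smul, one_smul, zero_smul,
        Finset.sum_ite_mem, Finset.univ_inter]
      rw [add_left_cancel e, sub_self]
    have e2 := Fintype.linearIndependent_iff.1 hv _ e1
    ext i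
    have := e2 i
    by_cases h1 : i ∈ s <;> by_cases h2 : i ∈ t <;> simp_all
  obtain ⟨m, hm1, hm2⟩ := hev.exists
  exact mem_iInter.1 hK m ⟨⟨K, ⟨(x, v), by simpa using hm1⟩⟩, ⟨hfr, hm2⟩, rfl⟩

theorem complete [CompleteSpace E] : CompleteSpace (ConvexBody E) := by
  let φ : ConvexBody E → TopologicalSpace.NonemptyCompacts E := fun K =>
    ⟨⟨K, K.isCompact⟩, K.nonempty⟩
  have hφ : Isometry φ := Isometry.of_dist_eq fun K L => by
    rw [NonemptyCompacts.dist_eq, ← ConvexBody.hausdorffDist_coe]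
    rfl
  refine (completeSpace_iff_isComplete_range hφ.isUniformInducing).2 (IsClosed.isComplete ?_)
  refine isClosed_of_closure_subset fun L hL => ⟨⟨L, ?_, L.isCompact, L.nonempty⟩, rfl⟩
  intro x hx y hy a b ha hb hab
  refine L.isCompact.isClosed.closure_subset (Metric.mem_closure_iff.2 fun ε hε => ?_)
  obtain ⟨_, ⟨K, rfl⟩, hK⟩ := Metric.mem_closure_iff.1 hL (ε / 2) (by positivity)
  rw [NonemptyCompacts.dist_eq] at hK
  have hne : hausdorffEDist (L : Set E) (φ K : Set E) ≠ ⊤ :=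
    hausdorffEDist_ne_top_of_nonempty_of_bounded L.nonempty (φ K).nonempty
      L.isCompact.isBounded (φ K).isCompact.isBounded
  obtain ⟨x', hx', h1⟩ := exists_dist_lt_of_hausdorffDist_lt hx hK hne
  obtain ⟨y', hy', h2⟩ := exists_dist_lt_of_hausdorffDist_lt hy hK hne
  obtain ⟨z, hz, h3⟩ := exists_dist_lt_of_hausdorffDist_lt' (K.convex hx' hy' ha hb hab) hK hne
  refine ⟨z, hz, ?_⟩
  have h4 : dist (a • x + b • y) (a • x' + b • y') ≤ ε / 2 := by
    rw [dist_eq_norm] at h1 h2 ⊢
    have e : a • x + b • y - (a • x' + b • y') = a • (x - x') + b • (y - y') := by module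
    rw [e]
    refine (norm_add_le _ _).trans ?_
    rw [norm_smul, norm_smul, Real.norm_of_nonneg ha, Real.norm_of_nonneg hb]
    nlinarith [mul_le_mul_of_nonneg_left h1.le ha, mul_le_mul_of_nonneg_left h2.le hb]
  rw [dist_comm] at h3
  linarith [dist_triangle (a • x + b • y) (a • x' + b • y') z]

end

end Pool.Agent.H5.Para
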