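import Mathlib

set_option autoImplicit false

/-! A system on a zero-dimensional metric space in which compact sets of differently coloured
points are never proximal, while weighted families can be matched with small loss of level. -/

namespace Pool.Agent.H5.Prox

open Set Filter Topology unitInterval

noncomputable section

structure D : Type where
  cls : ℕ
  col : Bool
  num : ℕ
  rcd : Option (ℕ × ℕ)

instance : TopologicalSpace D := ⊥

instance : DiscreteTopology D := ⟨rfl⟩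

structure E : Type where
  tag : Option Bool
  d : D

instance : TopologicalSpace E := ⊥

instance : DiscreteTopology E := ⟨rfl⟩

def Valid (c : Bool) (s : ℕ → D) : Prop :=
  (∀ j, (s j).col ≠ c → (Nat.unpair j).1 = (s j).cls) ∧ ∃ r, ∀ j, r ≤ j → (s j).cls = r ∧
    ((s j).col ≠ c → (∀ i n, (s j).rcd = some (i, n) → n < (s i).num) ∧
      ∀ j', j < j' → (s j').col = c ∧ (s j').rcd = some (j, (s j).num))

def Y : Type := ℕ → E

instance : MetricSpace Y := PiNat.metricSpace (E := fun _ : ℕ => E)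

def Xs : Set Y := {x | ∀ c, (x 0).tag = some c → ∃ s, Valid c s ∧ ∀ n, (x n).d = s (Nat.sqrt n)}

def X : Type := Xs

instance : MetricSpace X := inferInstanceAs (MetricSpace Xs)

theorem cont_coord (n : ℕ) : Continuous fun x : X => x.1 n :=
  (continuous_apply (A := fun _ : ℕ => E) n).comp continuous_subtype_val

theorem cont_of {S : Type} [TopologicalSpace S] {π : S → X} (h : ∀ n, Continuous fun s => (π s).1 n) :
    Continuous π :=
  continuous_induced_rng.2 (continuous_pi (A := fun _ : ℕ => E) h)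

def f (x : X) : X := ⟨fun n => ⟨none, (x.1 (n + 1)).d⟩, fun _ h => by simp at h⟩

theorem cont_f : Continuous f :=
  cont_of fun n => (continuous_of_discreteTopology (f := fun e : E => (⟨none, e.d⟩ : E))).comp
    (cont_coord (n + 1))

theorem iter_f (i : ℕ) (x : X) (j : ℕ) : (f^[i + 1] x).1 j = ⟨none, (x.1 (j + (i + 1))).d⟩ := by
  induction i generalizing j with
  | zero => rfl
  | succ i ih =>
    rw [Function.iterate_succ_apply']
    change (⟨none, ((f^[i + 1] x).1 (j + 1)).d⟩ : E) = _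
    rw [ih, show j + 1 + (i + 1) = j + (i + 1 + 1) by omega]

theorem dist_le {x y : X} {L : ℕ} (h : ∀ j < L, x.1 j = y.1 j) : dist x y ≤ (1 / 2) ^ L :=
  (PiNat.mem_cylinder_iff_dist_le (E := fun _ : ℕ => E)).1 (PiNat.mem_cylinder_iff.2 h)

theorem eq_of_dist {x y : X} (h : dist x y < 1) : x.1 0 = y.1 0 :=
  PiNat.apply_eq_of_dist_lt (E := fun _ : ℕ => E) (n := 0) (by rw [pow_zero]; exact h) le_rfl

def pt (c : Bool) : X := ⟨fun _ => ⟨some c, ⟨0, c, 0, none⟩⟩, fun c' h =>
  ⟨fun _ => ⟨0, c, 0, none⟩, by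
    obtain rfl : c = c' := Option.some.inj h
    exact ⟨fun _ h => absurd rfl h, 0, fun _ _ => ⟨rfl, fun h => absurd rfl h⟩⟩, fun _ => rfl⟩⟩

/-- compact sets of different colours are not matched infinitely often -/
theorem block {Z : Bool → Set X} (hK : ∀ c, IsCompact (Z c)) (hne : (Z false).Nonempty)
    (hZ : ∀ c, ∀ x ∈ Z c, (x.1 0).tag = some c)
    (hM : ∀ N, ∃ n ≥ N, ∀ c, ∀ x ∈ Z c, ∃ y ∈ Z (!c), (x.1 n).d = (y.1 n).d) : False := by
  let S : X → ℕ → D := fun x j => (x.1 (j * j)).d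
  have hS : ∀ c, ∀ x ∈ Z c, Valid c (S x) ∧ ∀ n, (x.1 n).d = S x (Nat.sqrt n) := by
    intro c x hx
    obtain ⟨s, h1, h2⟩ := x.2 c (hZ c x hx)
    obtain rfl : s = S x := funext fun j => by simp only [S, h2, Nat.sqrt_eq]
    exact ⟨h1, h2⟩
  have hM' : ∀ N, ∃ j ≥ N, ∀ c, ∀ x ∈ Z c, ∃ y ∈ Z (!c), S x j = S y j := by
    intro N
    obtain ⟨n, hn, h⟩ := hM (N * N)
    refine ⟨Nat.sqrt n, Nat.le_sqrt.2 hn, fun c x hx => (h c x hx).imp fun y hy => ⟨hy.1, ?_⟩⟩
    rw [← (hS c x hx).2, ← (hS _ y hy.1).2, hy.2]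
  choose! R hR using fun c x hx => (hS c x hx).1.2
  have h1 : ∀ c, ∀ x ∈ Z c, ∃ N, ∀ j ≥ N, (∀ c, ∀ x ∈ Z c, ∃ y ∈ Z (!c), S x j = S y j) →
      (Nat.unpair j).1 = R c x := by
    intro c x hx
    obtain ⟨N, hN⟩ : ∃ N, ∀ j ≥ N, R c x ≤ j ∧ (S x j).col = c := by
      by_cases h : ∃ j, R c x ≤ j ∧ (S x j).col ≠ c
      · obtain ⟨j, h1, h2⟩ := h
        exact ⟨j + 1, fun j' hj' => ⟨by omega, (((hR c x hx j h1).2 h2).2 j' hj').1⟩⟩
      · push Not at h
        exact ⟨R c x, fun j hj => ⟨hj, h j hj⟩⟩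
    refine ⟨N, fun j hj h => ?_⟩
    obtain ⟨y, hy, e⟩ := h c x hx
    rw [(hS _ y hy).1.1 j (by rw [← e, (hN j hj).2]; cases c <;> simp), ← e,
      (hR c x hx j (hN j hj).1).1]
  obtain ⟨x₀, hx₀⟩ := hne
  have h2 : ∀ c, ∀ x ∈ Z c, R c x = R false x₀ := by
    intro c x hx
    obtain ⟨N, hN⟩ := h1 c x hx
    obtain ⟨N', hN'⟩ := h1 _ x₀ hx₀
    obtain ⟨j, hj, h⟩ := hM' (max N N')
    rw [← hN j (le_of_max_le_left hj) h, hN' j (le_of_max_le_right hj) h]
  obtain ⟨t, ht, h3⟩ := hM' (R false x₀)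
  have hc : Continuous fun x : X => (S x t).num :=
    (continuous_of_discreteTopology (f := fun e : E => e.d.num)).comp (cont_coord (t * t))
  obtain ⟨z, hz, hmax⟩ := ((hK false).union (hK true)).exists_isMaxOn ⟨x₀, Or.inl hx₀⟩
    hc.continuousOn
  have hmax' : ∀ c, ∀ y ∈ Z c, (S y t).num ≤ (S z t).num := fun c y hy =>
    hmax (by cases c; exacts [Or.inl hy, Or.inr hy])
  obtain ⟨c, x, hx, h4, h5⟩ : ∃ c, ∃ x ∈ Z c, (S x t).col ≠ c ∧ S x t = S z t := by
    obtain ⟨c, hz'⟩ : ∃ c, z ∈ Z c := hz.elim (fun h => ⟨_, h⟩) fun h => ⟨_, h⟩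
    by_cases h : (S z t).col = c
    · obtain ⟨y, hy, e⟩ := h3 c z hz'
      exact ⟨_, y, hy, by rw [← e, h]; cases c <;> simp, e.symm⟩
    · exact ⟨c, z, hz', h, rfl⟩
  obtain ⟨j, hj, h6⟩ := hM' (t + 1)
  obtain ⟨h7, h8⟩ := ((hR c x hx t (h2 c x hx ▸ ht)).2 h4).2 j hj
  obtain ⟨y, hy, e⟩ := h6 c x hx
  have := ((hR _ y hy j (by rw [h2 _ y hy]; omega)).2
    (by rw [← e, h7]; cases c <;> simp)).1 t _ (e ▸ h8)
  rw [h5] at this
  exact this.not_ge (hmax' _ y hy)

def G (r : ℕ) (c : Bool) : Set (ℕ → D) := {g | ∀ j, (g j).cls = r ∧ (g j).num ≤ j + 1 ∧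
  ((g j).col ≠ c → (Nat.unpair j).1 = r ∧
    (∀ i n, (g j).rcd = some (i, n) → (Nat.unpair i).1 = r ∧ i < j ∧ n < (g i).num) ∧
    ∀ j', j < j' → (g j').col = c ∧ (g j').rcd = some (j, (g j).num)) ∧
  ((g j).col = c → ∀ i n, (g j).rcd = some (i, n) → i < j ∧ (g i).col ≠ c)}

theorem closed2 (Q : D → D → Prop) (i j : ℕ) : IsClosed {g : ℕ → D | Q (g i) (g j)} :=
  IsClosed.preimage (f := fun g : ℕ → D => (g i, g j)) (by fun_prop)
    (isClosed_discrete {p : D × D | Q p.1 p.2})

theorem compact_G (r : ℕ) (c : Bool) : IsCompact (G r c) := by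
  have hF : ∀ j : ℕ, {d : D | d.cls = r ∧ d.num ≤ j + 1 ∧
      ∀ i n, d.rcd = some (i, n) → i ≤ j + 1 ∧ n ≤ j + 1}.Finite := by
    intro j
    refine (((finite_univ (α := Bool)).prod ((finite_Iic (j + 1)).prod
      ((((finite_Iic (j + 1)).prod (finite_Iic (j + 1))).image some).insert none))).image
      fun p => (⟨r, p.1, p.2.1, p.2.2⟩ : D)).subset ?_
    rintro ⟨a, b, n, o⟩ ⟨rfl, h1, h2⟩
    refine ⟨(b, n, o), ⟨trivial, h1, ?_⟩, rfl⟩
    rcases o with _ | ⟨i, n⟩
    · exact Or.inl rfl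
    · exact Or.inr ⟨(i, n), h2 i n rfl, rfl⟩
  refine (isCompact_univ_pi fun j => (hF j).isCompact).of_isClosed_subset ?_ fun g hg j _ =>
    ⟨(hg j).1, (hg j).2.1, fun i n e => ?_⟩
  · have : G r c = ⋂ j, ⋂ i, ⋂ n, {g : ℕ → D | (g j).cls = r ∧ (g j).num ≤ j + 1 ∧
        ((g j).col ≠ c → (Nat.unpair j).1 = r ∧
          ((g j).rcd = some (i, n) → (Nat.unpair i).1 = r ∧ i < j ∧ n < (g i).num) ∧
          (j < i → (g i).col = c ∧ (g i).rcd = some (j, (g j).num))) ∧
        ((g j).col = c → (g j).rcd = some (i, n) → i < j ∧ (g i).col ≠ c)} := by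
      ext g
      simp only [mem_iInter, mem_ofPred_eq]
      exact ⟨fun h j i n => ⟨(h j).1, (h j).2.1, fun w => ⟨((h j).2.2.1 w).1,
        ((h j).2.2.1 w).2.1 i n, ((h j).2.2.1 w).2.2 i⟩, fun w => (h j).2.2.2 w i n⟩,
        fun h j => ⟨(h j 0 0).1, (h j 0 0).2.1, fun w => ⟨((h j 0 0).2.2.1 w).1,
        fun i n => ((h j i n).2.2.1 w).2.1, fun i => ((h j i 0).2.2.1 w).2.2⟩,
        fun w i n => (h j i n).2.2.2 w⟩⟩
    rw [this]
    exact isClosed_iInter fun j => isClosed_iInter fun i => isClosed_iInter fun n =>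
      closed2 (fun a b => b.cls = r ∧ b.num ≤ j + 1 ∧ (b.col ≠ c → (Nat.unpair j).1 = r ∧
        (b.rcd = some (i, n) → (Nat.unpair i).1 = r ∧ i < j ∧ n < a.num) ∧
        (j < i → a.col = c ∧ a.rcd = some (j, b.num))) ∧
        (b.col = c → b.rcd = some (i, n) → i < j ∧ a.col ≠ c)) i j
  · by_cases h : (g j).col = c
    · obtain ⟨h1, h2⟩ := (hg j).2.2.2 h i n e
      have h3 := (((hg i).2.2.1 h2).2.2 j h1).2
      rw [e] at h3
      have h4 := (hg i).2.1
      have h5 : n = (g i).num := (Prod.mk.inj (Option.some.inj h3)).2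
      omega
    · obtain ⟨-, h1, h2⟩ := ((hg j).2.2.1 h).2.1 i n e
      have h4 := (hg i).2.1
      omega

def base (r : ℕ) (c : Bool) : ℕ → D := fun _ => ⟨r, c, 0, none⟩

theorem base_mem (r : ℕ) (c : Bool) : base r c ∈ G r c :=
  fun _ => ⟨rfl, Nat.zero_le _, fun h => absurd rfl h, fun _ _ _ h => by simp [base] at h⟩

def cost (c : Bool) (d : D) : ℕ := d.num + if d.col = c then 0 else 1

def lev (c : Bool) (g : ℕ → D) : I :=
  ⨅ j : ℕ, projIcc 0 1 zero_le_one (1 - (cost c (g j) : ℝ) / (j + 1))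

theorem usc_lev (c : Bool) : UpperSemicontinuous (lev c) :=
  upperSemicontinuous_iInf fun j => ((continuous_of_discreteTopology (f := fun d : D =>
    projIcc (0 : ℝ) 1 zero_le_one (1 - (cost c d : ℝ) / (j + 1)))).comp
    (continuous_apply j)).upperSemicontinuous

theorem lev_base (r : ℕ) (c : Bool) : lev c (base r c) = 1 :=
  le_antisymm le_one' (le_iInf fun j => by simp [cost, base])

theorem lev_le {c : Bool} {g : ℕ → D} (h : 0 < lev c g) (j : ℕ) :
    (lev c g : ℝ) ≤ 1 - (cost c (g j) : ℝ) / (j + 1) := by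
  have h1 : (lev c g : ℝ) ≤ max 0 (min 1 (1 - (cost c (g j) : ℝ) / (j + 1))) :=
    iInf_le (fun j : ℕ => projIcc 0 1 zero_le_one (1 - (cost c (g j) : ℝ) / (j + 1))) j
  have h2 : (0 : ℝ) < lev c g := h
  rcases le_max_iff.1 h1 with h3 | h3
  · exact absurd h2 h3.not_gt
  · exact h3.trans (min_le_right _ _)

theorem lev_cmp {c c' : Bool} {g g' : ℕ → D} (h : 0 < lev c g) {j : ℕ}
    (h1 : ∀ i, i ≠ j → cost c' (g' i) ≤ cost c (g i)) (h2 : cost c' (g' j) ≤ cost c (g j) + 1) :
    (lev c g : ℝ) ≤ lev c' g' + 1 / (j + 1) := by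
  have h3 : projIcc 0 1 zero_le_one ((lev c g : ℝ) - 1 / (j + 1)) ≤ lev c' g' := by
    refine le_iInf fun i => monotone_projIcc _ ?_
    have h4 := lev_le h i
    have h5 : (0 : ℝ) ≤ 1 / (j + 1) := by positivity
    by_cases e : i = j
    · subst e
      have : (cost c' (g' i) : ℝ) / (i + 1) ≤ (cost c (g i) + 1) / (i + 1) := by
        gcongr; exact_mod_cast h2
      rw [add_div] at this
      linarith
    · have : (cost c' (g' i) : ℝ) / (i + 1) ≤ cost c (g i) / (i + 1) := by
        gcongr; exact h1 i e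
      linarith
  have h4 : max 0 (min 1 ((lev c g : ℝ) - 1 / (j + 1))) ≤ lev c' g' := h3
  have h5 : (0 : ℝ) ≤ 1 / (j + 1) := by positivity
  rw [min_eq_right (by linarith [(lev c g).2.2])] at h4
  linarith [le_max_right 0 ((lev c g : ℝ) - 1 / (j + 1))]

theorem matching {r j : ℕ} (hj : (Nat.unpair j).1 = r) {c : Bool} (c' : Bool) {g : ℕ → D}
    (hg : g ∈ G r c) (h : 0 < lev c g) :
    ∃ g' ∈ G r c', g' j = g j ∧ (lev c g : ℝ) ≤ lev c' g' + 1 / (j + 1) := by
  by_cases hc : c = c'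
  · subst hc
    exact ⟨g, hg, rfl, le_add_of_nonneg_right (by positivity)⟩
  have hb : ∀ i, cost c (g i) ≤ i + 1 := fun i => by
    have h1 := lev_le h i
    have h2 : (cost c (g i) : ℝ) / (i + 1) ≤ 1 := by linarith [(lev c g).2.1]
    rw [div_le_one (by positivity)] at h2
    exact_mod_cast h2
  by_cases ht : (g j).col = c
  · let g' : ℕ → D := fun i => if i < j then ⟨r, c', cost c (g i), none⟩
      else if i = j then g j else ⟨r, c', 0, some (j, (g j).num)⟩
    have e1 : ∀ i < j, g' i = ⟨r, c', cost c (g i), none⟩ := fun i hi => if_pos hi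
    have e2 : g' j = g j := by simp [g']
    have e3 : ∀ i, j < i → g' i = ⟨r, c', 0, some (j, (g j).num)⟩ := fun i hi => by
      simp [g', hi.not_gt, hi.ne']
    refine ⟨g', fun i => ?_, e2, lev_cmp h (fun i hi => ?_) ?_⟩
    · rcases lt_trichotomy i j with hi | rfl | hi
      · rw [e1 i hi]
        exact ⟨rfl, hb i, fun w => absurd rfl w, fun _ _ _ w => by simp at w⟩
      · rw [e2]
        refine ⟨(hg i).1, (hg i).2.1, fun _ => ⟨hj, fun a n e => ?_, fun k hk => by
          rw [e3 k hk]; exact ⟨rfl, rfl⟩⟩, fun w => absurd (ht.symm.trans w) hc⟩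
        obtain ⟨h1, h2⟩ := (hg i).2.2.2 ht a n e
        have h3 := (((hg a).2.2.1 h2).2.2 i h1).2
        rw [e] at h3
        refine ⟨((hg a).2.2.1 h2).1, h1, ?_⟩
        rw [e1 a h1, (Prod.mk.inj (Option.some.inj h3)).2]
        simp [cost, h2]
      · rw [e3 i hi]
        refine ⟨rfl, Nat.zero_le _, fun w => absurd rfl w, fun _ a n w => ?_⟩
        obtain rfl : j = a := (Prod.mk.inj (Option.some.inj w)).1
        exact ⟨hi, by rw [e2, ht]; exact hc⟩
    · rcases lt_or_gt_of_ne hi with hi | hi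
      · rw [e1 i hi]; simp [cost]
      · rw [e3 i hi]; simp [cost]
    · rw [e2]; simp only [cost]; split_ifs <;> omega
  · have ht' : (g j).col = c' := by
      revert ht hc; cases c <;> cases c' <;> cases (g j).col <;> simp
    rcases ho : (g j).rcd with _ | ⟨a, n⟩
    · let g' : ℕ → D := fun i => if i = j then g j else ⟨r, c', 0, none⟩
      have e2 : g' j = g j := if_pos rfl
      have e3 : ∀ i, i ≠ j → g' i = ⟨r, c', 0, none⟩ := fun i hi => if_neg hi
      refine ⟨g', fun i => ?_, e2, lev_cmp h (fun i hi => by rw [e3 i hi]; simp [cost])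
        (by rw [e2]; simp only [cost]; split_ifs <;> omega)⟩
      by_cases hi : i = j
      · subst hi
        rw [e2]
        exact ⟨(hg i).1, (hg i).2.1, fun w => absurd ht' w, fun _ _ _ w => by simp [ho] at w⟩
      · rw [e3 i hi]
        exact ⟨rfl, Nat.zero_le _, fun w => absurd rfl w, fun _ _ _ w => by simp at w⟩
    · obtain ⟨h1, h2, h3⟩ := ((hg j).2.2.1 ht).2.1 a n ho
      let g' : ℕ → D := fun i => if i < a then ⟨r, c', 0, none⟩ else if i = a then ⟨r, c, n, none⟩
        else if i = j then g j else ⟨r, c', 0, some (a, n)⟩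
      have e1 : ∀ i < a, g' i = ⟨r, c', 0, none⟩ := fun i hi => if_pos hi
      have e2 : g' a = ⟨r, c, n, none⟩ := by simp [g']
      have e3 : g' j = g j := by simp [g', h2.not_gt, h2.ne']
      have e4 : ∀ i, a < i → i ≠ j → g' i = ⟨r, c', 0, some (a, n)⟩ := fun i hi hi' => by
        simp [g', hi.not_gt, hi.ne', hi']
      have e5 : ∀ i, a < i → (g' i).col = c' ∧ (g' i).rcd = some (a, n) := fun i hi => by
        by_cases hi' : i = j
        · rw [hi', e3]; exact ⟨ht', ho⟩
        · rw [e4 i hi hi']; exact ⟨rfl, rfl⟩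
      refine ⟨g', fun i => ?_, e3, lev_cmp h (fun i hi => ?_)
        (by rw [e3]; simp only [cost]; split_ifs <;> omega)⟩
      · rcases lt_trichotomy i a with hi | rfl | hi
        · rw [e1 i hi]
          exact ⟨rfl, Nat.zero_le _, fun w => absurd rfl w, fun _ _ _ w => by simp at w⟩
        · rw [e2]
          exact ⟨rfl, h3.le.trans (hg i).2.1, fun _ => ⟨h1, fun _ _ w => by simp at w, e5⟩,
            fun w => absurd w hc⟩
        · refine ⟨?_, ?_, fun w => absurd (e5 i hi).1 w, fun _ b m w => ?_⟩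
          · by_cases hi' : i = j
            · rw [hi', e3]; exact (hg j).1
            · rw [e4 i hi hi']
          · by_cases hi' : i = j
            · rw [hi', e3]; exact (hg j).2.1
            · rw [e4 i hi hi']; exact Nat.zero_le _
          · rw [(e5 i hi).2] at w
            obtain rfl : a = b := (Prod.mk.inj (Option.some.inj w)).1
            exact ⟨hi, by rw [e2]; exact hc⟩
      · rcases lt_trichotomy i a with hi' | rfl | hi'
        · rw [e1 i hi']; simp [cost]
        · rw [e2]; simp only [cost]; split_ifs <;> omega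
        · rw [e4 i hi' hi]; simp [cost]

def colr (x : X) : Bool := (x.1 0).tag.getD false

def glue (r : ℕ) (x : X) (g : ℕ → D) (hg : g ∈ G (r + 1) (colr x)) : X :=
  ⟨fun n => if Nat.sqrt n < r + 1 then x.1 n else ⟨none, g (Nat.sqrt n)⟩, fun c h => by
    have h0 : (x.1 0).tag = some c := by simpa using h
    obtain ⟨s, h1, h2⟩ := x.2 c h0
    obtain rfl : colr x = c := by simp [colr, h0]
    refine ⟨fun j => if j < r + 1 then s j else g j, ⟨fun j => ?_, r + 1, fun j hj => ?_⟩,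
      fun n => by dsimp only; split_ifs; exacts [h2 n, rfl]⟩
    · dsimp only
      split_ifs
      · exact h1.1 j
      · exact fun w => ((hg j).2.2.1 w).1.trans (hg j).1.symm
    · simp only [if_neg hj.not_gt]
      refine ⟨(hg j).1, fun w => ⟨fun i n e => ?_, fun j' hj' => ?_⟩⟩
      · obtain ⟨h3, -, h4⟩ := ((hg j).2.2.1 w).2.1 i n e
        rwa [if_neg (h3 ▸ Nat.unpair_left_le i).not_gt]
      · rw [if_neg (hj.trans hj'.le).not_gt]
        exact ((hg j).2.2.1 w).2.2 j' hj'⟩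

theorem dist_glue (r : ℕ) (x : X) (g : ℕ → D) (hg : g ∈ G (r + 1) (colr x)) :
    dist (glue r x g hg) x ≤ (1 / 2) ^ r :=
  dist_le fun j hj => if_pos ((Nat.sqrt_le_self j).trans_lt (by omega))

theorem dist_iter {r : ℕ} {x x' : X} {g g' : ℕ → D} (hg : g ∈ G (r + 1) (colr x))
    (hg' : g' ∈ G (r + 1) (colr x')) {j : ℕ} (hj : r + 1 ≤ j) (e : g j = g' j) :
    dist (f^[j * j] (glue r x g hg)) (f^[j * j] (glue r x' g' hg')) ≤ (1 / 2) ^ j := by
  obtain ⟨t, ht⟩ : ∃ t, j * j = t + 1 := Nat.exists_eq_add_one_of_ne_zero (by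
    have : 0 < j := by omega
    positivity)
  refine dist_le fun m hm => ?_
  rw [ht, iter_f, iter_f, ← ht]
  have : Nat.sqrt (m + j * j) = j := by rw [add_comm]; exact Nat.sqrt_add_eq j (by omega)
  simp only [glue, this, if_neg hj.not_gt, e]

theorem cont_glue {S : Type} [TopologicalSpace S] (r : ℕ) {w : S → X} {g : S → ℕ → D}
    (hw : Continuous w) (hg : Continuous g) (h : ∀ s, g s ∈ G (r + 1) (colr (w s))) :
    Continuous fun s => glue r (w s) (g s) (h s) := by
  refine cont_of fun n => ?_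
  simp only [glue]
  split_ifs
  · exact (cont_coord n).comp hw
  · exact (continuous_of_discreteTopology (f := fun d : D => (⟨none, d⟩ : E))).comp
      ((continuous_apply _).comp hg)

theorem cont_base (r : ℕ) : Continuous fun x : X => base r (colr x) :=
  (continuous_of_discreteTopology (f := fun e : E => base r (e.tag.getD false))).comp
    (cont_coord 0)

/-- a weighted compact family approximating `u` whose futures fill `G (r + 1) c` -/
theorem family (r : ℕ) {K : Set X} (hK : IsCompact K) {u : X → I} (hu : UpperSemicontinuous u)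
    {p : X} :
    ∃ (S : Type) (_ : TopologicalSpace S) (_ : CompactSpace S) (w : S → X) (g : S → ℕ → D)
      (h : ∀ s, g s ∈ G (r + 1) (colr (w s))) (l : S → I),
      (Continuous fun s => glue r (w s) (g s) (h s)) ∧ UpperSemicontinuous l ∧
      (∀ s, l s ≤ lev (colr (w s)) (g s)) ∧ (∀ x ∈ K, ∃ s, w s = x ∧ l s = u x) ∧
      (∀ s, w s = p ∨ (w s ∈ K ∧ l s = u (w s))) ∧
      ∀ g' ∈ G (r + 1) (colr p), ∃ s, g s = g' ∧ l s = lev (colr p) g' := by
  have := isCompact_iff_compactSpace.1 hK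
  have := isCompact_iff_compactSpace.1 (compact_G (r + 1) (colr p))
  refine ⟨K ⊕ G (r + 1) (colr p), inferInstance, inferInstance, Sum.elim Subtype.val fun _ => p,
    Sum.elim (fun x => base (r + 1) (colr x.1)) Subtype.val, ?_,
    Sum.elim (fun x => u x.1) fun g => lev (colr p) g.1, cont_glue r
      (continuous_subtype_val.sumElim continuous_const)
      (((cont_base _).comp continuous_subtype_val).sumElim continuous_subtype_val) _, ?_, ?_,
    fun x hx => ⟨Sum.inl ⟨x, hx⟩, rfl, rfl⟩, ?_, fun g' hg' => ⟨Sum.inr ⟨g', hg'⟩, rfl, rfl⟩⟩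
  · rintro (x | g)
    exacts [base_mem _ _, g.2]
  · exact upperSemicontinuous_iff_isClosed_preimage.2 fun t => isClosed_sum_iff.2
      ⟨(hu.isClosed_preimage t).preimage continuous_subtype_val,
        ((usc_lev _).isClosed_preimage t).preimage continuous_subtype_val⟩
  · rintro (x | g)
    · exact le_one'.trans (lev_base _ _).ge
    · exact le_rfl
  · rintro (x | g)
    exacts [Or.inr ⟨x.2, rfl⟩, Or.inl rfl]

end

end Pool.Agent.H5.Prox
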