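import Mathlib

set_option autoImplicit false

open Real Metric Finset Function

namespace Pool.Agent.H5.Ptak

/-- Poisson kernel of the unit disc. -/
noncomputable def Pk (a z : ℂ) : ℝ := (1 - ‖a‖ ^ 2) / ‖z - a‖ ^ 2

lemma sph {z : ℂ} (hz : z ∈ sphere (0 : ℂ) |1|) : ‖z‖ = 1 := by simpa using hz

lemma sub_ne {a z : ℂ} (ha : ‖a‖ < 1) (hz : ‖z‖ = 1) : z - a ≠ 0 := fun h => by
  rw [sub_eq_zero.1 h] at hz
  linarith

lemma Pk_cont {a : ℂ} (ha : ‖a‖ < 1) : ContinuousOn (Pk a) (sphere 0 |1|) :=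
  ContinuousOn.div continuousOn_const (by fun_prop) fun _ hz =>
    pow_ne_zero _ (norm_ne_zero_iff.2 (sub_ne ha (sph hz)))

lemma maxp (G : ℂ → ℝ) (hG : ContinuousOn G (sphere 0 |1|)) {r : ℝ} (h0 : 0 < r) (h1 : r < 1)
    (c : ℂ) (hc : ‖c‖ ≤ r) : ∃ a : ℂ, ‖a‖ = r ∧
      circleAverage (fun z => G z * Pk c z) 0 1 ≤ circleAverage (fun z => G z * Pk a z) 0 1 := by
  have hi : CircleIntegrable G 0 1 := hG.circleIntegrable'
  have hi2 : CircleIntegrable (fun z => (G z : ℂ)) 0 1 :=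
    (Complex.continuous_ofReal.comp_continuousOn hG).circleIntegrable'
  set F : ℂ → ℂ := fun w => circleAverage (fun ζ => herglotzRieszKernel 0 w ζ • (G ζ : ℂ)) 0 1
  have hF : DifferentiableOn ℂ F (ball 0 1) :=
    differentiableOn_circleAverage_herglotzRieszKernel_smul hi2
  have hre : ∀ w : ℂ, ‖w‖ ≤ r → (F w).re = circleAverage (fun z => G z * Pk w z) 0 1 := by
    intro w hw
    rw [re_circleAverage_herglotzRieszKernel_smul hi (by simpa using hw.trans_lt h1),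
      ← poissonKernel_eq_re_herglotzRieszKernel]
    refine circleAverage_congr_sphere fun z hz => ?_
    simp [poissonKernel_def, Pk, sph hz, mul_comm]
  have hd : DiffContOnCl ℂ (fun w => Complex.exp (F w)) (ball 0 r) :=
    DifferentiableOn.diffContOnCl (by
      rw [closure_ball _ h0.ne']
      exact (hF.mono (closedBall_subset_ball h1)).cexp)
  obtain ⟨a, ha, hmax⟩ := Complex.exists_mem_frontier_isMaxOn_norm isBounded_ball
    (nonempty_ball.2 h0) hd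
  rw [frontier_ball _ h0.ne', mem_sphere_zero_iff_norm] at ha
  rw [closure_ball _ h0.ne'] at hmax
  have h2 := hmax (mem_closedBall_zero_iff.2 hc)
  simp only [Set.mem_ofPred_eq, comp_apply, Complex.norm_exp, Real.exp_le_exp] at h2
  exact ⟨a, ha, by rwa [← hre c hc, ← hre a ha.le]⟩

lemma nsq (z c : ℂ) (hz : ‖z‖ = 1) :
    ‖z - c‖ ^ 2 = 1 + ‖c‖ ^ 2 - 2 * (c.re * z.re + c.im * z.im) := by
  have h : Complex.normSq z = 1 := by rw [Complex.normSq_eq_norm_sq, hz]; norm_num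
  rw [Complex.sq_norm, Complex.sq_norm]
  simp only [Complex.normSq_apply, Complex.sub_re, Complex.sub_im] at h ⊢
  linear_combination h

lemma mid {r : ℝ} (h0 : 0 < r) (h1 : r < 1) (a b : ℂ) (ha : ‖a‖ ≤ r) (hb : ‖b‖ ≤ r) (hab : a ≠ b) :
    ∃ c : ℂ, ‖c‖ ≤ r ∧ ∃ l : ℝ, 1 < l ∧ ∀ z : ℂ, ‖z‖ = 1 →
      2 * l * (Pk a z * Pk b z) = Pk a z * Pk c z + Pk c z * Pk b z := by
  have ha2 : ‖a‖ ^ 2 ≤ r ^ 2 := pow_le_pow_left₀ (norm_nonneg _) ha 2
  have hb2 : ‖b‖ ^ 2 ≤ r ^ 2 := pow_le_pow_left₀ (norm_nonneg _) hb 2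
  have hr2 : r ^ 2 < 1 := by nlinarith
  have hda : 0 < 1 - ‖a‖ ^ 2 := by linarith
  have hdb : 0 < 1 - ‖b‖ ^ 2 := by linarith
  set al : ℝ := ((1 + ‖a‖ ^ 2) / (1 - ‖a‖ ^ 2) + (1 + ‖b‖ ^ 2) / (1 - ‖b‖ ^ 2)) / 2 with hal
  set x : ℝ := (a.re / (1 - ‖a‖ ^ 2) + b.re / (1 - ‖b‖ ^ 2)) / 2 with hx
  set y : ℝ := (a.im / (1 - ‖a‖ ^ 2) + b.im / (1 - ‖b‖ ^ 2)) / 2 with hy
  have hpos : 0 < ‖a - b‖ ^ 2 / ((1 - ‖a‖ ^ 2) * (1 - ‖b‖ ^ 2)) :=
    div_pos (pow_pos (norm_pos_iff.2 (sub_ne_zero.2 hab)) 2) (mul_pos hda hdb)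
  set l : ℝ := √(1 + ‖a - b‖ ^ 2 / ((1 - ‖a‖ ^ 2) * (1 - ‖b‖ ^ 2))) with hl
  have hl1 : 1 < l := lt_sqrt_of_sq_lt (by linarith)
  have hl2 : l ^ 2 = al ^ 2 - 4 * (x ^ 2 + y ^ 2) := by
    rw [hl, sq_sqrt (by linarith), hal, hx, hy]
    have e1 : ‖a‖ ^ 2 = a.re ^ 2 + a.im ^ 2 := by rw [Complex.sq_norm, Complex.normSq_apply]; ring
    have e2 : ‖b‖ ^ 2 = b.re ^ 2 + b.im ^ 2 := by rw [Complex.sq_norm, Complex.normSq_apply]; ring
    have e3 : ‖a - b‖ ^ 2 = (a.re - b.re) ^ 2 + (a.im - b.im) ^ 2 := by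
      rw [Complex.sq_norm, Complex.normSq_apply, Complex.sub_re, Complex.sub_im]; ring
    rw [e3]
    rw [e1] at hda
    rw [e2] at hdb
    rw [e1, e2]
    field_simp
    ring
  have hal0 : 0 < al := by positivity
  have hal1 : al ≤ (1 + r ^ 2) / (1 - r ^ 2) := by
    have e1 : (1 + ‖a‖ ^ 2) / (1 - ‖a‖ ^ 2) ≤ (1 + r ^ 2) / (1 - r ^ 2) := by gcongr
    have e2 : (1 + ‖b‖ ^ 2) / (1 - ‖b‖ ^ 2) ≤ (1 + r ^ 2) / (1 - r ^ 2) := by gcongr
    linarith
  have hs : 0 < al + l := by linarith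
  set c : ℂ := ⟨2 * x / (al + l), 2 * y / (al + l)⟩ with hc
  have hc2 : ‖c‖ ^ 2 = (al - l) / (al + l) := by
    rw [Complex.sq_norm, Complex.normSq_apply, hc]
    field_simp
    linear_combination hl2
  have hdc : 1 - ‖c‖ ^ 2 = 2 * l / (al + l) := by
    rw [hc2]
    field_simp
    ring
  have hcr : ‖c‖ ≤ r := by
    refine (pow_le_pow_iff_left₀ (norm_nonneg _) h0.le two_ne_zero).1 ?_
    rw [hc2, div_le_iff₀ hs]
    rw [le_div_iff₀ (by linarith)] at hal1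
    nlinarith [sq_nonneg r]
  refine ⟨c, hcr, l, hl1, fun z hz => ?_⟩
  have na : 0 < ‖z - a‖ ^ 2 := pow_pos (norm_pos_iff.2 (sub_ne (ha.trans_lt h1) hz)) 2
  have nb : 0 < ‖z - b‖ ^ 2 := pow_pos (norm_pos_iff.2 (sub_ne (hb.trans_lt h1) hz)) 2
  have nc : 0 < ‖z - c‖ ^ 2 := pow_pos (norm_pos_iff.2 (sub_ne (hcr.trans_lt h1) hz)) 2
  have hdc0 : 0 < 1 - ‖c‖ ^ 2 := by rw [hdc]; positivity
  have key : ‖z - a‖ ^ 2 / (1 - ‖a‖ ^ 2) + ‖z - b‖ ^ 2 / (1 - ‖b‖ ^ 2) =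
      2 * l * (‖z - c‖ ^ 2 / (1 - ‖c‖ ^ 2)) := by
    have e1 : ‖z - a‖ ^ 2 / (1 - ‖a‖ ^ 2) + ‖z - b‖ ^ 2 / (1 - ‖b‖ ^ 2) =
        2 * (al - 2 * (x * z.re + y * z.im)) := by
      rw [nsq z a hz, nsq z b hz, hal, hx, hy]
      field_simp
      ring
    rw [e1, hdc, nsq z c hz, hc2, hc]
    field_simp
    ring
  unfold Pk
  generalize ‖z - a‖ ^ 2 = A at *
  generalize ‖z - b‖ ^ 2 = B at *
  generalize ‖z - c‖ ^ 2 = C at *
  generalize 1 - ‖a‖ ^ 2 = da at *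
  generalize 1 - ‖b‖ ^ 2 = db at *
  generalize 1 - ‖c‖ ^ 2 = dc at *
  field_simp at key ⊢
  linear_combination -key

variable {ι : Type} [Fintype ι] [DecidableEq ι]

/-- average of `H` against a product of Poisson kernels. -/
noncomputable def Ψ (H : ℂ → ℝ) (a : ι → ℂ) : ℝ :=
  circleAverage (fun z => H z * ∏ i, Pk (a i) z) 0 1

omit [DecidableEq ι] in
lemma Ψ_cont (H : ℂ → ℝ) (hH : Continuous H) {r : ℝ} (h1 : r < 1) :
    ContinuousOn (Ψ (ι := ι) H) (Set.pi Set.univ fun _ => closedBall 0 r) := by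
  rw [continuousOn_iff_continuous_domRestrict]
  refine Continuous.const_smul
    (intervalIntegral.continuous_parametric_intervalIntegral_of_continuous'
      (μ := MeasureTheory.volume)
      (f := fun (p : Set.pi Set.univ fun _ : ι => closedBall (0 : ℂ) r) (θ : ℝ) =>
        H (circleMap 0 1 θ) * ∏ i, Pk (p.1 i) (circleMap 0 1 θ)) ?_ 0 (2 * π)) (2 * π)⁻¹
  refine Continuous.mul (by fun_prop) (continuous_finsetProd _ fun i _ => ?_)
  have hc : Continuous fun p : (Set.pi Set.univ fun _ : ι => closedBall (0 : ℂ) r) × ℝ =>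
      p.1.1 i := (continuous_apply i).comp (continuous_subtype_val.comp continuous_fst)
  refine Continuous.div (continuous_const.sub (hc.norm.pow 2))
    ((Continuous.sub (by fun_prop) hc).norm.pow 2)
    fun p => pow_ne_zero _ (norm_ne_zero_iff.2 ?_)
  exact sub_ne ((mem_closedBall_zero_iff.1 (p.1.2 i trivial)).trans_lt h1) (by simp)

theorem extremal [Nonempty ι] (H : ℂ → ℝ) (hH : Continuous H) {r : ℝ} (h0 : 0 < r) (h1 : r < 1)
    (h : ∀ a : ℂ, ‖a‖ = r → Ψ H (fun _ : ι => a) ≤ 0) (a : ι → ℂ) (ha : ∀ i, ‖a i‖ ≤ r) :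
    Ψ H a ≤ 0 := by
  have hS : ∀ b : ι → ℂ, (∀ i, ‖b i‖ ≤ r) → b ∈ Set.pi Set.univ fun _ => closedBall (0 : ℂ) r :=
    fun b hb i _ => mem_closedBall_zero_iff.2 (hb i)
  obtain ⟨m, hm, hmax⟩ := (isCompact_univ_pi fun _ : ι => isCompact_closedBall (0 : ℂ) r).exists_isMaxOn
    ⟨a, hS a ha⟩ (Ψ_cont H hH h1)
  have hm' : ∀ i, ‖m i‖ ≤ r := fun i => mem_closedBall_zero_iff.1 (hm i trivial)
  have hle : ∀ b : ι → ℂ, (∀ i, ‖b i‖ ≤ r) → Ψ H b ≤ Ψ H m := fun b hb => hmax (hS b hb)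
  refine (hle a ha).trans (not_lt.1 fun hpos => ?_)
  have hup : ∀ (b : ι → ℂ) (i : ι) (c : ℂ), (∀ i, ‖b i‖ ≤ r) → ‖c‖ ≤ r →
      ∀ k, ‖update b i c k‖ ≤ r := by
    intro b i c hb hc k
    by_cases hk : k = i
    · rw [hk, update_self]
      exact hc
    · rw [update_of_ne hk]
      exact hb k
  have hint : ∀ b : ι → ℂ, (∀ i, ‖b i‖ ≤ r) →
      CircleIntegrable (fun z => H z * ∏ i, Pk (b i) z) 0 1 := fun b hb =>
    (hH.continuousOn.mul (continuousOn_finsetProd _ fun i _ =>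
      Pk_cont ((hb i).trans_lt h1))).circleIntegrable'
  have hdiag : ∀ b : ι → ℂ, (∀ i, ‖b i‖ ≤ r) → Ψ H m ≤ Ψ H b → ∀ i j, b i = b j := by
    intro b hb hmb i j
    by_contra hne
    have hij : i ≠ j := fun e => hne (by rw [e])
    obtain ⟨c, hc, l, hl, hid⟩ := mid h0 h1 _ _ (hb i) (hb j) hne
    have hsplit : ∀ (d : ι → ℂ) (z : ℂ), ∏ k, Pk (d k) z =
        Pk (d i) z * Pk (d j) z * ∏ k ∈ (univ.erase i).erase j, Pk (d k) z := by
      intro d z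
      rw [← mul_prod_erase _ _ (mem_univ i), ← mul_prod_erase _ _ (mem_erase.2 ⟨hij.symm, mem_univ j⟩),
        mul_assoc]
    have e : (2 * l) • Ψ H b = Ψ H (update b j c) + Ψ H (update b i c) := by
      unfold Ψ
      rw [← circleAverage_fun_smul, ← circleAverage_fun_add (hint _ (hup b j c hb hc))
        (hint _ (hup b i c hb hc))]
      refine circleAverage_congr_sphere fun z hz => ?_
      have e1 : ∏ k ∈ (univ.erase i).erase j, Pk (update b j c k) z =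
          ∏ k ∈ (univ.erase i).erase j, Pk (b k) z :=
        prod_congr rfl fun k hk => by rw [update_of_ne (mem_erase.1 hk).1]
      have e2 : ∏ k ∈ (univ.erase i).erase j, Pk (update b i c k) z =
          ∏ k ∈ (univ.erase i).erase j, Pk (b k) z :=
        prod_congr rfl fun k hk => by rw [update_of_ne (mem_erase.1 (mem_erase.1 hk).2).1]
      simp only [hsplit, e1, e2, update_self, update_of_ne hij, update_of_ne hij.symm, smul_eq_mul]
      linear_combination (H z * ∏ k ∈ (univ.erase i).erase j, Pk (b k) z) * hid z (sph hz)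
    have e3 := hle _ (hup b j c hb hc)
    have e4 := hle _ (hup b i c hb hc)
    rw [smul_eq_mul] at e
    nlinarith
  obtain ⟨i⟩ := ‹Nonempty ι›
  obtain ⟨c, hc, hcm⟩ := maxp (fun z => H z * ∏ k ∈ univ.erase i, Pk (m k) z)
    (hH.continuousOn.mul (continuousOn_finsetProd _ fun k _ => Pk_cont ((hm' k).trans_lt h1)))
    h0 h1 (m i) (hm' i)
  have e5 : Ψ H m ≤ Ψ H (update m i c) := by
    unfold Ψ
    convert hcm using 2
    · funext z
      rw [← prod_erase_mul _ _ (mem_univ i), mul_assoc]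
    · funext z
      rw [← prod_erase_mul _ _ (mem_univ i), mul_assoc, update_self]
      congr 2
      exact prod_congr rfl fun k hk => by rw [update_of_ne (mem_erase.1 hk).1]
  have e6 : update m i c = fun _ => c := funext fun k => by
    rw [hdiag _ (hup m i c hm' hc.le) e5 k i, update_self]
  have e7 := h c hc
  rw [← e6] at e7
  linarith

end Pool.Agent.H5.Ptak
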