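import Pool.Agent.H5.PtakA

set_option autoImplicit false

open Real Metric Finset Function Polynomial
open scoped ComplexConjugate

namespace Pool.Agent.H5.Ptak

/-- average over the unit circle. -/
noncomputable def Av (φ : ℂ → ℂ) : ℂ := circleAverage φ 0 1

abbrev Co (φ : ℂ → ℂ) : Prop := ContinuousOn φ (sphere 0 |1|)

lemma Av_congr {φ ψ : ℂ → ℂ} (h : ∀ z, ‖z‖ = 1 → φ z = ψ z) : Av φ = Av ψ :=
  circleAverage_congr_sphere fun z hz => h z (sph hz)

lemma Av_add {φ ψ : ℂ → ℂ} (h1 : Co φ) (h2 : Co ψ) : Av (fun z => φ z + ψ z) = Av φ + Av ψ :=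
  circleAverage_fun_add h1.circleIntegrable' h2.circleIntegrable'

lemma Av_sub {φ ψ : ℂ → ℂ} (h1 : Co φ) (h2 : Co ψ) : Av (fun z => φ z - ψ z) = Av φ - Av ψ :=
  circleAverage_fun_sub h1.circleIntegrable' h2.circleIntegrable'

lemma Av_mul (c : ℂ) (φ : ℂ → ℂ) : Av (fun z => c * φ z) = c * Av φ :=
  circleAverage_fun_smul (a := c)

lemma Av_sum {κ : Type} (s : Finset κ) {φ : κ → ℂ → ℂ} (h : ∀ k, Co (φ k)) :
    Av (fun z => ∑ k ∈ s, φ k z) = ∑ k ∈ s, Av (φ k) :=
  circleAverage_fun_sum fun k _ => (h k).circleIntegrable'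

lemma Av_conj {φ : ℂ → ℂ} (h : Co φ) : Av (fun z => conj (φ z)) = conj (Av φ) :=
  (Complex.conjCLE : ℂ →L[ℝ] ℂ).circleAverage_comp_comm h.circleIntegrable'

lemma Av_re {φ : ℂ → ℂ} (h : Co φ) : (Av φ).re = circleAverage (fun z => (φ z).re) 0 1 :=
  (Complex.reCLM.circleAverage_comp_comm h.circleIntegrable').symm

lemma Av_im {φ : ℂ → ℂ} (h : Co φ) : (Av φ).im = circleAverage (fun z => (φ z).im) 0 1 :=
  (Complex.imCLM.circleAverage_comp_comm h.circleIntegrable').symm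

lemma Av_poly (g : ℂ[X]) : Av (fun z => g.eval z) = g.coeff 0 := by
  rw [coeff_zero_eq_eval_zero]
  exact g.differentiable.diffContOnCl.circleAverage

lemma co_poly (g : ℂ[X]) : Co fun z => g.eval z := g.continuous.continuousOn

lemma Co.conj' {φ : ℂ → ℂ} (h : Co φ) : Co fun z => conj (φ z) :=
  Complex.continuous_conj.comp_continuousOn h

variable {ι : Type} [Fintype ι]

/-- monic polynomial with the given roots. -/
noncomputable def pp (a : ι → ℂ) : ℂ[X] := ∏ i, (X - C (a i))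

lemma pp_monic (a : ι → ℂ) : (pp a).Monic := monic_prod_of_monic _ _ fun _ _ => monic_X_sub_C _

lemma pp_deg (a : ι → ℂ) : (pp a).natDegree = Fintype.card ι := by
  rw [pp, natDegree_finsetProd_X_sub_C_eq_card, card_univ]

lemma pp_eval (a : ι → ℂ) (z : ℂ) : (pp a).eval z = ∏ i, (z - a i) := by
  simp [pp, eval_prod]

variable {a : ι → ℂ}

lemma pp_ne (ha : ∀ i, ‖a i‖ < 1) {z : ℂ} (hz : ‖z‖ = 1) : (pp a).eval z ≠ 0 := by
  rw [pp_eval]
  exact prod_ne_zero_iff.2 fun i _ => sub_ne (ha i) hz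

lemma co_inv (ha : ∀ i, ‖a i‖ < 1) : Co fun z => ((pp a).eval z)⁻¹ :=
  (co_poly _).inv₀ fun _ hz => pp_ne ha (sph hz)

lemma Av_ext (ha : ∀ i, ‖a i‖ < 1) (g s : ℂ[X]) (hs : s.natDegree ≤ Fintype.card ι) :
    Av (fun z => conj (g.eval z) * s.eval z * ((pp a).eval z)⁻¹) =
      conj (g.coeff 0) * s.coeff (Fintype.card ι) := by
  have h1 : ∀ z ∈ closedBall (0 : ℂ) |1|, ∏ i, (1 - a i * z) ≠ 0 := fun z hz =>
    prod_ne_zero_iff.2 fun i _ h => by
      have e1 : ‖a i * z‖ = 1 := by rw [← sub_eq_zero.1 h, norm_one]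
      have e2 : ‖z‖ ≤ 1 := by simpa using hz
      rw [norm_mul] at e1
      nlinarith [ha i, norm_nonneg (a i), norm_nonneg z]
  have h2 : DiffContOnCl ℂ (fun z => (g.map (starRingEnd ℂ)).eval z *
      (reflect (Fintype.card ι) s).eval z * (∏ i, (1 - a i * z))⁻¹) (ball 0 |1|) := by
    refine DifferentiableOn.diffContOnCl ?_
    rw [closure_ball _ (by simp)]
    exact ((Polynomial.differentiable _).differentiableOn.mul
      (Polynomial.differentiable _).differentiableOn).mul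
      (DifferentiableOn.inv (by fun_prop) h1)
  have h3 := h2.circleAverage
  simp only [mul_zero, sub_zero, prod_const_one, inv_one, mul_one, ← coeff_zero_eq_eval_zero,
    coeff_map, coeff_reflect, revAt_zero] at h3
  rw [← h3, Av, ← circleAverage_zero_one_congr_inv]
  refine circleAverage_congr_sphere fun z hz => ?_
  have hz1 := sph hz
  have hz0 : z ≠ 0 := by
    rintro rfl
    simp at hz1
  have e1 : (g.map (starRingEnd ℂ)).eval z = conj (g.eval z⁻¹) := by
    rw [Complex.inv_eq_conj hz1, eval_map, ← eval₂_at_apply, Complex.conj_conj]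
  have e2 : (reflect (Fintype.card ι) s).eval z = s.eval z⁻¹ * z ^ Fintype.card ι := by
    let _ := invertibleOfNonzero (inv_ne_zero hz0)
    have := eval₂_reflect_mul_pow (RingHom.id ℂ) z⁻¹ _ s hs
    simp only [invOf_eq_inv, inv_inv, eval₂_id] at this
    rw [← this, mul_assoc, ← mul_pow, inv_mul_cancel₀ hz0, one_pow, mul_one]
  have e3 : ∏ i, (1 - a i * z) = (pp a).eval z⁻¹ * z ^ Fintype.card ι := by
    rw [pp_eval, ← card_univ, ← prod_const, ← prod_mul_distrib]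
    exact prod_congr rfl fun i _ => by field_simp
  simp only [e1, e2, e3]
  field_simp

/-- the sesquilinear form with weight `g / |p|^2`. -/
noncomputable def Bf (a : ι → ℂ) (g q' q : ℂ[X]) : ℂ :=
  Av fun z => conj (q'.eval z * ((pp a).eval z)⁻¹) * (g.eval z * (q.eval z * ((pp a).eval z)⁻¹))

lemma co_B (ha : ∀ i, ‖a i‖ < 1) (g q' q : ℂ[X]) : Co fun z =>
    conj (q'.eval z * ((pp a).eval z)⁻¹) * (g.eval z * (q.eval z * ((pp a).eval z)⁻¹)) :=
  (Co.conj' ((co_poly _).mul (co_inv ha))).mul ((co_poly _).mul ((co_poly _).mul (co_inv ha)))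

lemma Bf_mod (ha : ∀ i, ‖a i‖ < 1) (g q' q : ℂ[X]) (hq : q'.degree < Fintype.card ι) :
    Bf a g q' q = Bf a 1 q' ((g * q) %ₘ pp a) := by
  have h1 := Av_ext ha ((g * q) /ₘ pp a) q' (natDegree_le_of_degree_le hq.le)
  rw [coeff_eq_zero_of_degree_lt hq, mul_zero] at h1
  have h2 := Av_conj (((co_poly ((g * q) /ₘ pp a)).conj'.mul (co_poly q')).mul (co_inv ha))
  have h3 : Av (fun z => conj (conj (((g * q) /ₘ pp a).eval z) * q'.eval z *
      ((pp a).eval z)⁻¹)) = 0 := by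
    refine h2.trans ?_
    rw [map_eq_zero]
    exact h1
  rw [← sub_eq_zero, Bf, Bf, ← Av_sub (co_B ha _ _ _) (co_B ha _ _ _), ← h3]
  refine Av_congr fun z hz => ?_
  have h4 := pp_ne ha hz
  rw [modByMonic_eq_sub_mul_div]
  simp only [eval_sub, eval_mul, eval_one, map_mul, Complex.conj_conj]
  field_simp
  ring

lemma Bf_conj (ha : ∀ i, ‖a i‖ < 1) (q' q : ℂ[X]) : conj (Bf a 1 q q') = Bf a 1 q' q := by
  rw [Bf, ← Av_conj (co_B ha _ _ _)]
  refine Av_congr fun z _ => ?_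
  simp only [eval_one, map_mul, Complex.conj_conj, one_mul]
  ring

lemma Bf_re (ha : ∀ i, ‖a i‖ < 1) (q : ℂ[X]) :
    (Bf a 1 q q).re = circleAverage (fun z => ‖q.eval z * ((pp a).eval z)⁻¹‖ ^ 2) 0 1 := by
  rw [Bf, Av_re (co_B ha _ _ _)]
  congr 1
  funext z
  rw [eval_one, one_mul, Complex.conj_mul', ← Complex.ofReal_pow, Complex.ofReal_re]

lemma Bf_pos (ha : ∀ i, ‖a i‖ < 1) (q : ℂ[X]) (hq : q ≠ 0) : 0 < (Bf a 1 q q).re := by
  rw [Bf_re ha, circleAverage_def]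
  refine smul_pos (by positivity) ?_
  have hc : ContinuousOn (fun θ : ℝ => ‖q.eval (circleMap 0 1 θ) *
      ((pp a).eval (circleMap 0 1 θ))⁻¹‖ ^ 2) (Set.Icc 0 (2 * π)) :=
    ((((co_poly q).mul (co_inv ha)).norm.pow 2).comp (continuous_circleMap 0 1).continuousOn
      fun θ _ => circleMap_mem_sphere' 0 1 θ)
  have h := intervalIntegral.integral_lt_integral_of_continuousOn_of_le_of_exists_lt
    (f := fun _ => 0) two_pi_pos continuousOn_const hc (fun _ _ => by positivity) ?_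
  · simpa using h
  by_contra hcon
  push Not at hcon
  refine hq (eq_zero_of_infinite_isRoot q ?_)
  have hinj : Set.InjOn (circleMap 0 1) (Set.Ico 0 (2 * π)) :=
    injOn_circleMap_of_abs_sub_le' one_ne_zero (by simp)
  refine ((Set.Ico_infinite two_pi_pos).image hinj).mono ?_
  rintro _ ⟨θ, hθ, rfl⟩
  have h1 := hcon θ (Set.Ico_subset_Icc_self hθ)
  have h2 : q.eval (circleMap 0 1 θ) * ((pp a).eval (circleMap 0 1 θ))⁻¹ = 0 := by
    rw [← norm_eq_zero, ← pow_eq_zero_iff two_ne_zero]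
    exact le_antisymm h1 (by positivity)
  exact (mul_eq_zero.1 h2).resolve_right (inv_ne_zero (pp_ne ha (by simp)))

/-- form version of the bound `M` for the norm of `g` modulo `pp a`. -/
def FB (a : ι → ℂ) (g : ℂ[X]) (M : ℝ) : Prop :=
  ∀ q' q : ℂ[X], q'.degree < Fintype.card ι → q.degree < Fintype.card ι →
    2 * (Bf a g q' q).re ≤ M * ((Bf a 1 q q).re + (Bf a 1 q' q').re)

lemma FB_iff (ha : ∀ i, ‖a i‖ < 1) (g q' q : ℂ[X]) (M : ℝ) :
    Ψ (fun z => 2 * (conj (q'.eval z) * (g.eval z * q.eval z)).re -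
      M * (‖q.eval z‖ ^ 2 + ‖q'.eval z‖ ^ 2)) a ≤ 0 ↔
    2 * (Bf a g q' q).re ≤ M * ((Bf a 1 q q).re + (Bf a 1 q' q').re) := by
  have hd : 0 < ∏ i, (1 - ‖a i‖ ^ 2) := prod_pos fun i _ => by nlinarith [ha i, norm_nonneg (a i)]
  have h1 : Ψ (fun z => 2 * (conj (q'.eval z) * (g.eval z * q.eval z)).re -
      M * (‖q.eval z‖ ^ 2 + ‖q'.eval z‖ ^ 2)) a = (∏ i, (1 - ‖a i‖ ^ 2)) *
        ((2 : ℂ) * Bf a g q' q - M * (Bf a 1 q q + Bf a 1 q' q')).re := by
    rw [Bf, Bf, Bf, ← Av_add (co_B ha _ _ _) (co_B ha _ _ _), ← Av_mul, ← Av_mul,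
      ← Av_sub (continuousOn_const.fun_mul (co_B ha _ _ _))
        (continuousOn_const.fun_mul ((co_B ha _ _ _).fun_add (co_B ha _ _ _))),
      Av_re ((continuousOn_const.fun_mul (co_B ha _ _ _)).fun_sub
        (continuousOn_const.fun_mul ((co_B ha _ _ _).fun_add (co_B ha _ _ _)))), ← smul_eq_mul,
      ← circleAverage_fun_smul]
    refine circleAverage_congr_sphere fun z hz => ?_
    have e1 : ∏ i, Pk (a i) z = (∏ i, (1 - ‖a i‖ ^ 2)) * ‖((pp a).eval z)⁻¹‖ ^ 2 := by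
      simp only [Pk, prod_div_distrib, pp_eval, norm_inv, norm_prod, inv_pow, prod_pow]
      rw [div_eq_mul_inv]
    have e2 : ∀ u v w : ℂ, conj (u * w) * (v * w) = (‖w‖ ^ 2 : ℝ) * (conj u * v) := by
      intro u v w
      rw [Complex.ofReal_pow, ← Complex.conj_mul', map_mul]
      ring
    simp only [e1, ← mul_assoc (eval z g), e2, eval_one,
      one_mul, Complex.conj_mul', smul_eq_mul, ← Complex.ofReal_pow]
    simp only [Complex.sub_re, Complex.add_re, Complex.re_ofReal_mul, Complex.ofReal_re,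
      ← Complex.ofReal_ofNat]
    ring
  rw [h1, ← not_lt, mul_pos_iff_of_pos_left hd, not_lt]
  simp only [Complex.sub_re, Complex.add_re, Complex.re_ofReal_mul, ← Complex.ofReal_ofNat,
    sub_nonpos]

theorem FB_extremal [DecidableEq ι] [Nonempty ι] {r : ℝ} (h0 : 0 < r) (h1 : r < 1) (g : ℂ[X])
    (M : ℝ) (h : ∀ c : ℂ, ‖c‖ = r → FB (fun _ : ι => c) g M) (a : ι → ℂ) (ha : ∀ i, ‖a i‖ ≤ r) :
    FB a g M := by
  intro q' q hq' hq
  rw [← FB_iff fun i => (ha i).trans_lt h1]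
  refine extremal _ ?_ h0 h1 (fun c hc => ?_) a ha
  · have := g.continuous
    have := q.continuous
    have := q'.continuous
    fun_prop
  · exact (FB_iff (fun _ => hc.trans_lt h1) _ _ _ _).2 (h c hc q' q hq' hq)

end Pool.Agent.H5.Ptak
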