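import Pool.Agent.H5.PtakB

set_option autoImplicit false

open Real Metric Finset Function Polynomial
open scoped ComplexConjugate

namespace Pool.Agent.H5.Ptak

variable {ι : Type} [Fintype ι] {a : ι → ℂ}

section upper

variable {E : Type} [NormedAddCommGroup E] [InnerProductSpace ℂ E]

/-- Horner partial sums of `p(T)`. -/
noncomputable def U (p : ℂ[X]) (T : E →L[ℂ] E) (i : ℕ) : E →L[ℂ] E := aeval T (divX^[i] p)

lemma coeff_iter (p : ℂ[X]) (i k : ℕ) : (divX^[i] p).coeff k = p.coeff (k + i) := by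
  induction i generalizing k with
  | zero => rfl
  | succ i ih => rw [iterate_succ_apply', coeff_divX, ih, add_assoc, add_comm 1]

lemma U_succ (p : ℂ[X]) (T : E →L[ℂ] E) (i : ℕ) (x : E) :
    T (U p T (i + 1) x) = U p T i x - p.coeff i • x := by
  have h := congrArg (fun s => aeval T s x) (X_mul_divX_add (divX^[i] p))
  simp only [map_add, map_mul, aeval_X, aeval_C, coeff_iter, zero_add, add_apply,
    mul_apply_eq_comp, Algebra.algebraMap_eq_smul_one, smul_apply,
    one_apply_eq_self] at h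
  rw [U, U, ← h, iterate_succ_apply', add_sub_cancel_right]

lemma U_top (p : ℂ[X]) (hp : p.Monic) (T : E →L[ℂ] E) : U p T p.natDegree = 1 := by
  have : divX^[p.natDegree] p = 1 := by
    ext k
    rw [coeff_iter, coeff_one]
    split_ifs with h
    · rw [h, zero_add, hp.coeff_natDegree]
    · exact coeff_eq_zero_of_natDegree_lt (by omega)
  rw [U, this, map_one]

/-- the vector polynomial `p(z) (z - T)⁻¹ x`. -/
noncomputable def uu (p : ℂ[X]) (T : E →L[ℂ] E) (x : E) (z : ℂ) : E :=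
  ∑ i ∈ range p.natDegree, z ^ i • U p T (i + 1) x

lemma T_uu (p : ℂ[X]) (hp : p.Monic) (T : E →L[ℂ] E) (hT : aeval T p = 0) (x : E) (z : ℂ) :
    T (uu p T x z) = z • uu p T x z - p.eval z • x := by
  have h0 : U p T 0 x = 0 := by simp [U, hT]
  have h1 := sum_range_sub (fun i => z ^ i • U p T i x) p.natDegree
  rw [U_top p hp, h0, sum_sub_distrib] at h1
  rw [uu, map_sum, smul_sum, eval_eq_sum_range, sum_range_succ, hp.coeff_natDegree, add_smul,
    sum_smul]
  simp only [map_smul, U_succ, smul_sub, sum_sub_distrib, smul_smul, ← pow_succ',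
    mul_comm (z ^ _) (p.coeff _)]
  simp only [one_apply_eq_self, smul_zero, sub_zero] at h1
  rw [one_mul, ← h1]
  abel

/-- scalar components of `uu`. -/
noncomputable def Q (p : ℂ[X]) (T : E →L[ℂ] E) (x : E) (l : E →L[ℂ] ℂ) : ℂ[X] :=
  ∑ i ∈ range p.natDegree, monomial i (l (U p T (i + 1) x))

lemma Q_eval (p : ℂ[X]) (T : E →L[ℂ] E) (x : E) (l : E →L[ℂ] ℂ) (z : ℂ) :
    (Q p T x l).eval z = l (uu p T x z) := by
  simp [Q, uu, eval_finsetSum, mul_comm]

lemma Q_deg (p : ℂ[X]) (T : E →L[ℂ] E) (x : E) (l : E →L[ℂ] ℂ) :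
    (Q p T x l).degree < p.natDegree := by
  refine lt_of_le_of_lt (degree_sum_le _ _) ((Finset.sup_lt_iff (WithBot.bot_lt_coe _)).2 ?_)
  intro i hi
  exact lt_of_le_of_lt (degree_monomial_le _ _) (by exact_mod_cast mem_range.1 hi)

lemma XQ (p : ℂ[X]) (hp : p.Monic) (hn : 0 < p.natDegree) (T : E →L[ℂ] E) (x : E)
    (l : E →L[ℂ] ℂ) : (X * Q p T x l).natDegree ≤ p.natDegree ∧
      (X * Q p T x l).coeff p.natDegree = l x := by
  obtain ⟨m, hm⟩ : ∃ m, p.natDegree = m + 1 := ⟨p.natDegree - 1, by omega⟩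
  constructor
  · rw [natDegree_le_iff_coeff_eq_zero]
    intro k hk
    obtain ⟨j, rfl⟩ : ∃ j, k = j + 1 := ⟨k - 1, by omega⟩
    rw [coeff_X_mul]
    exact coeff_eq_zero_of_degree_lt ((Q_deg p T x l).trans_le (by exact_mod_cast (by omega)))
  · have h := U_top p hp T
    rw [hm] at h
    rw [hm, coeff_X_mul, Q, finsetSum_coeff]
    simp [coeff_monomial, hm, h]

lemma cauchy [Nonempty ι] (ha : ∀ i, ‖a i‖ < 1) (T : E →L[ℂ] E) (hT : aeval T (pp a) = 0) (x : E)
    (g : ℂ[X]) : ∀ l : E →L[ℂ] ℂ,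
    Av (fun z => g.eval z * (z * l (uu (pp a) T x z) * ((pp a).eval z)⁻¹)) = l (aeval T g x) := by
  have hn : 0 < (pp a).natDegree := by rw [pp_deg]; exact Fintype.card_pos
  have hco : ∀ l : E →L[ℂ] ℂ, Co fun z => z * l (uu (pp a) T x z) * ((pp a).eval z)⁻¹ := by
    intro l
    simp only [← Q_eval]
    exact (continuousOn_id.fun_mul (co_poly _)).fun_mul (co_inv ha)
  have base : ∀ l : E →L[ℂ] ℂ,
      Av (fun z => z * l (uu (pp a) T x z) * ((pp a).eval z)⁻¹) = l x := by
    intro l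
    have h := Av_ext ha 1 _ (pp_deg a ▸ (XQ _ (pp_monic a) hn T x l).1)
    rw [← pp_deg, (XQ _ (pp_monic a) hn T x l).2] at h
    simpa [Q_eval] using h
  induction hd : g.natDegree using Nat.strong_induction_on generalizing g with
  | _ d ih =>
    intro l
    by_cases h0 : g.natDegree = 0
    · rw [eq_C_of_natDegree_eq_zero h0]
      simp only [eval_C, Av_mul, base]
      simp [Algebra.algebraMap_eq_smul_one]
    have h1 := ih _ (by rw [natDegree_divX_eq_natDegree_tsub_one]; omega) g.divX rfl (l.comp T)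
    have h2 : aeval T g x = T (aeval T g.divX x) + g.coeff 0 • x := by
      conv_lhs => rw [← X_mul_divX_add g]
      simp only [map_add, map_mul, aeval_X, aeval_C, add_apply, mul_apply_eq_comp,
        Algebra.algebraMap_eq_smul_one, smul_apply, one_apply_eq_self]
    have h3 : Av (fun z => l x * (X * g.divX).eval z) = 0 := by
      rw [Av_mul, Av_poly]
      simp
    rw [h2, map_add, map_smul, ← base l, smul_eq_mul, ← Av_mul, ← add_zero (l (T _)), ← h3]
    change _ = (l.comp T) _ + _ + _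
    rw [← h1, ← Av_add ((co_poly _).fun_mul (hco _)) (continuousOn_const.fun_mul (co_poly _)),
      ← Av_add (((co_poly _).fun_mul (hco _)).fun_add (continuousOn_const.fun_mul (co_poly _)))
        (continuousOn_const.fun_mul (hco _))]
    refine Av_congr fun z hz => ?_
    have h4 := pp_ne ha hz
    conv_lhs => rw [← X_mul_divX_add g]
    simp only [ContinuousLinearMap.comp_apply, T_uu _ (pp_monic a) T hT, map_sub, map_smul,
      smul_eq_mul, eval_add, eval_mul, eval_X, eval_C]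
    field_simp
    ring

end upper

lemma sum_B [Nonempty ι] {n : ℕ} (ha : ∀ i, ‖a i‖ < 1)
    (T B : EuclideanSpace ℂ (Fin n) →L[ℂ] EuclideanSpace ℂ (Fin n)) (hT : aeval T (pp a) = 0)
    (hB : 1 - star T * T = star B * B) (x y : EuclideanSpace ℂ (Fin n)) (g : ℂ[X]) :
    ∑ j, Bf a g (Q (pp a) T y ((EuclideanSpace.proj j).comp B))
      (Q (pp a) T x ((EuclideanSpace.proj j).comp B)) = inner ℂ y (aeval T g x) := by
  have hn : 0 < (pp a).natDegree := by rw [pp_deg]; exact Fintype.card_pos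
  have hBB : ∀ u v : EuclideanSpace ℂ (Fin n),
      inner ℂ (B u) (B v) = inner ℂ u v - inner ℂ (T u) (T v) := by
    intro u v
    have h := congrArg (fun S => inner ℂ u (S v)) hB
    simp only [sub_apply, mul_apply_eq_comp, one_apply_eq_self,
      ContinuousLinearMap.star_eq_adjoint, inner_sub_right,
      ContinuousLinearMap.adjoint_inner_right] at h
    exact h.symm
  have h1 := cauchy ha T hT x g (innerSL ℂ y)
  have h2 := Av_ext ha g _ (pp_deg a ▸ (XQ _ (pp_monic a) hn T y (innerSL ℂ x)).1)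
  rw [← pp_deg, (XQ _ (pp_monic a) hn T y (innerSL ℂ x)).2] at h2
  have c2 := (((co_poly g).conj'.fun_mul (co_poly (X * Q (pp a) T y (innerSL ℂ x)))).fun_mul
    (co_inv ha))
  have h3 := Av_conj c2
  rw [h2] at h3
  have h4 : Av (fun z => inner ℂ y x * g.eval z) = inner ℂ y x * g.coeff 0 := by
    rw [Av_mul, Av_poly]
  have c1 : Co fun z => g.eval z * (z * innerSL ℂ y (uu (pp a) T x z) * ((pp a).eval z)⁻¹) := by
    simp only [← Q_eval]
    exact (co_poly _).fun_mul ((continuousOn_id.fun_mul (co_poly _)).fun_mul (co_inv ha))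
  have h5 : inner ℂ y (aeval T g x) = innerSL ℂ y (aeval T g x) +
      conj (conj (g.coeff 0) * innerSL ℂ x y) - inner ℂ y x * g.coeff 0 := by
    simp [mul_comm]
  rw [h5, ← h1, ← h3, ← h4, ← Av_add c1 (Co.conj' c2),
    ← Av_sub (c1.fun_add (Co.conj' c2)) (continuousOn_const.fun_mul (co_poly _))]
  unfold Bf
  rw [← Av_sum _ fun j => co_B ha _ _ _]
  refine Av_congr fun z hz => ?_
  have h6 := pp_ne ha hz
  have h7 : conj ((pp a).eval z) ≠ 0 := (_root_.map_ne_zero _).2 h6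
  have h8 := hBB (uu (pp a) T y z) (uu (pp a) T x z)
  have h9 : conj z * z = 1 := by rw [Complex.conj_mul', hz]; simp
  rw [T_uu _ (pp_monic a) T hT, T_uu _ (pp_monic a) T hT, PiLp.inner_apply] at h8
  simp only [inner_sub_left, inner_sub_right, inner_smul_left, inner_smul_right,
    RCLike.inner_apply] at h8
  simp only [Q_eval, eval_mul, eval_X, map_mul, map_inv₀, Complex.conj_conj, innerSL_apply_apply,
    ContinuousLinearMap.comp_apply, inner_conj_symm, PiLp.proj_apply]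
  rw [sum_congr rfl (g := fun j => (g.eval z * ((pp a).eval z)⁻¹ * (conj ((pp a).eval z))⁻¹) *
    ((B (uu (pp a) T x z)) j * conj ((B (uu (pp a) T y z)) j))) (fun j _ => by ring),
    ← mul_sum, h8]
  field_simp
  linear_combination (-g.eval z * inner ℂ (uu (pp a) T y z) (uu (pp a) T x z)) * h9

theorem upper [Nonempty ι] {n : ℕ} (ha : ∀ i, ‖a i‖ < 1)
    (T : EuclideanSpace ℂ (Fin n) →L[ℂ] EuclideanSpace ℂ (Fin n)) (hT : aeval T (pp a) = 0)
    (h1 : ‖T‖ ≤ 1) (g : ℂ[X]) (M : ℝ) (hM : 0 ≤ M) (h : FB a g M) : ‖aeval T g‖ ≤ M := by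
  have h2 : 0 ≤ 1 - star T * T := by
    rw [sub_nonneg]
    refine (CStarAlgebra.norm_le_one_iff_of_nonneg _ (star_mul_self_nonneg T)).1 ?_
    rw [CStarRing.norm_star_mul_self]
    nlinarith [norm_nonneg T]
  obtain ⟨B, hB⟩ := CStarAlgebra.nonneg_iff_eq_star_mul_self.1 h2
  have h3 : ∀ x y, 2 * (inner ℂ y (aeval T g x)).re ≤ M * (‖x‖ ^ 2 + ‖y‖ ^ 2) := by
    intro x y
    have e1 := sum_B ha T B hT hB x y g
    have e2 := sum_B ha T B hT hB x x 1
    have e3 := sum_B ha T B hT hB y y 1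
    rw [map_one, one_apply_eq_self] at e2 e3
    have e4 : ‖x‖ ^ 2 = (inner ℂ x x).re := (inner_self_eq_norm_sq (𝕜 := ℂ) x).symm
    have e5 : ‖y‖ ^ 2 = (inner ℂ y y).re := (inner_self_eq_norm_sq (𝕜 := ℂ) y).symm
    rw [e4, e5, ← e1, ← e2, ← e3, Complex.re_sum, Complex.re_sum, Complex.re_sum, mul_sum,
      ← sum_add_distrib, mul_sum]
    exact sum_le_sum fun j _ => h _ _ (pp_deg a ▸ Q_deg _ _ _ _) (pp_deg a ▸ Q_deg _ _ _ _)
  refine ContinuousLinearMap.opNorm_le_of_unit_norm hM fun x hx => ?_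
  by_cases hv : aeval T g x = 0
  · rwa [hv, norm_zero]
  have hv' : 0 < ‖aeval T g x‖ := norm_pos_iff.2 hv
  have h4 := h3 x ((‖aeval T g x‖⁻¹ : ℂ) • aeval T g x)
  rw [inner_smul_left, inner_self_eq_norm_sq_to_K, norm_smul, hx] at h4
  have h5 : conj ((‖aeval T g x‖ : ℂ)⁻¹) * (‖aeval T g x‖ : ℂ) ^ 2 = (‖aeval T g x‖ : ℂ) := by
    have : (‖aeval T g x‖ : ℂ) ≠ 0 := by exact_mod_cast hv'.ne'
    rw [map_inv₀, Complex.conj_ofReal]
    field_simp
  erw [h5] at h4
  rw [norm_inv, Complex.norm_real, norm_norm, inv_mul_cancel₀ hv'.ne', Complex.ofReal_re] at h4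
  linarith

lemma exists_iso {V : Type} [AddCommGroup V] [Module ℂ V] [FiniteDimensional ℂ V]
    (c : InnerProductSpace.Core ℂ V) {n : ℕ} (hn : Module.finrank ℂ V = n) :
    ∃ e : V ≃ₗ[ℂ] EuclideanSpace ℂ (Fin n), ∀ x y, inner ℂ (e x) (e y) = c.inner x y := by
  let _ : NormedAddCommGroup V := c.toNormedAddCommGroup
  let _ : InnerProductSpace ℂ V := InnerProductSpace.ofCore c.toCore
  subst hn
  exact ⟨(stdOrthonormalBasis ℂ V).repr.toLinearEquiv,
    fun x y => (stdOrthonormalBasis ℂ V).repr.inner_map_map x y⟩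

theorem model (ha : ∀ i, ‖a i‖ < 1) {n : ℕ} (hn : Fintype.card ι = n) :
    ∃ T : EuclideanSpace ℂ (Fin n) →L[ℂ] EuclideanSpace ℂ (Fin n), ‖T‖ ≤ 1 ∧
      aeval T (pp a) = 0 ∧ ∀ g : ℂ[X], FB a g ‖aeval T g‖ := by
  have hp := pp_monic a
  let rep := AdjoinRoot.modByMonicHom hp
  have hdeg : ∀ x, (rep x).degree < Fintype.card ι := by
    intro x
    induction x using AdjoinRoot.induction_on with
    | ih s =>
      rw [← pp_deg a, ← degree_eq_natDegree hp.ne_zero]
      exact degree_modByMonic_lt s hp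
  have hself : ∀ q : ℂ[X], q.degree < Fintype.card ι → rep (AdjoinRoot.mk _ q) = q := by
    intro q hq
    rw [← pp_deg a, ← degree_eq_natDegree hp.ne_zero] at hq
    exact (modByMonic_eq_self_iff hp).2 hq
  let c : InnerProductSpace.Core ℂ (AdjoinRoot (pp a)) :=
    { inner := fun x y => Bf a 1 (rep x) (rep y)
      conj_inner_symm := fun x y => Bf_conj ha _ _
      re_inner_nonneg := fun x => by
        by_cases h : rep x = 0
        · simp [Bf, h, Av, circleAverage_def]
        · exact (Bf_pos ha _ h).le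
      add_left := fun x y z => by
        simp only [Bf]
        rw [← Av_add (co_B ha _ _ _) (co_B ha _ _ _)]
        exact Av_congr fun w _ => by simp [add_mul]
      smul_left := fun x y r => by
        simp only [Bf]
        rw [← Av_mul]
        exact Av_congr fun w _ => by simp [mul_assoc]
      definite := fun x h => by
        by_contra hx
        have h1 : rep x ≠ 0 := fun h1 => hx (by
          rw [← AdjoinRoot.mk_leftInverse hp x]
          exact (congrArg _ h1).trans (map_zero _))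
        have h2 := Bf_pos ha _ h1
        have h3 : Bf a 1 (rep x) (rep x) = 0 := h
        simp [h3] at h2 }
  have hfin : FiniteDimensional ℂ (AdjoinRoot (pp a)) := (AdjoinRoot.powerBasis' hp).finite
  obtain ⟨e, he⟩ := exists_iso c (n := n) (by
    rw [(AdjoinRoot.powerBasis' hp).finrank, AdjoinRoot.powerBasis'_dim, pp_deg, hn])
  let Φ : AdjoinRoot (pp a) →ₐ[ℂ] (EuclideanSpace ℂ (Fin n) →L[ℂ] EuclideanSpace ℂ (Fin n)) :=
    ((Module.End.toContinuousLinearMap (EuclideanSpace ℂ (Fin n))).toAlgHom.comp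
      (e.conjAlgEquiv ℂ).toAlgHom).comp (Algebra.lmul ℂ _)
  have hΦ : ∀ x y, Φ x (e y) = e (x * y) := fun x y => by
    change e (x * e.symm (e y)) = _
    rw [e.symm_apply_apply]
  have hev : ∀ g : ℂ[X], aeval (Φ (AdjoinRoot.root _)) g = Φ (AdjoinRoot.mk _ g) := fun g => by
    rw [aeval_algHom_apply, AdjoinRoot.aeval_eq]
  have hB : ∀ (g q : ℂ[X]) (y : AdjoinRoot (pp a)), Bf a g (rep y) q =
      inner ℂ (e y) (Φ (AdjoinRoot.mk _ g) (e (AdjoinRoot.mk _ q))) := fun g q y => by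
    rw [hΦ, he, ← map_mul, Bf_mod ha _ _ _ (hdeg y)]
    rfl
  have hN : ∀ y : AdjoinRoot (pp a), ‖e y‖ ^ 2 = (Bf a 1 (rep y) (rep y)).re := fun y => by
    rw [← inner_self_eq_norm_sq (𝕜 := ℂ), he]
    rfl
  refine ⟨Φ (AdjoinRoot.root _), ?_, by rw [hev, AdjoinRoot.mk_self, map_zero], ?_⟩
  · refine ContinuousLinearMap.opNorm_le_bound _ zero_le_one fun v => ?_
    obtain ⟨x, rfl⟩ := e.surjective v
    have h1 := hB X (rep x) (AdjoinRoot.root _ * x)
    rw [AdjoinRoot.mk_leftInverse hp x, AdjoinRoot.mk_X, hΦ] at h1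
    have h2 : ‖e (AdjoinRoot.root _ * x)‖ ^ 2 = (Bf a X (rep (AdjoinRoot.root _ * x)) (rep x)).re := by
      rw [h1, ← inner_self_eq_norm_sq (𝕜 := ℂ)]
      rfl
    have h3 : ∀ q' q : ℂ[X], 2 * (Bf a X q' q).re ≤ 1 * ((Bf a 1 q q).re + (Bf a 1 q' q').re) := by
      intro q' q
      rw [← FB_iff ha, ← neg_nonneg, Ψ, ← neg_one_smul ℝ, ← circleAverage_fun_smul]
      refine circleAverage_nonneg_of_nonneg fun z hz => ?_
      have e1 := Complex.re_le_norm (conj (q'.eval z) * (X.eval z * q.eval z))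
      rw [norm_mul, norm_mul, eval_X, sph hz, Complex.norm_conj] at e1
      have e2 : 0 ≤ ∏ i, Pk (a i) z := prod_nonneg fun i _ =>
        div_nonneg (by nlinarith [ha i, norm_nonneg (a i)]) (sq_nonneg _)
      rw [neg_one_smul, neg_nonneg, eval_X]
      refine mul_nonpos_of_nonpos_of_nonneg ?_ e2
      nlinarith [sq_nonneg (‖q.eval z‖ - ‖q'.eval z‖)]
    have h4 := h3 (rep (AdjoinRoot.root _ * x)) (rep x)
    rw [← h2, ← hN, ← hN] at h4
    rw [hΦ, one_mul]
    exact (pow_le_pow_iff_left₀ (norm_nonneg _) (norm_nonneg _) two_ne_zero).1 (by linarith)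
  · intro g q' q hq' hq
    have h1 := hB g q (AdjoinRoot.mk _ q')
    have h2 := hN (AdjoinRoot.mk _ q)
    have h3 := hN (AdjoinRoot.mk _ q')
    rw [hself q' hq'] at h1 h3
    rw [hself q hq] at h2
    rw [h1, ← h2, ← h3, hev]
    have h4 := (Complex.re_le_norm _).trans (norm_inner_le_norm (𝕜 := ℂ) (e (AdjoinRoot.mk _ q'))
      (Φ (AdjoinRoot.mk _ g) (e (AdjoinRoot.mk _ q))))
    have h5 := (Φ (AdjoinRoot.mk _ g)).le_opNorm (e (AdjoinRoot.mk _ q))
    have h6 := mul_le_mul_of_nonneg_left h5 (norm_nonneg (e (AdjoinRoot.mk _ q')))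
    nlinarith [mul_nonneg (norm_nonneg (Φ (AdjoinRoot.mk _ g)))
      (sq_nonneg (‖e (AdjoinRoot.mk _ q)‖ - ‖e (AdjoinRoot.mk _ q')‖))]

end Pool.Agent.H5.Ptak
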