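import Mathlib

set_option autoImplicit false
open Filter Topology Cardinal

namespace Pool.Agent.H5.SelP

abbrev Z := ZMod 2

lemma z01 (a : Z) : a ≠ 1 → a = 0 := by
  revert a; decide

/-- for every family of at most continuum many ultrafilters there is a free one outside it -/
theorem exists_free (B : Set (Ultrafilter ℕ)) (hB : #B ≤ 𝔠) :
    ∃ q : Ultrafilter ℕ, q ∉ B ∧ (q : Filter ℕ) ≤ cofinite := by
  classical
  let S := ℕ × Finset (Finset ℕ)
  obtain ⟨e⟩ : Nonempty (ℕ ≃ S) := nonempty_equiv_of_countable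
  let tr : Set ℕ → ℕ → Finset ℕ := fun x n => (Finset.range n).filter (fun i => i ∈ x)
  let X : Set ℕ → Set ℕ := fun x => {m | tr x (e m).1 ∈ (e m).2}
  let B' : Set (Ultrafilter ℕ) := B ∪ Set.range (pure : ℕ → Ultrafilter ℕ)
  have hB' : #B' ≤ #(Set ℕ) := by
    have h1 : #(Set.range (pure : ℕ → Ultrafilter ℕ)) ≤ 𝔠 :=
      le_trans (mk_range_le) (by simp [aleph0_le_continuum])
    have h2 : #(Set ℕ) = 𝔠 := by simp
    rw [h2]
    exact le_trans (mk_union_le _ _) (by
      calc #B + #(Set.range (pure : ℕ → Ultrafilter ℕ)) ≤ 𝔠 + 𝔠 := add_le_add hB h1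
        _ = 𝔠 := by simp)
  have hne : Nonempty B' := ⟨⟨pure 0, Or.inr ⟨0, rfl⟩⟩⟩
  obtain ⟨j⟩ := (Cardinal.le_def _ _).1 hB'
  let b : Set ℕ → B' := Function.invFun j
  have hb : Function.Surjective b := Function.invFun_surjective j.injective
  let Y : Set ℕ → Set ℕ := fun x => if X x ∈ (b x).1 then (X x)ᶜ else X x
  have hY : ∀ x, Y x ∉ (b x).1 := by
    intro x
    by_cases h : X x ∈ (b x).1
    · simp only [Y, h, if_true]
      exact Ultrafilter.compl_notMem_iff.2 h
    · have : Y x = X x := by simp only [Y, h, if_false]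
      rw [this]
      exact h
  have hfip : ∀ T : Finset (Set ℕ), (⋂ x ∈ T, Y x).Nonempty := by
    intro T
    have hsep : ∀ x ∈ T, ∀ y ∈ T, ∃ n, ∀ m, n ≤ m → tr x m = tr y m → x = y := by
      intro x _ y _
      by_cases hxy : x = y
      · exact ⟨0, fun _ _ _ => hxy⟩
      · have : ∃ i, ¬ (i ∈ x ↔ i ∈ y) := by
          by_contra hc
          push Not at hc
          exact hxy (Set.ext hc)
        obtain ⟨i, hi⟩ := this
        refine ⟨i + 1, fun m hm h => ?_⟩
        exfalso
        apply hi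
        have := congrArg (fun s => i ∈ s) h
        simp only [tr, Finset.mem_filter, Finset.mem_range, eq_iff_iff] at this
        have him : i < m := by omega
        constructor
        · intro h1; exact (this.1 ⟨him, h1⟩).2
        · intro h1; exact (this.2 ⟨him, h1⟩).2
    choose! N hN using hsep
    let m : ℕ := (T ×ˢ T).sup (fun a => N a.1 a.2)
    have hm : ∀ x ∈ T, ∀ y ∈ T, tr x m = tr y m → x = y := by
      intro x hx y hy
      apply hN x hx y hy
      exact Finset.le_sup (f := fun a : Set ℕ × Set ℕ => N a.1 a.2) (b := (x, y))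
        (Finset.mem_product.2 ⟨hx, hy⟩)
    let A : Finset (Finset ℕ) := (T.filter (fun x => X x ∉ (b x).1)).image (fun x => tr x m)
    refine ⟨e.symm (m, A), ?_⟩
    simp only [Set.mem_iInter]
    intro x hx
    have key : e.symm (m, A) ∈ X x ↔ X x ∉ (b x).1 := by
      simp only [X, Set.mem_ofPred_eq, Equiv.apply_symm_apply, A, Finset.mem_image,
        Finset.mem_filter]
      constructor
      · rintro ⟨y, ⟨hy, hy2⟩, h⟩
        have := hm y hy x hx h
        subst this
        exact hy2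
      · intro h
        exact ⟨x, ⟨hx, h⟩, rfl⟩
    by_cases h : X x ∈ (b x).1
    · simp only [Y, h, if_true]
      intro h2
      exact key.1 h2 h
    · simp only [Y, h, if_false]
      exact key.2 h
  obtain ⟨q, hq⟩ := Ultrafilter.exists_ultrafilter_of_finite_inter_nonempty (Set.range Y) (by
    intro T hT
    have hT' : ∀ t ∈ T, ∃ x, Y x = t := fun t ht => hT ht
    choose! g hg using hT'
    obtain ⟨m, hm⟩ := hfip (T.image g)
    refine ⟨m, ?_⟩
    intro t ht
    simp only [Set.mem_iInter] at hm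
    have := hm (g t) (Finset.mem_image_of_mem g ht)
    rwa [hg t ht] at this)
  have hq' : q ∉ B' := by
    intro h
    obtain ⟨x, hx⟩ := hb ⟨q, h⟩
    have h1 := hY x
    rw [hx] at h1
    exact h1 (hq ⟨x, rfl⟩)
  refine ⟨q, fun h => hq' (Or.inl h), ?_⟩
  rcases q.le_cofinite_or_eq_pure with h | ⟨a, ha⟩
  · exact h
  · exact absurd (Or.inr ⟨a, ha.symm⟩) hq'

abbrev O := Option ℕ

def Con (q : Ultrafilter ℕ) (w : O → Z) : Prop := ∀ᶠ n in (q : Filter ℕ), w (some n) = w none

def Kill {J : Type} (p : Ultrafilter ℕ) (z : ℕ → (J × O →₀ Z)) (v : J × O → Z) : Prop :=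
  ∀ᶠ n in (p : Filter ℕ), Finsupp.linearCombination Z v (z n) = 1

lemma lc_add {J : Type} (v w : J → Z) (z : J →₀ Z) :
    Finsupp.linearCombination Z (v + w) z =
      Finsupp.linearCombination Z v z + Finsupp.linearCombination Z w z := by
  simp [Finsupp.linearCombination_apply, Finsupp.sum, Finset.sum_add_distrib, mul_add]

lemma split_two (p : Ultrafilter ℕ) (E : ℕ → (ℕ × O →₀ Z)) (q q' : ℕ → Ultrafilter ℕ)
    (hq : ∀ k, q k ≠ q' k) (v : ℕ × O → Z) (hv : Kill p E v) :
    (∃ v, (∀ k, Con (q k) (fun o => v (k, o))) ∧ Kill p E v) ∨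
      (∃ v, (∀ k, Con (q' k) (fun o => v (k, o))) ∧ Kill p E v) := by
  classical
  have hC : ∀ k, ∃ C : Set ℕ, C ∈ q k ∧ Cᶜ ∈ q' k := by
    intro k
    by_contra hc
    push Not at hc
    apply hq k
    apply Ultrafilter.coe_injective
    refine Ultrafilter.unique _ ?_
    intro C hC
    by_contra h
    have h1 : Cᶜ ∈ q k := Ultrafilter.compl_mem_iff_notMem.2 h
    have h2 := hc _ h1
    rw [compl_compl] at h2
    exact h2 hC
  choose C hC1 hC2 using hC
  let v1 : ℕ × O → Z := fun a => match a.2 with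
    | none => v a
    | some n => if n ∈ C a.1 then v (a.1, none) else v a
  let v2 : ℕ × O → Z := v - v1
  have hsum : v = v1 + v2 := by simp [v2]
  have h1 : ∀ k, Con (q k) (fun o => v1 (k, o)) := by
    intro k
    filter_upwards [hC1 k] with n hn
    simp [v1, hn]
  have h2 : ∀ k, Con (q' k) (fun o => v2 (k, o)) := by
    intro k
    filter_upwards [hC2 k] with n hn
    have hn' : n ∉ C k := hn
    simp [v1, v2, hn']
  by_contra hc
  push Not at hc
  have k1 := hc.1 v1 h1
  have k2 := hc.2 v2 h2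
  unfold Kill at k1 k2 hv
  rw [← Ultrafilter.eventually_not] at k1 k2
  obtain ⟨n, hn1, hn2, hn3⟩ := (k1.and (k2.and hv)).exists
  rw [hsum, lc_add, z01 _ hn1, z01 _ hn2] at hn3
  exact absurd hn3 (by decide)

theorem exists_bad (p : Ultrafilter ℕ) : ∃ B : Set (Ultrafilter ℕ), #B ≤ 𝔠 ∧
    ∀ (E : ℕ → (ℕ × O →₀ Z)) (q : ℕ → Ultrafilter ℕ), (∀ k, q k ∉ B) →
      (∃ v, Kill p E v) → ∃ v, (∀ k, Con (q k) (fun o => v (k, o))) ∧ Kill p E v := by
  classical
  have h : ∀ E : ℕ → (ℕ × O →₀ Z), ∃ q' : ℕ → Ultrafilter ℕ, ∀ q : ℕ → Ultrafilter ℕ,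
      (∀ k, q k ≠ q' k) →
      (∃ v, Kill p E v) → ∃ v, (∀ k, Con (q k) (fun o => v (k, o))) ∧ Kill p E v := by
    intro E
    by_cases h0 : ∃ q' : ℕ → Ultrafilter ℕ,
      ¬ ∃ v, (∀ k, Con (q' k) (fun o => v (k, o))) ∧ Kill p E v
    · obtain ⟨q', hq'⟩ := h0
      refine ⟨q', fun q hq ⟨v, hv⟩ => ?_⟩
      rcases split_two p E q q' hq v hv with h | h
      · exact h
      · exact absurd h hq'
    · refine ⟨fun _ => pure 0, fun q _ _ => ?_⟩
      by_contra hc
      exact h0 ⟨q, hc⟩
  choose Q hQ using h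
  refine ⟨Set.range (fun a : (ℕ → (ℕ × O →₀ Z)) × ℕ => Q a.1 a.2), ?_, ?_⟩
  · refine le_trans mk_range_le ?_
    have h1 : #(ℕ × O →₀ Z) ≤ ℵ₀ := Cardinal.mk_le_aleph0
    have h2 : #(ℕ → (ℕ × O →₀ Z)) ≤ 𝔠 := by
      rw [← Cardinal.power_def, Cardinal.mk_nat]
      calc #(ℕ × O →₀ Z) ^ ℵ₀ ≤ ℵ₀ ^ ℵ₀ := Cardinal.power_le_power_right h1
        _ = 𝔠 := by simp
    rw [Cardinal.mk_prod, Cardinal.lift_id, Cardinal.lift_id, Cardinal.mk_nat]
    calc #(ℕ → (ℕ × O →₀ Z)) * ℵ₀ ≤ 𝔠 * ℵ₀ := mul_le_mul_left h2 _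
      _ = 𝔠 := by simp
  · intro E q hq
    exact hQ E q (fun k h => hq k ⟨(E, k), h.symm⟩)

/-- version over an arbitrary infinite index type, with a countable support set -/
theorem kill_gen {J : Type} [Infinite J] (p : Ultrafilter ℕ) (B : Set (Ultrafilter ℕ))
    (hB : ∀ (E : ℕ → (ℕ × O →₀ Z)) (q : ℕ → Ultrafilter ℕ), (∀ k, q k ∉ B) →
      (∃ v, Kill p E v) → ∃ v, (∀ k, Con (q k) (fun o => v (k, o))) ∧ Kill p E v)
    (q : J → Ultrafilter ℕ) (hq : ∀ a, q a ∉ B) (z : ℕ → (J × O →₀ Z))
    (w : J × O → Z) (hw : ∀ a, Con (q a) (fun o => w (a, o))) :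
    ∃ (D : Set J) (v : J × O → Z), D.Countable ∧ (∀ a, a ∉ D → ∀ o, v (a, o) = w (a, o)) ∧
      (∀ a, Con (q a) (fun o => v (a, o))) ∧ ((∃ u, Kill p z u) → Kill p z v) := by
  classical
  by_cases hk : ∃ u, Kill p z u
  swap
  · exact ⟨∅, w, Set.countable_empty, fun _ _ _ => rfl, hw, fun h => absurd h hk⟩
  obtain ⟨u, hu⟩ := hk
  let D0 : Set J := (⋃ n, Prod.fst '' ((z n).support : Set (J × O))) ∪
    Set.range (Infinite.natEmbedding J)
  have hD0 : D0.Countable := by
    refine Set.Countable.union (Set.countable_iUnion fun n => ?_) (Set.countable_range _)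
    exact ((z n).support.finite_toSet.image _).countable
  have hD0i : D0.Infinite :=
    (Set.infinite_range_of_injective (Infinite.natEmbedding J).injective).mono
      Set.subset_union_right
  have : Countable D0 := hD0.to_subtype
  have : Infinite D0 := hD0i.to_subtype
  obtain ⟨e⟩ : Nonempty (ℕ ≃ D0) := nonempty_equiv_of_countable
  let d : ℕ → J := fun k => (e k).1
  have hd : Function.Injective d := fun a b h => e.injective (Subtype.ext h)
  let f : ℕ × O → J × O := Prod.map d id
  have hf : Function.Injective f := hd.prodMap Function.injective_id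
  have hsupp : ∀ n, ((z n).support : Set (J × O)) ⊆ Set.range f := by
    intro n a ha
    have h1 : a.1 ∈ D0 := Or.inl (Set.mem_iUnion.2 ⟨n, a, ha, rfl⟩)
    refine ⟨(e.symm ⟨a.1, h1⟩, a.2), ?_⟩
    simp [f, d]
  let E : ℕ → (ℕ × O →₀ Z) := fun n => Finsupp.comapDomain f (z n) hf.injOn
  have hE : ∀ n (v : J × O → Z), Finsupp.linearCombination Z v (z n) =
      Finsupp.linearCombination Z (v ∘ f) (E n) := by
    intro n v
    rw [← Finsupp.linearCombination_mapDomain, Finsupp.mapDomain_comapDomain f hf _ (hsupp n)]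
  obtain ⟨v0, hv0, hv1⟩ := hB E (fun k => q (d k)) (fun k => hq _) ⟨u ∘ f, by
    unfold Kill at hu ⊢
    simpa only [hE] using hu⟩
  let v : J × O → Z := fun a =>
    if h : a.1 ∈ D0 then v0 (e.symm ⟨a.1, h⟩, a.2) else w a
  have hvf : v ∘ f = v0 := by
    funext a
    have h1 : (f a).1 ∈ D0 := (e a.1).2
    simp only [Function.comp, v, h1, dif_pos]
    congr 1
    ext
    · simp [f, d]
    · simp [f]
  refine ⟨D0, v, hD0, ?_, ?_, ?_⟩
  · intro a ha o
    simp [v, ha]
  · intro a
    by_cases ha : a ∈ D0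
    · have := hv0 (e.symm ⟨a, ha⟩)
      simpa [v, ha, d] using this
    · have := hw a
      simpa [v, ha] using this
  · intro _
    unfold Kill at hv1 ⊢
    simpa only [hE, hvf] using hv1

abbrev I := Set (Ultrafilter ℕ)

instance : Infinite (Ultrafilter ℕ) :=
  Infinite.of_injective (pure : ℕ → Ultrafilter ℕ) Ultrafilter.pure_injective

lemma I_pow : #I ^ ℵ₀ = #I := by
  rw [Cardinal.mk_set, ← Cardinal.power_mul,
    Cardinal.mul_eq_left (Cardinal.aleph0_le_mk _) (Cardinal.aleph0_le_mk _) Cardinal.aleph0_ne_zero]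

lemma exists_surj {X : Type} [Nonempty X] (h : #X ≤ #I) : ∃ e : I → X, Function.Surjective e := by
  obtain ⟨j⟩ := (Cardinal.le_def _ _).1 h
  exact ⟨Function.invFun j, Function.invFun_surjective j.injective⟩

lemma surjA : ∃ e : I → (ℕ → Finset I) × Ultrafilter ℕ × Set ℕ, Function.Surjective e := by
  apply exists_surj
  have hI : ℵ₀ ≤ #I := Cardinal.aleph0_le_mk _
  have h1 : #(ℕ → Finset I) = #I := by
    rw [← Cardinal.power_def, Cardinal.mk_nat, Cardinal.mk_finset_of_infinite, I_pow]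
  have h2 : #(Ultrafilter ℕ) ≤ #I := by
    rw [Cardinal.mk_set]; exact (Cardinal.cantor _).le
  have h3 : #(Set ℕ) ≤ #I := by
    rw [Cardinal.mk_set, Cardinal.mk_set]
    exact Cardinal.power_le_power_left two_ne_zero
      (by rw [Cardinal.mk_nat]; exact Cardinal.aleph0_le_mk _)
  simp only [Cardinal.mk_prod, Cardinal.lift_id, h1]
  calc #I * (#(Ultrafilter ℕ) * #(Set ℕ)) ≤ #I * (#I * #I) :=
        mul_le_mul_right (mul_le_mul' h2 h3) _
    _ = #I := by rw [Cardinal.mul_eq_self hI, Cardinal.mul_eq_self hI]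

lemma surjB : ∃ e : I → (ℕ → (I × O →₀ Z)), Function.Surjective e := by
  apply exists_surj
  have hI : ℵ₀ ≤ #I := Cardinal.aleph0_le_mk _
  have h0 : #(I × O) = #I := by
    rw [Cardinal.mk_prod, Cardinal.lift_id, Cardinal.lift_id]
    exact Cardinal.mul_eq_left hI (le_trans Cardinal.mk_le_aleph0 hI) (Cardinal.mk_ne_zero _)
  have h1 : #(I × O →₀ Z) = #I := by
    rw [Cardinal.mk_finsupp_of_infinite, h0]
    exact max_eq_left (le_trans Cardinal.mk_le_aleph0 hI)
  rw [← Cardinal.power_def, Cardinal.mk_nat, h1, I_pow]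

noncomputable def c : ℕ → I := Infinite.natEmbedding I

lemma c_inj : Function.Injective c := (Infinite.natEmbedding I).injective

lemma tri_functional (w : ℕ → (I → Z)) (h1 : ∀ n, w n (c n) = 1)
    (h2 : ∀ n i, i < n → w n (c i) = 0) :
    ∃ μ : (I → Z) →ₗ[Z] Z, ∀ n, μ (w n) = 1 := by
  classical
  have hli : LinearIndependent Z w := by
    rw [linearIndependent_iff']
    intro s g hs
    by_contra hc
    push Not at hc
    have hex : ∃ n, n ∈ s ∧ g n ≠ 0 := hc
    let n := Nat.find hex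
    have hn := Nat.find_spec hex
    have h := congrFun hs (c n)
    rw [Finset.sum_apply, Finset.sum_eq_single n] at h
    · simp only [Pi.smul_apply, h1, smul_eq_mul, mul_one, Pi.zero_apply] at h
      exact hn.2 h
    · intro m hm hmn
      rcases lt_or_gt_of_ne hmn with h | h
      · have := Nat.find_min hex h
        push Not at this
        simp [this hm]
      · simp [h2 m n h]
    · intro h; exact absurd hn.1 h
  obtain ⟨μ, hμ⟩ := LinearMap.exists_extend
    ((Finsupp.linearCombination Z (fun _ : ℕ => (1 : Z))).comp hli.repr)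
  refine ⟨μ, fun n => ?_⟩
  have hmem : w n ∈ Submodule.span Z (Set.range w) := Submodule.subset_span ⟨n, rfl⟩
  have := LinearMap.congr_fun hμ ⟨w n, hmem⟩
  simp only [LinearMap.comp_apply, Submodule.subtype_apply] at this
  rw [this, hli.repr_eq_single n _ rfl]
  simp

theorem exists_group (p : Ultrafilter ℕ) : ∃ B : Set (Ultrafilter ℕ), #B ≤ 𝔠 ∧
    ∃ G : Submodule Z (I → Z),
      (∀ q : Ultrafilter ℕ, q ∉ B → ∀ (S : ℕ → Finset I) (u : ℕ → I → Z),
        ∃ (x : ℕ → I → Z) (y : I → Z), (∀ n, x n ∈ G) ∧ y ∈ G ∧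
          (∀ n, ∀ b ∈ S n, x n b = u n b) ∧ Tendsto x (q : Filter ℕ) (𝓝 y)) ∧
      ((p : Filter ℕ) ≤ cofinite → ∀ (x : ℕ → I → Z) (y : I → Z), (∀ n, x n ∈ G) → y ∈ G →
        (∀ n, x n (c n) = 1) → (∀ n i, i < n → x n (c i) = 0) →
        ¬ Tendsto x (p : Filter ℕ) (𝓝 y)) := by
  classical
  obtain ⟨B, hB, hB2⟩ := exists_bad p
  refine ⟨B, hB, ?_⟩
  obtain ⟨q0, hq0, -⟩ := exists_free B hB
  obtain ⟨eA, heA⟩ := surjA
  obtain ⟨eB, heB⟩ := surjB
  let q : I → Ultrafilter ℕ := fun a => if (eA a).2.1 ∈ B then q0 else (eA a).2.1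
  have hq : ∀ a, q a ∉ B := by
    intro a
    by_cases h : (eA a).2.1 ∈ B
    · have : q a = q0 := by simp only [q, h, if_true]
      rw [this]; exact hq0
    · have : q a = (eA a).2.1 := by simp only [q, h, if_false]
      rw [this]; exact h
  let w : I → I × O → Z := fun b a => match a.2 with
    | some n => if b ∈ (eA a.1).1 n then 1 else 0
    | none => if {n | b ∈ (eA a.1).1 n} ∈ q a.1 then 1 else 0
  have hw : ∀ b a, Con (q a) (fun o => w b (a, o)) := by
    intro b a
    by_cases h : {n | b ∈ (eA a).1 n} ∈ q a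
    · filter_upwards [h] with n hn
      simp [w, h, hn]
    · filter_upwards [Ultrafilter.compl_mem_iff_notMem.2 h] with n hn
      have hn' : b ∉ (eA a).1 n := hn
      simp [w, h, hn']
  have hk := fun b => kill_gen p B hB2 q hq (eB b) (w b) (hw b)
  choose D V hD hV1 hV2 hV3 using hk
  let vec : I × O → (I → Z) := fun a b => V b a
  let Φ : (I × O →₀ Z) →ₗ[Z] (I → Z) := Finsupp.linearCombination Z vec
  have hΦ : ∀ z b, Φ z b = Finsupp.linearCombination Z (V b) z := by
    intro z b
    exact Finsupp.apply_linearCombination Z (LinearMap.proj b : (I → Z) →ₗ[Z] Z) vec z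
  have hvec : ∀ a, vec a ∈ LinearMap.range Φ := by
    intro a
    exact ⟨Finsupp.single a 1, by simp [Φ]⟩
  refine ⟨LinearMap.range Φ, ?_, ?_⟩
  · intro r hr S u
    let T : ℕ → Finset I := fun n => (S n).filter (fun b => u n b = 1)
    let C : Set I := ⋃ n, ⋃ b ∈ (S n : Set I), D b
    have hC : C.Countable :=
      Set.countable_iUnion fun n => Set.Countable.biUnion (S n).countable_toSet fun b _ => hD b
    have : ∃ a, a ∉ C ∧ (eA a).1 = T ∧ (eA a).2.1 = r := by
      by_contra hc
      push Not at hc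
      choose g hg using fun t : Set ℕ => heA (T, r, t)
      have hgi : Function.Injective g := by
        intro s t h
        have := hg s
        rw [h, hg t] at this
        exact (congrArg (fun x => x.2.2) this).symm
      have hsub : Set.range g ⊆ C := by
        rintro _ ⟨t, rfl⟩
        by_contra h
        exact hc _ h (by rw [hg]) (by rw [hg])
      have h1 : (Set.range g).Countable := hC.mono hsub
      have h2 : Countable (Set ℕ) := by
        rw [← Set.countable_univ_iff]
        rw [← Set.image_univ] at h1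
        exact Set.countable_of_injective_of_countable_image hgi.injOn h1
      have h3 : #(Set ℕ) ≤ ℵ₀ := Cardinal.mk_le_aleph0
      rw [Cardinal.mk_set, Cardinal.mk_nat] at h3
      exact absurd h3 (not_le.2 (Cardinal.cantor _))
    obtain ⟨a, ha, haT, har⟩ := this
    have hqa : q a = r := by simp only [q, har, hr, if_false]
    refine ⟨fun n => vec (a, some n), vec (a, none), fun n => hvec _, hvec _, ?_, ?_⟩
    · intro n b hb
      have h1 : a ∉ D b := fun h => ha (Set.mem_iUnion.2 ⟨n, Set.mem_biUnion hb h⟩)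
      show V b (a, some n) = u n b
      rw [hV1 b a h1]
      simp only [w, haT, T, Finset.mem_filter, hb, true_and]
      by_cases h : u n b = 1
      · simp [h]
      · rw [if_neg h, z01 _ h]
    · rw [tendsto_pi_nhds]
      intro b
      have := hV2 b a
      rw [hqa] at this
      exact tendsto_const_nhds.congr' (by
        filter_upwards [this] with n hn
        exact hn.symm)
  · intro hp x y hx hy h1 h2 hlim
    have hev : ∀ b, ∀ᶠ n in (p : Filter ℕ), x n b = y b := by
      intro b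
      have := (tendsto_pi_nhds.1 hlim b)
      rwa [nhds_discrete, tendsto_pure] at this
    have hy0 : ∀ i, y (c i) = 0 := by
      intro i
      have h3 : ∀ᶠ n in (p : Filter ℕ), i < n := by
        apply hp
        rw [Nat.cofinite_eq_atTop]
        exact eventually_gt_atTop i
      obtain ⟨n, hn1, hn2⟩ := (h3.and (hev (c i))).exists
      rw [← hn2, h2 n i hn1]
    obtain ⟨μ, hμ⟩ := tri_functional (fun n => x n - y) (fun n => by simp [h1, hy0])
      (fun n i h => by simp [h2 n i h, hy0])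
    choose z hz using fun n => (LinearMap.range Φ).sub_mem (hx n) hy
    obtain ⟨b, hb⟩ := heB z
    have hK := hV3 b ⟨μ ∘ vec, by
      rw [hb]
      refine Eventually.of_forall fun n => ?_
      rw [← Finsupp.apply_linearCombination]
      show μ (Φ (z n)) = 1
      rw [hz, hμ]⟩
    rw [hb] at hK
    obtain ⟨n, hn1, hn2⟩ := (hK.and (hev b)).exists
    rw [← hΦ, hz] at hn1
    simp [hn2] at hn1

end Pool.Agent.H5.SelP
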