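import Mathlib

set_option autoImplicit false

/-! A zero-dimensional Hausdorff topological semilattice all of whose maximal chains are
`s`-complete, which is not `s`-complete itself.  Points: the finite subsets of `ω₁` (isolated),
a point `t δ` and an isolated point `x δ` for every `δ < ω₁`, and a zero. -/

namespace Pool.Agent.H5.SemiL

open Set Filter Topology

noncomputable section

def D : Type := (Cardinal.aleph 1 : Cardinal.{0}).ord.ToType

instance : LinearOrder D := inferInstanceAs (LinearOrder (Ordinal.ToType _))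

instance : WellFoundedLT D := inferInstanceAs (WellFoundedLT (Ordinal.ToType _))

theorem cnt (x : D) : (Iic x).Countable := by
  rw [← Iio_insert]
  refine Countable.insert _ ?_
  rw [← Cardinal.le_aleph0_iff_set_countable, ← Cardinal.lt_aleph_one_iff]
  exact Cardinal.mk_Iio_toType_ord_lt x

theorem unc : ¬ (univ : Set D).Countable := by
  rw [← Cardinal.le_aleph0_iff_set_countable, Cardinal.mk_univ, not_le]
  have : Cardinal.mk D = Cardinal.aleph 1 := Cardinal.mk_ord_toType _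
  rw [this]
  exact Cardinal.aleph0_lt_aleph_one

theorem bdd {E : Set D} (h : E.Countable) : ∃ b, ∀ a ∈ E, a < b := by
  by_contra hc
  push Not at hc
  exact unc ((h.biUnion fun a _ => cnt a).mono fun x _ => by
    obtain ⟨a, ha, hx⟩ := hc x
    exact mem_biUnion ha hx)

theorem exists_gt' (a : D) : ∃ b, a < b := by
  obtain ⟨b, hb⟩ := bdd (countable_singleton a)
  exact ⟨b, hb a rfl⟩

instance : Nonempty D := by
  obtain ⟨b, -⟩ := bdd countable_empty
  exact ⟨b⟩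

instance : OrderBot D := WellFoundedLT.toOrderBot D

/-- the linear part -/
def L : Type := WithTop (D ×ₗ Bool)

instance : LinearOrder L := inferInstanceAs (LinearOrder (WithTop (D ×ₗ Bool)))

instance : OrderTop L := inferInstanceAs (OrderTop (WithTop (D ×ₗ Bool)))

instance : OrderBot L := inferInstanceAs (OrderBot (WithTop (D ×ₗ Bool)))

instance : WellFoundedLT L := inferInstanceAs (WellFoundedLT (WithTop (D ×ₗ Bool)))

def tt (a : D) : L := ((toLex (a, false) : D ×ₗ Bool) : WithTop (D ×ₗ Bool))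

def xx (a : D) : L := ((toLex (a, true) : D ×ₗ Bool) : WithTop (D ×ₗ Bool))

theorem L_cases (l : L) : (∃ a, l = tt a) ∨ (∃ a, l = xx a) ∨ l = ⊤ := by
  induction l using WithTop.recTopCoe with
  | top => exact Or.inr (Or.inr rfl)
  | coe p =>
    obtain ⟨a, b⟩ := p
    cases b
    · exact Or.inl ⟨a, rfl⟩
    · exact Or.inr (Or.inl ⟨a, rfl⟩)

theorem tt_lt_xx (a : D) : tt a < xx a :=
  WithTop.coe_lt_coe.2 (Prod.Lex.toLex_lt_toLex.2 (Or.inr ⟨rfl, Bool.false_lt_true⟩))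

theorem xx_lt_tt {a b : D} (h : a < b) : xx a < tt b :=
  WithTop.coe_lt_coe.2 (Prod.Lex.toLex_lt_toLex.2 (Or.inl h))

theorem xx_lt_top (a : D) : xx a < ⊤ := WithTop.coe_lt_top _

theorem bot_eq : (⊥ : L) = tt ⊥ := rfl

theorem tt_le_tt {a b : D} (h : a ≤ b) : tt a ≤ tt b := by
  rcases h.eq_or_lt with rfl | h
  · exact le_rfl
  · exact ((tt_lt_xx a).trans (xx_lt_tt h)).le

theorem xx_le_xx {a b : D} (h : a ≤ b) : xx a ≤ xx b := by
  rcases h.eq_or_lt with rfl | h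
  · exact le_rfl
  · exact ((xx_lt_tt h).trans (tt_lt_xx b)).le

theorem tt_ne_xx (a b : D) : tt a ≠ xx b := by
  rcases le_or_gt a b with h | h
  · exact ((tt_le_tt h).trans_lt (tt_lt_xx b)).ne
  · exact (xx_lt_tt h).ne'

theorem tt_lt_top (a : D) : tt a < ⊤ := (tt_lt_xx a).trans (xx_lt_top a)

theorem le_tt_of_lt_xx {l : L} {a : D} (h : l < xx a) : l ≤ tt a := by
  rcases L_cases l with ⟨b, rfl⟩ | ⟨b, rfl⟩ | rfl
  · exact tt_le_tt (not_lt.1 fun hb => absurd h (xx_lt_tt hb).le.not_gt)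
  · exact (xx_lt_tt (not_le.1 fun hb => absurd h (xx_le_xx hb).not_gt)).le
  · exact absurd h not_top_lt

theorem exists_xx {l : L} (h : l ≠ ⊤) : ∃ a, l ≤ xx a := by
  rcases L_cases l with ⟨b, rfl⟩ | ⟨b, rfl⟩ | rfl
  · exact ⟨b, (tt_lt_xx b).le⟩
  · exact ⟨b, le_rfl⟩
  · exact absurd rfl h

def T (l : L) : Prop := ∃ a, l = tt a

theorem T.max {l m : L} (hl : T l) (hm : T m) : T (max l m) := by
  rcases max_choice l m with h | h <;> rw [h] <;> assumption

inductive X : Type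
  | fin (A : Finset D)
  | lin (l : L)

open X

def H : X → L
  | fin A => A.sup tt
  | lin l => l

theorem T_fin (A : Finset D) : T (H (fin A)) :=
  Finset.sup_induction (p := T) ⟨⊥, bot_eq⟩ (fun _ h _ h' => h.max h') fun a _ => ⟨a, rfl⟩

def mul : X → X → X
  | fin A, fin B => fin (A ∪ B)
  | fin A, lin m => lin (max (A.sup tt) m)
  | lin l, fin B => lin (max l (B.sup tt))
  | lin l, lin m => lin (max l m)

instance : Min X := ⟨mul⟩

instance : SemilatticeInf X := SemilatticeInf.mk'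
  (by
    rintro (A | l) (B | m)
    · exact congrArg fin (Finset.union_comm _ _)
    all_goals exact congrArg lin (max_comm _ _))
  (by
    rintro (A | l) (B | m) (C | n)
    · exact congrArg fin (Finset.union_assoc _ _ _)
    · exact congrArg lin (by rw [Finset.sup_union]; exact max_assoc _ _ _)
    · exact congrArg lin (max_assoc _ _ _)
    · exact congrArg lin (max_assoc _ _ _)
    · exact congrArg lin (by rw [Finset.sup_union]; exact max_assoc _ _ _)
    all_goals exact congrArg lin (max_assoc _ _ _))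
  (by
    rintro (A | l)
    · exact congrArg fin (Finset.union_self _)
    · exact congrArg lin (max_self _))

theorem fin_inf (A B : Finset D) : fin A ⊓ fin B = fin (A ∪ B) := rfl

theorem lin_inf (l : L) (z : X) : lin l ⊓ z = lin (max l (H z)) := by cases z <;> rfl

theorem inf_lin (l : L) (z : X) : z ⊓ lin l = lin (max (H z) l) := by cases z <;> rfl

theorem H_inf (z w : X) : H (z ⊓ w) = max (H z) (H w) := by
  cases z with
  | lin l => rw [lin_inf]; rfl
  | fin A =>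
    cases w with
    | lin l => rw [inf_lin]; rfl
    | fin B => exact Finset.sup_union

theorem lin_le {l : L} {z : X} : lin l ≤ z ↔ H z ≤ l := by
  rw [← inf_eq_left, lin_inf, lin.injEq, max_eq_left_iff]

theorem fin_le {A B : Finset D} : fin A ≤ fin B ↔ B ⊆ A := by
  rw [← inf_eq_left, fin_inf, fin.injEq, Finset.union_eq_left]

theorem not_fin_le {A : Finset D} {l : L} : ¬ fin A ≤ lin l := by
  rw [← inf_eq_left, inf_lin]
  exact fun h => X.noConfusion h

theorem H_anti {z w : X} (h : z ≤ w) : H w ≤ H z := by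
  rw [← inf_eq_left.2 h, H_inf]
  exact le_max_right _ _

def Big (n : ℕ) (z : X) : Prop := ∀ A, z = fin A → n ≤ A.card

theorem Big.inf {n : ℕ} {z : X} (h : Big n z) (w : X) : Big n (z ⊓ w) := by
  intro C hC
  cases z with
  | lin l => rw [lin_inf] at hC; exact X.noConfusion hC
  | fin A =>
    cases w with
    | lin l => rw [inf_lin] at hC; exact X.noConfusion hC
    | fin B =>
      rw [fin_inf, fin.injEq] at hC
      exact (h A rfl).trans (Finset.card_le_card (hC ▸ Finset.subset_union_left))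

theorem big_lin (n : ℕ) (l : L) : Big n (lin l) := fun _ h => X.noConfusion h

def N (a : D) (c : WithBot L) (n : ℕ) : Set X :=
  {z | T (H z) ∧ c < (H z : WithBot L) ∧ H z ≤ tt a ∧ Big n z}

def V (b : D) : Set X := {z | z = lin ⊤ ∨ ∃ a, b ≤ a ∧ z = lin (xx a)}

instance : TopologicalSpace X where
  IsOpen U := (∀ a, lin (tt a) ∈ U → ∃ c n, c < (tt a : WithBot L) ∧ N a c n ⊆ U) ∧
    (lin ⊤ ∈ U → ∃ b, V b ⊆ U)
  isOpen_univ := ⟨fun _ _ => ⟨⊥, 0, WithBot.bot_lt_coe _, subset_univ _⟩,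
    fun _ => ⟨⊥, subset_univ _⟩⟩
  isOpen_inter U U' h h' := by
    refine ⟨fun a ha => ?_, fun ha => ?_⟩
    · obtain ⟨c, n, hc, hU⟩ := h.1 a ha.1
      obtain ⟨c', n', hc', hU'⟩ := h'.1 a ha.2
      exact ⟨max c c', max n n', max_lt hc hc', fun z hz =>
        ⟨hU ⟨hz.1, (le_max_left _ _).trans_lt hz.2.1, hz.2.2.1,
          fun A hA => (le_max_left _ _).trans (hz.2.2.2 A hA)⟩,
        hU' ⟨hz.1, (le_max_right _ _).trans_lt hz.2.1, hz.2.2.1,
          fun A hA => (le_max_right _ _).trans (hz.2.2.2 A hA)⟩⟩⟩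
    · obtain ⟨b, hb⟩ := h.2 ha.1
      obtain ⟨b', hb'⟩ := h'.2 ha.2
      refine ⟨max b b', ?_⟩
      rintro z (rfl | ⟨a, h1, rfl⟩)
      · exact ha
      · exact ⟨hb (Or.inr ⟨a, (le_max_left _ _).trans h1, rfl⟩),
          hb' (Or.inr ⟨a, (le_max_right _ _).trans h1, rfl⟩)⟩
  isOpen_sUnion s h := by
    refine ⟨fun a ⟨U, hU, ha⟩ => ?_, fun ⟨U, hU, ha⟩ => ?_⟩
    · obtain ⟨c, n, hc, h1⟩ := (h U hU).1 a ha
      exact ⟨c, n, hc, h1.trans (subset_sUnion_of_mem hU)⟩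
    · obtain ⟨b, h1⟩ := (h U hU).2 ha
      exact ⟨b, h1.trans (subset_sUnion_of_mem hU)⟩

theorem isOpen_iff {U : Set X} : IsOpen U ↔
    (∀ a, lin (tt a) ∈ U → ∃ c n, c < (tt a : WithBot L) ∧ N a c n ⊆ U) ∧
    (lin ⊤ ∈ U → ∃ b, V b ⊆ U) := Iff.rfl

theorem not_T_top : ¬ T ⊤ := fun ⟨a, h⟩ => (tt_lt_top a).ne' h

theorem not_T_xx (b : D) : ¬ T (xx b) := fun ⟨a, h⟩ => tt_ne_xx a b h.symm

theorem isOpen_N (a : D) (c : WithBot L) (n : ℕ) : IsOpen (N a c n) :=
  isOpen_iff.2 ⟨fun _ hb => ⟨c, n, hb.2.1, fun _ hz =>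
    ⟨hz.1, hz.2.1, hz.2.2.1.trans hb.2.2.1, hz.2.2.2⟩⟩, fun h => absurd h.1 not_T_top⟩

theorem mem_N {a : D} {c : WithBot L} (n : ℕ) (h : c < (tt a : WithBot L)) :
    lin (tt a) ∈ N a c n := ⟨⟨a, rfl⟩, h, le_rfl, big_lin _ _⟩

theorem isOpen_V (b : D) : IsOpen (V b) := by
  refine isOpen_iff.2 ⟨fun a ha => ?_, fun _ => ⟨b, Subset.rfl⟩⟩
  rcases ha with h | ⟨a', -, h⟩
  · exact absurd (lin.inj h) (tt_lt_top a).ne
  · exact absurd (lin.inj h) (tt_ne_xx _ _)

theorem clopen_fin (A : Finset D) : IsClopen ({fin A} : Set X) := by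
  refine ⟨isOpen_compl_iff.1 (isOpen_iff.2 ⟨fun a _ => ⟨⊥, A.card + 1, WithBot.bot_lt_coe _,
    fun z hz e => ?_⟩, fun _ => ⟨⊥, ?_⟩⟩), isOpen_iff.2 ⟨fun a h => X.noConfusion h,
    fun h => X.noConfusion h⟩⟩
  · exact absurd (hz.2.2.2 A e) (by omega)
  · rintro z (rfl | ⟨a, -, rfl⟩) <;> exact fun h => X.noConfusion h

theorem clopen_xx (b : D) : IsClopen ({lin (xx b)} : Set X) := by
  obtain ⟨b', hb'⟩ := exists_gt' b
  refine ⟨isOpen_compl_iff.1 (isOpen_iff.2 ⟨fun a _ => ⟨⊥, 0, WithBot.bot_lt_coe _,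
    fun z hz e => ?_⟩, fun _ => ⟨b', ?_⟩⟩), isOpen_iff.2 ⟨fun a h => ?_, fun h => ?_⟩⟩
  · rw [mem_singleton_iff.1 e] at hz
    exact not_T_xx b hz.1
  · rintro z (rfl | ⟨a, ha, rfl⟩) h
    · exact (xx_lt_top b).ne' (lin.inj h)
    · exact ((xx_lt_tt (hb'.trans_le ha)).trans (tt_lt_xx a)).ne' (lin.inj h)
  · exact absurd (lin.inj h) (tt_ne_xx _ _)
  · exact absurd (lin.inj h) (xx_lt_top b).ne'

theorem clopen_N (a : D) : IsClopen (N a ⊥ 0) := by
  refine ⟨isOpen_compl_iff.1 (isOpen_iff.2 ⟨fun b hb => ⟨tt a, 0, ?_, fun z hz hz' => ?_⟩,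
    fun _ => ⟨⊥, ?_⟩⟩), isOpen_N _ _ _⟩
  · refine WithBot.coe_lt_coe.2 (not_le.1 fun h => hb ?_)
    exact ⟨⟨b, rfl⟩, WithBot.bot_lt_coe _, h, big_lin _ _⟩
  · exact absurd (WithBot.coe_lt_coe.1 hz.2.1) hz'.2.2.1.not_gt
  · rintro z (rfl | ⟨b, -, rfl⟩) h
    · exact not_T_top h.1
    · exact not_T_xx b h.1

theorem sep_aux {l m : L} (h : l < m) : ∃ U : Set X, IsClopen U ∧ lin l ∈ U ∧ lin m ∈ Uᶜ := by
  rcases L_cases l with ⟨a, rfl⟩ | ⟨a, rfl⟩ | rfl
  · exact ⟨_, clopen_N a, mem_N 0 (WithBot.bot_lt_coe _), fun hm => absurd h hm.2.2.1.not_gt⟩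
  · exact ⟨_, clopen_xx a, rfl, fun hm => h.ne' (lin.inj hm)⟩
  · exact absurd h not_top_lt

instance : TotallySeparatedSpace X := by
  refine totallySeparatedSpace_iff_exists_isClopen.2 fun p q hpq => ?_
  cases p with
  | fin A => exact ⟨_, clopen_fin A, rfl, hpq.symm⟩
  | lin l =>
    cases q with
    | fin B => exact ⟨_, (clopen_fin B).compl, hpq, fun h => h rfl⟩
    | lin m =>
      rcases lt_trichotomy l m with h | rfl | h
      · exact sep_aux h
      · exact absurd rfl hpq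
      · obtain ⟨U, h1, h2, h3⟩ := sep_aux h
        exact ⟨Uᶜ, h1.compl, h3, fun h' => h' h2⟩

theorem t2 : T2Space X := inferInstance

theorem ctrl (p : X) : ∃ P, IsOpen P ∧ p ∈ P ∧ ∀ z ∈ P, H z ≤ H p := by
  cases p with
  | fin A => exact ⟨_, (clopen_fin A).2, rfl, fun z hz => by rw [mem_singleton_iff.1 hz]⟩
  | lin l =>
    rcases L_cases l with ⟨a, rfl⟩ | ⟨a, rfl⟩ | rfl
    · exact ⟨_, isOpen_N a ⊥ 0, mem_N 0 (WithBot.bot_lt_coe _), fun z hz => hz.2.2.1⟩
    · exact ⟨_, (clopen_xx a).2, rfl, fun z hz => by rw [mem_singleton_iff.1 hz]⟩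
    · exact ⟨univ, isOpen_univ, trivial, fun _ _ => le_top⟩

theorem key {p q : X} (hpq : H q ≤ H p) {U : Set X} (hU : IsOpen U) (h : p ⊓ q ∈ U) :
    ∃ P Q : Set X, IsOpen P ∧ IsOpen Q ∧ p ∈ P ∧ q ∈ Q ∧ ∀ z ∈ P, ∀ w ∈ Q, z ⊓ w ∈ U := by
  obtain ⟨Q, hQ, hq, hQ'⟩ := ctrl q
  cases p with
  | lin l =>
    change H q ≤ l at hpq
    change ∀ z ∈ Q, H z ≤ H q at hQ'
    rw [lin_inf, max_eq_left hpq] at h
    rcases L_cases l with ⟨a, rfl⟩ | ⟨a, rfl⟩ | rfl
    · obtain ⟨c, n, hc, hN⟩ := (isOpen_iff.1 hU).1 a h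
      by_cases hT : T (H q)
      · obtain ⟨b, hb⟩ := hT
        have hq' : q ∈ N b ⊥ 0 :=
          ⟨⟨b, hb⟩, WithBot.bot_lt_coe _, hb.le, fun _ _ => Nat.zero_le _⟩
        refine ⟨_, _, isOpen_N a c n, isOpen_N b ⊥ 0, mem_N n hc, hq', fun z hz w hw => hN ?_⟩
        refine ⟨by rw [H_inf]; exact hz.1.max hw.1, hz.2.1.trans_le (WithBot.coe_le_coe.2 ?_), ?_,
          hz.2.2.2.inf w⟩
        · rw [H_inf]; exact le_max_left _ _
        · rw [H_inf]; exact max_le hz.2.2.1 (hw.2.2.1.trans (hb ▸ hpq))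
      · have hlt : H q < tt a := lt_of_le_of_ne hpq fun e => hT ⟨a, e⟩
        refine ⟨_, Q, isOpen_N a (max c (H q)) n, hQ,
          mem_N n (max_lt hc (WithBot.coe_lt_coe.2 hlt)), hq, fun z hz w hw => hN ?_⟩
        have e : H (z ⊓ w) = H z := by
          rw [H_inf]
          exact max_eq_left ((hQ' w hw).trans
            (WithBot.coe_lt_coe.1 ((le_max_right _ _).trans_lt hz.2.1)).le)
        exact ⟨e ▸ hz.1, e ▸ (le_max_left _ _).trans_lt hz.2.1, e ▸ hz.2.2.1, hz.2.2.2.inf w⟩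
    · refine ⟨_, Q, (clopen_xx a).2, hQ, rfl, hq, fun z hz w hw => ?_⟩
      rw [mem_singleton_iff.1 hz, lin_inf, max_eq_left ((hQ' w hw).trans hpq)]
      exact h
    · obtain ⟨b, hb⟩ := (isOpen_iff.1 hU).2 h
      by_cases ht : H q = ⊤
      · have : q = lin ⊤ := by
          cases q with
          | fin B => exact absurd (ht ▸ T_fin B) not_T_top
          | lin m => exact congrArg lin ht
        refine ⟨_, _, isOpen_V b, isOpen_V b, Or.inl rfl, Or.inl this, fun z hz w hw => hb ?_⟩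
        have h1 : ∀ z ∈ V b, z = lin (H z) := by rintro z (rfl | ⟨a, -, rfl⟩) <;> rfl
        rw [h1 z hz, lin_inf]
        rcases max_choice (H z) (H w) with e | e <;> rw [e]
        · exact h1 z hz ▸ hz
        · exact h1 w hw ▸ hw
      · obtain ⟨a, ha⟩ := exists_xx ht
        refine ⟨_, Q, isOpen_V (max a b), hQ, Or.inl rfl, hq, fun z hz w hw => hb ?_⟩
        rcases hz with rfl | ⟨a', h1, rfl⟩
        · rw [lin_inf, max_eq_left le_top]
          exact Or.inl rfl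
        · rw [lin_inf, max_eq_left ((hQ' w hw).trans
            (ha.trans (xx_le_xx ((le_max_left _ _).trans h1))))]
          exact Or.inr ⟨a', (le_max_right _ _).trans h1, rfl⟩
  | fin A =>
    have hs : IsOpen ({q} : Set X) →
        ∃ P Q : Set X, IsOpen P ∧ IsOpen Q ∧ fin A ∈ P ∧ q ∈ Q ∧ ∀ z ∈ P, ∀ w ∈ Q, z ⊓ w ∈ U :=
      fun h' => ⟨_, _, (clopen_fin A).2, h', rfl, rfl, fun z hz w hw => by
        rw [mem_singleton_iff.1 hz, mem_singleton_iff.1 hw]; exact h⟩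
    cases q with
    | fin B => exact hs (clopen_fin B).2
    | lin l =>
      obtain ⟨a, ha⟩ := T_fin A
      rcases L_cases l with ⟨b, rfl⟩ | ⟨b, rfl⟩ | rfl
      · change tt b ≤ H (fin A) at hpq
        rw [inf_lin, max_eq_left hpq, ha] at h
        obtain ⟨c, n, hc, hN⟩ := (isOpen_iff.1 hU).1 a h
        refine ⟨_, _, (clopen_fin A).2, isOpen_N b ⊥ n, rfl, mem_N n (WithBot.bot_lt_coe _),
          fun z hz w hw => hN ?_⟩
        have e : H (z ⊓ w) = tt a := by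
          rw [H_inf, mem_singleton_iff.1 hz, max_eq_left (hw.2.2.1.trans hpq), ha]
        exact ⟨⟨a, e⟩, e ▸ hc, e.le, inf_comm w z ▸ hw.2.2.2.inf z⟩
      · exact hs (clopen_xx b).2
      · exact absurd (ha ▸ hpq) (tt_lt_top a).not_ge

theorem cont : ContinuousInf X := by
  refine ⟨continuous_iff_continuousAt.2 fun ⟨p, q⟩ U hU => ?_⟩
  obtain ⟨U', h1, h2, h3⟩ := mem_nhds_iff.1 hU
  have : ∃ P Q : Set X, IsOpen P ∧ IsOpen Q ∧ p ∈ P ∧ q ∈ Q ∧ ∀ z ∈ P, ∀ w ∈ Q, z ⊓ w ∈ U' := by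
    rcases le_total (H q) (H p) with h | h
    · exact key h h2 h3
    · obtain ⟨P, Q, a1, a2, a3, a4, a5⟩ := key h h2 (inf_comm p q ▸ h3)
      exact ⟨Q, P, a2, a1, a4, a3, fun z hz w hw => inf_comm w z ▸ a5 w hw z hz⟩
  obtain ⟨P, Q, a1, a2, a3, a4, a5⟩ := this
  exact mem_map.2 (mem_of_superset (prod_mem_nhds (a1.mem_nhds a3) (a2.mem_nhds a4))
    fun z hz => h1 (a5 _ hz.1 _ hz.2))

/-- every nonempty chain has a largest element -/
theorem greatest {C : Set X} (hC : IsChain (· ≤ ·) C) (hne : C.Nonempty) :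
    ∃ m ∈ C, ∀ z ∈ C, z ≤ m := by
  by_cases h : ∃ A, fin A ∈ C
  · obtain ⟨A, hA, hm⟩ := (measure Finset.card).wf.has_min {A | fin A ∈ C} h
    refine ⟨_, hA, fun z hz => (hC.total hz hA).elim id fun h' => ?_⟩
    cases z with
    | lin l => exact absurd h' not_fin_le
    | fin B =>
      rw [Finset.eq_of_subset_of_card_le (fin_le.1 h') (not_lt.1 (hm B hz))]
  · obtain ⟨z, hz⟩ := hne
    obtain ⟨l, hl, hm⟩ := wellFounded_lt.has_min {l | lin l ∈ C} (by
      cases z with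
      | fin A => exact absurd ⟨A, hz⟩ h
      | lin l => exact ⟨l, hz⟩)
    refine ⟨_, hl, fun w hw => ?_⟩
    cases w with
    | fin A => exact absurd ⟨A, hw⟩ h
    | lin m => exact lin_le.2 (not_lt.1 (hm m hw))

/-- infima inside a maximal chain -/
theorem infimum {M S : Set X} (hM : IsMaxChain (· ≤ ·) M) (hS : S ⊆ M) (hne : S.Nonempty) :
    ∃ m ∈ M, (∀ s ∈ S, m ≤ s) ∧ (∀ l ∈ M, (∀ s ∈ S, l ≤ s) → l ≤ m) ∧
      m ∈ closure {l ∈ M | ∃ s ∈ S, s ≤ l} := by
  by_cases h0 : ∃ m ∈ S, ∀ s ∈ S, m ≤ s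
  · obtain ⟨m, hm, h1⟩ := h0
    exact ⟨m, hS hm, h1, fun l _ h => h m hm, subset_closure ⟨hS hm, m, hm, le_rfl⟩⟩
  have hdown : ∀ s ∈ S, ∃ s' ∈ S, s' < s := by
    intro s hs
    by_contra hc
    refine h0 ⟨s, hs, fun s' hs' => (hM.1.total (hS hs) (hS hs')).elim id fun h => ?_⟩
    exact (h.eq_or_lt.resolve_right fun h' => hc ⟨s', hs', h'⟩).ge
  have hbig : ∀ n, ∀ s ∈ S, ∃ s' ∈ S, s' ≤ s ∧ Big n s' := by
    intro n
    induction n with
    | zero => exact fun s hs => ⟨s, hs, le_rfl, fun _ _ => Nat.zero_le _⟩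
    | succ n ih =>
      intro s hs
      obtain ⟨s', h1, h2, h3⟩ := ih s hs
      obtain ⟨s'', h4, h5⟩ := hdown s' h1
      refine ⟨s'', h4, h5.le.trans h2, ?_⟩
      rintro A rfl
      cases s' with
      | lin l => exact absurd h5.le not_fin_le
      | fin B =>
        exact (Nat.succ_le_succ (h3 B rfl)).trans (Finset.card_lt_card
          ⟨fin_le.1 h5.le, fun h => h5.not_ge (fin_le.2 h)⟩)
  have hmem : ∀ z, (∀ l ∈ M, z ≤ l ∨ l ≤ z) → z ∈ M := by
    intro z hz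
    rw [hM.2 (hM.1.insert fun l hl _ => hz l hl) (subset_insert _ _)]
    exact mem_insert _ _
  have hmem' : ∀ l m, lin l ∈ S → l ≤ m → lin m ∈ M := by
    refine fun l m hl hlm => hmem _ fun w hw => ?_
    cases w with
    | lin k => exact (le_total k m).imp lin_le.2 lin_le.2
    | fin B =>
      exact Or.inl (lin_le.2 ((lin_le.1
        ((hM.1.total (hS hl) hw).resolve_right not_fin_le)).trans hlm))
  obtain ⟨μ, hμ, hμ'⟩ := wellFounded_lt.has_min {l : L | ∀ s ∈ S, H s ≤ l} ⟨⊤, fun _ _ => le_top⟩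
  have hlt : ∀ l < μ, ∃ s ∈ S, l < H s := by
    intro l hl
    by_contra hc
    push Not at hc
    exact hμ' l hc hl
  have hglb : ∀ l ∈ M, (∀ s ∈ S, l ≤ s) → l ≤ lin μ := by
    intro l _ h
    cases l with
    | lin k => exact lin_le.2 (not_lt.1 (hμ' k fun s hs => lin_le.1 (h s hs)))
    | fin B =>
      obtain ⟨s, hs⟩ := hne
      obtain ⟨s', h1, -, h2⟩ := hbig (B.card + 1) s hs
      cases s' with
      | lin k => exact absurd (h _ h1) not_fin_le
      | fin A => exact absurd ((h2 A rfl).trans (Finset.card_le_card (fin_le.1 (h _ h1))))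
                  (by omega)
  have hμM : lin μ ∈ M := hmem _ fun l hl => by
    by_cases h : ∀ s ∈ S, l ≤ s
    · exact Or.inr (hglb l hl h)
    · push Not at h
      obtain ⟨s, hs, h⟩ := h
      exact Or.inl ((lin_le.2 (hμ s hs)).trans ((hM.1.total hl (hS hs)).resolve_left h))
  refine ⟨_, hμM, fun s hs => lin_le.2 (hμ s hs), hglb, mem_closure_iff.2 fun U hU hm => ?_⟩
  rcases L_cases μ with ⟨a, rfl⟩ | ⟨a, rfl⟩ | rfl
  · obtain ⟨c, n, hc, hN⟩ := (isOpen_iff.1 hU).1 a hm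
    obtain ⟨s, hs, h1⟩ : ∃ s ∈ S, c < (H s : WithBot L) := by
      induction c using WithBot.recBotCoe with
      | bot => exact hne.imp fun s hs => ⟨hs, WithBot.bot_lt_coe _⟩
      | coe c =>
        exact (hlt c (WithBot.coe_lt_coe.1 hc)).imp fun s hs => ⟨hs.1, WithBot.coe_lt_coe.2 hs.2⟩
    obtain ⟨s', h2, h3, h4⟩ := hbig n s hs
    have h5 : c < (H s' : WithBot L) := h1.trans_le (WithBot.coe_le_coe.2 (H_anti h3))
    cases s' with
    | fin A => exact ⟨_, hN ⟨T_fin A, h5, hμ _ h2, h4⟩, hS h2, _, h2, le_rfl⟩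
    | lin l =>
      obtain ⟨s'', h6, h7⟩ := hdown _ h2
      cases s'' with
      | fin A => exact absurd h7.le not_fin_le
      | lin k =>
        have h8 : l < k := not_le.1 fun h => h7.not_ge (lin_le.2 h)
        obtain ⟨b, h9, h10⟩ : ∃ b, l ≤ tt b ∧ tt b ≤ k := by
          rcases L_cases k with ⟨b, rfl⟩ | ⟨b, rfl⟩ | rfl
          · exact ⟨b, h8.le, le_rfl⟩
          · exact ⟨b, le_tt_of_lt_xx h8, (tt_lt_xx b).le⟩
          · exact absurd (hμ _ h6) (tt_lt_top a).not_ge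
        exact ⟨lin (tt b), hN ⟨⟨b, rfl⟩, h5.trans_le (WithBot.coe_le_coe.2 h9),
          h10.trans (hμ _ h6), big_lin _ _⟩, hmem' _ _ h2 h9, _, h6, lin_le.2 h10⟩
  · obtain ⟨s, hs, h1⟩ := hlt _ (tt_lt_xx a)
    have h2 : H s = xx a := (hμ s hs).eq_or_lt.resolve_right fun h => (le_tt_of_lt_xx h).not_gt h1
    cases s with
    | fin A => exact absurd (h2 ▸ T_fin A) (not_T_xx a)
    | lin l =>
      obtain rfl : l = xx a := h2
      exact ⟨_, hm, hμM, _, hs, le_rfl⟩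
  · obtain ⟨b, hb⟩ := (isOpen_iff.1 hU).2 hm
    by_cases h : ∃ l, lin l ∈ S
    · obtain ⟨l, hl⟩ := h
      by_cases ht : l = ⊤
      · exact ⟨_, hm, hμM, _, hl, by rw [ht]⟩
      obtain ⟨a, ha⟩ := exists_xx ht
      have h1 := hmem' l (xx (max a b)) hl (ha.trans (xx_le_xx (le_max_left _ _)))
      obtain ⟨s, hs, h2⟩ := hlt _ (xx_lt_top (max a b))
      exact ⟨_, hb (Or.inr ⟨_, le_max_right a b, rfl⟩), h1, s, hs,
        (hM.1.total (hS hs) h1).resolve_right fun h => (lin_le.1 h).not_gt h2⟩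
    · have h1 : {A | fin A ∈ S}.Countable := by
        refine countable_of_injective_of_countable_image (f := Finset.card)
          (fun A hA B hB e => ?_) (to_countable _)
        rcases hM.1.total (hS hA) (hS hB) with h' | h'
        · exact (Finset.eq_of_subset_of_card_le (fin_le.1 h') e.le).symm
        · exact Finset.eq_of_subset_of_card_le (fin_le.1 h') e.ge
      obtain ⟨a, ha⟩ := bdd (h1.biUnion fun A _ => A.countable_toSet)
      obtain ⟨s, hs, h2⟩ := hlt _ (tt_lt_top a)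
      cases s with
      | lin l => exact absurd ⟨l, hs⟩ h
      | fin A =>
        exact absurd h2 (not_lt.2 (Finset.sup_le fun x hx =>
          tt_le_tt (ha x (mem_biUnion (s := {A | fin A ∈ S}) hs hx)).le))

/-- the subsemilattice of finite sets has no infimum in the closure of its upper set -/
theorem bad {m : X} (h : ∀ s ∈ range fin, m ≤ s) :
    m ∉ closure {l | ∃ s ∈ range fin, s ≤ l} := by
  intro hm
  cases m with
  | fin B =>
    exact unc (B.countable_toSet.mono fun a _ =>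
      fin_le.1 (h _ ⟨{a}, rfl⟩) (Finset.mem_singleton_self a))
  | lin l =>
    have ht : l = ⊤ := by
      by_contra ht
      obtain ⟨a, ha⟩ := exists_xx ht
      obtain ⟨b, hb⟩ := exists_gt' a
      have : tt b ≤ l := by simpa [H] using lin_le.1 (h _ ⟨{b}, rfl⟩)
      exact (this.trans ha).not_gt (xx_lt_tt hb)
    obtain ⟨z, hz, s, ⟨A, rfl⟩, h1⟩ :=
      mem_closure_iff.1 hm _ (isOpen_V ⊥) (Or.inl (by rw [ht]))
    rcases hz with rfl | ⟨a, -, rfl⟩ <;> exact not_fin_le h1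

theorem sub : ∀ s ∈ range fin, ∀ s' ∈ range fin, s ⊓ s' ∈ range fin := by
  rintro _ ⟨A, rfl⟩ _ ⟨B, rfl⟩
  exact ⟨A ∪ B, rfl⟩

end

end Pool.Agent.H5.SemiL
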