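import Mathlib

set_option autoImplicit false

namespace Pool.Agent.H5.Split

open MvPolynomial Filter

variable {σ K : Type} [Fintype σ] [Field K]

omit [Fintype σ] in
lemma deg_le {P : MvPolynomial σ K} {α : σ →₀ ℕ} (h : coeff α P ≠ 0) :
    α.degree ≤ P.totalDegree := le_totalDegree (mem_support_iff.2 h)

lemma exists_mv (c : (σ →₀ ℕ) → K) (n : ℕ) (h : ∀ α, c α ≠ 0 → α.degree ≤ n) :
    ∃ P : MvPolynomial σ K, ∀ α, coeff α P = c α := by
  classical
  refine ⟨∑ α ∈ (Finsupp.finite_of_degree_le (σ := σ) n).toFinset, monomial α (c α), fun α => ?_⟩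
  simp only [coeff_sum, coeff_monomial, Finset.sum_ite_eq', Set.Finite.mem_toFinset,
    Set.mem_ofPred_eq]
  split_ifs with h1
  · rfl
  · by_contra h2
    exact h1 (h α (Ne.symm h2))

lemma glue {B : Type} [AddCommGroup B] [Module (MvPolynomial σ K) B] (e : B) (b : B → ℕ)
    (ψ : Finset B → B → MvPolynomial σ K) (h1 : ∀ F, ψ F e = 1)
    (hadd : ∀ F, ∀ s ∈ F, ∀ t ∈ F, ψ F (s + t) = ψ F s + ψ F t)
    (hsm : ∀ F, ∀ a : MvPolynomial σ K, ∀ s ∈ F, ψ F (a • s) = a * ψ F s)
    (hdeg : ∀ F, ∀ s ∈ F, ∀ α, coeff α (ψ F s) ≠ 0 → α.degree ≤ b s) :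
    ∃ φ : B →ₗ[MvPolynomial σ K] MvPolynomial σ K, φ e = 1 := by
  classical
  let Z : Submodule K (Finset B → K) :=
    { carrier := {u | ∀ᶠ F in atTop, u F = 0}
      add_mem' := fun ha hb => (ha.and hb).mono fun F h => by simp [h.1, h.2]
      zero_mem' := Eventually.of_forall fun _ => rfl
      smul_mem' := fun c u hu => hu.mono fun F h => by simp [h] }
  have hZ : (fun _ => 1 : Finset B → K) ∉ Z := fun h => by
    obtain ⟨F, hF⟩ := Eventually.exists h
    exact one_ne_zero hF
  obtain ⟨f, hf1, hf⟩ := Z.exists_dual_map_eq_bot_of_notMem hZ inferInstance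
  let ρ : (Finset B → K) →ₗ[K] K := (f fun _ => 1)⁻¹ • f
  have hρ1 : ρ (fun _ => 1) = 1 := inv_mul_cancel₀ hf1
  have hρ : ∀ u v : Finset B → K, (∀ᶠ F in atTop, u F = v F) → ρ u = ρ v := by
    intro u v h
    have h2 : f (u - v) ∈ Z.map f :=
      Submodule.mem_map_of_mem (h.mono fun F hF => by simp [hF])
    rw [hf, Submodule.mem_bot, map_sub, sub_eq_zero] at h2
    simp [ρ, h2]
  have hev : ∀ s : B, ∀ᶠ F : Finset B in atTop, s ∈ F := fun s =>
    (eventually_ge_atTop {s}).mono fun F hF => hF (Finset.mem_singleton_self s)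
  have hex : ∀ s : B, ∃ P : MvPolynomial σ K, ∀ α,
      coeff α P = ρ fun F => coeff α (ψ F s) := by
    intro s
    refine exists_mv _ (b s) fun α hα => ?_
    by_contra hlt
    apply hα
    rw [hρ _ 0 ((hev s).mono fun F hF => by
      by_contra h
      exact hlt (hdeg F s hF α h)), map_zero]
  choose φ hφ using hex
  refine ⟨⟨⟨φ, fun s t => ?_⟩, fun a s => ?_⟩, ?_⟩
  · ext α
    rw [coeff_add, hφ, hφ, hφ, ← map_add]
    exact hρ _ _ (((hev s).and (hev t)).mono fun F hF => by simp [hadd F s hF.1 t hF.2])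
  · ext α
    simp only [RingHom.id_apply, smul_eq_mul, coeff_mul, hφ]
    simp only [← smul_eq_mul, ← map_smul, ← map_sum]
    exact hρ _ _ ((hev s).mono fun F hF => by simp [hsm F a s hF, coeff_mul])
  · ext α
    change coeff α (φ e) = _
    rw [hφ]
    simp only [h1]
    have : (fun _ : Finset B => coeff α (1 : MvPolynomial σ K)) =
        coeff α (1 : MvPolynomial σ K) • fun _ => (1 : K) := by
      funext F
      simp
    rw [this, map_smul, hρ1, smul_eq_mul, mul_one]

lemma exists_pi (p : ℕ) [ExpChar K p] (e : ℕ) (c : MvPolynomial σ K) (hc : c ≠ 0)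
    (hq : c.totalDegree < p ^ e) : ∃ π : MvPolynomial σ K → MvPolynomial σ K, π c = 1 ∧
      (∀ a b, π (a + b) = π a + π b) ∧ (∀ a b, π (a ^ p ^ e * b) = a * π b) ∧
      ∀ b β, coeff β (π b) ≠ 0 → p ^ e * β.degree ≤ b.totalDegree := by
  classical
  obtain ⟨α, hα⟩ := ne_zero_iff.1 hc
  set Fr := iterateFrobenius K p e with hFr
  obtain ⟨f, hf⟩ := Module.Projective.exists_dual_eq_one Fr.fieldRange hα
  let l : K → K := fun x => Fr.rangeRestrictFieldEquiv.symm (f x)
  have l0 : l 0 = 0 := by simp [l]
  have l1 : l (coeff α c) = 1 := by simp [l, hf]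
  have ladd : ∀ x y, l (x + y) = l x + l y := fun x y => by simp [l]
  have lmul : ∀ k x, l (k ^ p ^ e * x) = k * l x := by
    intro k x
    have : k ^ p ^ e * x = Fr.rangeRestrictFieldEquiv k • x := rfl
    simp only [l]
    rw [this, map_smul, smul_eq_mul, map_mul, RingEquiv.symm_apply_apply]
  set q := p ^ e with hqe
  have hq0 : 0 < q := by omega
  have hd : ∀ (b : MvPolynomial σ K) (β : σ →₀ ℕ), l (coeff (q • β + α) b) ≠ 0 →
      q * β.degree ≤ b.totalDegree := by
    intro b β h
    have h2 := deg_le (P := b) (α := q • β + α) fun h0 => h (by rw [h0, l0])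
    rw [map_add, map_nsmul, smul_eq_mul] at h2
    omega
  have hex : ∀ b : MvPolynomial σ K, ∃ P : MvPolynomial σ K, ∀ β,
      coeff β P = l (coeff (q • β + α) b) := fun b =>
    exists_mv _ b.totalDegree fun β h => (Nat.le_mul_of_pos_left _ hq0).trans (hd b β h)
  choose π hπ using hex
  have hadd : ∀ a b, π (a + b) = π a + π b := fun a b => by
    ext β
    rw [coeff_add, hπ, hπ, hπ, coeff_add, ladd]
  have hαi : ∀ i, α i < q := fun i => (Finsupp.le_degree i α).trans_lt ((deg_le hα).trans_lt hq)
  have hX : ∀ i b, π (X i ^ q * b) = X i * π b := by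
    intro i b
    ext β
    rw [hπ, X_pow_eq_monomial, coeff_monomial_mul', coeff_X_mul', hπ]
    by_cases h : i ∈ β.support
    · have hb : 1 ≤ β i := Nat.one_le_iff_ne_zero.2 (Finsupp.mem_support_iff.1 h)
      rw [if_pos h, if_pos, one_mul]
      · congr 2
        ext j
        by_cases hj : i = j
        · subst hj
          obtain ⟨m, hm⟩ := Nat.exists_eq_add_of_le hb
          simp only [Finsupp.coe_tsub, Finsupp.coe_add, Finsupp.coe_smul, Pi.sub_apply,
            Pi.add_apply, Pi.smul_apply, smul_eq_mul, Finsupp.single_eq_same, hm, mul_add,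
            add_tsub_cancel_left]
          omega
        · simp [Finsupp.single_eq_of_ne (Ne.symm hj)]
      · rw [Finsupp.single_le_iff]
        simp only [Finsupp.coe_add, Finsupp.coe_smul, Pi.add_apply, Pi.smul_apply, smul_eq_mul]
        nlinarith
    · rw [if_neg h, if_neg, l0]
      rw [Finsupp.single_le_iff]
      simp only [Finsupp.coe_add, Finsupp.coe_smul, Pi.add_apply, Pi.smul_apply, smul_eq_mul,
        Finsupp.notMem_support_iff.1 h]
      have := hαi i
      omega
  refine ⟨π, ?_, hadd, fun a => ?_, fun b β h => hd b β (hπ b β ▸ h)⟩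
  · ext β
    rw [hπ, coeff_one]
    split_ifs with h
    · subst h
      simpa using l1
    · by_contra h2
      have h3 := hd c β h2
      have h4 : β.degree ≠ 0 := fun h0 => h ((Finsupp.degree_eq_zero_iff β).1 h0).symm
      have : q ≤ q * β.degree := Nat.le_mul_of_pos_right _ (Nat.pos_of_ne_zero h4)
      omega
  · induction a using MvPolynomial.induction_on with
    | C k =>
      intro b
      ext β
      rw [← map_pow, hπ, coeff_C_mul, coeff_C_mul, hπ, lmul]
    | add a a' h h' =>
      intro b
      rw [add_pow_expChar_pow, add_mul, hadd, h, h', add_mul]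
    | mul_X a i h =>
      intro b
      rw [mul_pow, mul_assoc, h, hX, mul_assoc]

theorem split (p : ℕ) (hp : p.Prime) [CharP K p] (L : Type) [Field L]
    [Algebra (MvPolynomial σ K) L] [FaithfulSMul (MvPolynomial σ K) L] :
    ∃ φ : integralClosure (MvPolynomial σ K) L →ₗ[MvPolynomial σ K] MvPolynomial σ K,
      φ 1 = 1 := by
  classical
  set A := MvPolynomial σ K
  have : ExpChar K p := ExpChar.prime hp
  have : ExpChar L p := expChar_of_injective_algebraMap (FaithfulSMul.algebraMap_injective A L) p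
  let F := FractionRing A
  let : Algebra F L := FractionRing.liftAlgebra A L
  have : IsScalarTower A F L := FractionRing.isScalarTower_liftAlgebra A L
  obtain ⟨Θ, hΘ⟩ := Module.Projective.exists_dual_eq_one F (one_ne_zero (α := L))
  have hinj := IsFractionRing.injective A F
  have hP : ∀ s : integralClosure A L, ∃ P : Polynomial A, P.Monic ∧
      Polynomial.aeval (s : L) P = 0 := fun s => s.2
  choose P hPm hP0 using hP
  let D : integralClosure A L → ℕ := fun s =>
    (Finset.range (P s).natDegree).sup fun i => ((P s).coeff i).totalDegree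
  have key : ∀ T : Finset (integralClosure A L), ∃ ψ : integralClosure A L → A, ψ 1 = 1 ∧
      (∀ s ∈ T, ∀ t ∈ T, ψ (s + t) = ψ s + ψ t) ∧ (∀ a : A, ∀ s ∈ T, ψ (a • s) = a * ψ s) ∧
      ∀ s ∈ T, ∀ α, coeff α (ψ s) ≠ 0 → α.degree ≤ D s := by
    intro T
    obtain ⟨c, hc⟩ := IsLocalization.exist_integer_multiples (nonZeroDivisors A)
      (T.sigma fun s => Finset.range (P s).natDegree) fun x => Θ ((x.1 : L) ^ x.2)
    choose! a ha using hc
    let D0 := (T.sigma fun s => Finset.range (P s).natDegree).sup fun x => (a x).totalDegree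
    have hW : ∀ s ∈ T, ∀ N, ∃ b : A, b.totalDegree ≤ N * D s + D0 ∧
        algebraMap A F b = (c : A) • Θ ((s : L) ^ N) := by
      intro s hs N
      induction N using Nat.strong_induction_on with
      | _ N ih =>
      by_cases hN : N < (P s).natDegree
      · have hm : (⟨s, N⟩ : (_ : integralClosure A L) × ℕ) ∈
            T.sigma fun s => Finset.range (P s).natDegree := by simp [hs, hN]
        exact ⟨a ⟨s, N⟩, (Finset.le_sup (f := fun x => (a x).totalDegree) hm).trans
          (Nat.le_add_left _ _), ha _ hm⟩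
      · obtain ⟨m, rfl⟩ := Nat.exists_eq_add_of_le (not_lt.1 hN)
        choose! b hb1 hb2 using ih
        refine ⟨-∑ i ∈ Finset.range (P s).natDegree, (P s).coeff i * b (i + m), ?_, ?_⟩
        · rw [totalDegree_neg]
          refine totalDegree_finsetSum_le fun i hi => (totalDegree_mul _ _).trans ?_
          have h1 : ((P s).coeff i).totalDegree ≤ D s :=
            Finset.le_sup (f := fun i => ((P s).coeff i).totalDegree) hi
          have h2 := Finset.mem_range.1 hi
          have h3 := hb1 (i + m) (by omega)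
          nlinarith
        · have h1 := hP0 s
          rw [(hPm s).as_sum, map_add, map_sum] at h1
          have h2 : (s : L) ^ ((P s).natDegree + m) =
              -∑ i ∈ Finset.range (P s).natDegree, (P s).coeff i • (s : L) ^ (i + m) := by
            simp only [map_pow, Polynomial.aeval_X, map_mul, Polynomial.aeval_C] at h1
            rw [pow_add, eq_neg_of_add_eq_zero_left h1, neg_mul, Finset.sum_mul]
            simp only [Algebra.smul_def, pow_add, mul_assoc]
          rw [h2, map_neg, map_neg, map_sum, map_sum, smul_neg, Finset.smul_sum]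
          congr 1
          refine Finset.sum_congr rfl fun i hi => ?_
          rw [map_mul, hb2 _ (by have := Finset.mem_range.1 hi; omega),
            LinearMap.map_smul_of_tower, smul_comm (c : A), Algebra.smul_def ((P s).coeff i)]
    let e := (c : A).totalDegree + D0
    have he : e < p ^ e := Nat.lt_pow_self hp.one_lt
    obtain ⟨π, h1, h2, h3, h4⟩ := exists_pi p e (c : A) (nonZeroDivisors.ne_zero c.2) (by omega)
    let g : L → A := fun y => Function.invFun (algebraMap A F) ((c : A) • Θ y)
    have hg : ∀ y b, algebraMap A F b = (c : A) • Θ y → g y = b := fun y b h => by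
      simp only [g, ← h]
      exact Function.leftInverse_invFun hinj b
    refine ⟨fun s => π (g ((s : L) ^ p ^ e)), ?_, fun s hs t ht => ?_, fun a s hs => ?_,
      fun s hs α hα => ?_⟩
    · beta_reduce
      rw [hg _ c (by simp [hΘ, Algebra.smul_def]), h1]
    · obtain ⟨b, -, hb⟩ := hW s hs (p ^ e)
      obtain ⟨b', -, hb'⟩ := hW t ht (p ^ e)
      beta_reduce
      rw [hg _ _ hb, hg _ _ hb', hg _ (b + b'), h2]
      rw [map_add, hb, hb', Subalgebra.coe_add, add_pow_expChar_pow, map_add, smul_add]
    · obtain ⟨b, -, hb⟩ := hW s hs (p ^ e)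
      beta_reduce
      rw [hg _ _ hb, hg _ (a ^ p ^ e * b), h3]
      rw [map_mul, hb, Subalgebra.coe_smul, smul_pow, LinearMap.map_smul_of_tower,
        smul_comm (c : A), Algebra.smul_def (a ^ p ^ e)]
    · obtain ⟨b, hb1, hb⟩ := hW s hs (p ^ e)
      simp only [hg _ _ hb] at hα
      have h5 := h4 b α hα
      by_contra hlt
      have h6 : p ^ e * (D s + 1) ≤ p ^ e * α.degree := Nat.mul_le_mul_left _ (by omega)
      have : D0 ≤ e := Nat.le_add_left _ _
      nlinarith
  choose ψ h1 h2 h3 h4 using key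
  exact glue 1 D ψ h1 h2 h3 h4

end Pool.Agent.H5.Split
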