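import Mathlib

set_option autoImplicit false

/-! The coding of an irrational rotation by two arcs: linear complexity, and polynomially many
orbit patterns of closed sets. -/

namespace Pool.Agent.H5.Sturm

open Set Filter Topology

noncomputable section

def α : ℝ := Real.sqrt 2

def code (y : ℝ) (j : ℕ) : Bool := decide (⌊y + j * α⌋ % 2 = 0)

theorem code_shift (y : ℝ) (i j : ℕ) : code (y + i * α) j = code y (j + i) := by
  unfold code
  congr 4
  push_cast
  ring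

theorem code_per (y : ℝ) (m : ℤ) : code (y + 2 * m) = code y := by
  funext j
  unfold code
  have : y + 2 * m + j * α = y + j * α + ((2 * m : ℤ) : ℝ) := by push_cast; ring
  rw [this, Int.floor_add_intCast, decide_eq_decide]
  omega

theorem exists_red (y : ℝ) : ∃ z ∈ Ico (0 : ℝ) 2, code z = code y := by
  refine ⟨y + 2 * (-⌊y / 2⌋ : ℤ), ⟨?_, ?_⟩, code_per y _⟩ <;> push_cast
  · linarith [Int.floor_le (y / 2)]
  · linarith [Int.lt_floor_add_one (y / 2)]

def wd (N : ℕ) (x : ℕ → Bool) : Fin N → Bool := fun i => x i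

theorem wd_eq {N : ℕ} {x y : ℕ → Bool} : wd N x = wd N y ↔ ∀ j < N, x j = y j :=
  ⟨fun h j hj => congrFun h ⟨j, hj⟩, fun h => funext fun i => h i i.2⟩

open Classical in
def P (N : ℕ) : Finset (Fin N → Bool) := Finset.univ.filter fun w => ∃ y, wd N (code y) = w

theorem mem_P {N : ℕ} {w : Fin N → Bool} : w ∈ P N ↔ ∃ y, wd N (code y) = w := by simp [P]

open Classical in
def rep {N : ℕ} (w : Fin N → Bool) : ℝ :=
  if h : ∃ y ∈ Ico (0 : ℝ) 2, wd N (code y) = w then h.choose else 0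

theorem rep_spec {N : ℕ} {w : Fin N → Bool} (h : w ∈ P N) :
    rep w ∈ Ico (0 : ℝ) 2 ∧ wd N (code (rep w)) = w := by
  obtain ⟨y, hy⟩ := mem_P.1 h
  obtain ⟨z, hz, e⟩ := exists_red y
  have h' : ∃ y ∈ Ico (0 : ℝ) 2, wd N (code y) = w := ⟨z, hz, e ▸ hy⟩
  rw [rep, dif_pos h']
  exact h'.choose_spec

theorem card_le (N : ℕ) : (P N).card ≤ 2 * N + 1 := by
  let σ : ℝ → ℤ := fun y => ∑ j ∈ Finset.range N, ⌊y + j * α⌋
  have hm : ∀ {y z : ℝ}, y ≤ z → ∀ j : ℕ, ⌊y + j * α⌋ ≤ ⌊z + j * α⌋ :=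
    fun h j => Int.floor_mono (by linarith)
  have hinj : ∀ {y z : ℝ}, y ≤ z → σ y = σ z → wd N (code y) = wd N (code z) := by
    intro y z h e
    refine wd_eq.2 fun j hj => ?_
    have := (Finset.sum_eq_sum_iff_of_le fun j _ => hm h j).1 e j (Finset.mem_range.2 hj)
    unfold code
    rw [this]
  have h2 : σ 2 = σ 0 + 2 * N := by
    have : ∀ j : ℕ, ⌊2 + j * α⌋ = ⌊0 + j * α⌋ + 2 := fun j => by
      rw [zero_add, add_comm]; exact Int.floor_add_ofNat _ 2
    simp only [σ, this, Finset.sum_add_distrib]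
    simp [mul_comm]
  calc (P N).card ≤ (Finset.Icc (σ 0) (σ 0 + 2 * N)).card := by
        refine Finset.card_le_card_of_injOn (fun w => σ (rep w)) (fun w hw => ?_)
          fun w hw w' hw' e => ?_
        · have := (rep_spec hw).1
          exact Finset.mem_coe.2 (Finset.mem_Icc.2 ⟨Finset.sum_le_sum fun j _ => hm this.1 j,
            h2 ▸ Finset.sum_le_sum fun j _ => hm this.2.le j⟩)
        · rw [← (rep_spec hw).2, ← (rep_spec hw').2]
          rcases le_total (rep w) (rep w') with h | h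
          · exact hinj h e
          · exact (hinj h e.symm).symm
    _ = 2 * N + 1 := by rw [Int.card_Icc]; omega

theorem not_periodic (z : ℝ) {q : ℕ} (hq : 0 < q) : code (z + q * α) ≠ code z := by
  intro h
  have hk : ∀ k : ℕ, code z (k * q) = code z 0 := by
    intro k
    induction k with
    | zero => rw [zero_mul]
    | succ k ih => rw [← ih, add_mul, one_mul, ← code_shift, h]
  have hirr : Irrational (q * α) := irrational_sqrt_two.natCast_mul hq.ne'
  set m := round (q * α / 2)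
  set γ := q * α - 2 * m with hγ
  have h1 : |γ| ≤ 1 := by
    have := abs_sub_round (q * α / 2)
    rw [abs_le] at this ⊢
    constructor <;> linarith [this.1, this.2]
  have h2 : ∀ r : ℤ, γ ≠ r := fun r e => hirr.ne_int (r + 2 * m) (by push_cast; linarith)
  have h3 : |γ| < 1 := h1.lt_of_ne fun e => by
    rcases abs_eq zero_le_one |>.1 e with e | e
    · exact h2 1 (by simpa using e)
    · exact h2 (-1) (by simpa using e)
  have h4 : ∀ k : ℕ, ⌊z + k * γ⌋ % 2 = 0 ↔ ⌊z⌋ % 2 = 0 := by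
    intro k
    have := hk k
    unfold code at this
    rw [decide_eq_decide] at this
    have e : z + ((k * q : ℕ) : ℝ) * α = z + k * γ + ((2 * k * m : ℤ) : ℝ) := by
      rw [hγ]; push_cast; ring
    rw [e, Int.floor_add_intCast, mul_assoc] at this
    simp only [Nat.cast_zero, zero_mul, add_zero] at this
    omega
  have h5 : ∀ k : ℕ, ⌊z + k * γ⌋ = ⌊z⌋ := by
    intro k
    induction k with
    | zero => simp
    | succ k ih =>
      rw [abs_lt] at h3
      have a1 := Int.floor_le (z + (k + 1 : ℕ) * γ)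
      have a2 := Int.lt_floor_add_one (z + (k + 1 : ℕ) * γ)
      have a3 := Int.floor_le (z + k * γ)
      have a4 := Int.lt_floor_add_one (z + k * γ)
      have e : z + ((k + 1 : ℕ) : ℝ) * γ = z + k * γ + γ := by push_cast; ring
      have b1 : ⌊z + ((k + 1 : ℕ) : ℝ) * γ⌋ < ⌊z + k * γ⌋ + 2 := by
        have : (⌊z + ((k + 1 : ℕ) : ℝ) * γ⌋ : ℝ) < ⌊z + k * γ⌋ + 2 := by linarith [h3.2]
        exact_mod_cast this
      have b2 : ⌊z + k * γ⌋ < ⌊z + ((k + 1 : ℕ) : ℝ) * γ⌋ + 2 := by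
        have : (⌊z + k * γ⌋ : ℝ) < ⌊z + ((k + 1 : ℕ) : ℝ) * γ⌋ + 2 := by linarith [h3.1]
        exact_mod_cast this
      have c1 := h4 (k + 1)
      omega
  have h6 : 0 < |γ| := abs_pos.2 (by simpa using h2 0)
  obtain ⟨k, hk'⟩ := exists_nat_gt (1 / |γ|)
  rw [div_lt_iff₀ h6] at hk'
  have a1 := Int.floor_le (z + k * γ)
  have a2 := Int.lt_floor_add_one (z + k * γ)
  rw [h5 k] at a1 a2
  have : |(k : ℝ) * γ| < 1 :=
    abs_lt.2 ⟨by linarith [Int.lt_floor_add_one z], by linarith [Int.floor_le z]⟩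
  rw [abs_mul, Nat.abs_cast] at this
  linarith

theorem card_lt (N : ℕ) : (P N).card < (P (N + 1)).card := by
  classical
  by_contra hc
  let ρ : (Fin (N + 1) → Bool) → Fin N → Bool := fun w i => w i.castSucc
  have hρ : ∀ x, ρ (wd (N + 1) x) = wd N x := fun _ => rfl
  have hinj : InjOn ρ (P (N + 1)) := by
    refine Finset.injOn_of_surjOn_of_card_le ρ (fun w hw => ?_) (fun w hw => ?_) (not_lt.1 hc)
    · obtain ⟨y, rfl⟩ := mem_P.1 hw
      exact mem_P.2 ⟨y, rfl⟩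
    · obtain ⟨y, rfl⟩ := mem_P.1 hw
      exact ⟨_, mem_P.2 ⟨y, rfl⟩, rfl⟩
  have hdet : ∀ y z, wd N (code y) = wd N (code z) → code y = code z := by
    intro y z h
    have : ∀ k, ∀ j < N + k, code y j = code z j := by
      intro k
      induction k with
      | zero => exact wd_eq.1 h
      | succ k ih =>
        intro j hj
        rcases (Nat.lt_succ_iff.1 hj).eq_or_lt with rfl | hj'
        · have := hinj (mem_P.2 ⟨y + k * α, rfl⟩) (mem_P.2 ⟨z + k * α, rfl⟩) (wd_eq.2 fun i hi => by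
            rw [code_shift, code_shift]; exact ih _ (by omega))
          have := wd_eq.1 this N (Nat.lt_succ_self _)
          rwa [code_shift, code_shift] at this
        · exact ih j hj'
    exact funext fun j => this (j + 1) j (by omega)
  obtain ⟨a, b, hab, e⟩ := Finite.exists_ne_map_eq_of_infinite
    fun k : ℕ => wd N (code (k * α))
  wlog h : a < b generalizing a b
  · exact this b a hab.symm e.symm (lt_of_le_of_ne (not_lt.1 h) hab.symm)
  obtain ⟨q, rfl⟩ := Nat.exists_eq_add_of_lt h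
  refine not_periodic (a * α) (Nat.succ_pos q) ?_
  rw [hdet _ _ e]
  congr 1
  push_cast
  ring

theorem le_card (N : ℕ) : N ≤ (P N).card := by
  induction N with
  | zero => exact Nat.zero_le _
  | succ N ih => exact ih.trans_lt (card_lt N)

theorem gap (t : ℝ) : ∀ᶠ l in 𝓝[>] (0 : ℝ), ∀ m : ℤ, (m : ℝ) - t ≠ 0 → 2 * l < |m - t| := by
  obtain ⟨δ, hδ, h⟩ : ∃ δ > 0, ∀ m : ℤ, (m : ℝ) - t ≠ 0 → δ ≤ |m - t| := by
    have a1 := Int.floor_le t
    have a2 := Int.lt_floor_add_one t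
    have h1 : ∀ m : ℤ, ⌊t⌋ < m → ⌊t⌋ + 1 - t ≤ |m - t| := fun m hm => by
      have : (⌊t⌋ : ℝ) + 1 ≤ m := by exact_mod_cast hm
      exact le_abs.2 (Or.inl (by linarith))
    have h2 : ∀ m : ℤ, m < ⌊t⌋ → ⌊t⌋ + 1 - t ≤ |m - t| := fun m hm => by
      have : (m : ℝ) + 1 ≤ ⌊t⌋ := by exact_mod_cast hm
      exact le_abs.2 (Or.inr (by linarith))
    by_cases h0 : (⌊t⌋ : ℝ) - t = 0
    · refine ⟨⌊t⌋ + 1 - t, by linarith, fun m hm => ?_⟩
      rcases lt_trichotomy m ⌊t⌋ with h | rfl | h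
      exacts [h2 m h, absurd h0 hm, h1 m h]
    · refine ⟨min (⌊t⌋ + 1 - t) |⌊t⌋ - t|, lt_min (by linarith) (abs_pos.2 h0), fun m _ => ?_⟩
      rcases lt_trichotomy m ⌊t⌋ with h | rfl | h
      exacts [(min_le_left _ _).trans (h2 m h), min_le_right _ _, (min_le_left _ _).trans (h1 m h)]
  filter_upwards [Ioo_mem_nhdsGT (half_pos hδ)] with l hl m hm
  linarith [hl.2, h m hm]

/-- words of length `L` are stable on one side, on an interval of uniform length -/
theorem stable (L : ℕ) : ∃ l > 0, ∀ y : ℝ,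
    (∀ z ∈ Icc y (y + l), ∀ j < L, code z j = code y j) ∨
    (∀ z ∈ Icc (y - l) y, ∀ j < L, code z j = code y j) := by
  obtain ⟨l, hl, hl0⟩ := ((eventually_all.2 fun p : Fin L × Fin L =>
    gap (((p.1 : ℕ) - (p.2 : ℕ)) * α)).and self_mem_nhdsWithin).exists
  refine ⟨l, hl0, fun y => ?_⟩
  by_contra hc
  push Not at hc
  obtain ⟨⟨z, hz, j, hj, h1⟩, z', hz', j', hj', h2⟩ := hc
  have h3 : ⌊y + j * α⌋ < ⌊z + j * α⌋ :=
    lt_of_le_of_ne (Int.floor_mono (by linarith [hz.1])) fun e => h1 (by unfold code; rw [e])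
  have h4 : ⌊z' + j' * α⌋ < ⌊y + j' * α⌋ :=
    lt_of_le_of_ne (Int.floor_mono (by linarith [hz'.2])) fun e => h2 (by unfold code; rw [e])
  have a1 := Int.floor_lt.1 h3
  have a2 := Int.floor_lt.1 h4
  have a3 := Int.floor_le (z + j * α)
  have a4 := Int.floor_le (y + j' * α)
  have h5 := hl (⟨j, hj⟩, ⟨j', hj'⟩) (⌊z + j * α⌋ - ⌊y + j' * α⌋)
  push_cast at h5
  have h6 : 0 < (⌊z + j * α⌋ : ℝ) - ⌊y + j' * α⌋ - (j - j') * α := by linarith
  have := h5 h6.ne'
  rw [abs_of_pos h6] at this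
  linarith [hz.2, hz'.1]

/-- a bounded number of points of a finite set brackets all of its points -/
theorem select {β : Type} {l : ℝ} (hl : 0 < l) (r : β → ℝ) (C : Finset β) (hne : C.Nonempty)
    (hC : ∀ w ∈ C, r w ∈ Ico (0 : ℝ) 2) :
    ∃ g : Fin (⌊2 / l⌋₊ + 1) × Bool → β, (∀ i, g i ∈ C) ∧
      ∀ w ∈ C, (∃ i, r (g i) ∈ Icc (r w) (r w + l)) ∧ ∃ i, r (g i) ∈ Icc (r w - l) (r w) := by
  classical
  have h : ∀ k : Fin (⌊2 / l⌋₊ + 1), ∃ a b, a ∈ C ∧ b ∈ C ∧ ∀ w ∈ C, ⌊r w / l⌋₊ = k →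
      r a ≤ r w ∧ r w ≤ r b ∧ ⌊r a / l⌋₊ = k ∧ ⌊r b / l⌋₊ = k := by
    intro k
    by_cases h0 : (C.filter fun w => ⌊r w / l⌋₊ = k).Nonempty
    · obtain ⟨a, ha, h1⟩ := Finset.exists_min_image _ r h0
      obtain ⟨b, hb, h2⟩ := Finset.exists_max_image _ r h0
      rw [Finset.mem_filter] at ha hb
      exact ⟨a, b, ha.1, hb.1, fun w hw e => ⟨h1 w (Finset.mem_filter.2 ⟨hw, e⟩),
        h2 w (Finset.mem_filter.2 ⟨hw, e⟩), ha.2, hb.2⟩⟩
    · obtain ⟨a, ha⟩ := hne
      exact ⟨a, a, ha, ha, fun w hw e => absurd ⟨w, Finset.mem_filter.2 ⟨hw, e⟩⟩ h0⟩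
  choose A B hA hB h using h
  have hd : ∀ a ∈ C, ∀ b, ⌊r a / l⌋₊ = ⌊r b / l⌋₊ → r b ≤ r a + l := by
    intro a ha b e
    have h1 := Nat.floor_le (div_nonneg (hC a ha).1 hl.le)
    have h2 := Nat.lt_floor_add_one (r b / l)
    rw [← e, div_lt_iff₀ hl] at h2
    rw [le_div_iff₀ hl] at h1
    linarith
  refine ⟨fun i => if i.2 then B i.1 else A i.1, fun i => by dsimp only; split_ifs; exacts [hB _, hA _],
    fun w hw => ?_⟩
  let k : Fin (⌊2 / l⌋₊ + 1) := ⟨⌊r w / l⌋₊, Nat.lt_succ_of_le (Nat.floor_mono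
    (div_le_div_of_nonneg_right (hC w hw).2.le hl.le))⟩
  obtain ⟨h1, h2, h3, h4⟩ := h k w hw rfl
  exact ⟨⟨(k, true), h2, hd w hw _ h4.symm⟩,
    (k, false), sub_le_iff_le_add.2 (hd _ (hA k) w h3), h1⟩

/-- binary sequences with the usual metric -/
def Y : Type := ℕ → Bool

instance : MetricSpace Y := PiNat.metricSpace (E := fun _ : ℕ => Bool)

instance : CompactSpace Y := inferInstanceAs (CompactSpace (ℕ → Bool))

def Xs : Set Y := {x | ∀ N, wd N x ∈ P N}

theorem closed_Xs : IsClosed Xs := by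
  refine isOpen_compl_iff.1 (isOpen_iff_forall_mem_open.2 fun x hx => ?_)
  obtain ⟨N, hN⟩ := not_forall.1 hx
  exact ⟨PiNat.cylinder (E := fun _ : ℕ => Bool) x N, fun y hy hy' =>
    hN (wd_eq.2 (PiNat.mem_cylinder_iff.1 hy) ▸ hy' N),
    PiNat.isOpen_cylinder (fun _ : ℕ => Bool) x N, PiNat.self_mem_cylinder _ _⟩

/-- the subshift -/
def X : Type := Xs

instance : MetricSpace X := inferInstanceAs (MetricSpace Xs)

instance : CompactSpace X := isCompact_iff_compactSpace.1 closed_Xs.isCompact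

def pt (y : ℝ) : X := ⟨code y, fun _ => mem_P.2 ⟨y, rfl⟩⟩

instance : Nonempty X := ⟨pt 0⟩

def T (x : X) : X := ⟨fun j => x.1 (j + 1), fun N => by
  obtain ⟨y, hy⟩ := mem_P.1 (x.2 (N + 1))
  refine mem_P.2 ⟨y + (1 : ℕ) * α, wd_eq.2 fun j hj => ?_⟩
  rw [code_shift]
  exact wd_eq.1 hy _ (Nat.succ_lt_succ hj)⟩

theorem cont_T : Continuous T := by
  refine Continuous.subtype_mk ?_ _
  have h : Continuous fun (x : ℕ → Bool) (j : ℕ) => x (j + 1) :=
    continuous_pi fun j => continuous_apply (j + 1)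
  exact h.comp continuous_subtype_val

theorem iter_T (i : ℕ) (x : X) (j : ℕ) : (T^[i] x).1 j = x.1 (j + i) := by
  induction i generalizing j with
  | zero => rfl
  | succ i ih =>
    rw [Function.iterate_succ_apply']
    exact (ih (j + 1)).trans (congrArg x.1 (by omega))

theorem dist_le {x y : X} {L : ℕ} (h : ∀ j < L, x.1 j = y.1 j) : dist x y ≤ (1 / 2) ^ L :=
  (PiNat.mem_cylinder_iff_dist_le (E := fun _ : ℕ => Bool)).1 (PiNat.mem_cylinder_iff.2 h)

theorem eq_of_dist {x y : X} (h : dist x y < 1) : x.1 0 = y.1 0 :=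
  PiNat.apply_eq_of_dist_lt (E := fun _ : ℕ => Bool) (n := 0) (by rw [pow_zero]; exact h) le_rfl

theorem span_upper (n L : ℕ) : ∃ E : Finset X, E.card ≤ 2 * (n + L) + 1 ∧
    ∀ x, ∃ y ∈ E, ∀ i < n, dist (T^[i] x) (T^[i] y) ≤ (1 / 2) ^ L := by
  classical
  refine ⟨(P (n + L)).image fun w => pt (rep w), Finset.card_image_le.trans (card_le _),
    fun x => ⟨_, Finset.mem_image_of_mem _ (x.2 (n + L)), fun i hi => dist_le fun j hj => ?_⟩⟩
  rw [iter_T, iter_T]
  exact (wd_eq.1 (rep_spec (x.2 (n + L))).2 _ (by omega)).symm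

theorem span_lower (n : ℕ) (E : Finset X)
    (h : ∀ x, ∃ y ∈ E, ∀ i < n, dist (T^[i] x) (T^[i] y) < 1) : n ≤ E.card := by
  classical
  refine (le_card n).trans ((Finset.card_le_card (t := E.image fun y => wd n y.1)
    fun w hw => ?_).trans Finset.card_image_le)
  obtain ⟨z, rfl⟩ := mem_P.1 hw
  obtain ⟨y, hy, h'⟩ := h (pt z)
  refine Finset.mem_image.2 ⟨y, hy, wd_eq.2 fun i hi => ?_⟩
  have := eq_of_dist (h' i hi)
  rw [iter_T, iter_T, zero_add] at this
  exact this.symm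

open TopologicalSpace

def TK (K : NonemptyCompacts X) : NonemptyCompacts X := K.map T cont_T

theorem iter_TK (i : ℕ) (K : NonemptyCompacts X) : (TK^[i] K : Set X) = T^[i] '' K := by
  induction i with
  | zero => simp
  | succ i ih =>
    rw [Function.iterate_succ_apply', Function.iterate_succ', image_comp, ← ih]
    rfl

theorem hyper (L : ℕ) : ∃ M : ℕ, ∀ n, ∃ s : Finset (NonemptyCompacts X),
    s.card ≤ (2 * (n + L) + 1) ^ M ∧
    ∀ K, ∃ K' ∈ s, ∀ i < n, dist (TK^[i] K) (TK^[i] K') ≤ (1 / 2) ^ L := by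
  classical
  obtain ⟨l, hl, hst⟩ := stable L
  refine ⟨Fintype.card (Fin (⌊2 / l⌋₊ + 1) × Bool), fun n => ?_⟩
  let F : (Fin (⌊2 / l⌋₊ + 1) × Bool → Fin (n + L) → Bool) → NonemptyCompacts X := fun g =>
    ⟨⟨range fun i => pt (rep (g i)), (finite_range _).isCompact⟩, range_nonempty _⟩
  refine ⟨(Fintype.piFinset fun _ => P (n + L)).image F, Finset.card_image_le.trans ?_, fun K => ?_⟩
  · rw [Fintype.card_piFinset, Finset.prod_const, Finset.card_univ]
    exact Nat.pow_le_pow_left (card_le _) _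
  let C := (P (n + L)).filter fun w => ∃ x ∈ K, wd (n + L) x.1 = w
  have hC : ∀ x ∈ K, wd (n + L) x.1 ∈ C := fun x hx => Finset.mem_filter.2 ⟨x.2 _, x, hx, rfl⟩
  obtain ⟨x₀, hx₀⟩ := K.nonempty
  obtain ⟨g, hg, hg'⟩ := select hl rep C ⟨_, hC x₀ hx₀⟩
    fun w hw => (rep_spec (Finset.mem_filter.1 hw).1).1
  refine ⟨F g, Finset.mem_image_of_mem _ (Fintype.mem_piFinset.2 fun i =>
    (Finset.mem_filter.1 (hg i)).1), fun i hi => ?_⟩
  rw [Metric.NonemptyCompacts.dist_eq, iter_TK, iter_TK]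
  refine Metric.hausdorffDist_le_of_mem_dist (by positivity) ?_ ?_
  · rintro _ ⟨x, hx, rfl⟩
    obtain ⟨⟨a, ha⟩, b, hb⟩ := hg' _ (hC x hx)
    have h1 := wd_eq.1 (rep_spec (x.2 (n + L))).2
    have h2 : ∃ a, ∀ j < L, code (rep (g a) + i * α) j = code (rep (wd (n + L) x.1) + i * α) j := by
      rcases hst (rep (wd (n + L) x.1) + i * α) with h | h
      · exact ⟨a, h _ ⟨by linarith [ha.1], by linarith [ha.2]⟩⟩
      · exact ⟨b, h _ ⟨by linarith [hb.1], by linarith [hb.2]⟩⟩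
    obtain ⟨c, hc⟩ := h2
    refine ⟨_, ⟨_, ⟨c, rfl⟩, rfl⟩, dist_le fun j hj => ?_⟩
    have := hc j hj
    rw [code_shift, code_shift, h1 _ (by omega)] at this
    rw [iter_T, iter_T]
    exact this.symm
  · rintro _ ⟨_, ⟨c, rfl⟩, rfl⟩
    obtain ⟨h1, x, hx, h2⟩ := Finset.mem_filter.1 (hg c)
    refine ⟨_, ⟨x, hx, rfl⟩, dist_le fun j hj => ?_⟩
    rw [iter_T, iter_T]
    exact wd_eq.1 ((rep_spec h1).2.trans h2.symm) _ (by omega)

theorem growth (L M : ℕ) {r : ℝ} (hr : 0 < r) :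
    ∀ᶠ n : ℕ in atTop, (((2 * (n + L) + 1) ^ M : ℕ) : ℝ) ≤ Real.exp (r * n) := by
  have hc : (0 : ℝ) < (2 * L + 3) ^ M := by positivity
  have h := tendsto_natCast_atTop_atTop.eventually
    ((isLittleO_pow_exp_pos_mul_atTop M hr).def (inv_pos.2 hc))
  filter_upwards [h, eventually_ge_atTop 1] with n hn h1
  rw [Real.norm_of_nonneg (by positivity), Real.norm_of_nonneg (Real.exp_pos _).le,
    ← div_eq_inv_mul, le_div_iff₀ hc, ← mul_pow] at hn
  refine le_trans ?_ hn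
  push_cast
  have : (1 : ℝ) ≤ n := by exact_mod_cast h1
  gcongr
  nlinarith [(Nat.cast_nonneg L : (0 : ℝ) ≤ L)]

theorem entropy : Dynamics.coverEntropy TK univ = 0 := by
  refine le_antisymm (iSup₂_le fun U hU => ?_) (Dynamics.coverEntropy_nonneg _ univ_nonempty)
  obtain ⟨ε, hε, hU'⟩ := Metric.mem_uniformity_dist.1 hU
  obtain ⟨L, hL⟩ := exists_pow_lt_of_lt_one hε (by norm_num : (1 / 2 : ℝ) < 1)
  obtain ⟨M, hM⟩ := hyper L
  refine ExpGrowth.expGrowthSup_le_iff.2 fun b hb => ?_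
  obtain ⟨r, h1, h2⟩ := EReal.lt_iff_exists_real_btwn.1 hb
  filter_upwards [growth L M (EReal.coe_pos.1 h1)] with n hn
  obtain ⟨s, h3, h4⟩ := hM n
  have h5 : Dynamics.IsDynCoverOf TK univ U n s := fun K _ => by
    obtain ⟨K', h6, h7⟩ := h4 K
    exact ⟨K', h6, Dynamics.mem_dynEntourage.2 fun i hi => hU' ((h7 i hi).trans_lt hL)⟩
  calc ((Dynamics.coverMincard TK univ U n : ℕ∞) : ENNReal) ≤ ((s.card : ℕ∞) : ENNReal) :=
        ENat.toENNReal_le.2 h5.coverMincard_le_card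
    _ = ENNReal.ofReal s.card := by simp
    _ ≤ ENNReal.ofReal (Real.exp (r * n)) :=
        ENNReal.ofReal_le_ofReal (le_trans (by exact_mod_cast h3) hn)
    _ = EReal.exp ((r : EReal) * n) := by rw [← EReal.exp_coe, EReal.coe_mul]; rfl
    _ ≤ EReal.exp (b * n) :=
        EReal.exp_monotone (mul_le_mul_of_nonneg_right h2.le (Nat.cast_nonneg' n))

end

end Pool.Agent.H5.Sturm
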