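import Mathlib

set_option autoImplicit false

namespace Pool.Agent.H5.Suit

open Filter Topology Set Cardinal Function

structure Good (K : Type) [LinearOrder K] (c : Cardinal.{0}) : Prop where
  ub : ∀ A : Set K, #A < c → ∃ γ, ∀ α ∈ A, α < γ
  small : ∀ α : K, #(Iio α) < c
  unc : ℵ₀ < c

variable {K : Type} [LinearOrder K] {c : Cardinal.{0}}

theorem Good.ubf (h : Good K c) {ι : Type} (hι : #ι < c) (f : ι → K) : ∃ γ, ∀ i, f i < γ :=
  (h.ub (range f) (mk_range_le.trans_lt hι)).imp fun _ hγ i => hγ _ ⟨i, rfl⟩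

theorem Good.iic (h : Good K c) (α : K) : #(Iic α) < c := by
  rw [← Iio_insert]
  exact mk_insert_le.trans_lt (add_lt_of_lt h.unc.le (h.small α) (one_lt_aleph0.trans h.unc))

theorem Good.succ (h : Good K c) (α : K) : ∃ β, α < β :=
  (h.ubf (ι := Unit) (by simpa using one_lt_aleph0.trans h.unc) fun _ => α).imp fun _ h => h ()

theorem Good.ne (h : Good K c) : Nonempty K :=
  (h.ubf (ι := Empty) (by simpa using aleph0_pos.trans h.unc) nofun).nonempty

def Lim (l : K) : Prop :=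
  ∃ L : ℕ → K, StrictMono L ∧ (∀ n, L n < l) ∧ ∀ g < l, ∃ n, g < L n

theorem Lim.between {l g : K} (h : Lim l) (hg : g < l) : ∃ j, g < j ∧ j < l := by
  obtain ⟨L, -, h1, h2⟩ := h
  obtain ⟨n, hn⟩ := h2 g hg
  exact ⟨_, hn, h1 n⟩

theorem Lim.ne {l : K} (h : Lim l) : ∃ j, j < l := ⟨_, h.choose_spec.2.1 0⟩

theorem Good.clo [WellFoundedLT K] (h : Good K c) (F : K → K) (b : K) :
    ∃ l, b < l ∧ Lim l ∧ ∀ g < l, F g < l := by
  choose u hu using fun a : K => h.ubf (h.iic a) fun i => max i.1 (F i)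
  let a : ℕ → K := fun n => u^[n] b
  have ha : ∀ n, a (n + 1) = u (a n) := fun n => iterate_succ_apply' u n b
  have hm : StrictMono a := strictMono_nat_of_lt_succ fun n =>
    ha n ▸ (le_max_left _ _).trans_lt (hu (a n) ⟨a n, le_rfl⟩)
  obtain ⟨l, h1, h2⟩ := wellFounded_lt.has_min {l | ∀ n, a n < l}
    (h.ubf (by simpa using h.unc) a)
  have h3 : ∀ g < l, ∃ n, g ≤ a n := fun g hg => by
    by_contra hc
    push Not at hc
    exact h2 g hc hg
  refine ⟨l, h1 0, ⟨a, hm, h1, fun g hg => ?_⟩, fun g hg => ?_⟩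
  · obtain ⟨n, hn⟩ := h3 g hg
    exact ⟨n + 1, hn.trans_lt (hm n.lt_succ_self)⟩
  · obtain ⟨n, hn⟩ := h3 g hg
    exact lt_trans (ha n ▸ (le_max_right _ _).trans_lt (hu (a n) ⟨g, hn⟩)) (h1 (n + 1))

open Classical in
noncomputable def ell (l : K) : K → ℤ := if h : Lim l then (range h.choose).indicator 1 else 0

theorem ell_lt {l j : K} (h : ell l j ≠ 0) : j < l := by
  unfold ell at h
  split_ifs at h with hl
  · obtain ⟨n, rfl⟩ := mem_of_indicator_ne_zero h
    exact hl.choose_spec.2.1 n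
  · exact absurd rfl h

theorem ell_fin {l g : K} (hg : g < l) : {j | j < g ∧ ell l j ≠ 0}.Finite := by
  unfold ell
  split_ifs with hl
  · obtain ⟨n, hn⟩ := hl.choose_spec.2.2 g hg
    refine ((finite_Iio n).image hl.choose).subset fun j hj => ?_
    obtain ⟨k, rfl⟩ := mem_of_indicator_ne_zero hj.2
    exact ⟨k, hl.choose_spec.1.lt_iff_lt.1 (hj.1.trans hn), rfl⟩
  · simp

def NA (l : K) (x : K → ℤ) : Prop := ∃ β < l, ∀ ξ, β ≤ ξ → ξ < l → x ξ = 0

theorem not_na {l : K} (hl : Lim l) : ¬ NA l (ell l) := by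
  rintro ⟨β, h1, h2⟩
  obtain ⟨n, hn⟩ := hl.choose_spec.2.2 β h1
  have := h2 _ hn.le (hl.choose_spec.2.1 n)
  rw [ell, dif_pos hl, indicator_of_mem (mem_range_self n)] at this
  exact one_ne_zero this

theorem NA.add {l : K} {x y : K → ℤ} (hx : NA l x) (hy : NA l y) : NA l (x + y) := by
  obtain ⟨a, h1, h2⟩ := hx
  obtain ⟨b, h3, h4⟩ := hy
  refine ⟨max a b, max_lt h1 h3, fun ξ h h' => ?_⟩
  simp [h2 ξ ((le_max_left _ _).trans h) h', h4 ξ ((le_max_right _ _).trans h) h']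

theorem NA.smul {l : K} {x : K → ℤ} (hx : NA l x) (a : ℤ) : NA l (a • x) :=
  hx.imp fun _ h => ⟨h.1, fun ξ h1 h2 => by simp [h.2 ξ h1 h2]⟩

theorem na_of_fin {l : K} (hl : Lim l) {x : K → ℤ} (h : {j | j < l ∧ x j ≠ 0}.Finite) : NA l x := by
  obtain ⟨g, hg⟩ := hl.ne
  obtain ⟨m, h1, h2⟩ := exists_max_image _ id (h.insert g) (insert_nonempty _ _)
  obtain ⟨j, h3, h4⟩ := hl.between (show m < l from h1.elim (· ▸ hg) (·.1))
  refine ⟨j, h4, fun ξ a b => ?_⟩
  by_contra hc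
  exact (h3.trans_le a).not_ge (h2 ξ (Or.inr ⟨b, hc⟩))

def W (s : Set K) : Submodule ℤ (K → ℤ) :=
  Submodule.span ℤ ((fun ξ => Pi.single ξ 1) '' s ∪ ell '' s)

theorem W_mono {s t : Set K} (h : s ⊆ t) : W s ≤ W t :=
  Submodule.span_mono (union_subset_union (image_mono h) (image_mono h))

theorem mem_W {s : Set K} {x : K → ℤ} (hf : (support x).Finite) (hs : support x ⊆ s) : x ∈ W s := by
  have : x = ∑ ξ ∈ hf.toFinset, x ξ • (Pi.single ξ 1 : K → ℤ) := by
    ext j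
    by_cases hj : x j = 0 <;> simp [Finset.sum_apply, Pi.single_apply, hj]
  rw [this]
  exact Submodule.sum_mem _ fun ξ hξ => Submodule.smul_mem _ _
    (Submodule.subset_span (Or.inl ⟨ξ, hs (hf.mem_toFinset.1 hξ), rfl⟩))

theorem Good.card_W (h : Good K c) (g : K) : #(W (Iic g)) < c := by
  let s : Set (K → ℤ) := (fun ξ => Pi.single ξ 1) '' Iic g ∪ ell '' Iic g
  have : Nonempty s := ⟨⟨_, Or.inr ⟨g, le_rfl, rfl⟩⟩⟩
  have h1 : #s < c := (mk_union_le _ _).trans_lt (add_lt_of_lt h.unc.le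
    (mk_image_le.trans_lt (h.iic g)) (mk_image_le.trans_lt (h.iic g)))
  have h2 : #(W (Iic g)) ≤ #(s →₀ ℤ) := by
    rw [W, Finsupp.span_eq_range_linearCombination]
    exact mk_range_le
  rw [mk_finsupp_of_infinite'] at h2
  exact h2.trans_lt (max_lt h1 (by simpa using h.unc))

theorem prop {x : K → ℤ} (hx : x ∈ W univ) :
    {l | Lim l ∧ ¬ NA l x}.Finite ∧ ∀ g, (Iio g).indicator x ∈ W (Iic g) := by
  induction hx using Submodule.span_induction with
  | mem x hx =>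
    rcases hx with ⟨ξ, -, rfl⟩ | ⟨l, -, rfl⟩
    · have hf : (support (Pi.single ξ 1 : K → ℤ)).Finite :=
        (finite_singleton ξ).subset Pi.support_single_subset
      refine ⟨finite_empty.subset fun l hl => hl.2 (na_of_fin hl.1 (hf.subset fun j hj => hj.2)),
        fun g => mem_W (hf.subset fun j hj => ?_) (support_indicator_subset.trans Iio_subset_Iic_self)⟩
      rw [support_indicator] at hj
      exact hj.2
    · refine ⟨(finite_singleton l).subset fun m hm => ?_, fun g => ?_⟩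
      · rcases lt_trichotomy m l with a | a | a
        · exact absurd (na_of_fin hm.1 (ell_fin a)) hm.2
        · exact a
        · exact absurd ⟨l, a, fun ξ h _ => not_not.1 fun h' => (ell_lt h').not_ge h⟩ hm.2
      · rcases lt_or_ge g l with a | a
        · refine mem_W ((ell_fin a).subset fun j hj => ?_)
            (support_indicator_subset.trans Iio_subset_Iic_self)
          rw [support_indicator] at hj
          exact hj
        · rw [indicator_eq_self.2 (show support (ell l) ⊆ Iio g from fun j hj => (ell_lt hj).trans_le a)]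
          exact Submodule.subset_span (Or.inr ⟨l, a, rfl⟩)
  | zero => exact ⟨finite_empty.subset fun l hl => hl.2 (na_of_fin hl.1 (by simp)), fun g => by simp⟩
  | add x y _ _ h1 h2 =>
    refine ⟨(h1.1.union h2.1).subset fun l hl => ?_, fun g => ?_⟩
    · by_contra hc
      simp only [mem_union, mem_ofPred_eq, not_or, not_and, not_not] at hc
      exact hl.2 ((hc.1 hl.1).add (hc.2 hl.1))
    · rw [indicator_add']
      exact add_mem (h1.2 g) (h2.2 g)
  | smul a x _ h =>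
    refine ⟨h.1.subset fun l hl => ⟨hl.1, fun hc => hl.2 (hc.smul a)⟩, fun g => ?_⟩
    have : (Iio g).indicator (a • x) = a • (Iio g).indicator x := by
      ext j
      by_cases hj : j ∈ Iio g <;> simp [hj]
    rw [this]
    exact Submodule.smul_mem _ _ (h.2 g)

variable (K) in
def A : AddSubgroup (Lex (K → ℤ)) where
  carrier := {f | ofLex f ∈ W univ}
  zero_mem' := (W univ).zero_mem
  add_mem' := fun ha hb => (W univ).add_mem ha hb
  neg_mem' := fun h => (W univ).neg_mem h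

theorem Good.bdd [WellFoundedLT K] (h : Good K c) (D : Set (A K))
    (hD : ∀ x : A K, ∃ a, ∀ y ∈ D, (∀ i < a, y.1 i = x.1 i) → y = x) :
    ∃ b, ∀ s ∈ D, ∀ i, b ≤ i → s.1 i = 0 := by
  choose B hB using hD
  choose F hF using fun g => h.ubf (h.card_W g) fun y =>
    B ⟨toLex y.1, W_mono (subset_univ _) y.2⟩
  choose u h1 h2 h3 using h.clo F
  obtain ⟨a⟩ := h.ne
  have sm : StrictMono fun n => u (u^[n] a) :=
    strictMono_nat_of_lt_succ fun n => by
      rw [iterate_succ_apply']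
      exact h1 _
  obtain ⟨b, hb⟩ := h.ubf (by simpa using h.unc) fun n => u (u^[n] a)
  refine ⟨b, fun s hs i hi => ?_⟩
  obtain ⟨_, ⟨n, rfl⟩, hn⟩ := ((infinite_range_of_injective sm.injective).sdiff
    (prop s.2).1).nonempty
  obtain ⟨β, a1, a2⟩ : NA _ (ofLex s.1) := not_not.1 fun hc => hn ⟨h2 _, hc⟩
  have e := hB ⟨toLex ((Iio β).indicator (ofLex s.1)), W_mono (subset_univ _) ((prop s.2).2 β)⟩
      s hs fun j hj => by
    show s.1 j = (Iio β).indicator (ofLex s.1) j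
    rcases lt_or_ge j β with a | a
    · exact (indicator_of_mem (s := Iio β) a _).symm
    · exact (a2 j a ((hj.trans (hF β ⟨_, (prop s.2).2 β⟩)).trans (h3 _ β a1))).trans
        (indicator_of_notMem (s := Iio β) a.not_gt _).symm
  exact (congrFun (congrArg Subtype.val e) i).trans
    (indicator_of_notMem (s := Iio β) ((a1.trans (hb n)).le.trans hi).not_gt _)

variable [WellFoundedLT K]

noncomputable instance : TopologicalSpace (A K) := Preorder.topology (A K)

instance : OrderTopology (A K) := ⟨rfl⟩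

def N (x : A K) (α : K) : Set (A K) := {y | ∀ i < α, y.1 i = x.1 i}

omit [WellFoundedLT K] in
theorem single_mem (α : K) : (Pi.single α 1 : K → ℤ) ∈ W univ :=
  Submodule.subset_span (Or.inl ⟨α, trivial, rfl⟩)

omit [WellFoundedLT K] in
theorem ell_mem (α : K) : ell α ∈ W univ := Submodule.subset_span (Or.inr ⟨α, trivial, rfl⟩)

noncomputable def e (α : K) : A K := ⟨toLex (Pi.single α 1), single_mem α⟩

omit [WellFoundedLT K] in
theorem e_lt {α i : K} (h : i < α) : (e α).1 i = 0 := Pi.single_eq_of_ne h.ne _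

omit [WellFoundedLT K] in
theorem e_pos (α : K) : 0 < e α :=
  ⟨α, fun _ hj => (e_lt hj).symm, (show (0 : ℤ) < 1 from one_pos).trans_eq
    (Pi.single_eq_same (M := fun _ => ℤ) α 1).symm⟩

theorem N_open (x : A K) (α : K) : IsOpen (N x α) := isOpen_iff_mem_nhds.2 fun y hy => by
  refine mem_of_superset (Ioo_mem_nhds (sub_lt_self y (e_pos α)) (lt_add_of_pos_right y (e_pos α)))
    fun z hz i hi => ?_
  rw [← hy i hi]
  by_contra hne
  obtain ⟨j, h1, h2⟩ := wellFounded_lt.has_min {j | z.1 j ≠ y.1 j} ⟨i, hne⟩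
  have h3 : j < α := (not_lt.1 fun h => h2 i hne h).trans_lt hi
  have h4 : ∀ k < j, z.1 k = y.1 k := fun k hk => by_contra fun h => h2 k h hk
  rcases lt_or_gt_of_ne h1 with h | h
  · exact hz.1.not_gt ⟨j, fun k hk => by
      rw [h4 k hk]; exact ((congrArg (y.1 k - ·) (e_lt (hk.trans h3))).trans (sub_zero _)).symm,
      h.trans_eq ((congrArg (y.1 j - ·) (e_lt h3)).trans (sub_zero _)).symm⟩
  · exact hz.2.not_gt ⟨j, fun k hk => by
      rw [h4 k hk]; exact (congrArg (y.1 k + ·) (e_lt (hk.trans h3))).trans (add_zero _),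
      ((congrArg (y.1 j + ·) (e_lt h3)).trans (add_zero _)).trans_lt h⟩

theorem Good.N_sub (hK : Good K c) {x : A K} {U : Set (A K)} (h : U ∈ 𝓝 x) : ∃ α, N x α ⊆ U := by
  obtain ⟨α0⟩ := hK.ne
  obtain ⟨a, b, ⟨⟨i, h1, h2⟩, ⟨j, h3, h4⟩⟩, h5⟩ := (mem_nhds_iff_exists_Ioo_subset'
    ⟨_, sub_lt_self x (e_pos α0)⟩ ⟨_, lt_add_of_pos_right x (e_pos α0)⟩).1 h
  obtain ⟨α, hα⟩ := hK.succ (max i j)
  rw [max_lt_iff] at hα
  exact ⟨α, fun y hy => h5 ⟨⟨i, fun k hk => (h1 k hk).trans (hy k (hk.trans hα.1)).symm,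
    h2.trans_eq (hy i hα.1).symm⟩, ⟨j, fun k hk => (hy k (hk.trans hα.2)).trans (h3 k hk),
    (hy j hα.2).trans_lt h4⟩⟩⟩

theorem Good.main (hK : Good K c) (S : Set (A K)) (h1 : DiscreteTopology S)
    (h2 : IsClosed (S ∪ {0})) : ¬ Dense (AddSubgroup.closure S : Set (A K)) := fun h3 => by
  choose F hF using fun α => hK.bdd (S \ N 0 α) fun x => by
    by_cases hx : x ∈ N 0 α
    · exact ⟨α, fun y hy h => (hy.2 fun i hi => (h i hi).trans (hx i hi)).elim⟩
    by_cases hS : x ∈ S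
    · obtain ⟨U, hU, h⟩ := nhds_inter_eq_singleton_of_mem_discrete
        (isDiscrete_iff_discreteTopology.2 h1) hS
      exact (hK.N_sub hU).imp fun β hβ y hy h' => h.le ⟨hβ h', hy.1⟩
    · exact (hK.N_sub (h2.isOpen_compl.mem_nhds (show x ∉ S ∪ {0} by
        rintro (h | rfl); exacts [hS h, hx fun _ _ => rfl]))).imp
          fun β hβ y hy h => (hβ h (Or.inl hy.1)).elim
  obtain ⟨a⟩ := hK.ne
  obtain ⟨l, -, l1, l2⟩ := hK.clo F a
  obtain ⟨y, y1, y2⟩ := h3.inter_open_nonempty _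
    (N_open ⟨toLex (ell l), ell_mem l⟩ l) ⟨_, fun _ _ => rfl⟩
  have h4 : NA l (ofLex y.1) := by
    refine AddSubgroup.closure_induction (p := fun y _ => NA l (ofLex y.1)) (fun s hs => ?_)
      (na_of_fin l1 (finite_empty.subset fun _ h => h.2 rfl)) (fun x y _ _ a b => a.add b)
      (fun x _ a => by simpa using a.smul (-1)) y2
    by_cases hz : ∀ i < l, s.1 i = 0
    · obtain ⟨j, hj⟩ := l1.ne
      exact ⟨j, hj, fun ξ _ h => hz ξ h⟩
    · push Not at hz
      obtain ⟨i, i1, i2⟩ := hz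
      obtain ⟨j, j1, j2⟩ := l1.between i1
      exact ⟨F j, l2 j j2, fun ξ h _ => hF j s ⟨hs, fun hh => i2 (hh i j1)⟩ ξ h⟩
  exact not_na l1 (h4.imp fun β h => ⟨h.1, fun ξ a b => (y1 ξ b).symm.trans (h.2 ξ a b)⟩)

omit [LinearOrder K] [WellFoundedLT K] in
theorem bnd {ι : Type} [Countable ι] (g : ι → ℕ → ℕ) : ∃ f : ℕ → ℕ, ∀ i, g i ≤ᶠ[atTop] f := by
  obtain ⟨k, hk⟩ := Countable.exists_injective_nat ι
  have : ∀ n, ∃ m, ∀ i, k i ≤ n → g i n ≤ m := fun n => by
    obtain ⟨m, hm⟩ := (((finite_Iic n).preimage hk.injOn).image fun i => g i n).bddAbove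
    exact ⟨m, fun i hi => hm ⟨i, hi, rfl⟩⟩
  choose f hf using this
  exact ⟨f, fun i => (eventually_ge_atTop (k i)).mono fun n hn => hf n i hn⟩

omit [LinearOrder K] [WellFoundedLT K] in
theorem exists_good : ∃ (K : Type) (_ : LinearOrder K) (_ : WellFoundedLT K) (c : Cardinal.{0}),
    Good K c ∧ ∃ a : (ℕ → ℕ) → K, Monotone a ∧ ∀ β, ∃ f, β ≤ a f := by
  let P : Cardinal.{0} → Prop := fun c => ∃ (ι : Type) (g : ι → ℕ → ℕ), #ι = c ∧
    ∀ f, ∃ i, ¬ g i ≤ᶠ[atTop] f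
  obtain ⟨c, ⟨ι, g0, hι, hg0⟩, hc⟩ := wellFounded_lt.has_min {c | P c}
    ⟨_, ℕ → ℕ, id, rfl, fun f => ⟨fun n => f n + 1, fun h => by
      obtain ⟨n, hn⟩ := h.exists
      simp at hn⟩⟩
  have hb : ∀ (ι : Type) (g : ι → ℕ → ℕ), #ι < c → ∃ f, ∀ i, g i ≤ᶠ[atTop] f := fun ι g h => by
    by_contra hh
    push Not at hh
    exact hc _ ⟨ι, g, rfl, hh⟩ h
  obtain ⟨φ⟩ : Nonempty (ι ≃ c.ord.ToType) := Cardinal.eq.1 (by simp [hι])
  let g : c.ord.ToType → ℕ → ℕ := fun α => g0 (φ.symm α)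
  have hg : ∀ f, {α | ¬ g α ≤ᶠ[atTop] f}.Nonempty := fun f => by
    obtain ⟨i, hi⟩ := hg0 f
    exact ⟨φ i, by simpa [g] using hi⟩
  let a : (ℕ → ℕ) → c.ord.ToType := fun f => wellFounded_lt.min _ (hg f)
  have h1 : ∀ f f', f ≤ᶠ[atTop] f' → a f ≤ a f' := fun f f' h =>
    wellFounded_lt.min_le (show a f' ∈ {α | ¬ g α ≤ᶠ[atTop] f} from fun hh =>
      wellFounded_lt.min_mem _ (hg f') (EventuallyLE.trans hh h))
  have hu : ℵ₀ < c := by
    by_contra hh
    have : Countable ι := mk_le_aleph0_iff.1 (hι ▸ not_lt.1 hh)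
    obtain ⟨f, hf⟩ := bnd g0
    obtain ⟨i, hi⟩ := hg0 f
    exact hi (hf i)
  have hs : ∀ α : c.ord.ToType, #(Iio α) < c := fun α => by simpa using mk_Iio_lt α
  have h2 : ∀ β, ∃ f, β < a f := fun β => by
    obtain ⟨f, hf⟩ := hb (Iic β) (fun α => g α) (by
      rw [← Iio_insert]
      exact mk_insert_le.trans_lt (add_lt_of_lt hu.le (hs β) (one_lt_aleph0.trans hu)))
    exact ⟨f, not_le.1 fun h => wellFounded_lt.min_mem _ (hg f) (hf ⟨a f, h⟩)⟩
  refine ⟨c.ord.ToType, inferInstance, inferInstance, c, ⟨fun A hA => ?_, hs, hu⟩, a,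
    fun f f' h => h1 f f' (Eventually.of_forall h), fun β => (h2 β).imp fun _ h => h.le⟩
  choose f hf using h2
  obtain ⟨f', hf'⟩ := hb A (fun α => f α) hA
  exact ⟨a f', fun α hα => (hf α).trans_le (h1 _ _ (hf' ⟨α, hα⟩))⟩

omit [LinearOrder K] [WellFoundedLT K] in
theorem final : ∃ (G : Type) (_ : AddCommGroup G) (_ : TopologicalSpace G) (_ : LinearOrder G),
    IsTopologicalAddGroup G ∧ OrderTopology G ∧
    (∀ x : G, ∃ U : (ℕ → ℕ) → Set G, (𝓝 x).HasBasis (fun _ => True) U ∧ Antitone U) ∧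
    ∀ S : Set G, DiscreteTopology S → IsClosed (S ∪ {0}) →
      ¬ Dense (AddSubgroup.closure S : Set G) := by
  obtain ⟨K, _, _, c, hK, a, h1, h2⟩ := exists_good
  refine ⟨A K, inferInstance, inferInstance, inferInstance, inferInstance, inferInstance,
    fun x => ⟨fun f => N x (a f), ⟨fun t => ⟨fun h => ?_, fun ⟨f, _, h⟩ =>
      mem_of_superset ((N_open x _).mem_nhds fun _ _ => rfl) h⟩⟩,
      fun f f' h y hy i hi => hy i (hi.trans_le (h1 h))⟩, hK.main⟩
  obtain ⟨α, hα⟩ := hK.N_sub h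
  obtain ⟨f, hf⟩ := h2 α
  exact ⟨f, trivial, fun y hy => hα fun i hi => hy i (hi.trans_le hf)⟩

end Pool.Agent.H5.Suit
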