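import Mathlib

open Set Filter Topology MeasureTheory Function
open scoped NNReal ENNReal InnerProductSpace

namespace Pool.Agent.H5.Torus

section
variable {X : Type} [MeasurableSpace X] (μ : Measure X)

/-- complex L2 of the measure space -/
abbrev Hs : Type := Lp ℂ 2 μ

/-- bounded operators on L2 -/
abbrev Op : Type := Hs μ →L[ℂ] Hs μ

/-- `a` multiplies the measure of supports by at most `l` -/
def Expands (a : Op μ) (l : ℝ≥0) : Prop :=
  ∀ ξ : Hs μ, μ (support (a ξ)) ≤ l * μ (support ξ)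

/-- the support expansion algebra; `star` is the Hilbert space adjoint -/
def Cu : Set (Op μ) :=
  closure {a | ∃ l, Expands μ a l ∧ Expands μ (star a) l}

variable {μ}

def E (a : Lp ℂ 2 μ →L[ℂ] Lp ℂ 2 μ) : Prop := ∃ l, Expands μ a l

theorem E.add {a b : Lp ℂ 2 μ →L[ℂ] Lp ℂ 2 μ} (ha : E a) (hb : E b) : E (a + b) := by
  obtain ⟨l, hl⟩ := ha
  obtain ⟨m, hm⟩ := hb
  refine ⟨l + m, fun ξ => ?_⟩
  have : support ((a + b) ξ) ≤ᵐ[μ] (support (a ξ) ∪ support (b ξ) : Set X) := by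
    filter_upwards [Lp.coeFn_add (a ξ) (b ξ)] with x hx h
    by_contra h'
    have h1 : a ξ x = 0 := by by_contra h1; exact h' (Or.inl h1)
    have h2 : b ξ x = 0 := by by_contra h1; exact h' (Or.inr h1)
    exact h (hx.trans (by simp [h1, h2]))
  refine (measure_mono_ae this).trans ((measure_union_le _ _).trans ?_)
  rw [ENNReal.coe_add, add_mul]
  exact add_le_add (hl ξ) (hm ξ)

theorem E.smul {a : Lp ℂ 2 μ →L[ℂ] Lp ℂ 2 μ} (ha : E a) (c : ℂ) : E (c • a) := by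
  obtain ⟨l, hl⟩ := ha
  refine ⟨l, fun ξ => le_trans (measure_mono_ae ?_) (hl ξ)⟩
  filter_upwards [Lp.coeFn_smul c (a ξ)] with x hx h h1
  exact h (hx.trans (by simp [h1]))

theorem E.mul {a b : Lp ℂ 2 μ →L[ℂ] Lp ℂ 2 μ} (ha : E a) (hb : E b) : E (a * b) := by
  obtain ⟨l, hl⟩ := ha
  obtain ⟨m, hm⟩ := hb
  refine ⟨l * m, fun ξ => (hl (b ξ)).trans ?_⟩
  rw [ENNReal.coe_mul, mul_assoc]
  gcongr
  exact hm ξ

theorem E.sum {f : ℕ → Lp ℂ 2 μ →L[ℂ] Lp ℂ 2 μ} (h : ∀ k, E (f k)) (N : ℕ) :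
    E (∑ k ∈ Finset.range N, f k) := by
  induction N with
  | zero => simpa using (h 0).smul 0
  | succ N ih => rw [Finset.sum_range_succ]; exact ih.add (h N)

end

section
variable {H ι : Type} [NormedAddCommGroup H] [InnerProductSpace ℂ H] [CompleteSpace H]

noncomputable def avg (S : ℕ → H →L[ℂ] H) (N : ℕ) : H →L[ℂ] H :=
  ((N : ℂ)⁻¹) • ∑ k ∈ Finset.range N, S k

omit [CompleteSpace H] in
theorem avg_inner (S : ℕ → H →L[ℂ] H) (N : ℕ) (x f : H) :
    ⟪x, avg S N f⟫_ℂ = (N : ℂ)⁻¹ * ∑ k ∈ Finset.range N, ⟪x, S k f⟫_ℂ := by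
  simp [avg, inner_smul_right, inner_sum]

omit [CompleteSpace H] in
theorem avg_norm {S : ℕ → H →L[ℂ] H} (h : ∀ k f, ‖S k f‖ ≤ ‖f‖) {N : ℕ} (hN : 0 < N) (f : H) :
    ‖avg S N f‖ ≤ ‖f‖ := by
  have h1 : (0 : ℝ) < N := by exact_mod_cast hN
  simp only [avg, smul_apply, sum_apply, norm_smul, norm_inv, Complex.norm_natCast]
  rw [inv_mul_le_iff₀ h1]
  refine (norm_sum_le _ _).trans ((Finset.sum_le_sum fun k _ => h k f).trans ?_)
  simp

omit [CompleteSpace H] in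
theorem small (b : HilbertBasis ι ℂ H) {S : ℕ → H →L[ℂ] H} {s : ℕ → ι → ι}
    (hs : ∀ k n f, ⟪b n, S k f⟫_ℂ = ⟪b (s k n), f⟫_ℂ) {B : Set ι}
    (hi : ∀ k k', ∀ n ∈ B, ∀ n' ∈ B, s k n = s k' n' → k = k' ∧ n = n') {N : ℕ} (hN : 0 < N)
    (F : Finset ι) (hF : ∀ n ∈ F, n ∈ B) (f : H) :
    N * ∑ n ∈ F, ‖⟪b n, avg S N f⟫_ℂ‖ ^ 2 ≤ ‖f‖ ^ 2 := by
  classical
  have h1 : (0 : ℝ) < N := by exact_mod_cast hN
  refine le_trans ?_ (b.orthonormal.sum_inner_products_le f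
    (s := (F ×ˢ Finset.range N).image fun p => s p.2 p.1))
  rw [Finset.sum_image, Finset.sum_product, Finset.mul_sum]
  · refine Finset.sum_le_sum fun n _ => ?_
    rw [avg_inner, norm_mul, norm_inv, Complex.norm_natCast, mul_pow]
    simp only [hs]
    have h2 := sq_sum_le_card_mul_sum_sq (s := Finset.range N)
      (f := fun k => ‖⟪b (s k n), f⟫_ℂ‖)
    have h3 := pow_le_pow_left₀ (norm_nonneg _)
      (norm_sum_le (Finset.range N) fun k => ⟪b (s k n), f⟫_ℂ) 2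
    rw [Finset.card_range] at h2
    have h4 := h3.trans h2
    rw [← mul_assoc, show (N : ℝ) * (N : ℝ)⁻¹ ^ 2 = (N : ℝ)⁻¹ by field_simp, inv_mul_le_iff₀ h1]
    exact h4
  · intro p hp q hq h
    simp only [Finset.coe_product, mem_prod, Finset.mem_coe] at hp hq
    obtain ⟨a1, a2⟩ := hi _ _ _ (hF _ hp.1) _ (hF _ hq.1) h
    exact Prod.ext a2 a1

theorem gap (b : HilbertBasis ι ℂ H) (o : ι) {S T : ℕ → H →L[ℂ] H} {s t : ℕ → ι → ι}
    (hS : ∀ k f, ‖S k f‖ ≤ ‖f‖) (hT : ∀ k f, ‖T k f‖ ≤ ‖f‖)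
    (hs : ∀ k n f, ⟪b n, S k f⟫_ℂ = ⟪b (s k n), f⟫_ℂ)
    (ht : ∀ k n f, ⟪b n, T k f⟫_ℂ = ⟪b (t k n), f⟫_ℂ) (so : ∀ k, s k o = o) (t0 : ∀ k, t k o = o)
    {A B : Set ι} (hAB : ∀ n, n ≠ o → n ∉ A → n ∈ B)
    (hi : ∀ k k', ∀ n ∈ B, ∀ n' ∈ B, s k n = s k' n' → k = k' ∧ n = n')
    (hj : ∀ k k', ∀ n ∈ A, ∀ n' ∈ A, t k n = t k' n' → k = k' ∧ n = n') {m : ℕ} (hm : 2 ≤ m) :
    ‖star (avg T (m ^ 2)) * avg S (m ^ 2) - (innerSL ℂ (b o)).smulRight (b o)‖ ≤
      Real.sqrt (2 / m) := by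
  classical
  have hN : 0 < m ^ 2 := by positivity
  have h1 : (2 : ℝ) ≤ m := by exact_mod_cast hm
  have hz : ∀ {R : ℕ → H →L[ℂ] H} {r : ℕ → ι → ι}, (∀ k n f, ⟪b n, R k f⟫_ℂ = ⟪b (r k n), f⟫_ℂ) →
      (∀ k, r k o = o) → ∀ f, ⟪b o, avg R (m ^ 2) f⟫_ℂ = ⟪b o, f⟫_ℂ := by
    intro R r h h' f
    have : ((m ^ 2 : ℕ) : ℂ) ≠ 0 := by exact_mod_cast hN.ne'
    rw [avg_inner]
    simp only [h, h', Finset.sum_const, Finset.card_range, nsmul_eq_mul]
    field_simp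
  refine ContinuousLinearMap.opNorm_le_bound _ (Real.sqrt_nonneg _) fun f => ?_
  set g := (star (avg T (m ^ 2)) * avg S (m ^ 2) - (innerSL ℂ (b o)).smulRight (b o)) f with hg
  have h2 := hasSum_ite_sub_hasSum
    (b.hasSum_inner_mul_inner (avg T (m ^ 2) g) (avg S (m ^ 2) f)) o
  have h3 : ⟪avg T (m ^ 2) g, avg S (m ^ 2) f⟫_ℂ -
      ⟪avg T (m ^ 2) g, b o⟫_ℂ * ⟪b o, avg S (m ^ 2) f⟫_ℂ = ⟪g, g⟫_ℂ := by
    rw [hz hs so, ← inner_conj_symm _ (b o), hz ht t0, inner_conj_symm]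
    conv_rhs => rw [hg]
    rw [← hg, hg, sub_apply, inner_sub_right, ← sub_apply, ← hg, mul_apply_eq_comp,
      ContinuousLinearMap.star_eq_adjoint, ContinuousLinearMap.adjoint_inner_right]
    simp [inner_smul_right, mul_comm]
  rw [h3] at h2
  have h4 : m * ‖⟪g, g⟫_ℂ‖ ≤ ‖f‖ ^ 2 + ‖g‖ ^ 2 := by
    refine le_of_tendsto' (h2.norm.const_mul (m : ℝ)) fun F => ?_
    let x := fun n => ‖⟪b n, avg T (m ^ 2) g⟫_ℂ‖
    let y := fun n => ‖⟪b n, avg S (m ^ 2) f⟫_ℂ‖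
    have a1 := small b ht hj hN (F.filter (· ∈ A)) (by simp) g
    have a2 := small b hs hi hN (F.filter (· ∈ B)) (by simp) f
    have a3 := (b.orthonormal.sum_inner_products_le (avg T (m ^ 2) g) (s := F)).trans
      (pow_le_pow_left₀ (norm_nonneg _) (avg_norm hT hN g) 2)
    have a4 := (b.orthonormal.sum_inner_products_le (avg S (m ^ 2) f) (s := F)).trans
      (pow_le_pow_left₀ (norm_nonneg _) (avg_norm hS hN f) 2)
    rw [Finset.sum_filter, Finset.mul_sum] at a1 a2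
    refine (mul_le_mul_of_nonneg_left (norm_sum_le _ _) (by positivity)).trans ?_
    refine le_trans ?_ (by linarith : (∑ n ∈ F, ((m ^ 2 : ℕ) : ℝ) * (if n ∈ A then x n ^ 2 else 0) +
      ∑ n ∈ F, ((m ^ 2 : ℕ) : ℝ) * (if n ∈ B then y n ^ 2 else 0) + ∑ n ∈ F, x n ^ 2 +
        ∑ n ∈ F, y n ^ 2) / 2 ≤ _)
    rw [← Finset.sum_add_distrib, ← Finset.sum_add_distrib, ← Finset.sum_add_distrib,
      Finset.sum_div, Finset.mul_sum]
    refine Finset.sum_le_sum fun n _ => ?_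
    have c1 : 0 ≤ ((m ^ 2 : ℕ) : ℝ) * (if n ∈ A then x n ^ 2 else 0) := by positivity
    have c2 : 0 ≤ ((m ^ 2 : ℕ) : ℝ) * (if n ∈ B then y n ^ 2 else 0) := by positivity
    by_cases h0 : n = o
    · rw [if_pos h0, norm_zero, mul_zero]; positivity
    · rw [if_neg h0, norm_mul, norm_inner_symm]
      change (m : ℝ) * (x n * y n) ≤ _
      by_cases hA : n ∈ A
      · rw [if_pos hA]; push_cast at *
        nlinarith [sq_nonneg (m * x n - y n), sq_nonneg (x n)]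
      · rw [if_pos (hAB n h0 hA)]; push_cast at *
        nlinarith [sq_nonneg (m * y n - x n), sq_nonneg (y n)]
  rw [inner_self_eq_norm_sq_to_K, norm_pow, RCLike.norm_ofReal, abs_norm] at h4
  rw [← Real.sqrt_sq (norm_nonneg f), ← Real.sqrt_mul (by positivity)]
  refine Real.le_sqrt_of_sq_le ?_
  rw [div_mul_eq_mul_div, le_div_iff₀ (by positivity)]
  nlinarith [sq_nonneg ‖g‖]

open InnerProductSpace in
theorem all_compact (b : HilbertBasis ι ℂ H) (C : Submodule ℂ (H →L[ℂ] H))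
    (hC : IsClosed (C : Set (H →L[ℂ] H))) (h : ∀ n m, rankOne ℂ (b n) (b m) ∈ C)
    (a : H →L[ℂ] H) (ha : IsCompactOperator a) : a ∈ C := by
  have h1 : ∀ n y, rankOne ℂ (b n) y ∈ C := fun n y =>
    hC.mem_of_tendsto ((rankOne ℂ (b n)).hasSum (b.hasSum_repr y))
      (Eventually.of_forall fun F => C.sum_mem fun m _ => by
        rw [map_smulₛₗ]; exact C.smul_mem _ (h n m))
  have h2 : ∀ x y, rankOne ℂ x y ∈ C := fun x y =>
    hC.mem_of_tendsto
      ((ContinuousLinearMap.smulRightL ℂ H H (innerSL ℂ y)).hasSum (b.hasSum_repr x))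
      (Eventually.of_forall fun F => C.sum_mem fun m _ => by
        rw [map_smul]; exact C.smul_mem _ (h1 m y))
  refine hC.closure_subset (Metric.mem_closure_iff.2 fun ε hε => ?_)
  obtain ⟨K, hK, hs⟩ := IsCompactOperator.image_closedBall_subset_compact
    (f := (a : H →ₗ[ℂ] H)) ha 1
  obtain ⟨t, ht, hk⟩ := Metric.totallyBounded_iff.1 hK.totallyBounded (ε / 2) (half_pos hε)
  let V := Submodule.span ℂ t
  haveI : FiniteDimensional ℂ V := FiniteDimensional.span_of_finite ℂ ht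
  refine ⟨V.starProjection ∘L a, ?_, ?_⟩
  · rw [(stdOrthonormalBasis ℂ V).starProjection_eq_sum_rankOne,
      ContinuousLinearMap.finsetSum_comp]
    exact C.sum_mem fun i _ => by rw [rankOne_comp]; exact h2 _ _
  · rw [dist_eq_norm]
    refine lt_of_le_of_lt (ContinuousLinearMap.opNorm_le_of_unit_norm (half_pos hε).le
      fun x hx => ?_) (half_lt_self hε)
    obtain ⟨y, hy, hd⟩ := mem_iUnion₂.1 (hk (hs ⟨x, by simp [hx], rfl⟩))
    change ‖a x - V.starProjection (a x)‖ ≤ _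
    rw [Submodule.starProjection_minimal]
    refine (ciInf_le ⟨0, forall_mem_range.mpr fun _ => norm_nonneg _⟩
      (⟨y, Submodule.subset_span hy⟩ : V)).trans ?_
    exact (mem_ball_iff_norm.1 hd).le

end

abbrev T2 : Type := Fin 2 → UnitAddCircle

noncomputable abbrev μ : Measure T2 := Measure.pi fun _ => AddCircle.haarAddCircle

def φ (k l : ℤ) : T2 →+ T2 where
  toFun x := ![x 0 + l • x 1, x 1 + k • x 0]
  map_zero' := by ext i; fin_cases i <;> simp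
  map_add' x y := by ext i; fin_cases i <;> simp <;> abel

theorem φ_inv {k l : ℤ} (h : k * l = 0) (x : T2) : φ k l (φ (-k) (-l) x) = x := by
  ext i
  fin_cases i
  · simp [φ, smul_smul, mul_comm l k, h]
  · simp [φ, smul_smul, h]

theorem φ_mp {k l : ℤ} (h : k * l = 0) : MeasurePreserving (φ k l) μ μ := by
  refine AddMonoidHom.measurePreserving ?_ (fun x => ⟨_, φ_inv h x⟩) rfl
  refine continuous_pi fun i => ?_
  fin_cases i <;> simp [φ] <;> fun_prop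

noncomputable def U {k l : ℤ} (h : k * l = 0) : Lp ℂ 2 μ →L[ℂ] Lp ℂ 2 μ :=
  (Lp.compMeasurePreservingₗᵢ ℂ (φ k l) (φ_mp h)).toContinuousLinearMap

theorem U_ae {k l : ℤ} (h : k * l = 0) (f : Lp ℂ 2 μ) : U h f =ᵐ[μ] f ∘ φ k l :=
  Lp.coeFn_compMeasurePreserving f (φ_mp h)

theorem neg0 {k l : ℤ} (h : k * l = 0) : -k * -l = 0 := by simpa using h

theorem U_inner {k l : ℤ} (h : k * l = 0) (f g : Lp ℂ 2 μ) :
    ⟪g, U h f⟫_ℂ = ⟪U (neg0 h) g, f⟫_ℂ := by
  have h1 : U h (U (neg0 h) g) = g := by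
    ext1
    filter_upwards [U_ae h (U (neg0 h) g), (φ_mp h).quasiMeasurePreserving.ae (U_ae (neg0 h) g)]
      with x h1 h2
    have := φ_inv (neg0 h) x
    rw [neg_neg, neg_neg] at this
    rw [h1, comp_apply, h2, comp_apply, this]
  conv_lhs => rw [← h1]
  let L : Lp ℂ 2 μ →ₗᵢ[ℂ] Lp ℂ 2 μ := Lp.compMeasurePreservingₗᵢ ℂ (φ k l) (φ_mp h)
  exact LinearIsometry.inner_map_map (𝕜 := ℂ) L (U (neg0 h) g) f

theorem U_star {k l : ℤ} (h : k * l = 0) : star (U h) = U (neg0 h) := by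
  rw [ContinuousLinearMap.star_eq_adjoint, eq_comm, ContinuousLinearMap.eq_adjoint_iff]
  exact fun x y => (U_inner h y x).symm

theorem U_E {k l : ℤ} (h : k * l = 0) : E (U h) := by
  refine ⟨1, fun ξ => ?_⟩
  have : support (U h ξ) =ᵐ[μ] (φ k l ⁻¹' support ξ : Set T2) := by
    filter_upwards [U_ae h ξ] with x hx
    change (U h ξ x ≠ 0) = (ξ (φ k l x) ≠ 0)
    rw [hx, comp_apply]
  rw [measure_congr this, ENNReal.coe_one, one_mul]
  exact (φ_mp h).measure_preimage_le _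

noncomputable def b : HilbertBasis (Fin 2 → ℤ) ℂ (Lp ℂ 2 μ) := UnitAddTorus.mFourierBasis

theorem b_ae (n : Fin 2 → ℤ) : b n =ᵐ[μ] UnitAddTorus.mFourier n := by
  have : b n = UnitAddTorus.mFourierLp 2 n := congrFun UnitAddTorus.coe_mFourierBasis n
  rw [this]
  exact UnitAddTorus.coeFn_mFourierLp 2 n

theorem U_b {k l : ℤ} (h : k * l = 0) (n : Fin 2 → ℤ) :
    U h (b n) = b ![n 0 + k * n 1, n 1 + l * n 0] := by
  ext1
  filter_upwards [U_ae h (b n), (φ_mp h).quasiMeasurePreserving.ae (b_ae n),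
    b_ae ![n 0 + k * n 1, n 1 + l * n 0]] with x h1 h2 h3
  rw [h1, comp_apply, h2, h3]
  simp only [UnitAddTorus.mFourier, ContinuousMap.coe_mk, Fin.prod_univ_two, fourier_apply,
    ← Circle.coe_mul, ← AddCircle.toCircle_add]
  congr 2
  simp only [φ, AddMonoidHom.coe_mk, ZeroHom.coe_mk, Matrix.cons_val_zero, Matrix.cons_val_one]
  module

theorem key {a a' c : ℤ} {k k' : ℕ} (hc : c ≠ 0) (h1 : |a| ≤ |c|) (h2 : |a'| ≤ |c|)
    (h : a + -(3 * k) * c = a' + -(3 * k') * c) : k = k' ∧ a = a' := by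
  have h3 : k = k' := by
    by_contra h4
    have h5 : (1 : ℤ) ≤ |(k : ℤ) - k'| := Int.one_le_abs (by omega)
    have h6 : |a - a'| = 3 * |(k : ℤ) - k'| * |c| := by
      rw [show a - a' = 3 * ((k : ℤ) - k') * c by linarith, abs_mul, abs_mul]; rfl
    have h7 := abs_sub a a'
    have h8 := abs_pos.2 hc
    nlinarith
  subst h3
  exact ⟨rfl, by linarith⟩

noncomputable def D : Submodule ℂ (Lp ℂ 2 μ →L[ℂ] Lp ℂ 2 μ) where
  carrier := {a | E a ∧ E (star a)}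
  add_mem' ha hb := ⟨ha.1.add hb.1, by rw [star_add]; exact ha.2.add hb.2⟩
  zero_mem' := by
    have : E (0 : Lp ℂ 2 μ →L[ℂ] Lp ℂ 2 μ) := by simpa using (U_E (mul_zero 0)).smul 0
    exact ⟨this, by rw [star_zero]; exact this⟩
  smul_mem' c a ha := ⟨ha.1.smul c, by rw [star_smul]; exact ha.2.smul _⟩

theorem proj : (innerSL ℂ (b 0)).smulRight (b 0) ∈ closure (D : Set (Lp ℂ 2 μ →L[ℂ] Lp ℂ 2 μ)) := by
  let S : ℕ → Lp ℂ 2 μ →L[ℂ] Lp ℂ 2 μ := fun k => U (mul_zero (3 * k : ℤ))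
  let T : ℕ → Lp ℂ 2 μ →L[ℂ] Lp ℂ 2 μ := fun k => U (zero_mul (3 * k : ℤ))
  have hn : ∀ {k l : ℤ} (h : k * l = 0) f, ‖U h f‖ ≤ ‖f‖ := fun h f =>
    ((Lp.compMeasurePreservingₗᵢ ℂ _ (φ_mp h)).norm_map f).le
  have hE : ∀ {R : ℕ → Lp ℂ 2 μ →L[ℂ] Lp ℂ 2 μ}, (∀ k, E (R k)) → (∀ k, E (star (R k))) → ∀ N,
      E (avg R N) ∧ E (star (avg R N)) := fun h h' N =>
    ⟨(E.sum h N).smul _, by rw [avg, star_smul, star_sum]; exact (E.sum h' N).smul _⟩
  have hS := hE (R := S) (fun k => U_E _) fun k => by rw [U_star]; exact U_E _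
  have hT := hE (R := T) (fun k => U_E _) fun k => by rw [U_star]; exact U_E _
  · refine mem_closure_of_tendsto (b := atTop)
      (f := fun m : ℕ => star (avg T (m ^ 2)) * avg S (m ^ 2)) ?_ (Eventually.of_forall fun m => ?_)
    · rw [tendsto_iff_norm_sub_tendsto_zero]
      have h1 := (tendsto_const_div_atTop_nhds_zero_nat (2 : ℝ)).sqrt
      rw [Real.sqrt_zero] at h1
      refine squeeze_zero' (Eventually.of_forall fun _ => norm_nonneg _) ?_ h1
      filter_upwards [eventually_ge_atTop 2] with m hm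
      refine gap b 0 (fun k => hn _) (fun k => hn _) (fun k n f => by rw [U_inner, U_b])
        (fun k n f => by rw [U_inner, U_b]) (fun k => by ext i; fin_cases i <;> simp)
        (fun k => by ext i; fin_cases i <;> simp) (A := {n | n 0 ≠ 0 ∧ |n 1| ≤ |n 0|})
        (B := {n | n 1 ≠ 0 ∧ |n 0| ≤ |n 1|}) (fun n h0 hA => ?_) ?_ ?_ hm
      · simp only [mem_ofPred_eq, not_and, not_le] at hA ⊢
        by_cases h2 : n 0 = 0
        · refine ⟨fun h3 => h0 ?_, by simp [h2]⟩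
          ext i; fin_cases i <;> simp [h2, h3]
        · have := hA h2
          exact ⟨abs_pos.1 ((abs_nonneg _).trans_lt this), this.le⟩
      · intro k k' n hn n' hn' h
        have a0 := congrFun h 0
        have a1 := congrFun h 1
        simp only [Matrix.cons_val_zero, Matrix.cons_val_one, neg_zero, zero_mul, add_zero] at a0 a1
        obtain ⟨c1, c2⟩ := key hn.1 hn.2 (a1 ▸ hn'.2) (a0.trans (by rw [a1]))
        exact ⟨c1, by ext i; fin_cases i <;> assumption⟩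
      · intro k k' n hn n' hn' h
        have a0 := congrFun h 0
        have a1 := congrFun h 1
        simp only [Matrix.cons_val_zero, Matrix.cons_val_one, neg_zero, zero_mul, add_zero] at a0 a1
        obtain ⟨c1, c2⟩ := key hn.1 hn.2 (a0 ▸ hn'.2) (a1.trans (by rw [a0]))
        exact ⟨c1, by ext i; fin_cases i <;> assumption⟩
    · exact ⟨(hT (m ^ 2)).2.mul (hS (m ^ 2)).1, by
        rw [star_mul, star_star]; exact (hS (m ^ 2)).2.mul (hT (m ^ 2)).1⟩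

noncomputable def M (n : Fin 2 → ℤ) : Lp ℂ 2 μ →L[ℂ] Lp ℂ 2 μ :=
  (ContinuousLinearMap.mul ℂ ℂ).holderL μ ∞ 2 2 (UnitAddTorus.mFourierLp ∞ n)

theorem M_ae (n : Fin 2 → ℤ) (f : Lp ℂ 2 μ) :
    M n f =ᵐ[μ] fun x => UnitAddTorus.mFourier n x * f x := by
  have h1 : (UnitAddTorus.mFourierLp ∞ n : Lp ℂ ∞ μ) =ᵐ[μ] UnitAddTorus.mFourier n :=
    UnitAddTorus.coeFn_mFourierLp ∞ n
  filter_upwards [(ContinuousLinearMap.mul ℂ ℂ).coeFn_holder (r := 2)
    (UnitAddTorus.mFourierLp ∞ n : Lp ℂ ∞ μ) f, h1] with x hx h2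
  rw [← h2]
  exact hx

theorem M_E (n : Fin 2 → ℤ) : E (M n) := by
  refine ⟨1, fun ξ => ?_⟩
  rw [ENNReal.coe_one, one_mul]
  refine measure_mono_ae ?_
  filter_upwards [M_ae n ξ] with x hx h h1
  exact h (hx.trans (by simp [h1]))

theorem M_star (n : Fin 2 → ℤ) : star (M (-n)) = M n := by
  rw [ContinuousLinearMap.star_eq_adjoint, eq_comm, ContinuousLinearMap.eq_adjoint_iff]
  intro f g
  rw [L2.inner_def, L2.inner_def]
  refine integral_congr_ae ?_
  filter_upwards [M_ae n f, M_ae (-n) g] with x h1 h2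
  rw [h1, h2, UnitAddTorus.mFourier_neg]
  simp only [RCLike.inner_apply, map_mul]
  ring

theorem M_b (n : Fin 2 → ℤ) : M n (b 0) = b n := by
  ext1
  filter_upwards [M_ae n (b 0), b_ae 0, b_ae n] with x h1 h2 h3
  rw [h1, h2, h3, UnitAddTorus.mFourier_zero]
  simp

theorem torus (a : Op μ) (ha : IsCompactOperator a) : a ∈ Cu μ := by
  have h1 : a ∈ D.topologicalClosure := by
    refine all_compact b _ D.isClosed_topologicalClosure (fun n m => ?_) a ha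
    have h2 : M n * (innerSL ℂ (b 0)).smulRight (b 0) * M (-m) ∈
        closure (D : Set (Lp ℂ 2 μ →L[ℂ] Lp ℂ 2 μ)) := by
      refine map_mem_closure (f := fun a => M n * a * M (-m)) (by fun_prop) proj fun a h => ?_
      refine ⟨((M_E n).mul h.1).mul (M_E _), ?_⟩
      have h3 := M_star (-n)
      rw [neg_neg] at h3
      rw [star_mul, star_mul, M_star, h3]
      exact (M_E _).mul (h.2.mul (M_E _))
    have h3 : M n * (innerSL ℂ (b 0)).smulRight (b 0) * M (-m) =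
        InnerProductSpace.rankOne ℂ (b n) (b m) := by
      change (M n ∘L InnerProductSpace.rankOne ℂ (b 0) (b 0)) ∘L M (-m) = _
      rw [InnerProductSpace.comp_rankOne, InnerProductSpace.rankOne_comp,
        ← ContinuousLinearMap.star_eq_adjoint, M_star, M_b, M_b]
    rw [h3] at h2
    exact h2
  refine closure_mono ?_ h1
  rintro c ⟨⟨l, hl⟩, l', hl'⟩
  exact ⟨max l l', fun ξ => (hl ξ).trans (by gcongr; exact le_max_left _ _),
    fun ξ => (hl' ξ).trans (by gcongr; exact le_max_right _ _)⟩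

end Pool.Agent.H5.Torus
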